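import Mathlib

set_option autoImplicit false

namespace Pool.Agent.CollTriples

/-- No four points of `P` lie on a common line. -/
def NoFourCollinear (P : Finset (ℝ × ℝ)) : Prop :=
  ∀ S : Finset (ℝ × ℝ), S ⊆ P → S.card = 4 → ¬ Collinear ℝ (S : Set (ℝ × ℝ))

open Classical in
/-- The collinear triples of `P`: the sets of three points of `P` that lie on a common line. -/
noncomputable def collinearTriples (P : Finset (ℝ × ℝ)) : Finset (Finset (ℝ × ℝ)) :=
  (P.powersetCard 3).filter fun S => Collinear ℝ (S : Set (ℝ × ℝ))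

/-- The geometric graph `G_P`: two points `a, b` of `P` are adjacent when, for some third point
`c` of `P`, either `b` lies strictly between `a` and `c`, or `a` lies strictly between `b` and `c`.
Equivalently `ab` is one of the two segments joining the middle point of a collinear triple of `P`
to one of its two outer points. -/
def graphG (P : Finset (ℝ × ℝ)) : SimpleGraph (ℝ × ℝ) where
  Adj a b := a ∈ P ∧ b ∈ P ∧ ∃ c ∈ P, Sbtw ℝ a b c ∨ Sbtw ℝ b a c
  symm := ⟨fun _ _ ⟨ha, hb, c, hc, h⟩ => ⟨hb, ha, c, hc, h.symm⟩⟩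
  loopless := ⟨fun _ ⟨_, _, _, _, h⟩ => h.elim (fun h => h.2.1 rfl) (fun h => h.2.1 rfl)⟩

/-- `G_P` contains a self-intersecting path of length three: four distinct vertices
`x₁, x₂, x₃, x₄` with `x₁x₂`, `x₂x₃`, `x₃x₄` edges of `G_P`, such that the first and the last edge,
as closed segments, share a point. -/
def HasSelfIntersectingPath (P : Finset (ℝ × ℝ)) : Prop :=
  ∃ x₁ x₂ x₃ x₄ : ℝ × ℝ,
    x₁ ≠ x₂ ∧ x₁ ≠ x₃ ∧ x₁ ≠ x₄ ∧ x₂ ≠ x₃ ∧ x₂ ≠ x₄ ∧ x₃ ≠ x₄ ∧
    (graphG P).Adj x₁ x₂ ∧ (graphG P).Adj x₂ x₃ ∧ (graphG P).Adj x₃ x₄ ∧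
    (segment ℝ x₁ x₂ ∩ segment ℝ x₃ x₄).Nonempty

/-- The function `f` of the problem: `f n` is the least `m` such that every set of `n` points
with no four collinear and with at least `m` collinear triples has a self-intersecting path of
length three in its graph. -/
noncomputable def f (n : ℕ) : ℕ :=
  sInf {m : ℕ | ∀ P : Finset (ℝ × ℝ), P.card = n → NoFourCollinear P →
    m ≤ (collinearTriples P).card → HasSelfIntersectingPath P}

end Pool.Agent.CollTriples
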