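import Mathlib

set_option autoImplicit false

open Filter

namespace Pool.Agent.Helper35.Coll

/-- exponents `3^i + 2*3^j`, `i ≠ j`, are pairwise distinct -/
lemma exp_inj : ∀ i j k l : ℕ, i ≠ j → k ≠ l → 3 ^ i + 2 * 3 ^ j = 3 ^ k + 2 * 3 ^ l → i = k ∧ j = l := by
  intro i
  induction i with
  | zero =>
    intro j k l hij hkl h
    rcases j with _ | j
    · exact absurd rfl hij
    rcases k with _ | k
    · rcases l with _ | l
      · exact absurd rfl hkl
      · have : 3 ^ (j + 1) = 3 ^ (l + 1) := by simpa using h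
        have := Nat.pow_right_injective (le_refl 2 |>.trans (by norm_num : 2 ≤ 3)) this
        exact ⟨rfl, this⟩
    · exfalso
      rcases l with _ | l
      · rw [pow_succ, pow_succ] at h
        omega
      · rw [pow_succ, pow_succ, pow_succ] at h
        omega
  | succ i ih =>
    intro j k l hij hkl h
    rcases j with _ | j
    · rcases k with _ | k
      · rcases l with _ | l
        · exact absurd rfl hkl
        · exfalso
          rw [pow_succ, pow_succ] at h
          omega
      · rcases l with _ | l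
        · have : 3 ^ (i + 1) = 3 ^ (k + 1) := by simpa using h
          have := Nat.pow_right_injective (le_refl 2 |>.trans (by norm_num : 2 ≤ 3)) this
          exact ⟨this, rfl⟩
        · exfalso
          rw [pow_succ, pow_succ, pow_succ] at h
          omega
    · rcases k with _ | k
      · exfalso
        rcases l with _ | l
        · exact absurd rfl hkl
        · rw [pow_succ, pow_succ, pow_succ] at h
          omega
      · rcases l with _ | l
        · exfalso
          rw [pow_succ, pow_succ, pow_succ] at h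
          omega
        · have h2 : 3 ^ i + 2 * 3 ^ j = 3 ^ k + 2 * 3 ^ l := by
            rw [pow_succ, pow_succ, pow_succ, pow_succ] at h
            omega
          have := ih j k l (by omega) (by omega) h2
          omega

variable {ι : Type*} [Fintype ι]

/-- The polynomial whose value at `M` is the determinant of the two combinations. -/
noncomputable def detPoly (r : ι → ℕ) (d e : ι → ℤ) : Polynomial ℝ :=
  ∑ p : ι × ι, Polynomial.C (((d p.1 * e p.2 - d p.2 * e p.1 : ℤ)) : ℝ) *
    Polynomial.X ^ (3 ^ (r p.1) + 2 * 3 ^ (r p.2))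

lemma detPoly_ne_zero [DecidableEq ι] (r : ι → ℕ) (hr : Function.Injective r) (d e : ι → ℤ) (i j : ι)
    (h : d i * e j ≠ d j * e i) : detPoly r d e ≠ 0 := by
  intro h0
  have hij : i ≠ j := by
    rintro rfl; exact h rfl
  have hc : (detPoly r d e).coeff (3 ^ (r i) + 2 * 3 ^ (r j)) =
      (((d i * e j - d j * e i : ℤ)) : ℝ) := by
    unfold detPoly
    rw [Polynomial.finsetSum_coeff]
    rw [Finset.sum_eq_single (i, j)]
    · rw [Polynomial.coeff_C_mul, Polynomial.coeff_X_pow, if_pos rfl, mul_one]
    · rintro ⟨k, l⟩ - hkl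
      rw [Polynomial.coeff_C_mul, Polynomial.coeff_X_pow]
      by_cases hkl' : k = l
      · subst hkl'
        simp
      · rw [if_neg]
        · simp
        · intro heq
          have := exp_inj (r i) (r j) (r k) (r l) (fun h => hij (hr h)) (fun h => hkl' (hr h)) heq
          apply hkl
          rw [hr this.1, hr this.2]
    · intro h; exact absurd (Finset.mem_univ _) h
  rw [h0] at hc
  simp only [Polynomial.coeff_zero] at hc
  have : (d i * e j - d j * e i : ℤ) = 0 := by exact_mod_cast hc.symm
  apply h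
  linarith

lemma detPoly_eval (r : ι → ℕ) (d e : ι → ℤ) (M : ℝ) :
    (detPoly r d e).eval M =
      (∑ i, (d i : ℝ) * M ^ (3 ^ r i)) * (∑ j, (e j : ℝ) * (M ^ (3 ^ r j)) ^ 2)
      - (∑ j, (d j : ℝ) * (M ^ (3 ^ r j)) ^ 2) * (∑ i, (e i : ℝ) * M ^ (3 ^ r i)) := by
  unfold detPoly
  rw [Polynomial.eval_finsetSum, Fintype.sum_prod_type]
  rw [Finset.sum_mul_sum, Finset.sum_mul_sum]
  rw [Finset.sum_comm (f := fun i j => (d i : ℝ) * (M ^ (3 ^ r i)) ^ 2 * ((e j : ℝ) * M ^ (3 ^ r j)))]
  rw [← Finset.sum_sub_distrib]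
  apply Finset.sum_congr rfl
  intro i _
  rw [← Finset.sum_sub_distrib]
  apply Finset.sum_congr rfl
  intro j _
  simp only [Polynomial.eval_mul, Polynomial.eval_C, Polynomial.eval_pow, Polynomial.eval_X]
  push_cast
  rw [pow_add]
  have : M ^ (2 * 3 ^ r j) = (M ^ (3 ^ r j)) ^ 2 := by rw [← pow_mul, mul_comm]
  rw [this]
  ring

/-- For large `M`, the determinant vanishes only if the integer vectors are parallel. -/
lemma eventually_generic [DecidableEq ι] (r : ι → ℕ) (hr : Function.Injective r) (S : Finset ((ι → ℤ) × (ι → ℤ))) :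
    ∀ᶠ M : ℝ in atTop, ∀ p ∈ S,
      (∑ i, (p.1 i : ℝ) * M ^ (3 ^ r i)) * (∑ j, (p.2 j : ℝ) * (M ^ (3 ^ r j)) ^ 2)
      - (∑ j, (p.1 j : ℝ) * (M ^ (3 ^ r j)) ^ 2) * (∑ i, (p.2 i : ℝ) * M ^ (3 ^ r i)) = 0 →
      ∀ i j, p.1 i * p.2 j = p.1 j * p.2 i := by
  rw [Finset.eventually_all]
  intro p _
  by_cases h : ∀ i j, p.1 i * p.2 j = p.1 j * p.2 i
  · exact Filter.Eventually.of_forall (fun _ _ => h)
  · push Not at h
    obtain ⟨i, j, hij⟩ := h
    have := Polynomial.eventually_atTop_not_isRoot _ (detPoly_ne_zero r hr p.1 p.2 i j hij)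
    filter_upwards [this] with M hM h0
    exfalso
    apply hM
    rw [Polynomial.IsRoot, detPoly_eval]
    exact h0

end Pool.Agent.Helper35.Coll
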