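import Mathlib
import Pool.Agent.Helper35.T1

set_option autoImplicit false

open Filter

namespace Pool.Agent.Helper35.Coll

/-- a letter: a direction index together with a sign -/
abbrev Letter (q : ℕ) := Fin q × ℤˣ

/-- a word: for every block either a letter or nothing -/
abbrev Word (K q : ℕ) := Fin K → Option (Letter q)

variable {K q : ℕ}

/-- value of an optional letter at a direction index -/
def lval (o : Option (Letter q)) (c : Fin q) : ℤ :=
  match o with
  | none => 0
  | some l => if l.1 = c then (l.2 : ℤ) else 0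

/-- coordinate of a word in direction `(block, index)` -/
def coord (g : Word K q) (i : Fin K × Fin q) : ℤ := lval (g i.1) i.2

/-- the point of the plane attached to a word -/
noncomputable def pos (t : Fin K × Fin q → ℝ) (g : Word K q) : ℝ × ℝ :=
  (∑ i, (coord g i : ℝ) * t i, ∑ i, (coord g i : ℝ) * (t i) ^ 2)

/-- the rank of a direction -/
def rank (i : Fin K × Fin q) : ℕ := (i.1 : ℕ) * q + i.2

lemma rank_injective : Function.Injective (rank : Fin K × Fin q → ℕ) := by
  rintro ⟨a, b⟩ ⟨c, d⟩ h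
  unfold rank at h
  simp only at h
  have hb := b.2
  have hd := d.2
  have hq : 0 < q := by omega
  have h1 : (a : ℕ) = c := by
    have e1 : ((a : ℕ) * q + b) / q = a := by
      rw [mul_comm, Nat.mul_add_div hq, Nat.div_eq_of_lt hb, add_zero]
    have e2 : ((c : ℕ) * q + d) / q = c := by
      rw [mul_comm, Nat.mul_add_div hq, Nat.div_eq_of_lt hd, add_zero]
    rw [← e1, ← e2, h]
  have h2 : (b : ℕ) = d := by
    rw [h1] at h; omega
  exact Prod.ext (Fin.ext h1) (Fin.ext h2)

lemma rank_lt_of_block_lt {b b' : Fin K} (h : b < b') (c c' : Fin q) : rank (b, c) < rank (b', c') := by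
  unfold rank
  simp only
  have h1 : (b : ℕ) + 1 ≤ b' := h
  have hc := c.2
  nlinarith [Nat.mul_le_mul_right q h1]

/-- good parameters -/
structure Good (t : Fin K × Fin q → ℝ) : Prop where
  pos : ∀ i, 0 < t i
  grow : ∀ i j, rank i < rank j → 3 * t i ≤ t j
  gen : ∀ d e : Fin K × Fin q → ℤ, (∀ i, d i ∈ Finset.Icc (-2 : ℤ) 2) →
    (∀ i, e i ∈ Finset.Icc (-2 : ℤ) 2) →
    (∑ i, (d i : ℝ) * t i) * (∑ j, (e j : ℝ) * (t j) ^ 2)
      - (∑ j, (d j : ℝ) * (t j) ^ 2) * (∑ i, (e i : ℝ) * t i) = 0 →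
      ∀ i j, d i * e j = d j * e i

lemma exists_good (K q : ℕ) : ∃ t : Fin K × Fin q → ℝ, Good t := by
  classical
  have h1 := eventually_generic (rank : Fin K × Fin q → ℕ) rank_injective
    ((Fintype.piFinset (fun _ => Finset.Icc (-2 : ℤ) 2)) ×ˢ
      (Fintype.piFinset (fun _ => Finset.Icc (-2 : ℤ) 2)))
  obtain ⟨M, hM, hM3⟩ := (h1.and (eventually_ge_atTop (3 : ℝ))).exists
  refine ⟨fun i => M ^ (3 ^ rank i), ?_, ?_, ?_⟩
  · intro i; positivity
  · intro i j hij
    have h2 : 3 ^ rank i + 1 ≤ 3 ^ rank j := by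
      have : 3 ^ rank i < 3 ^ rank j := Nat.pow_lt_pow_right (by norm_num) hij
      omega
    calc 3 * M ^ (3 ^ rank i) ≤ M * M ^ (3 ^ rank i) := by
          apply mul_le_mul_of_nonneg_right hM3; positivity
      _ = M ^ (3 ^ rank i + 1) := by rw [pow_succ]; ring
      _ ≤ M ^ (3 ^ rank j) := pow_le_pow_right₀ (by linarith) h2
  · intro d e hd he h0
    exact hM (d, e) (by simp only [Finset.mem_product, Fintype.mem_piFinset]; exact ⟨hd, he⟩) h0

lemma lval_none (c : Fin q) : lval (none : Option (Letter q)) c = 0 := rfl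

lemma lval_some_self (c : Fin q) (s : ℤˣ) : lval (some (c, s)) c = (s : ℤ) := by
  simp [lval]

lemma lval_some_ne {c c' : Fin q} (s : ℤˣ) (h : c ≠ c') : lval (some (c, s)) c' = 0 := by
  simp [lval, h]

lemma lval_mem (o : Option (Letter q)) (c : Fin q) : lval o c = 0 ∨ lval o c = 1 ∨ lval o c = -1 := by
  rcases o with _ | ⟨c', s⟩
  · left; rfl
  · by_cases h : c' = c
    · subst h
      rw [lval_some_self]
      rcases Int.units_eq_one_or s with rfl | rfl
      · right; left; rfl
      · right; right; rfl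
    · left; exact lval_some_ne s h

lemma lval_eq_zero_all {o : Option (Letter q)} (h : ∀ c, lval o c = 0) : o = none := by
  rcases o with _ | ⟨c', s⟩
  · rfl
  · have := h c'
    rw [lval_some_self] at this
    exact absurd this (Units.ne_zero s)

lemma lval_ne_zero {o : Option (Letter q)} {c : Fin q} (h : lval o c ≠ 0) :
    ∃ s : ℤˣ, o = some (c, s) ∧ (s : ℤ) = lval o c := by
  rcases o with _ | ⟨c', s⟩
  · exact absurd rfl h
  · by_cases hc : c' = c
    · subst hc
      exact ⟨s, rfl, (lval_some_self c' s).symm⟩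
    · exact absurd (lval_some_ne s hc) h

lemma lval_inj {o o' : Option (Letter q)} (h : ∀ c, lval o c = lval o' c) : o = o' := by
  rcases o with _ | ⟨c, s⟩
  · exact (lval_eq_zero_all (fun c => (h c).symm.trans rfl)).symm
  · have h1 : lval o' c ≠ 0 := by
      rw [← h c, lval_some_self]; exact Units.ne_zero s
    obtain ⟨s', hs', hs''⟩ := lval_ne_zero h1
    rw [hs']
    rw [← h c, lval_some_self] at hs''
    have : s' = s := Units.ext hs''
    rw [this]

lemma coord_inj {g g' : Word K q} (h : ∀ i, coord g i = coord g' i) : g = g' := by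
  funext b
  exact lval_inj (fun c => h (b, c))

lemma pos_sub (t : Fin K × Fin q → ℝ) (g g' : Word K q) :
    pos t g - pos t g' = (∑ i, ((coord g i - coord g' i : ℤ) : ℝ) * t i,
      ∑ i, ((coord g i - coord g' i : ℤ) : ℝ) * (t i) ^ 2) := by
  unfold pos
  ext
  · simp only [Prod.fst_sub]
    rw [← Finset.sum_sub_distrib]
    apply Finset.sum_congr rfl
    intro i _
    push_cast; ring
  · simp only [Prod.snd_sub]
    rw [← Finset.sum_sub_distrib]
    apply Finset.sum_congr rfl
    intro i _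
    push_cast; ring

lemma coord_mem (g : Word K q) (i : Fin K × Fin q) : coord g i = 0 ∨ coord g i = 1 ∨ coord g i = -1 :=
  lval_mem _ _

lemma coord_sub_mem (g g' : Word K q) (i : Fin K × Fin q) :
    coord g i - coord g' i ∈ Finset.Icc (-2 : ℤ) 2 := by
  rw [Finset.mem_Icc]
  rcases coord_mem g i with h | h | h <;> rcases coord_mem g' i with h' | h' | h' <;> omega

lemma pos_inj {t : Fin K × Fin q → ℝ} (ht : Good t) [Nontrivial (Fin K × Fin q)] {g g' : Word K q}
    (h : pos t g = pos t g') : g = g' := by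
  classical
  have h0 : pos t g - pos t g' = 0 := sub_eq_zero.mpr h
  rw [pos_sub] at h0
  have hx := congrArg Prod.fst h0
  have hy := congrArg Prod.snd h0
  simp only [Prod.fst_zero, Prod.snd_zero] at hx hy
  apply coord_inj
  intro i
  obtain ⟨j, hj⟩ := exists_ne i
  have := ht.gen (fun i => coord g i - coord g' i) (fun k => if k = j then 1 else 0)
    (coord_sub_mem g g') (by intro k; rw [Finset.mem_Icc]; split_ifs <;> omega)
    (by rw [hx, hy]; ring) i j
  simp only [if_true, if_neg hj.symm] at this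
  omega

lemma between_coord {t : Fin K × Fin q → ℝ} (ht : Good t) {g₁ g₂ g₃ : Word K q}
    (h : Sbtw ℝ (pos t g₁) (pos t g₂) (pos t g₃)) :
    ∃ τ : ℝ, 0 < τ ∧ τ < 1 ∧ ∀ i, ((coord g₂ i : ℝ) - coord g₁ i) = τ * ((coord g₃ i : ℝ) - coord g₁ i) := by
  obtain ⟨⟨τ, ⟨h0, h1⟩, hτ⟩, hne1, hne3⟩ := h
  have hτ' : pos t g₂ - pos t g₁ = τ • (pos t g₃ - pos t g₁) := by
    rw [← hτ, AffineMap.lineMap_apply]
    simp
  have hne13 : pos t g₃ - pos t g₁ ≠ 0 := by
    intro h
    rw [h, smul_zero] at hτ'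
    exact hne1 (sub_eq_zero.mp hτ')
  refine ⟨τ, lt_of_le_of_ne h0 ?_, lt_of_le_of_ne h1 ?_, ?_⟩
  · rintro rfl
    rw [zero_smul] at hτ'
    exact hne1 (sub_eq_zero.mp hτ')
  · rintro rfl
    rw [one_smul] at hτ'
    exact hne3 (sub_left_inj.mp hτ')
  · rw [pos_sub, pos_sub] at hτ'
    rw [pos_sub] at hne13
    have hx := congrArg Prod.fst hτ'
    have hy := congrArg Prod.snd hτ'
    simp only [Prod.smul_fst, Prod.smul_snd, smul_eq_mul] at hx hy
    have hgen := ht.gen (fun i => coord g₂ i - coord g₁ i) (fun i => coord g₃ i - coord g₁ i)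
      (coord_sub_mem _ _) (coord_sub_mem _ _) (by rw [hx, hy]; ring)
    -- some coordinate of `E` is nonzero
    have : ∃ j, coord g₃ j - coord g₁ j ≠ 0 := by
      by_contra hcon
      push Not at hcon
      apply hne13
      ext
      · simp [hcon]
      · simp [hcon]
    obtain ⟨j, hj⟩ := this
    have hjR : ((coord g₃ j - coord g₁ j : ℤ) : ℝ) ≠ 0 := by exact_mod_cast hj
    set lam : ℝ := ((coord g₂ j - coord g₁ j : ℤ) : ℝ) / ((coord g₃ j - coord g₁ j : ℤ) : ℝ) with hlam
    have key : ∀ i, ((coord g₂ i - coord g₁ i : ℤ) : ℝ) = lam * ((coord g₃ i - coord g₁ i : ℤ) : ℝ) := by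
      intro i
      have h2 := hgen i j
      have h3 : ((coord g₂ i - coord g₁ i : ℤ) : ℝ) * ((coord g₃ j - coord g₁ j : ℤ) : ℝ)
        = ((coord g₂ j - coord g₁ j : ℤ) : ℝ) * ((coord g₃ i - coord g₁ i : ℤ) : ℝ) := by
        exact_mod_cast h2
      rw [hlam]
      field_simp
      linarith
    have hlt : lam = τ := by
      by_contra hne
      have hd : lam - τ ≠ 0 := sub_ne_zero.mpr hne
      apply hne13
      have e1 : (lam - τ) * ∑ i, ((coord g₃ i - coord g₁ i : ℤ) : ℝ) * t i = 0 := by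
        have : ∑ i, ((coord g₂ i - coord g₁ i : ℤ) : ℝ) * t i
          = lam * ∑ i, ((coord g₃ i - coord g₁ i : ℤ) : ℝ) * t i := by
          rw [Finset.mul_sum]
          apply Finset.sum_congr rfl
          intro i _
          rw [key i]; ring
        rw [sub_mul, ← this, hx]; ring
      have e2 : (lam - τ) * ∑ i, ((coord g₃ i - coord g₁ i : ℤ) : ℝ) * (t i) ^ 2 = 0 := by
        have : ∑ i, ((coord g₂ i - coord g₁ i : ℤ) : ℝ) * (t i) ^ 2
          = lam * ∑ i, ((coord g₃ i - coord g₁ i : ℤ) : ℝ) * (t i) ^ 2 := by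
          rw [Finset.mul_sum]
          apply Finset.sum_congr rfl
          intro i _
          rw [key i]; ring
        rw [sub_mul, ← this, hy]; ring
      ext
      · exact (mul_eq_zero.mp e1).resolve_left hd
      · exact (mul_eq_zero.mp e2).resolve_left hd
    intro i
    have := key i
    rw [hlt] at this
    push_cast at this
    exact this

lemma between_block {g₁ g₂ g₃ : Word K q} {τ : ℝ} (h0 : 0 < τ) (h1 : τ < 1)
    (h : ∀ i, ((coord g₂ i : ℝ) - coord g₁ i) = τ * ((coord g₃ i : ℝ) - coord g₁ i)) (b : Fin K) :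
    (g₁ b = g₃ b → g₂ b = g₁ b) ∧
    (g₁ b ≠ g₃ b → ∃ (c : Fin q) (s : ℤˣ), g₁ b = some (c, s) ∧ g₃ b = some (c, -s) ∧ g₂ b = none) := by
  constructor
  · intro hb
    apply lval_inj
    intro c
    have := h (b, c)
    unfold coord at this
    simp only at this
    rw [hb, sub_self, mul_zero, sub_eq_zero] at this
    rw [hb]
    exact_mod_cast this
  · intro hb
    have hc : ∃ c, lval (g₁ b) c ≠ lval (g₃ b) c := by
      by_contra hcon
      push Not at hcon
      exact hb (lval_inj hcon)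
    obtain ⟨c, hc⟩ := hc
    have hval : ∀ c, ((lval (g₂ b) c : ℝ) - lval (g₁ b) c) = τ * ((lval (g₃ b) c : ℝ) - lval (g₁ b) c) :=
      fun c => h (b, c)
    have hzero : ∀ c, lval (g₁ b) c = 0 → lval (g₃ b) c = 0 → lval (g₂ b) c = 0 := by
      intro c e1 e3
      have := hval c
      rw [e1, e3] at this
      simpa using this
    have h2 : lval (g₂ b) c = 0 ∧ lval (g₃ b) c = - lval (g₁ b) c := by
      have := hval c
      rcases lval_mem (g₁ b) c with e1 | e1 | e1 <;> rcases lval_mem (g₃ b) c with e3 | e3 | e3 <;>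
        rcases lval_mem (g₂ b) c with e2 | e2 | e2 <;> rw [e1, e3] at hc <;> rw [e1, e2, e3] at this <;>
        rw [e1, e2, e3] <;> push_cast at this <;>
        first
          | exact absurd rfl hc
          | decide
          | (exfalso; linarith)
    have h1ne : lval (g₁ b) c ≠ 0 := by
      intro h0'
      apply hc
      rw [h2.2, h0']; rfl
    obtain ⟨s, hs, hs'⟩ := lval_ne_zero h1ne
    have h3ne : lval (g₃ b) c ≠ 0 := by
      rw [h2.2]; simpa using h1ne
    obtain ⟨s3, hs3, hs3'⟩ := lval_ne_zero h3ne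
    have hs3s : s3 = -s := by
      apply Units.ext
      rw [hs3', h2.2, ← hs', Units.val_neg]
    refine ⟨c, s, hs, by rw [hs3, hs3s], ?_⟩
    apply lval_eq_zero_all
    intro c'
    by_cases hcc : c' = c
    · rw [hcc]; exact h2.1
    · apply hzero
      · rw [hs]; exact lval_some_ne s (Ne.symm hcc)
      · rw [hs3]; exact lval_some_ne s3 (Ne.symm hcc)

/-- sign of a word -/
def sgn (g : Word K q) : ℤˣ := ∏ b, (g b).elim 1 Prod.snd

/-- full words -/
def IsX (g : Word K q) : Prop := ∀ b, g b ≠ none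

/-- words with exactly one hole, and sign one -/
def IsZ (g : Word K q) : Prop := ∃ b, g b = none ∧ (∀ b', b' ≠ b → g b' ≠ none) ∧ sgn g = 1

/-- `x` is obtained from `z` by filling the hole at block `b` with the letter `l`. -/
def Edge (x z : Word K q) (b : Fin K) (l : Letter q) : Prop :=
  z b = none ∧ (∀ b', b' ≠ b → z b' ≠ none) ∧ sgn z = 1 ∧ x b = some l ∧ ∀ b', b' ≠ b → x b' = z b'

lemma Edge.isX {x z : Word K q} {b : Fin K} {l : Letter q} (h : Edge x z b l) : IsX x := by
  intro b'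
  by_cases hb : b' = b
  · rw [hb, h.2.2.2.1]; simp
  · rw [h.2.2.2.2 b' hb]; exact h.2.1 b' hb

lemma Edge.isZ {x z : Word K q} {b : Fin K} {l : Letter q} (h : Edge x z b l) : IsZ z :=
  ⟨b, h.1, h.2.1, h.2.2.1⟩

lemma Edge.sgn_eq {x z : Word K q} {b : Fin K} {l : Letter q} (h : Edge x z b l) : sgn x = l.2 := by
  obtain ⟨h1, h2, h3, h4, h5⟩ := h
  unfold sgn at *
  rw [← Finset.mul_prod_erase _ _ (Finset.mem_univ b)] at h3 ⊢
  rw [h1] at h3
  rw [h4]
  simp only [Option.elim_none, one_mul, Option.elim_some] at h3 ⊢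
  have : ∏ b' ∈ Finset.univ.erase b, (x b').elim 1 Prod.snd = ∏ b' ∈ Finset.univ.erase b, (z b').elim 1 Prod.snd := by
    apply Finset.prod_congr rfl
    intro b' hb'
    rw [h5 b' (Finset.ne_of_mem_erase hb')]
  rw [this, h3, mul_one]

lemma not_isX_of_isZ {g : Word K q} (h : IsZ g) : ¬ IsX g := by
  obtain ⟨b, hb, _⟩ := h
  exact fun hx => hx b hb

/-- collinear triples of the configuration -/
lemma sbtw_structure {t : Fin K × Fin q → ℝ} (ht : Good t) {g₁ g₂ g₃ : Word K q}
    (hg₂ : IsX g₂ ∨ IsZ g₂) (h : Sbtw ℝ (pos t g₁) (pos t g₂) (pos t g₃)) :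
    ∃ (b : Fin K) (c : Fin q) (s : ℤˣ), Edge g₁ g₂ b (c, s) ∧ Edge g₃ g₂ b (c, -s) := by
  obtain ⟨τ, h0, h1, hτ⟩ := between_coord ht h
  have hne : g₁ ≠ g₃ := by
    rintro rfl
    exact h.left_ne_right rfl
  have : ∃ b, g₁ b ≠ g₃ b := by
    by_contra hcon
    push Not at hcon
    exact hne (funext hcon)
  obtain ⟨b, hb⟩ := this
  obtain ⟨c, s, e1, e3, e2⟩ := (between_block h0 h1 hτ b).2 hb
  rcases hg₂ with hX | ⟨b0, hb0, hb0', hs⟩
  · exact absurd e2 (hX b)
  have hbb : b0 = b := by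
    by_contra hcon
    exact hb0' b (Ne.symm hcon) e2
  subst hbb
  have hrest : ∀ b', b' ≠ b0 → g₁ b' = g₃ b' := by
    intro b' hb'
    by_contra hcon
    obtain ⟨_, _, _, _, e⟩ := (between_block h0 h1 hτ b').2 hcon
    exact hb0' b' hb' e
  refine ⟨b0, c, s, ⟨hb0, hb0', hs, e1, ?_⟩, ⟨hb0, hb0', hs, e3, ?_⟩⟩
  · intro b' hb'
    exact ((between_block h0 h1 hτ b').1 (hrest b' hb')).symm
  · intro b' hb'
    rw [← hrest b' hb']
    exact ((between_block h0 h1 hτ b').1 (hrest b' hb')).symm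

end Pool.Agent.Helper35.Coll
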