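import Mathlib
import Pool.Agent.Helper35.T2
import Pool.Agent.Helper35.CollDefs

set_option autoImplicit false
set_option linter.unusedSectionVars false

open Filter

namespace Pool.Agent.Helper35.Coll

open Pool.Agent.CollTriples

variable {K q : ℕ}

lemma pos_edge (t : Fin K × Fin q → ℝ) {x z : Word K q} {b : Fin K} {c : Fin q} {s : ℤˣ}
    (h : Edge x z b (c, s)) :
    pos t x = pos t z + (((s : ℤ) : ℝ) * t (b, c), ((s : ℤ) : ℝ) * (t (b, c)) ^ 2) := by
  have hc : ∀ i, coord x i - coord z i = if i = (b, c) then (s : ℤ) else 0 := by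
    rintro ⟨b', c'⟩
    unfold coord
    simp only
    by_cases hb : b' = b
    · subst hb
      rw [h.1, h.2.2.2.1, lval_none, sub_zero]
      by_cases hcc : c' = c
      · subst hcc
        rw [lval_some_self, if_pos rfl]
      · rw [lval_some_ne s (Ne.symm hcc), if_neg]
        intro heq
        exact hcc (congrArg Prod.snd heq)
    · rw [h.2.2.2.2 b' hb, sub_self, if_neg]
      intro heq
      exact hb (congrArg Prod.fst heq)
  rw [← sub_eq_iff_eq_add', pos_sub]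
  ext
  · simp only [hc]
    rw [Finset.sum_eq_single (b, c)]
    · rw [if_pos rfl]
    · intro i _ hi
      rw [if_neg hi]; simp
    · intro h; exact absurd (Finset.mem_univ _) h
  · simp only [hc]
    rw [Finset.sum_eq_single (b, c)]
    · rw [if_pos rfl]
    · intro i _ hi
      rw [if_neg hi]; simp
    · intro h; exact absurd (Finset.mem_univ _) h

/-- The geometric heart: a relation between three directions is impossible. -/
lemma no_relation {ti tj tk α β : ℝ} (hi : 0 < ti) (hj : 0 < tj) (hk : 0 < tk)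
    (hα : α ≤ 1) (hβ0 : 0 ≤ β) (hβ1 : β ≤ 1)
    (hij : 3 * ti ≤ tj ∨ 3 * tj ≤ ti)
    (hk' : (3 * ti ≤ tk ∧ 3 * tj ≤ tk) ∨ (3 * tk ≤ ti ∧ 3 * tk ≤ tj))
    (h1 : ti = α * tj + β * tk) (h2 : ti ^ 2 = α * tj ^ 2 + β * tk ^ 2) : False := by
  have E1 : ti * (ti - tk) = α * (tj * (tj - tk)) := by
    linear_combination h2 - tk * h1
  have E2 : ti * (ti - tj) = β * (tk * (tk - tj)) := by
    linear_combination h2 - tj * h1
  rcases hk' with ⟨hik, hjk⟩ | ⟨hik, hjk⟩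
  · rcases hij with hij | hij
    · -- i < j < k
      have p1 : 0 < ti * (tj - ti) := mul_pos hi (by linarith)
      have p2 : 0 ≤ β * (tk * (tk - tj)) := mul_nonneg hβ0 (mul_nonneg hk.le (by linarith))
      nlinarith
    · -- j < i < k
      have p1 : α * (tj * (tk - tj)) ≤ 1 * (tj * (tk - tj)) :=
        mul_le_mul_of_nonneg_right hα (mul_nonneg hj.le (by linarith))
      have p2 : ti * (tk - ti) ≥ (3 * tj) * ((2 / 3) * tk) := by
        apply mul_le_mul hij (by linarith) (by positivity) hi.le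
      have p3 : ti * (tk - ti) = α * (tj * (tk - tj)) := by linarith
      have p4 : 0 < tj * tk := mul_pos hj hk
      have p5 : 0 < tj * tj := mul_pos hj hj
      nlinarith
  · rcases hij with hij | hij
    · -- k < i < j
      have p1 : β * (tk * (tj - tk)) ≤ 1 * (tk * (tj - tk)) :=
        mul_le_mul_of_nonneg_right hβ1 (mul_nonneg hk.le (by linarith))
      have p2 : ti * (tj - ti) ≥ (3 * tk) * ((2 / 3) * tj) := by
        apply mul_le_mul hik (by linarith) (by positivity) hi.le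
      have p3 : ti * (tj - ti) = β * (tk * (tj - tk)) := by linarith
      have p4 : 0 < tk * tj := mul_pos hk hj
      have p5 : 0 < tk * tk := mul_pos hk hk
      nlinarith
    · -- k < j < i
      have p1 : 0 < ti * (ti - tj) := mul_pos hi (by linarith)
      have p2 : 0 ≤ β * (tk * (tj - tk)) := mul_nonneg hβ0 (mul_nonneg hk.le (by linarith))
      nlinarith

lemma no_relation_same {ti tk a β : ℝ} (hi : 0 < ti) (ha : 0 ≤ a) (hne : ti ≠ tk)
    (h1 : (1 + a) * ti = β * tk) (h2 : (1 + a) * ti ^ 2 = β * tk ^ 2) : False := by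
  have : (1 + a) * ti * (ti - tk) = 0 := by
    have : (1 + a) * ti * (ti - tk) = (1 + a) * ti ^ 2 - tk * ((1 + a) * ti) := by ring
    rw [this, h2, h1]; ring
  rcases mul_eq_zero.mp this with h | h
  · have : 0 < (1 + a) * ti := by positivity
    linarith
  · exact hne (sub_eq_zero.mp h)

variable (K q) in
/-- the set of words of the configuration -/
noncomputable def words : Finset (Word K q) := by
  classical exact Finset.univ.filter (fun g => IsX g ∨ IsZ g)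

lemma mem_words {g : Word K q} : g ∈ words K q ↔ (IsX g ∨ IsZ g) := by
  classical
  unfold words
  simp

/-- the configuration -/
noncomputable def config (t : Fin K × Fin q → ℝ) : Finset (ℝ × ℝ) := (words K q).image (pos t)

lemma mem_config {t : Fin K × Fin q → ℝ} {p : ℝ × ℝ} :
    p ∈ config t ↔ ∃ g : Word K q, (IsX g ∨ IsZ g) ∧ pos t g = p := by
  unfold config
  simp [Finset.mem_image, mem_words]

section
variable {t : Fin K × Fin q → ℝ} (ht : Good t) [Nontrivial (Fin K × Fin q)]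

include ht

/-- description of the edges of the graph -/
lemma adj_config {x y : ℝ × ℝ} (h : (graphG (config t)).Adj x y) :
    ∃ (g z : Word K q) (b : Fin K) (l : Letter q), Edge g z b l ∧
      ((x = pos t g ∧ y = pos t z) ∨ (x = pos t z ∧ y = pos t g)) := by
  obtain ⟨hx, hy, c, hc, h⟩ := h
  rw [mem_config] at hx hy hc
  obtain ⟨gx, hgx, rfl⟩ := hx
  obtain ⟨gy, hgy, rfl⟩ := hy
  obtain ⟨gc, hgc, rfl⟩ := hc
  rcases h with h | h
  · obtain ⟨b, d, s, e1, e2⟩ := sbtw_structure ht hgy h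
    exact ⟨gx, gy, b, (d, s), e1, Or.inl ⟨rfl, rfl⟩⟩
  · obtain ⟨b, d, s, e1, e2⟩ := sbtw_structure ht hgx h
    exact ⟨gy, gx, b, (d, s), e1, Or.inr ⟨rfl, rfl⟩⟩

/-- the crossing analysis, for paths starting at a full word -/
lemma no_cross_aux {g₁ z g z' : Word K q} {b b' : Fin K} {l₁ l l' : Letter q}
    (e₁ : Edge g₁ z b l₁) (e : Edge g z b l) (e' : Edge g z' b' l')
    (h13 : g₁ ≠ g) (h24 : z ≠ z')
    (h : (segment ℝ (pos t g₁) (pos t z) ∩ segment ℝ (pos t g) (pos t z')).Nonempty) : False := by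
  obtain ⟨c₁, s₁⟩ := l₁
  obtain ⟨c, s⟩ := l
  obtain ⟨c', s'⟩ := l'
  have hs : s = s' := by
    have h1 := e.sgn_eq
    have h2 := e'.sgn_eq
    rw [h1] at h2
    exact h2
  subst hs
  have hbb : b' ≠ b := by
    rintro rfl
    apply h24
    funext d
    by_cases hd : d = b'
    · rw [hd, e.1, e'.1]
    · rw [← e.2.2.2.2 d hd, ← e'.2.2.2.2 d hd]
  obtain ⟨p, hp1, hp2⟩ := h
  rw [segment_eq_image'] at hp1 hp2
  obtain ⟨θ, ⟨hθ0, hθ1⟩, hθ⟩ := hp1
  obtain ⟨β, ⟨hβ0, hβ1⟩, hβ⟩ := hp2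
  simp only at hθ hβ
  rw [pos_edge t e₁] at hθ
  have hz' : pos t z' = pos t z + (((s : ℤ) : ℝ) * t (b, c), ((s : ℤ) : ℝ) * (t (b, c)) ^ 2)
      - (((s : ℤ) : ℝ) * t (b', c'), ((s : ℤ) : ℝ) * (t (b', c')) ^ 2) := by
    have h1 := pos_edge t e
    have h2 := pos_edge t e'
    rw [h1] at h2
    rw [h2]
    abel
  rw [hz', pos_edge t e] at hβ
  have heq := hθ.trans hβ.symm
  have hx := congrArg Prod.fst heq
  have hy := congrArg Prod.snd heq
  simp only [Prod.fst_add, Prod.snd_add, Prod.fst_sub, Prod.snd_sub, Prod.smul_fst, Prod.smul_snd,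
    smul_eq_mul] at hx hy
  have hi := ht.pos (b, c)
  have hj := ht.pos (b, c₁)
  have hk := ht.pos (b', c')
  have hss : ((s : ℤ) : ℝ) * ((s : ℤ) : ℝ) = 1 := by
    rcases Int.units_eq_one_or s with rfl | rfl <;> norm_num
  -- multiply by the sign
  have hX : t (b, c) = ((1 - θ) * (((s : ℤ) : ℝ) * ((s₁ : ℤ) : ℝ))) * t (b, c₁) + β * t (b', c') := by
    have : ((s : ℤ) : ℝ) * (((s : ℤ) : ℝ) * t (b, c)) = t (b, c) := by
      rw [← mul_assoc, hss, one_mul]
    have h3 : ((s : ℤ) : ℝ) * t (b, c) = (1 - θ) * (((s₁ : ℤ) : ℝ) * t (b, c₁))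
        + β * (((s : ℤ) : ℝ) * t (b', c')) := by linarith
    rw [← this, h3]
    have h4 : ((s : ℤ) : ℝ) * ((1 - θ) * (((s₁ : ℤ) : ℝ) * t (b, c₁)) + β * (((s : ℤ) : ℝ) * t (b', c')))
      = ((1 - θ) * (((s : ℤ) : ℝ) * ((s₁ : ℤ) : ℝ))) * t (b, c₁)
        + β * ((((s : ℤ) : ℝ) * ((s : ℤ) : ℝ)) * t (b', c')) := by ring
    rw [h4, hss]; ring
  have hY : (t (b, c)) ^ 2 = ((1 - θ) * (((s : ℤ) : ℝ) * ((s₁ : ℤ) : ℝ))) * (t (b, c₁)) ^ 2
      + β * (t (b', c')) ^ 2 := by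
    have : ((s : ℤ) : ℝ) * (((s : ℤ) : ℝ) * (t (b, c)) ^ 2) = (t (b, c)) ^ 2 := by
      rw [← mul_assoc, hss, one_mul]
    have h3 : ((s : ℤ) : ℝ) * (t (b, c)) ^ 2 = (1 - θ) * (((s₁ : ℤ) : ℝ) * (t (b, c₁)) ^ 2)
        + β * (((s : ℤ) : ℝ) * (t (b', c')) ^ 2) := by linarith
    rw [← this, h3]
    have h4 : ((s : ℤ) : ℝ) * ((1 - θ) * (((s₁ : ℤ) : ℝ) * (t (b, c₁)) ^ 2)
        + β * (((s : ℤ) : ℝ) * (t (b', c')) ^ 2))
      = ((1 - θ) * (((s : ℤ) : ℝ) * ((s₁ : ℤ) : ℝ))) * (t (b, c₁)) ^ 2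
        + β * ((((s : ℤ) : ℝ) * ((s : ℤ) : ℝ)) * (t (b', c')) ^ 2) := by ring
    rw [h4, hss]; ring
  by_cases hcc : c₁ = c
  · -- same direction, hence opposite signs
    subst hcc
    have hsne : s₁ = -s := by
      have hne : s₁ ≠ s := by
        rintro rfl
        apply h13
        funext d
        by_cases hd : d = b
        · rw [hd, e₁.2.2.2.1, e.2.2.2.1]
        · rw [e₁.2.2.2.2 d hd, e.2.2.2.2 d hd]
      rcases Int.units_eq_one_or s with rfl | rfl <;> rcases Int.units_eq_one_or s₁ with rfl | rfl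
      · exact absurd rfl hne
      · rfl
      · simp
      · exact absurd rfl hne
    have hprod : ((s : ℤ) : ℝ) * ((s₁ : ℤ) : ℝ) = -1 := by
      rw [hsne]
      push_cast
      linarith
    rw [hprod] at hX hY
    have hne : t (b, c₁) ≠ t (b', c') := by
      rcases lt_or_gt_of_ne hbb with hlt | hlt
      · have := ht.grow _ _ (rank_lt_of_block_lt hlt c' c₁)
        intro h; linarith
      · have := ht.grow _ _ (rank_lt_of_block_lt hlt c₁ c')
        intro h; linarith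
    exact no_relation_same (a := 1 - θ) (β := β) hi (by linarith) hne (by linarith) (by linarith)
  · have hprod : ((s : ℤ) : ℝ) * ((s₁ : ℤ) : ℝ) ≤ 1 := by
      rcases Int.units_eq_one_or s with rfl | rfl <;> rcases Int.units_eq_one_or s₁ with rfl | rfl <;>
        norm_num
    have hα : (1 - θ) * (((s : ℤ) : ℝ) * ((s₁ : ℤ) : ℝ)) ≤ 1 := by
      have h5 : (1 - θ) * (((s : ℤ) : ℝ) * ((s₁ : ℤ) : ℝ)) ≤ (1 - θ) * 1 :=
        mul_le_mul_of_nonneg_left hprod (by linarith)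
      linarith
    refine no_relation hi hj hk hα hβ0 hβ1 ?_ ?_ hX hY
    · have hne : rank (b, c) ≠ rank (b, c₁) := by
        intro h
        have := rank_injective h
        exact hcc (congrArg Prod.snd this).symm
      rcases lt_or_gt_of_ne hne with h | h
      · exact Or.inl (ht.grow _ _ h)
      · exact Or.inr (ht.grow _ _ h)
    · rcases lt_or_gt_of_ne hbb with hlt | hlt
      · exact Or.inr ⟨ht.grow _ _ (rank_lt_of_block_lt hlt c' c), ht.grow _ _ (rank_lt_of_block_lt hlt c' c₁)⟩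
      · exact Or.inl ⟨ht.grow _ _ (rank_lt_of_block_lt hlt c c'), ht.grow _ _ (rank_lt_of_block_lt hlt c₁ c')⟩

lemma edge_block_unique {x y z : Word K q} {b b' : Fin K} {l l' : Letter q} (h : Edge x z b l)
    (h' : Edge y z b' l') : b' = b := by
  by_contra hcon
  exact h.2.1 b' hcon h'.1

/-- paths whose second vertex is a word with a hole -/
lemma no_path_aux {x₁ x₂ x₃ x₄ : ℝ × ℝ} (h13 : x₁ ≠ x₃) (h24 : x₂ ≠ x₄)
    (a12 : (graphG (config t)).Adj x₁ x₂) (a34 : (graphG (config t)).Adj x₃ x₄)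
    {g z : Word K q} {b : Fin K} {l : Letter q} (e : Edge g z b l) (hx₂ : x₂ = pos t z)
    (hx₃ : x₃ = pos t g)
    (h : (segment ℝ x₁ x₂ ∩ segment ℝ x₃ x₄).Nonempty) : False := by
  obtain ⟨g₁, z₁, b₁, l₁, e₁, h₁⟩ := adj_config ht a12
  obtain ⟨g₃, z₃, b₃, l₃, e₃, h₃⟩ := adj_config ht a34
  have k1 : x₁ = pos t g₁ ∧ z₁ = z := by
    rcases h₁ with ⟨h, h'⟩ | ⟨h, h'⟩
    · exact ⟨h, pos_inj ht (h'.symm.trans hx₂)⟩
    · exfalso
      have := pos_inj ht (h'.symm.trans hx₂)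
      subst this
      exact not_isX_of_isZ e.isZ e₁.isX
  have k3 : g₃ = g ∧ x₄ = pos t z₃ := by
    rcases h₃ with ⟨h, h'⟩ | ⟨h, h'⟩
    · exact ⟨pos_inj ht (h.symm.trans hx₃), h'⟩
    · exfalso
      have := pos_inj ht (h.symm.trans hx₃)
      subst this
      exact not_isX_of_isZ e₃.isZ e.isX
  obtain ⟨rfl, rfl⟩ := k1
  obtain ⟨rfl, rfl⟩ := k3
  have hb := edge_block_unique ht e e₁
  subst hb
  subst hx₂ hx₃
  exact no_cross_aux ht e₁ e e₃ (fun h => h13 (by rw [h])) (fun h => h24 (by rw [h])) h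

lemma config_no_path : ¬ HasSelfIntersectingPath (config t) := by
  rintro ⟨x₁, x₂, x₃, x₄, h12, h13, h14, h23, h24, h34, a12, a23, a34, h⟩
  obtain ⟨g, z, b, l, e, h'⟩ := adj_config ht a23
  rcases h' with ⟨hx, hy⟩ | ⟨hx, hy⟩
  · -- reverse the path
    refine no_path_aux ht (x₁ := x₄) (x₂ := x₃) (x₃ := x₂) (x₄ := x₁) h24.symm h13.symm a34.symm
      a12.symm e hy hx ?_
    rw [segment_symm ℝ x₄ x₃, segment_symm ℝ x₂ x₁, Set.inter_comm]
    exact h
  · exact no_path_aux ht h13 h24 a12 a34 e hx hy h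

/-- exactly one point of a collinear triple is a word with a hole -/
lemma triple_types {g₁ g₂ g₃ : Word K q} (h₁ : IsX g₁ ∨ IsZ g₁) (h₂ : IsX g₂ ∨ IsZ g₂)
    (h₃ : IsX g₃ ∨ IsZ g₃) (h12 : g₁ ≠ g₂) (h13 : g₁ ≠ g₃) (h23 : g₂ ≠ g₃)
    (hc : Collinear ℝ ({pos t g₁, pos t g₂, pos t g₃} : Set (ℝ × ℝ))) :
    (IsZ g₁ ∧ IsX g₂ ∧ IsX g₃) ∨ (IsX g₁ ∧ IsZ g₂ ∧ IsX g₃) ∨ (IsX g₁ ∧ IsX g₂ ∧ IsZ g₃) := by
  have n12 : pos t g₁ ≠ pos t g₂ := fun h => h12 (pos_inj ht h)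
  have n13 : pos t g₁ ≠ pos t g₃ := fun h => h13 (pos_inj ht h)
  have n23 : pos t g₂ ≠ pos t g₃ := fun h => h23 (pos_inj ht h)
  rcases hc.wbtw_or_wbtw_or_wbtw with h | h | h
  · obtain ⟨b, c, s, e1, e3⟩ := sbtw_structure ht h₂ ⟨h, n12.symm, n23⟩
    exact Or.inr (Or.inl ⟨e1.isX, e1.isZ, e3.isX⟩)
  · obtain ⟨b, c, s, e1, e3⟩ := sbtw_structure ht h₃ ⟨h, n23.symm, n13.symm⟩
    exact Or.inr (Or.inr ⟨e3.isX, e1.isX, e1.isZ⟩)
  · obtain ⟨b, c, s, e1, e3⟩ := sbtw_structure ht h₁ ⟨h, n13, n12⟩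
    exact Or.inl ⟨e1.isZ, e3.isX, e1.isX⟩

lemma config_noFour : NoFourCollinear (config t) := by
  classical
  intro S hS hcard hcol
  obtain ⟨p₁, S₁, hp₁, rfl, hS₁⟩ := Finset.card_eq_succ.mp hcard
  obtain ⟨p₂, p₃, p₄, h23, h24, h34, rfl⟩ := Finset.card_eq_three.mp hS₁
  simp only [Finset.mem_insert, Finset.mem_singleton, not_or] at hp₁
  obtain ⟨h12, h13, h14⟩ := hp₁
  have m1 := hS (show p₁ ∈ _ by simp)
  have m2 := hS (show p₂ ∈ _ by simp)
  have m3 := hS (show p₃ ∈ _ by simp)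
  have m4 := hS (show p₄ ∈ _ by simp)
  rw [mem_config] at m1 m2 m3 m4
  obtain ⟨g₁, t₁, rfl⟩ := m1
  obtain ⟨g₂, t₂, rfl⟩ := m2
  obtain ⟨g₃, t₃, rfl⟩ := m3
  obtain ⟨g₄, t₄, rfl⟩ := m4
  have d12 : g₁ ≠ g₂ := fun h => h12 (by rw [h])
  have d13 : g₁ ≠ g₃ := fun h => h13 (by rw [h])
  have d14 : g₁ ≠ g₄ := fun h => h14 (by rw [h])
  have d23 : g₂ ≠ g₃ := fun h => h23 (by rw [h])
  have d24 : g₂ ≠ g₄ := fun h => h24 (by rw [h])
  have d34 : g₃ ≠ g₄ := fun h => h34 (by rw [h])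
  have c123 := triple_types ht t₁ t₂ t₃ d12 d13 d23 (hcol.subset (by
    intro p hp; simp only [Set.mem_insert_iff, Set.mem_singleton_iff] at hp
    rcases hp with rfl | rfl | rfl <;> simp))
  have c124 := triple_types ht t₁ t₂ t₄ d12 d14 d24 (hcol.subset (by
    intro p hp; simp only [Set.mem_insert_iff, Set.mem_singleton_iff] at hp
    rcases hp with rfl | rfl | rfl <;> simp))
  have c134 := triple_types ht t₁ t₃ t₄ d13 d14 d34 (hcol.subset (by
    intro p hp; simp only [Set.mem_insert_iff, Set.mem_singleton_iff] at hp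
    rcases hp with rfl | rfl | rfl <;> simp))
  have c234 := triple_types ht t₂ t₃ t₄ d23 d24 d34 (hcol.subset (by
    intro p hp; simp only [Set.mem_insert_iff, Set.mem_singleton_iff] at hp
    rcases hp with rfl | rfl | rfl <;> simp))
  rcases c123 with ⟨z1, y2, y3⟩ | ⟨y1, z2, y3⟩ | ⟨y1, y2, z3⟩
  · rcases c234 with ⟨z2, _, _⟩ | ⟨_, z3, _⟩ | ⟨_, _, z4⟩
    · exact not_isX_of_isZ z2 y2
    · exact not_isX_of_isZ z3 y3
    · rcases c134 with ⟨_, _, y4⟩ | ⟨y1, _, _⟩ | ⟨y1, _, _⟩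
      · exact not_isX_of_isZ z4 y4
      · exact not_isX_of_isZ z1 y1
      · exact not_isX_of_isZ z1 y1
  · rcases c134 with ⟨z1, _, _⟩ | ⟨_, z3, _⟩ | ⟨_, _, z4⟩
    · exact not_isX_of_isZ z1 y1
    · exact not_isX_of_isZ z3 y3
    · rcases c234 with ⟨_, _, y4⟩ | ⟨y2, _, _⟩ | ⟨y2, _, _⟩
      · exact not_isX_of_isZ z4 y4
      · exact not_isX_of_isZ z2 y2
      · exact not_isX_of_isZ z2 y2
  · rcases c124 with ⟨z1, _, _⟩ | ⟨_, z2, _⟩ | ⟨_, _, z4⟩
    · exact not_isX_of_isZ z1 y1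
    · exact not_isX_of_isZ z2 y2
    · rcases c234 with ⟨z2, _, _⟩ | ⟨_, _, y4⟩ | ⟨_, y3, _⟩
      · exact not_isX_of_isZ z2 y2
      · exact not_isX_of_isZ z4 y4
      · exact not_isX_of_isZ z3 y3

end

end Pool.Agent.Helper35.Coll
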