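import Mathlib
import Pool.Agent.Helper35.T3

set_option autoImplicit false
set_option linter.unusedSectionVars false

open Filter

namespace Pool.Agent.Helper35.Coll

open Pool.Agent.CollTriples

variable {k q : ℕ}

/-- a word with a hole -/
def zword (b : Fin (k + 1)) (h : Fin k → Letter q) : Word (k + 1) q :=
  b.insertNth (α := fun _ => Option (Letter q)) none (fun i => some (h i))

/-- a full word -/
def xword (b : Fin (k + 1)) (l : Letter q) (h : Fin k → Letter q) : Word (k + 1) q :=
  b.insertNth (α := fun _ => Option (Letter q)) (some l) (fun i => some (h i))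

lemma zword_self (b : Fin (k + 1)) (h : Fin k → Letter q) : zword b h b = none := by
  simp [zword]

lemma zword_succAbove (b : Fin (k + 1)) (h : Fin k → Letter q) (i : Fin k) :
    zword b h (b.succAbove i) = some (h i) := by
  simp [zword]

lemma xword_self (b : Fin (k + 1)) (l : Letter q) (h : Fin k → Letter q) : xword b l h b = some l := by
  simp [xword]

lemma xword_succAbove (b : Fin (k + 1)) (l : Letter q) (h : Fin k → Letter q) (i : Fin k) :
    xword b l h (b.succAbove i) = some (h i) := by
  simp [xword]

lemma zword_ne_none (b : Fin (k + 1)) (h : Fin k → Letter q) (b' : Fin (k + 1)) (hb : b' ≠ b) :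
    zword b h b' ≠ none := by
  obtain ⟨i, rfl⟩ := Fin.exists_succAbove_eq hb
  rw [zword_succAbove]; simp

lemma sgn_zword (b : Fin (k + 1)) (h : Fin k → Letter q) : sgn (zword b h) = ∏ i, (h i).2 := by
  unfold sgn
  rw [Fin.prod_univ_succAbove _ b, zword_self]
  simp only [Option.elim_none, one_mul]
  apply Finset.prod_congr rfl
  intro i _
  rw [zword_succAbove]; rfl

lemma edge_word (b : Fin (k + 1)) (l : Letter q) (h : Fin k → Letter q) (hh : ∏ i, (h i).2 = 1) :
    Edge (xword b l h) (zword b h) b l := by
  refine ⟨zword_self b h, zword_ne_none b h, ?_, xword_self b l h, ?_⟩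
  · rw [sgn_zword, hh]
  · intro b' hb'
    obtain ⟨i, rfl⟩ := Fin.exists_succAbove_eq hb'
    rw [zword_succAbove, xword_succAbove]

lemma card_words_le (k q : ℕ) :
    (words (k + 1) q).card ≤ (2 * q) ^ (k + 1) + (k + 1) * (2 * q) ^ k := by
  classical
  have hsub : words (k + 1) q ⊆
      (Finset.univ : Finset (Fin (k + 1) → Letter q)).image (fun h b => some (h b)) ∪
      (Finset.univ : Finset (Fin (k + 1) × (Fin k → Letter q))).image (fun p => zword p.1 p.2) := by
    intro g hg
    rw [mem_words] at hg
    rw [Finset.mem_union]
    rcases hg with hX | ⟨b, hb, hb', _⟩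
    · left
      rw [Finset.mem_image]
      have : ∀ b, ∃ l, some l = g b := by
        intro b
        rcases h : g b with _ | l
        · exact absurd h (hX b)
        · exact ⟨l, rfl⟩
      choose l hl using this
      exact ⟨l, Finset.mem_univ _, funext hl⟩
    · right
      rw [Finset.mem_image]
      have : ∀ i, ∃ l, some l = g (b.succAbove i) := by
        intro i
        rcases h : g (b.succAbove i) with _ | l
        · exact absurd h (hb' _ (Fin.succAbove_ne b i))
        · exact ⟨l, rfl⟩
      choose l hl using this
      refine ⟨(b, l), Finset.mem_univ _, ?_⟩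
      funext b'
      by_cases hbb : b' = b
      · rw [hbb, hb]; exact zword_self b l
      · obtain ⟨i, rfl⟩ := Fin.exists_succAbove_eq hbb
        simp only
        rw [zword_succAbove, hl]
  refine (Finset.card_le_card hsub).trans ((Finset.card_union_le _ _).trans ?_)
  apply Nat.add_le_add
  · refine Finset.card_image_le.trans ?_
    rw [Finset.card_univ]
    simp only [Fintype.card_fun, Fintype.card_prod, Fintype.card_fin, Fintype.card_units_int]
    rw [mul_comm q 2]
  · refine Finset.card_image_le.trans ?_
    rw [Finset.card_univ]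
    simp only [Fintype.card_prod, Fintype.card_fun, Fintype.card_fin, Fintype.card_units_int]
    rw [mul_comm q 2]

/-- sequences of letters with sign product one -/
noncomputable def posSeq (k q : ℕ) : Finset (Fin k → Letter q) := by
  classical exact Finset.univ.filter (fun h => ∏ i, (h i).2 = 1)

lemma card_posSeq (k q : ℕ) : (2 * q) ^ (k + 1) ≤ 2 * (posSeq (k + 1) q).card := by
  classical
  have h1 : (Finset.univ : Finset (Fin (k + 1) → Letter q)).card = (2 * q) ^ (k + 1) := by
    rw [Finset.card_univ]
    simp only [Fintype.card_fun, Fintype.card_prod, Fintype.card_fin, Fintype.card_units_int]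
    rw [mul_comm q 2]
  have h2 : (Finset.univ.filter (fun h : Fin (k + 1) → Letter q => ¬ (∏ i, (h i).2 = 1))).card ≤
      (posSeq (k + 1) q).card := by
    apply Finset.card_le_card_of_injOn
      (fun h : Fin (k + 1) → Letter q => Function.update h 0 ((h 0).1, -(h 0).2))
    · intro h hh
      simp only [Finset.coe_filter, Finset.mem_univ, true_and, Set.mem_ofPred_eq] at hh
      simp only [posSeq, Finset.coe_filter, Finset.mem_univ, true_and, Set.mem_ofPred_eq]
      rw [Fin.prod_univ_succ] at hh ⊢
      have : ∏ i : Fin k, (Function.update h 0 ((h 0).1, -(h 0).2) i.succ).2 = ∏ i : Fin k, (h i.succ).2 := by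
        apply Finset.prod_congr rfl
        intro i _
        rw [Function.update_of_ne (Fin.succ_ne_zero i)]
      rw [this, Function.update_self]
      simp only
      rw [neg_mul]
      rcases Int.units_eq_one_or ((h 0).2 * ∏ i : Fin k, (h i.succ).2) with h3 | h3
      · exact absurd h3 hh
      · rw [h3, neg_neg]
    · intro h _ h' _ heq
      simp only at heq
      funext i
      by_cases hi : i = 0
      · subst hi
        have := congrFun heq 0
        rw [Function.update_self, Function.update_self] at this
        have e1 := congrArg Prod.fst this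
        have e2 := congrArg Prod.snd this
        simp only at e1 e2
        exact Prod.ext e1 (neg_injective e2)
      · have := congrFun heq i
        rwa [Function.update_of_ne hi, Function.update_of_ne hi] at this
  have h3 : (posSeq (k + 1) q).card +
      (Finset.univ.filter (fun h : Fin (k + 1) → Letter q => ¬ (∏ i, (h i).2 = 1))).card
      = (Finset.univ : Finset (Fin (k + 1) → Letter q)).card := by
    unfold posSeq
    exact Finset.card_filter_add_card_filter_not _
  omega

section
variable {t : Fin (k + 1) × Fin q → ℝ} (ht : Good t) [Nontrivial (Fin (k + 1) × Fin q)]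

include ht

/-- the collinear triple attached to data -/
noncomputable def triple (t : Fin (k + 1) × Fin q → ℝ)
    (p : (Fin (k + 1) × Fin q) × (Fin k → Letter q)) : Finset (ℝ × ℝ) :=
  {pos t (xword p.1.1 (p.1.2, 1) p.2), pos t (zword p.1.1 p.2), pos t (xword p.1.1 (p.1.2, -1) p.2)}

lemma triple_mem (p : (Fin (k + 1) × Fin q) × (Fin k → Letter q)) (hp : ∏ i, (p.2 i).2 = 1) :
    triple t p ∈ collinearTriples (config t) := by
  classical
  obtain ⟨⟨b, c⟩, h⟩ := p
  simp only at hp
  have e1 := edge_word b (c, 1) h hp
  have e2 := edge_word b (c, -1) h hp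
  have hne1 : xword b (c, 1) h ≠ zword b h := by
    intro heq; exact not_isX_of_isZ e1.isZ (heq ▸ e1.isX)
  have hne2 : xword b (c, -1) h ≠ zword b h := by
    intro heq; exact not_isX_of_isZ e2.isZ (heq ▸ e2.isX)
  have hne3 : xword b (c, 1) h ≠ xword b (c, -1) h := by
    intro heq
    have := congrFun heq b
    rw [xword_self, xword_self] at this
    simp only [Option.some.injEq, Prod.mk.injEq, true_and] at this
    exact absurd this (by decide)
  unfold collinearTriples
  rw [Finset.mem_filter, Finset.mem_powersetCard]
  refine ⟨⟨?_, ?_⟩, ?_⟩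
  · intro x hx
    unfold triple at hx
    simp only [Finset.mem_insert, Finset.mem_singleton] at hx
    rw [mem_config]
    rcases hx with rfl | rfl | rfl
    · exact ⟨_, Or.inl e1.isX, rfl⟩
    · exact ⟨_, Or.inr e1.isZ, rfl⟩
    · exact ⟨_, Or.inl e2.isX, rfl⟩
  · unfold triple
    rw [Finset.card_eq_three]
    exact ⟨_, _, _, fun h => hne1 (pos_inj ht h), fun h => hne3 (pos_inj ht h),
      fun h => hne2 (pos_inj ht h).symm, rfl⟩
  · unfold triple
    simp only [Finset.coe_insert, Finset.coe_singleton]
    have p1 := pos_edge t e1
    have p2 := pos_edge t e2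
    rw [collinear_iff_of_mem (p₀ := pos t (zword b h)) (by simp)]
    refine ⟨(t (b, c), (t (b, c)) ^ 2), ?_⟩
    intro p hp'
    simp only [Set.mem_insert_iff, Set.mem_singleton_iff] at hp'
    rcases hp' with rfl | rfl | rfl
    · refine ⟨1, ?_⟩
      rw [p1]
      ext <;> simp [add_comm]
    · exact ⟨0, by simp⟩
    · refine ⟨-1, ?_⟩
      rw [p2]
      ext <;> simp [add_comm]

lemma triple_inj (p p' : (Fin (k + 1) × Fin q) × (Fin k → Letter q)) (hp : ∏ i, (p.2 i).2 = 1)
    (hp' : ∏ i, (p'.2 i).2 = 1) (heq : triple t p = triple t p') : p = p' := by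
  classical
  obtain ⟨⟨b, c⟩, h⟩ := p
  obtain ⟨⟨b', c'⟩, h'⟩ := p'
  simp only at hp hp'
  have e1 := edge_word b (c, 1) h hp
  have e1' := edge_word b' (c', 1) h' hp'
  have e2' := edge_word b' (c', -1) h' hp'
  have hz : pos t (zword b h) ∈ triple t ((b', c'), h') := by
    rw [← heq]; unfold triple; simp
  have hx : pos t (xword b (c, 1) h) ∈ triple t ((b', c'), h') := by
    rw [← heq]; unfold triple; simp
  unfold triple at hz hx
  simp only [Finset.mem_insert, Finset.mem_singleton] at hz hx
  have hz' : zword b h = zword b' h' := by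
    rcases hz with hz | hz | hz
    · have := pos_inj ht hz
      exact absurd e1'.isX (this ▸ not_isX_of_isZ e1.isZ)
    · exact pos_inj ht hz
    · have := pos_inj ht hz
      exact absurd e2'.isX (this ▸ not_isX_of_isZ e1.isZ)
  have hbb : b = b' := by
    by_contra hcon
    have h1 := zword_ne_none b' h' b hcon
    rw [← hz', zword_self] at h1
    exact h1 rfl
  subst hbb
  have hh : h = h' := by
    funext i
    have := congrFun hz' (b.succAbove i)
    rw [zword_succAbove, zword_succAbove] at this
    exact Option.some_injective _ this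
  subst hh
  have hc : c = c' := by
    rcases hx with hx | hx | hx
    · have := congrFun (pos_inj ht hx) b
      rw [xword_self, xword_self] at this
      simp only [Option.some.injEq, Prod.mk.injEq, and_true] at this
      exact this
    · have := pos_inj ht hx
      exact absurd e1.isX (this ▸ not_isX_of_isZ e1.isZ)
    · have := congrFun (pos_inj ht hx) b
      rw [xword_self, xword_self] at this
      simp only [Option.some.injEq, Prod.mk.injEq] at this
      exact this.1
  rw [hc]

lemma card_triples_ge : ((k + 1) * q) * (posSeq k q).card ≤ (collinearTriples (config t)).card := by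
  classical
  have : ((Finset.univ : Finset (Fin (k + 1) × Fin q)) ×ˢ posSeq k q).card
      ≤ (collinearTriples (config t)).card := by
    apply Finset.card_le_card_of_injOn (fun p => triple t p)
    · intro p hp
      simp only [Finset.coe_product, Set.mem_prod, Finset.mem_coe, posSeq, Finset.mem_filter,
        Finset.mem_univ, true_and] at hp
      exact triple_mem ht p hp
    · intro p hp p' hp' heq
      simp only [Finset.coe_product, Set.mem_prod, Finset.mem_coe, posSeq, Finset.mem_filter,
        Finset.mem_univ, true_and] at hp hp'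
      exact triple_inj ht p p' hp hp' heq
  rw [Finset.card_product, Finset.card_univ] at this
  simpa using this

end

/-- the basic configurations -/
theorem base (q : ℕ) (hq : 2 ≤ q) : ∃ P : Finset (ℝ × ℝ), P.card ≤ 2 * (2 * q) ^ q ∧
    NoFourCollinear P ∧ ¬ HasSelfIntersectingPath P ∧
    q * (2 * q) ^ q ≤ 4 * (collinearTriples P).card := by
  classical
  obtain ⟨k, rfl⟩ : ∃ k, q = k + 2 := ⟨q - 2, by omega⟩
  obtain ⟨t, ht⟩ := exists_good (k + 1 + 1) (k + 2)
  have : Nontrivial (Fin (k + 1 + 1) × Fin (k + 2)) := inferInstance
  refine ⟨config t, ?_, config_noFour ht, config_no_path ht, ?_⟩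
  · have h1 : (config t).card ≤ (words (k + 1 + 1) (k + 2)).card := Finset.card_image_le
    have h2 := card_words_le (k + 1) (k + 2)
    have h3 : (k + 1 + 1) * (2 * (k + 2)) ^ (k + 1) ≤ (2 * (k + 2)) ^ (k + 1 + 1) := by
      rw [pow_succ (2 * (k + 2)) (k + 1), mul_comm]
      apply Nat.mul_le_mul_left
      omega
    calc (config t).card ≤ _ := h1.trans h2
      _ ≤ 2 * (2 * (k + 2)) ^ (k + 2) := by
        have : k + 1 + 1 = k + 2 := rfl
        rw [this] at *
        omega
  · have h1 := card_triples_ge ht
    have h2 := card_posSeq k (k + 2)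
    have h3 : (k + 2) * (2 * (k + 2)) ^ (k + 2) = 2 * ((k + 1 + 1) * (k + 2) * (2 * (k + 2)) ^ (k + 1)) := by
      rw [pow_succ (2 * (k + 2)) (k + 1)]
      ring
    rw [h3]
    calc 2 * ((k + 1 + 1) * (k + 2) * (2 * (k + 2)) ^ (k + 1))
        ≤ 2 * ((k + 1 + 1) * (k + 2) * (2 * (posSeq (k + 1) (k + 2)).card)) := by
          apply Nat.mul_le_mul_left
          apply Nat.mul_le_mul_left
          exact h2
      _ = 4 * ((k + 1 + 1) * (k + 2) * (posSeq (k + 1) (k + 2)).card) := by ring
      _ ≤ _ := Nat.mul_le_mul_left _ h1

end Pool.Agent.Helper35.Coll
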