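import Mathlib
import Pool.Agent.Helper35.CollDefs

set_option autoImplicit false

open Filter

namespace Pool.Agent.Helper35.Coll

open Pool.Agent.CollTriples

/-- `n` points with at least `T` collinear triples and without the forbidden structures -/
def Nice (n T : ℕ) : Prop :=
  ∃ P : Finset (ℝ × ℝ), P.card = n ∧ NoFourCollinear P ∧ ¬ HasSelfIntersectingPath P ∧
    T ≤ (collinearTriples P).card

section shift

variable (e : (ℝ × ℝ) ≃ᵃ[ℝ] (ℝ × ℝ))

lemma collinear_image_of (s : Set (ℝ × ℝ)) (h : Collinear ℝ s) : Collinear ℝ (e '' s) := by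
  rw [collinear_iff_exists_forall_eq_smul_vadd] at h ⊢
  obtain ⟨p₀, v, hv⟩ := h
  refine ⟨e p₀, e.linear v, ?_⟩
  rintro _ ⟨p, hp, rfl⟩
  obtain ⟨r, hr⟩ := hv p hp
  refine ⟨r, ?_⟩
  rw [hr, AffineEquiv.map_vadd, map_smul]

lemma collinear_image_iff (s : Set (ℝ × ℝ)) : Collinear ℝ (e '' s) ↔ Collinear ℝ s := by
  constructor
  · intro h
    have := collinear_image_of e.symm _ h
    rw [Set.image_image] at this
    simpa using this
  · exact collinear_image_of e s

open Classical in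
lemma noFour_image {P : Finset (ℝ × ℝ)} (h : NoFourCollinear P) : NoFourCollinear (P.image e) := by
  intro S hS hcard hcol
  have hS' : S.image e.symm ⊆ P := by
    intro p hp
    rw [Finset.mem_image] at hp
    obtain ⟨x, hx, rfl⟩ := hp
    have := hS hx
    rw [Finset.mem_image] at this
    obtain ⟨y, hy, rfl⟩ := this
    simpa using hy
  apply h (S.image e.symm) hS'
  · rw [Finset.card_image_of_injective _ e.symm.injective, hcard]
  · rw [Finset.coe_image]
    exact (collinear_image_iff e.symm _).mpr hcol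

open Classical in
lemma adj_image {P : Finset (ℝ × ℝ)} {a b : ℝ × ℝ} (h : (graphG (P.image e)).Adj a b) :
    (graphG P).Adj (e.symm a) (e.symm b) := by
  obtain ⟨ha, hb, c, hc, h⟩ := h
  rw [Finset.mem_image] at ha hb hc
  obtain ⟨a, ha, rfl⟩ := ha
  obtain ⟨b, hb, rfl⟩ := hb
  obtain ⟨c, hc, rfl⟩ := hc
  refine ⟨by simpa using ha, by simpa using hb, c, hc, ?_⟩
  rw [e.sbtw_map_iff, e.sbtw_map_iff] at h
  simpa using h

open Classical in
lemma noPath_image {P : Finset (ℝ × ℝ)} (h : ¬ HasSelfIntersectingPath P) :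
    ¬ HasSelfIntersectingPath (P.image e) := by
  rintro ⟨x₁, x₂, x₃, x₄, h12, h13, h14, h23, h24, h34, a12, a23, a34, p, hp1, hp2⟩
  apply h
  have i := e.symm.injective
  refine ⟨e.symm x₁, e.symm x₂, e.symm x₃, e.symm x₄, i.ne h12, i.ne h13, i.ne h14, i.ne h23,
    i.ne h24, i.ne h34, adj_image e a12, adj_image e a23, adj_image e a34, e.symm p, ?_, ?_⟩
  · have := image_segment ℝ (e.symm : (ℝ × ℝ) →ᵃ[ℝ] (ℝ × ℝ)) x₁ x₂
    simp only [AffineEquiv.coe_coe] at this
    rw [← this]
    exact ⟨p, hp1, rfl⟩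
  · have := image_segment ℝ (e.symm : (ℝ × ℝ) →ᵃ[ℝ] (ℝ × ℝ)) x₃ x₄
    simp only [AffineEquiv.coe_coe] at this
    rw [← this]
    exact ⟨p, hp2, rfl⟩

open Classical in
lemma card_triples_image (P : Finset (ℝ × ℝ)) :
    (collinearTriples P).card ≤ (collinearTriples (P.image e)).card := by
  apply Finset.card_le_card_of_injOn (fun S => S.image e)
  · intro S hS
    simp only [collinearTriples, Finset.coe_filter, Finset.mem_powersetCard, Set.mem_ofPred_eq] at hS ⊢
    obtain ⟨⟨h1, h2⟩, h3⟩ := hS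
    refine ⟨⟨Finset.image_subset_image h1, ?_⟩, ?_⟩
    · rw [Finset.card_image_of_injective _ e.injective, h2]
    · rw [Finset.coe_image]
      exact (collinear_image_iff e _).mpr h3
  · intro S _ S' _ heq
    exact Finset.image_injective e.injective heq

end shift

/-- determinant form of collinearity (one direction) -/
lemma det_of_collinear {p q r : ℝ × ℝ} (h : Collinear ℝ ({p, q, r} : Set (ℝ × ℝ))) :
    (q.1 - p.1) * (r.2 - p.2) - (q.2 - p.2) * (r.1 - p.1) = 0 := by
  rw [collinear_iff_of_mem (p₀ := p) (by simp)] at h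
  obtain ⟨v, hv⟩ := h
  obtain ⟨a, ha⟩ := hv q (by simp)
  obtain ⟨b, hb⟩ := hv r (by simp)
  rw [ha, hb]
  simp only [vadd_eq_add, Prod.fst_add, Prod.snd_add, Prod.smul_fst, Prod.smul_snd, smul_eq_mul]
  ring

lemma eventually_quadratic (a b c d : ℝ) (h : a ≠ 0 ∨ b ≠ 0) :
    ∀ᶠ s : ℝ in atTop, a * (s ^ 2 + c) - b * (s + d) ≠ 0 := by
  have hp : (Polynomial.C a * Polynomial.X ^ 2 - Polynomial.C b * Polynomial.X
      + Polynomial.C (a * c - b * d) : Polynomial ℝ) ≠ 0 := by
    intro h0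
    rcases h with h | h
    · have := congrArg (fun p => Polynomial.coeff p 2) h0
      simp [Polynomial.coeff_X, Polynomial.coeff_C] at this
      exact h this
    · have := congrArg (fun p => Polynomial.coeff p 1) h0
      simp [Polynomial.coeff_X, Polynomial.coeff_C] at this
      exact h this
  filter_upwards [Polynomial.eventually_atTop_not_isRoot _ hp] with s hs h0
  apply hs
  rw [Polynomial.IsRoot]
  simp only [Polynomial.eval_add, Polynomial.eval_sub, Polynomial.eval_mul, Polynomial.eval_C,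
    Polynomial.eval_pow, Polynomial.eval_X]
  linarith

/-- a generic translation -/
lemma exists_generic_shift (P Q : Finset (ℝ × ℝ)) : ∃ t : ℝ × ℝ,
    (∀ p ∈ P, ∀ r ∈ Q, p ≠ r + t) ∧
    (∀ p ∈ P, ∀ p' ∈ P, ∀ r ∈ Q, p ≠ p' → ¬ Collinear ℝ ({p, p', r + t} : Set (ℝ × ℝ))) ∧
    (∀ p ∈ P, ∀ r ∈ Q, ∀ r' ∈ Q, r ≠ r' → ¬ Collinear ℝ ({p, r + t, r' + t} : Set (ℝ × ℝ))) := by
  have h1 : ∀ᶠ s : ℝ in atTop, ∀ p ∈ P, ∀ r ∈ Q, p ≠ r + (s, s ^ 2) := by
    rw [Finset.eventually_all]
    intro p _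
    rw [Finset.eventually_all]
    intro r _
    filter_upwards [eventually_gt_atTop (p.1 - r.1)] with s hs h
    have := congrArg Prod.fst h
    simp only [Prod.fst_add] at this
    linarith
  have h2 : ∀ᶠ s : ℝ in atTop, ∀ p ∈ P, ∀ p' ∈ P, ∀ r ∈ Q, p ≠ p' →
      ¬ Collinear ℝ ({p, p', r + (s, s ^ 2)} : Set (ℝ × ℝ)) := by
    rw [Finset.eventually_all]
    intro p _
    rw [Finset.eventually_all]
    intro p' _
    rw [Finset.eventually_all]
    intro r _
    by_cases hpp : p = p'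
    · exact Filter.Eventually.of_forall (fun _ h => absurd hpp h)
    · have hne : p'.1 - p.1 ≠ 0 ∨ p'.2 - p.2 ≠ 0 := by
        by_contra hcon
        push Not at hcon
        apply hpp
        ext
        · linarith [hcon.1]
        · linarith [hcon.2]
      filter_upwards [eventually_quadratic (p'.1 - p.1) (p'.2 - p.2) (r.2 - p.2) (r.1 - p.1) hne]
        with s hs _ hcol
      apply hs
      have := det_of_collinear hcol
      simp only [Prod.fst_add, Prod.snd_add] at this
      linarith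
  have h3 : ∀ᶠ s : ℝ in atTop, ∀ p ∈ P, ∀ r ∈ Q, ∀ r' ∈ Q, r ≠ r' →
      ¬ Collinear ℝ ({p, r + (s, s ^ 2), r' + (s, s ^ 2)} : Set (ℝ × ℝ)) := by
    rw [Finset.eventually_all]
    intro p _
    rw [Finset.eventually_all]
    intro r _
    rw [Finset.eventually_all]
    intro r' _
    by_cases hrr : r = r'
    · exact Filter.Eventually.of_forall (fun _ h => absurd hrr h)
    · have hne : r'.1 - r.1 ≠ 0 ∨ r'.2 - r.2 ≠ 0 := by
        by_contra hcon
        push Not at hcon
        apply hrr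
        ext
        · linarith [hcon.1]
        · linarith [hcon.2]
      filter_upwards [eventually_quadratic (r'.1 - r.1) (r'.2 - r.2) (r.2 - p.2) (r.1 - p.1) hne]
        with s hs _ hcol
      apply hs
      have := det_of_collinear hcol
      simp only [Prod.fst_add, Prod.snd_add] at this
      linarith
  obtain ⟨s, hs1, hs2, hs3⟩ := (h1.and (h2.and h3)).exists
  exact ⟨(s, s ^ 2), hs1, hs2, hs3⟩

open Classical in
/-- superadditivity -/
theorem nice_add {n m T U : ℕ} (h : Nice n T) (h' : Nice m U) : Nice (n + m) (T + U) := by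
  obtain ⟨P, hPn, hP4, hPp, hPT⟩ := h
  obtain ⟨Q, hQn, hQ4, hQp, hQT⟩ := h'
  obtain ⟨t, g1, g2, g3⟩ := exists_generic_shift P Q
  set e : (ℝ × ℝ) ≃ᵃ[ℝ] (ℝ × ℝ) := AffineEquiv.constVAdd ℝ (ℝ × ℝ) t with he
  have hev : ∀ p, e p = p + t := by
    intro p
    simp [he, AffineEquiv.constVAdd_apply, add_comm]
  set Q' := Q.image e with hQ'
  have memQ' : ∀ x, x ∈ Q' ↔ ∃ r ∈ Q, x = r + t := by
    intro x
    rw [hQ', Finset.mem_image]
    constructor
    · rintro ⟨r, hr, rfl⟩; exact ⟨r, hr, hev r⟩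
    · rintro ⟨r, hr, rfl⟩; exact ⟨r, hr, hev r⟩
  have hdisj : Disjoint P Q' := by
    rw [Finset.disjoint_left]
    intro p hp hp'
    obtain ⟨r, hr, h⟩ := (memQ' p).mp hp'
    exact g1 p hp r hr h
  have hdisj' : ∀ x, x ∈ P → x ∈ Q' → False := fun x hx hx' => Finset.disjoint_left.mp hdisj hx hx'
  -- no mixed collinear triple
  have hmix2 : ∀ x ∈ P, ∀ y ∈ P, ∀ z ∈ Q', x ≠ y → ¬ Collinear ℝ ({x, y, z} : Set (ℝ × ℝ)) := by
    intro x hx y hy z hz hxy
    obtain ⟨r, hr, rfl⟩ := (memQ' z).mp hz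
    exact g2 x hx y hy r hr hxy
  have hmix1 : ∀ x ∈ P, ∀ y ∈ Q', ∀ z ∈ Q', y ≠ z → ¬ Collinear ℝ ({x, y, z} : Set (ℝ × ℝ)) := by
    intro x hx y hy z hz hyz
    obtain ⟨r, hr, rfl⟩ := (memQ' y).mp hy
    obtain ⟨r', hr', rfl⟩ := (memQ' z).mp hz
    exact g3 x hx r hr r' hr' (fun h => hyz (by rw [h]))
  have key : ∀ x y z, x ∈ P ∪ Q' → y ∈ P ∪ Q' → z ∈ P ∪ Q' → x ≠ y → x ≠ z → y ≠ z →
      Collinear ℝ ({x, y, z} : Set (ℝ × ℝ)) → (x ∈ P ∧ y ∈ P ∧ z ∈ P) ∨ (x ∈ Q' ∧ y ∈ Q' ∧ z ∈ Q') := by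
    intro x y z hx hy hz hxy hxz hyz hcol
    have c1 : Collinear ℝ ({x, z, y} : Set (ℝ × ℝ)) := by
      rwa [Set.pair_comm z y]
    have c2 : Collinear ℝ ({y, x, z} : Set (ℝ × ℝ)) := by
      rwa [Set.insert_comm y x]
    have c3 : Collinear ℝ ({y, z, x} : Set (ℝ × ℝ)) := by
      rwa [Set.pair_comm z x, Set.insert_comm y x]
    have c4 : Collinear ℝ ({z, x, y} : Set (ℝ × ℝ)) := by
      rwa [Set.insert_comm z x, Set.pair_comm z y]
    rw [Finset.mem_union] at hx hy hz
    rcases hx with hx | hx <;> rcases hy with hy | hy <;> rcases hz with hz | hz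
    · exact Or.inl ⟨hx, hy, hz⟩
    · exact absurd hcol (hmix2 x hx y hy z hz hxy)
    · exact absurd c1 (hmix2 x hx z hz y hy hxz)
    · exact absurd hcol (hmix1 x hx y hy z hz hyz)
    · exact absurd c3 (hmix2 y hy z hz x hx hyz)
    · exact absurd c2 (hmix1 y hy x hx z hz hxz)
    · exact absurd c4 (hmix1 z hz x hx y hy hxy)
    · exact Or.inr ⟨hx, hy, hz⟩
  have hQ'4 : NoFourCollinear Q' := noFour_image e hQ4
  have hQ'p : ¬ HasSelfIntersectingPath Q' := noPath_image e hQp
  have hadj : ∀ a b, (graphG (P ∪ Q')).Adj a b → (graphG P).Adj a b ∨ (graphG Q').Adj a b := by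
    rintro a b ⟨ha, hb, c, hc, h⟩
    have hcol : Collinear ℝ ({a, b, c} : Set (ℝ × ℝ)) ∧ a ≠ b ∧ a ≠ c ∧ b ≠ c := by
      rcases h with h | h
      · exact ⟨h.wbtw.collinear, h.2.1.symm, h.left_ne_right, h.2.2⟩
      · refine ⟨?_, h.2.1, h.2.2, h.left_ne_right⟩
        rw [Set.insert_comm]
        exact h.wbtw.collinear
    rcases key a b c ha hb hc hcol.2.1 hcol.2.2.1 hcol.2.2.2 hcol.1 with h' | h'
    · exact Or.inl ⟨h'.1, h'.2.1, c, h'.2.2, h⟩
    · exact Or.inr ⟨h'.1, h'.2.1, c, h'.2.2, h⟩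
  refine ⟨P ∪ Q', ?_, ?_, ?_, ?_⟩
  · rw [Finset.card_union_of_disjoint hdisj, hQ', Finset.card_image_of_injective _ e.injective, hPn, hQn]
  · intro S hS hcard hcol
    by_cases hSP : S ⊆ P
    · exact hP4 S hSP hcard hcol
    by_cases hSQ : S ⊆ Q'
    · exact hQ'4 S hSQ hcard hcol
    rw [Finset.not_subset] at hSP hSQ
    obtain ⟨x, hxS, hxP⟩ := hSP
    obtain ⟨y, hyS, hyQ⟩ := hSQ
    have hxQ : x ∈ Q' := (Finset.mem_union.mp (hS hxS)).resolve_left hxP
    have hyP : y ∈ P := (Finset.mem_union.mp (hS hyS)).resolve_right hyQ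
    have hxy : x ≠ y := by rintro rfl; exact hxP hyP
    have : ∃ z ∈ S, z ≠ x ∧ z ≠ y := by
      by_contra hcon
      push Not at hcon
      have : S ⊆ {x, y} := by
        intro z hz
        by_cases hzx : z = x
        · simp [hzx]
        · simp [hcon z hz hzx]
      have := (Finset.card_le_card this).trans Finset.card_le_two
      omega
    obtain ⟨z, hzS, hzx, hzy⟩ := this
    have hc3 : Collinear ℝ ({x, y, z} : Set (ℝ × ℝ)) := by
      apply hcol.subset
      intro w hw
      simp only [Set.mem_insert_iff, Set.mem_singleton_iff] at hw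
      rcases hw with rfl | rfl | rfl <;> assumption
    rcases key x y z (hS hxS) (hS hyS) (hS hzS) hxy hzx.symm hzy.symm hc3 with h | h
    · exact hxP h.1
    · exact hyQ h.2.1
  · rintro ⟨x₁, x₂, x₃, x₄, h12, h13, h14, h23, h24, h34, a12, a23, a34, hint⟩
    rcases hadj _ _ a12 with b12 | b12 <;> rcases hadj _ _ a23 with b23 | b23
    · rcases hadj _ _ a34 with b34 | b34
      · exact hPp ⟨x₁, x₂, x₃, x₄, h12, h13, h14, h23, h24, h34, b12, b23, b34, hint⟩
      · exact hdisj' _ b23.2.1 b34.1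
    · exact hdisj' _ b12.2.1 b23.1
    · exact hdisj' _ b23.1 b12.2.1
    · rcases hadj _ _ a34 with b34 | b34
      · exact hdisj' _ b34.1 b23.2.1
      · exact hQ'p ⟨x₁, x₂, x₃, x₄, h12, h13, h14, h23, h24, h34, b12, b23, b34, hint⟩
  · have hsub : collinearTriples P ∪ collinearTriples Q' ⊆ collinearTriples (P ∪ Q') := by
      intro S hS
      rw [Finset.mem_union] at hS
      simp only [collinearTriples, Finset.mem_filter, Finset.mem_powersetCard] at hS ⊢
      rcases hS with ⟨⟨h1, h2⟩, h3⟩ | ⟨⟨h1, h2⟩, h3⟩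
      · exact ⟨⟨h1.trans Finset.subset_union_left, h2⟩, h3⟩
      · exact ⟨⟨h1.trans Finset.subset_union_right, h2⟩, h3⟩
    have hd : Disjoint (collinearTriples P) (collinearTriples Q') := by
      rw [Finset.disjoint_left]
      intro S hS hS'
      simp only [collinearTriples, Finset.mem_filter, Finset.mem_powersetCard] at hS hS'
      have : S.Nonempty := by
        rw [← Finset.card_pos]; omega
      obtain ⟨x, hx⟩ := this
      exact hdisj' x (hS.1.1 hx) (hS'.1.1 hx)
    calc T + U ≤ (collinearTriples P).card + (collinearTriples Q').card :=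
          Nat.add_le_add hPT (hQT.trans (card_triples_image e Q))
      _ = (collinearTriples P ∪ collinearTriples Q').card := (Finset.card_union_of_disjoint hd).symm
      _ ≤ _ := Finset.card_le_card hsub

lemma nice_mono {n T U : ℕ} (h : Nice n T) (hU : U ≤ T) : Nice n U := by
  obtain ⟨P, h1, h2, h3, h4⟩ := h
  exact ⟨P, h1, h2, h3, hU.trans h4⟩

lemma nice_zero : Nice 0 0 := by
  refine ⟨∅, rfl, ?_, ?_, Nat.zero_le _⟩
  · intro S hS hcard
    rw [Finset.subset_empty] at hS
    subst hS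
    simp at hcard
  · rintro ⟨x₁, x₂, x₃, x₄, _, _, _, _, _, _, a, _⟩
    simpa using a.1

lemma nice_one : Nice 1 0 := by
  refine ⟨{0}, rfl, ?_, ?_, Nat.zero_le _⟩
  · intro S hS hcard
    have := Finset.card_le_card hS
    simp at this
    omega
  · rintro ⟨x₁, x₂, x₃, x₄, h, _, _, _, _, _, a, _⟩
    have h1 := a.1
    have h2 := a.2.1
    simp only [Finset.mem_singleton] at h1 h2
    exact h (h1.trans h2.symm)

lemma nice_pad (m : ℕ) : Nice m 0 := by
  induction m with
  | zero => exact nice_zero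
  | succ m ih => exact nice_add ih nice_one

lemma nice_mul {n T : ℕ} (h : Nice n T) (k : ℕ) : Nice (k * n) (k * T) := by
  induction k with
  | zero => simpa using nice_zero
  | succ k ih =>
    have := nice_add ih h
    rw [Nat.succ_mul, Nat.succ_mul]
    exact this

open Classical in
/-- lower bound for `f` -/
lemma lt_f_of_nice {n T : ℕ} (h : Nice n T) : T < f n := by
  obtain ⟨P, h1, h2, h3, h4⟩ := h
  have hne : {m : ℕ | ∀ P : Finset (ℝ × ℝ), P.card = n → NoFourCollinear P →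
    m ≤ (collinearTriples P).card → HasSelfIntersectingPath P}.Nonempty := by
    refine ⟨n.choose 3 + 1, ?_⟩
    intro P hP _ hm
    exfalso
    have : (collinearTriples P).card ≤ n.choose 3 := by
      unfold collinearTriples
      refine (Finset.card_filter_le _ _).trans ?_
      rw [Finset.card_powersetCard, hP]
    omega
  have hmem := Nat.sInf_mem hne
  by_contra hcon
  push Not at hcon
  exact h3 (hmem P h1 h2 (hcon.trans h4))

end Pool.Agent.Helper35.Coll
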