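import Mathlib
import Pool.Agent.Helper35.T4
import Pool.Agent.Helper35.T5

set_option autoImplicit false

open Filter

namespace Pool.Agent.Helper35.Coll

open Pool.Agent.CollTriples

lemma nice_of_base (q n : ℕ) (hq : 2 ≤ q) (hn : 2 * (2 * q) ^ q ≤ n) :
    ∃ T, Nice n T ∧ n * q ≤ 16 * T := by
  obtain ⟨P, h1, h2, h3, h4⟩ := base q hq
  have hN : Nice P.card (collinearTriples P).card := ⟨P, rfl, h2, h3, le_rfl⟩
  set B := 2 * (2 * q) ^ q with hB
  have hBpos : 0 < B := by positivity
  have hk := nice_mul hN (n / B)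
  have hle : n / B * P.card ≤ n :=
    (Nat.mul_le_mul_left _ h1).trans (Nat.div_mul_le_self n B)
  have hpad := nice_add hk (nice_pad (n - n / B * P.card))
  rw [Nat.add_sub_cancel' hle, Nat.add_zero] at hpad
  refine ⟨_, hpad, ?_⟩
  have hk1 : 1 ≤ n / B := (Nat.one_le_div_iff hBpos).mpr hn
  have hk2 : n < (n / B + 1) * B := by
    have h7 := Nat.div_add_mod n B
    have h8 := Nat.mod_lt n hBpos
    nlinarith
  have h5 : q * B ≤ 8 * (collinearTriples P).card := by
    have : q * B = 2 * (q * (2 * q) ^ q) := by rw [hB]; ring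
    omega
  have h6 : n ≤ 2 * (n / B) * B := by nlinarith
  calc n * q ≤ (2 * (n / B) * B) * q := Nat.mul_le_mul_right _ h6
    _ = 2 * (n / B) * (q * B) := by ring
    _ ≤ 2 * (n / B) * (8 * (collinearTriples P).card) := Nat.mul_le_mul_left _ h5
    _ = 16 * (n / B * (collinearTriples P).card) := by ring

/-- the asymptotic form -/
lemma nice_asymptotic : ∀ᶠ n : ℕ in atTop, ∃ T, Nice n T ∧
    (1 / 64 : ℝ) * (n * Real.log n / Real.log (Real.log n)) ≤ (T : ℝ) := by
  have hL : Tendsto (fun n : ℕ => Real.log (n : ℝ)) atTop atTop :=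
    Real.tendsto_log_atTop.comp tendsto_natCast_atTop_atTop
  have e1 : ∀ᶠ L : ℝ in atTop, 4 * Real.log L ≤ L := by
    have h := (Real.isLittleO_log_id_atTop.def (show (0 : ℝ) < 1 / 4 by norm_num))
    filter_upwards [h, eventually_ge_atTop (1 : ℝ)] with L hL1 hL2
    simp only [id, Real.norm_eq_abs] at hL1
    rw [abs_of_nonneg (Real.log_nonneg hL2), abs_of_nonneg (by linarith)] at hL1
    linarith
  have e2 : ∀ᶠ L : ℝ in atTop, 1 ≤ Real.log L := Real.tendsto_log_atTop.eventually_ge_atTop 1
  have e3 : ∀ᶠ L : ℝ in atTop, 2 ≤ L := eventually_ge_atTop 2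
  filter_upwards [hL.eventually e1, hL.eventually e2, hL.eventually e3,
    eventually_gt_atTop 0] with n h1 h2 h3 hn0
  set L := Real.log (n : ℝ) with hLdef
  set l := Real.log L with hldef
  have hlpos : 0 < l := by linarith
  have hLpos : 0 < L := by linarith
  set q := ⌊L / (2 * l)⌋₊ with hqdef
  have hnn : (0 : ℝ) ≤ L / (2 * l) := by positivity
  have hq1 : (q : ℝ) ≤ L / (2 * l) := Nat.floor_le hnn
  have hq2 : L / (2 * l) < q + 1 := Nat.lt_floor_add_one _
  have h4 : (2 : ℝ) ≤ L / (2 * l) := by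
    rw [le_div_iff₀ (by positivity)]
    linarith
  have hq : 2 ≤ q := by
    apply Nat.le_floor
    simpa using h4
  have hqR : (2 : ℝ) ≤ q := by exact_mod_cast hq
  -- the size condition
  have hsize : 2 * (2 * q) ^ q ≤ n := by
    have hpos : (0 : ℝ) < 2 * (2 * q) ^ q := by positivity
    have hlog : Real.log (2 * (2 * (q : ℝ)) ^ q) ≤ L := by
      rw [Real.log_mul (by norm_num) (by positivity), Real.log_pow]
      have h5 : Real.log (2 * (q : ℝ)) ≤ l := by
        apply Real.log_le_log (by positivity)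
        have : 2 * (q : ℝ) ≤ L / l := by
          calc 2 * (q : ℝ) ≤ 2 * (L / (2 * l)) := by linarith
            _ = L / l := by field_simp
        refine this.trans ?_
        rw [div_le_iff₀ hlpos]
        nlinarith
      have h6 : (q : ℝ) * Real.log (2 * (q : ℝ)) ≤ L / 2 := by
        calc (q : ℝ) * Real.log (2 * (q : ℝ)) ≤ q * l :=
              mul_le_mul_of_nonneg_left h5 (by positivity)
          _ ≤ L / (2 * l) * l := mul_le_mul_of_nonneg_right hq1 hlpos.le
          _ = L / 2 := by field_simp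
      have h7 : Real.log 2 < 1 := by
        have := Real.log_two_lt_d9
        linarith
      linarith
    have : (2 * (2 * (q : ℝ)) ^ q) ≤ n := by
      rw [Real.log_le_iff_le_exp hpos, hLdef, Real.exp_log (by exact_mod_cast hn0)] at hlog
      exact hlog
    exact_mod_cast this
  obtain ⟨T, hT, hnT⟩ := nice_of_base q n hq hsize
  refine ⟨T, hT, ?_⟩
  have hnT' : (n : ℝ) * q ≤ 16 * T := by exact_mod_cast hnT
  have h8 : L / (4 * l) ≤ q := by
    have h9 : L / (4 * l) = L / (2 * l) / 2 := by field_simp; ring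
    rw [h9]
    linarith
  have hn : (0 : ℝ) ≤ n := by positivity
  have h10 : (n : ℝ) * (L / (4 * l)) ≤ 16 * T := (mul_le_mul_of_nonneg_left h8 hn).trans hnT'
  have h11 : (1 / 64 : ℝ) * (n * L / l) = (n * (L / (4 * l))) / 16 := by
    field_simp; ring
  rw [h11]
  linarith

end Pool.Agent.Helper35.Coll
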