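import Mathlib

/-!
# Cores for the second neighbourhood conjecture

Digraphs are arbitrary relations on a finite type.
-/

open Finset

namespace SNCore

variable {V : Type}

open Classical in
/-- The out-neighbours of `v` in the induced sub-digraph `D[A]`. -/
noncomputable def outN (D : V → V → Prop) (A : Finset V) (v : V) : Finset V :=
  A.filter (fun x => D v x)

open Classical in
/-- The vertices at distance exactly two from `v` in the induced sub-digraph `D[A]`. -/
noncomputable def secN (D : V → V → Prop) (A : Finset V) (v : V) : Finset V :=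
  A.filter (fun x => x ≠ v ∧ ¬ D v x ∧ ∃ u ∈ A, D v u ∧ D u x)

open Classical in
/-- The out-boundary of `B` in `D[A]`: the vertices of `A` outside `B` that are out-neighbours
of a vertex of `B`. -/
noncomputable def bdry (D : V → V → Prop) (A B : Finset V) : Finset V :=
  A.filter (fun x => x ∉ B ∧ ∃ s ∈ B, D s x)

open Classical in
/-- The vertices of `A` that are neither in `B` nor out-neighbours of a vertex of `B`. -/
noncomputable def rest (D : V → V → Prop) (A B : Finset V) : Finset V :=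
  A.filter (fun x => x ∉ B ∧ ∀ s ∈ B, ¬ D s x)

open Classical in
/-- The vertices of `rest D A B` that are out-neighbours of a vertex of `W`. -/
noncomputable def fresh (D : V → V → Prop) (A B W : Finset V) : Finset V :=
  (rest D A B).filter (fun x => ∃ s ∈ W, D s x)

/-- Hall's condition, with factor `g`, from the boundary of `B` to the rest of `A`. -/
def Hall (D : V → V → Prop) (g : ℝ) (w : V → ℝ) (A B : Finset V) : Prop :=
  ∀ W ⊆ bdry D A B, g * ∑ x ∈ W, w x ≤ ∑ x ∈ fresh D A B W, w x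

theorem mem_outN {D : V → V → Prop} {A : Finset V} {v x : V} :
    x ∈ outN D A v ↔ x ∈ A ∧ D v x := by
  simp [outN]

theorem mem_secN {D : V → V → Prop} {A : Finset V} {v x : V} :
    x ∈ secN D A v ↔ x ∈ A ∧ x ≠ v ∧ ¬ D v x ∧ ∃ u ∈ A, D v u ∧ D u x := by
  simp [secN]

theorem mem_bdry {D : V → V → Prop} {A B : Finset V} {x : V} :
    x ∈ bdry D A B ↔ x ∈ A ∧ x ∉ B ∧ ∃ s ∈ B, D s x := by
  simp [bdry]

theorem mem_rest {D : V → V → Prop} {A B : Finset V} {x : V} :
    x ∈ rest D A B ↔ x ∈ A ∧ x ∉ B ∧ ∀ s ∈ B, ¬ D s x := by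
  simp [rest]

theorem mem_fresh {D : V → V → Prop} {A B W : Finset V} {x : V} :
    x ∈ fresh D A B W ↔ (x ∈ A ∧ x ∉ B ∧ ∀ s ∈ B, ¬ D s x) ∧ ∃ s ∈ W, D s x := by
  simp [fresh, rest]

variable [Fintype V]

/-- Transfer: if `A` satisfies Hall's condition in `D`, the difference
`w(N⁺⁺(v)) - g w(N⁺(v))` is at least as large in `D` as in `D[A]`, for every `v` in `A`. -/
theorem transfer (D : V → V → Prop) (g : ℝ) (w : V → ℝ) (hw : ∀ x, 0 ≤ w x)
    (A : Finset V) (hA : Hall D g w univ A) (v : V) (hv : v ∈ A) :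
    ∑ x ∈ secN D A v, w x - g * ∑ x ∈ outN D A v, w x
      ≤ ∑ x ∈ secN D univ v, w x - g * ∑ x ∈ outN D univ v, w x := by
  classical
  set W : Finset V := (outN D univ v) \ A with hW
  have h1 : W ⊆ bdry D univ A := by
    intro x hx
    rw [hW, mem_sdiff, mem_outN] at hx
    rw [mem_bdry]
    exact ⟨mem_univ _, hx.2, v, hv, hx.1.2⟩
  have h2 := hA W h1
  have h3 : outN D univ v = outN D A v ∪ W := by
    ext x
    rw [hW, mem_union, mem_sdiff, mem_outN, mem_outN]
    by_cases hx : x ∈ A <;> simp [hx]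
  have h3d : Disjoint (outN D A v) W := by
    rw [Finset.disjoint_left]
    intro x hx hx'
    rw [mem_outN] at hx
    rw [hW, mem_sdiff] at hx'
    exact hx'.2 hx.1
  have h4 : secN D A v ∪ fresh D univ A W ⊆ secN D univ v := by
    intro x hx
    rw [mem_union, mem_secN, mem_fresh] at hx
    rw [mem_secN]
    rcases hx with hx | hx
    · obtain ⟨hxA, hxv, hnv, u, hu, hvu, hux⟩ := hx
      exact ⟨mem_univ _, hxv, hnv, u, mem_univ _, hvu, hux⟩
    · obtain ⟨⟨_, hxA, hnx⟩, s, hs, hsx⟩ := hx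
      rw [hW, mem_sdiff, mem_outN] at hs
      exact ⟨mem_univ _, fun h => hxA (h ▸ hv), hnx v hv, s, mem_univ _, hs.1.2, hsx⟩
  have h4d : Disjoint (secN D A v) (fresh D univ A W) := by
    rw [Finset.disjoint_left]
    intro x hx hx'
    rw [mem_secN] at hx
    rw [mem_fresh] at hx'
    exact hx'.1.2.1 hx.1
  have h5 : ∑ x ∈ secN D A v, w x + ∑ x ∈ fresh D univ A W, w x ≤ ∑ x ∈ secN D univ v, w x := by
    rw [← Finset.sum_union h4d]
    exact Finset.sum_le_sum_of_subset_of_nonneg h4 (fun x _ _ => hw x)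
  have h6 : ∑ x ∈ outN D univ v, w x = ∑ x ∈ outN D A v, w x + ∑ x ∈ W, w x := by
    rw [h3, Finset.sum_union h3d]
  rw [h6]
  nlinarith

/-- Transitivity of Hall's condition. -/
theorem hall_trans (D : V → V → Prop) (g : ℝ) (w : V → ℝ) (hw : ∀ x, 0 ≤ w x)
    (A B : Finset V) (hBA : B ⊆ A) (hA : Hall D g w univ A) (hB : Hall D g w A B) :
    Hall D g w univ B := by
  classical
  intro W hW
  have h1 : W ∩ A ⊆ bdry D A B := by
    intro x hx
    rw [mem_inter] at hx
    have := hW hx.1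
    rw [mem_bdry] at this ⊢
    exact ⟨hx.2, this.2⟩
  have h2 : W \ A ⊆ bdry D univ A := by
    intro x hx
    rw [mem_sdiff] at hx
    have := hW hx.1
    rw [mem_bdry] at this ⊢
    obtain ⟨_, _, s, hs, hsx⟩ := this
    exact ⟨mem_univ _, hx.2, s, hBA hs, hsx⟩
  have h3 := hB _ h1
  have h4 := hA _ h2
  have h5 : fresh D A B (W ∩ A) ∪ fresh D univ A (W \ A) ⊆ fresh D univ B W := by
    intro x hx
    rw [mem_union, mem_fresh, mem_fresh] at hx
    rw [mem_fresh]
    rcases hx with hx | hx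
    · obtain ⟨⟨hxA, hxB, hn⟩, s, hs, hsx⟩ := hx
      exact ⟨⟨mem_univ _, hxB, hn⟩, s, (mem_inter.1 hs).1, hsx⟩
    · obtain ⟨⟨_, hxA, hn⟩, s, hs, hsx⟩ := hx
      exact ⟨⟨mem_univ _, fun h => hxA (hBA h), fun t ht => hn t (hBA ht)⟩, s,
        (mem_sdiff.1 hs).1, hsx⟩
  have h5d : Disjoint (fresh D A B (W ∩ A)) (fresh D univ A (W \ A)) := by
    rw [Finset.disjoint_left]
    intro x hx hx'
    rw [mem_fresh] at hx hx'
    exact hx'.1.2.1 hx.1.1
  have h6 : ∑ x ∈ fresh D A B (W ∩ A), w x + ∑ x ∈ fresh D univ A (W \ A), w x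
      ≤ ∑ x ∈ fresh D univ B W, w x := by
    rw [← Finset.sum_union h5d]
    exact Finset.sum_le_sum_of_subset_of_nonneg h5 (fun x _ _ => hw x)
  have h7 : ∑ x ∈ W, w x = ∑ x ∈ W ∩ A, w x + ∑ x ∈ W \ A, w x := by
    exact (Finset.sum_inter_add_sum_sdiff W A w).symm
  rw [h7]
  nlinarith

/-- Hall's condition holds for the whole vertex set. -/
theorem hall_univ (D : V → V → Prop) (g : ℝ) (w : V → ℝ) (hw : ∀ x, 0 ≤ w x) :
    Hall D g w univ univ := by
  intro W hW
  have hW0 : W = ∅ := by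
    rw [Finset.eq_empty_iff_forall_notMem]
    intro x hx
    have := hW hx
    rw [mem_bdry] at this
    exact this.2.1 (mem_univ _)
  subst hW0
  simp only [Finset.sum_empty, mul_zero]
  exact Finset.sum_nonneg (fun x _ => hw x)

/-- The existence of a core inside a given set that satisfies Hall's condition. -/
theorem exists_core (D : V → V → Prop) (g : ℝ) (w : V → ℝ) (hw : ∀ x, 0 ≤ w x)
    (A₁ : Finset V) (hne : A₁.Nonempty) (hA₁ : Hall D g w univ A₁) :
    ∃ A ⊆ A₁, A.Nonempty ∧ Hall D g w univ A ∧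
      ∀ B ⊆ A, B.Nonempty → Hall D g w A B → B = A := by
  classical
  have hex : ∃ n : ℕ, ∃ A ⊆ A₁, A.Nonempty ∧ Hall D g w univ A ∧ A.card = n :=
    ⟨_, A₁, Finset.Subset.refl _, hne, hA₁, rfl⟩
  obtain ⟨A, hAA₁, hAne, hA, hAc⟩ := Nat.find_spec hex
  refine ⟨A, hAA₁, hAne, hA, ?_⟩
  intro B hBA hBne hB
  have hB' := hall_trans D g w hw A B hBA hA hB
  have hle : Nat.find hex ≤ B.card :=
    Nat.find_min' hex ⟨B, hBA.trans hAA₁, hBne, hB', rfl⟩
  exact Finset.eq_of_subset_of_card_le hBA (by omega)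

/-- One absorption step: boundary. -/
theorem step_bdry (D : V → V → Prop) (w : V → ℝ) (hw : ∀ x, 0 ≤ w x)
    (A B W : Finset V) (hW : W ⊆ bdry D A B) [DecidableEq V] :
    ∑ x ∈ bdry D A (B ∪ W), w x + ∑ x ∈ W, w x
      ≤ ∑ x ∈ bdry D A B, w x + ∑ x ∈ fresh D A B W, w x := by
  have h1 : bdry D A (B ∪ W) ⊆ (bdry D A B \ W) ∪ fresh D A B W := by
    intro x hx
    rw [mem_bdry] at hx
    rw [mem_union, mem_sdiff, mem_bdry, mem_fresh]
    obtain ⟨hxA, hxBW, s, hs, hsx⟩ := hx
    rw [mem_union, not_or] at hxBW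
    by_cases h : ∃ t ∈ B, D t x
    · exact Or.inl ⟨⟨hxA, hxBW.1, h⟩, hxBW.2⟩
    · push Not at h
      rw [mem_union] at hs
      rcases hs with hs | hs
      · exact absurd hsx (h s hs)
      · exact Or.inr ⟨⟨hxA, hxBW.1, h⟩, s, hs, hsx⟩
  have h2 : ∑ x ∈ bdry D A (B ∪ W), w x
      ≤ ∑ x ∈ bdry D A B \ W, w x + ∑ x ∈ fresh D A B W, w x := by
    refine (Finset.sum_le_sum_of_subset_of_nonneg h1 (fun x _ _ => hw x)).trans ?_
    have h := Finset.sum_union_inter (s₁ := bdry D A B \ W) (s₂ := fresh D A B W) (f := w)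
    have h0 : 0 ≤ ∑ x ∈ (bdry D A B \ W) ∩ fresh D A B W, w x :=
      Finset.sum_nonneg (fun x _ => hw x)
    linarith
  have h3 : ∑ x ∈ bdry D A B \ W, w x + ∑ x ∈ W, w x = ∑ x ∈ bdry D A B, w x :=
    Finset.sum_sdiff hW
  linarith

/-- One absorption step: rest. -/
theorem step_rest (D : V → V → Prop) (w : V → ℝ) (hw : ∀ x, 0 ≤ w x)
    (A B W : Finset V) (hW : W ⊆ bdry D A B) [DecidableEq V] :
    ∑ x ∈ rest D A B, w x
      ≤ ∑ x ∈ rest D A (B ∪ W), w x + ∑ x ∈ fresh D A B W, w x := by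
  have h1 : rest D A B ⊆ rest D A (B ∪ W) ∪ fresh D A B W := by
    intro x hx
    rw [mem_rest] at hx
    rw [mem_union, mem_rest, mem_fresh]
    obtain ⟨hxA, hxB, hn⟩ := hx
    by_cases h : ∃ s ∈ W, D s x
    · exact Or.inr ⟨⟨hxA, hxB, hn⟩, h⟩
    · push Not at h
      refine Or.inl ⟨hxA, ?_, ?_⟩
      · rw [mem_union, not_or]
        refine ⟨hxB, fun hxW => ?_⟩
        have := hW hxW
        rw [mem_bdry] at this
        obtain ⟨_, _, s, hs, hsx⟩ := this
        exact hn s hs hsx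
      · intro s hs
        rw [mem_union] at hs
        rcases hs with hs | hs
        · exact hn s hs
        · exact h s hs
  refine (Finset.sum_le_sum_of_subset_of_nonneg h1 (fun x _ _ => hw x)).trans ?_
  have h := Finset.sum_union_inter (s₁ := rest D A (B ∪ W)) (s₂ := fresh D A B W) (f := w)
  have h0 : 0 ≤ ∑ x ∈ (rest D A (B ∪ W)) ∩ fresh D A B W, w x :=
    Finset.sum_nonneg (fun x _ => hw x)
  linarith

theorem rest_self (D : V → V → Prop) (A : Finset V) : rest D A A = ∅ := by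
  rw [Finset.eq_empty_iff_forall_notMem]
  intro x hx
  rw [mem_rest] at hx
  exact hx.2.1 hx.1

theorem bdry_self (D : V → V → Prop) (A : Finset V) : bdry D A A = ∅ := by
  rw [Finset.eq_empty_iff_forall_notMem]
  intro x hx
  rw [mem_bdry] at hx
  exact hx.2.1 hx.1

/-- In a core with factor `g < 1`: the linear isoperimetric inequality. -/
theorem core_linear [DecidableEq V] (D : V → V → Prop) (g : ℝ) (hg0 : 0 ≤ g) (hg : g < 1) (w : V → ℝ)
    (hw : ∀ x, 0 ≤ w x) (A : Finset V)
    (hcore : ∀ B ⊆ A, B.Nonempty → Hall D g w A B → B = A) :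
    ∀ n : ℕ, ∀ B ⊆ A, B.Nonempty → (A \ B).card ≤ n →
      ((1 - g) * ∑ x ∈ rest D A B, w x ≤ g * ∑ x ∈ bdry D A B, w x ∧
        (B ≠ A → (1 - g) * ∑ x ∈ rest D A B, w x < g * ∑ x ∈ bdry D A B, w x)) := by
  have hself : (1 - g) * ∑ x ∈ rest D A A, w x ≤ g * ∑ x ∈ bdry D A A, w x := by
    rw [rest_self, bdry_self]; simp
  intro n
  induction n with
  | zero =>
    intro B hBA hBne hc
    have hAB : A ⊆ B := by
      rw [← Finset.sdiff_eq_empty_iff_subset, ← Finset.card_eq_zero]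
      omega
    have : B = A := Finset.Subset.antisymm hBA hAB
    subst this
    exact ⟨hself, fun h => absurd rfl h⟩
  | succ n ih =>
    intro B hBA hBne hc
    by_cases hBeq : B = A
    · subst hBeq
      exact ⟨hself, fun h => absurd rfl h⟩
    have hnot : ¬ Hall D g w A B := fun h => hBeq (hcore B hBA hBne h)
    unfold Hall at hnot
    push Not at hnot
    obtain ⟨W, hW, hlt⟩ := hnot
    have hWA : W ⊆ A := fun x hx => (mem_bdry.1 (hW hx)).1
    have hWB : ∀ x ∈ W, x ∉ B := fun x hx => (mem_bdry.1 (hW hx)).2.1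
    have hWne : W.Nonempty := by
      rw [Finset.nonempty_iff_ne_empty]
      rintro rfl
      simp only [Finset.sum_empty, mul_zero] at hlt
      exact absurd hlt (not_lt.2 (Finset.sum_nonneg (fun x _ => hw x)))
    have hc' : (A \ (B ∪ W)).card ≤ n := by
      obtain ⟨x, hx⟩ := hWne
      have hss : A \ (B ∪ W) ⊂ A \ B := by
        rw [Finset.ssubset_iff_of_subset]
        · refine ⟨x, ?_, ?_⟩
          · rw [mem_sdiff]; exact ⟨hWA hx, hWB x hx⟩
          · rw [mem_sdiff, mem_union]; push Not; intro _; exact Or.inr hx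
        · intro y hy
          rw [mem_sdiff, mem_union, not_or] at hy
          rw [mem_sdiff]
          exact ⟨hy.1, hy.2.1⟩
      have := Finset.card_lt_card hss
      omega
    have ih' := (ih (B ∪ W) (Finset.union_subset hBA hWA) (hBne.mono Finset.subset_union_left)
      hc').1
    have hb := step_bdry D w hw A B W hW
    have hr := step_rest D w hw A B W hW
    have h1g : 0 < 1 - g := by linarith
    have e1 : (1 - g) * ∑ x ∈ rest D A B, w x
        ≤ (1 - g) * (∑ x ∈ rest D A (B ∪ W), w x + ∑ x ∈ fresh D A B W, w x) :=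
      mul_le_mul_of_nonneg_left hr h1g.le
    have e2 : g * (∑ x ∈ bdry D A (B ∪ W), w x + ∑ x ∈ W, w x)
        ≤ g * (∑ x ∈ bdry D A B, w x + ∑ x ∈ fresh D A B W, w x) :=
      mul_le_mul_of_nonneg_left hb hg0
    have key : (1 - g) * ∑ x ∈ rest D A B, w x < g * ∑ x ∈ bdry D A B, w x := by
      nlinarith
    exact ⟨key.le, fun _ => key⟩

/-- In a core with factor `1` and integer weights: the quadratic isoperimetric inequality. -/
theorem core_quadratic (D : V → V → Prop) (w : V → ℕ) (A : Finset V)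
    (hcore : ∀ B ⊆ A, B.Nonempty → Hall D 1 (fun x => (w x : ℝ)) A B → B = A) :
    ∀ n : ℕ, ∀ B ⊆ A, B.Nonempty → ∑ x ∈ bdry D A B, w x ≤ n →
      ∑ x ∈ rest D A B, w x ≤ (∑ x ∈ bdry D A B, w x).choose 2 := by
  classical
  have hw : ∀ x, (0 : ℝ) ≤ (fun x => (w x : ℝ)) x := fun x => Nat.cast_nonneg _
  intro n
  induction n with
  | zero =>
    intro B hBA hBne hc
    have hHall : Hall D 1 (fun x => (w x : ℝ)) A B := by
      intro W hW
      have h1 : ∑ x ∈ W, w x ≤ ∑ x ∈ bdry D A B, w x := Finset.sum_le_sum_of_subset hW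
      have h2 : ∑ x ∈ W, w x = 0 := by omega
      have h3 : ∑ x ∈ W, (w x : ℝ) = 0 := by exact_mod_cast h2
      rw [h3, mul_zero]
      exact Finset.sum_nonneg (fun x _ => Nat.cast_nonneg _)
    have : B = A := hcore B hBA hBne hHall
    subst this
    rw [rest_self]; simp
  | succ n ih =>
    intro B hBA hBne hc
    by_cases hHall : Hall D 1 (fun x => (w x : ℝ)) A B
    · have : B = A := hcore B hBA hBne hHall
      subst this
      rw [rest_self]; simp
    unfold Hall at hHall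
    push Not at hHall
    obtain ⟨W, hW, hlt⟩ := hHall
    rw [one_mul] at hlt
    have hlt' : ∑ x ∈ fresh D A B W, w x < ∑ x ∈ W, w x := by exact_mod_cast hlt
    have hWA : W ⊆ A := fun x hx => (mem_bdry.1 (hW hx)).1
    have hb := step_bdry D (fun x => (w x : ℝ)) hw A B W hW
    have hr := step_rest D (fun x => (w x : ℝ)) hw A B W hW
    have hb' : ∑ x ∈ bdry D A (B ∪ W), w x + ∑ x ∈ W, w x
        ≤ ∑ x ∈ bdry D A B, w x + ∑ x ∈ fresh D A B W, w x := by exact_mod_cast hb
    have hr' : ∑ x ∈ rest D A B, w x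
        ≤ ∑ x ∈ rest D A (B ∪ W), w x + ∑ x ∈ fresh D A B W, w x := by exact_mod_cast hr
    have hWle : ∑ x ∈ W, w x ≤ ∑ x ∈ bdry D A B, w x := Finset.sum_le_sum_of_subset hW
    have ih' := ih (B ∪ W) (Finset.union_subset hBA hWA) (hBne.mono Finset.subset_union_left)
      (by omega)
    obtain ⟨b, hb1⟩ : ∃ b, ∑ x ∈ bdry D A B, w x = b + 1 :=
      ⟨∑ x ∈ bdry D A B, w x - 1, by omega⟩
    have hmono : (∑ x ∈ bdry D A (B ∪ W), w x).choose 2 ≤ b.choose 2 :=
      Nat.choose_le_choose 2 (by omega)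
    have hpas : (b + 1).choose 2 = b.choose 1 + b.choose 2 := Nat.choose_succ_succ' b 1
    rw [Nat.choose_one_right] at hpas
    rw [hb1, hpas]
    omega

/-- Hall closure with factor `1` and integer weights: every set `B` lies in a set `A` that
satisfies Hall's condition and has weight at most `w(B) + C(w(∂B) + 1, 2)`. -/
theorem closure_one (D : V → V → Prop) (w : V → ℕ) :
    ∀ n : ℕ, ∀ B : Finset V, ∑ x ∈ bdry D univ B, w x ≤ n →
      ∃ A : Finset V, B ⊆ A ∧ Hall D 1 (fun x => (w x : ℝ)) univ A ∧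
        ∑ x ∈ A, w x ≤ ∑ x ∈ B, w x + (∑ x ∈ bdry D univ B, w x + 1).choose 2 := by
  classical
  have hw : ∀ x, (0 : ℝ) ≤ (fun x => (w x : ℝ)) x := fun x => Nat.cast_nonneg _
  intro n
  induction n with
  | zero =>
    intro B hc
    refine ⟨B, Finset.Subset.refl _, ?_, Nat.le_add_right _ _⟩
    intro W hW
    have h1 : ∑ x ∈ W, w x ≤ ∑ x ∈ bdry D univ B, w x := Finset.sum_le_sum_of_subset hW
    have h2 : ∑ x ∈ W, w x = 0 := by omega
    have h3 : ∑ x ∈ W, (w x : ℝ) = 0 := by exact_mod_cast h2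
    rw [h3, mul_zero]
    exact Finset.sum_nonneg (fun x _ => Nat.cast_nonneg _)
  | succ n ih =>
    intro B hc
    by_cases hHall : Hall D 1 (fun x => (w x : ℝ)) univ B
    · exact ⟨B, Finset.Subset.refl _, hHall, Nat.le_add_right _ _⟩
    unfold Hall at hHall
    push Not at hHall
    obtain ⟨W, hW, hlt⟩ := hHall
    rw [one_mul] at hlt
    have hlt' : ∑ x ∈ fresh D univ B W, w x < ∑ x ∈ W, w x := by exact_mod_cast hlt
    have hb := step_bdry D (fun x => (w x : ℝ)) hw univ B W hW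
    have hb' : ∑ x ∈ bdry D univ (B ∪ W), w x + ∑ x ∈ W, w x
        ≤ ∑ x ∈ bdry D univ B, w x + ∑ x ∈ fresh D univ B W, w x := by exact_mod_cast hb
    have hWle : ∑ x ∈ W, w x ≤ ∑ x ∈ bdry D univ B, w x := Finset.sum_le_sum_of_subset hW
    obtain ⟨A, hA1, hA2, hA3⟩ := ih (B ∪ W) (by omega)
    refine ⟨A, Finset.subset_union_left.trans hA1, hA2, ?_⟩
    have hun : ∑ x ∈ B ∪ W, w x ≤ ∑ x ∈ B, w x + ∑ x ∈ W, w x := by
      have := Finset.sum_union_inter (s₁ := B) (s₂ := W) (f := w)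
      omega
    obtain ⟨b, hb1⟩ : ∃ b, ∑ x ∈ bdry D univ B, w x = b + 1 :=
      ⟨∑ x ∈ bdry D univ B, w x - 1, by omega⟩
    have hmono : (∑ x ∈ bdry D univ (B ∪ W), w x + 1).choose 2 ≤ (b + 1).choose 2 :=
      Nat.choose_le_choose 2 (by omega)
    have hpas : (b + 1 + 1).choose 2 = (b + 1).choose 1 + (b + 1).choose 2 :=
      Nat.choose_succ_succ' (b + 1) 1
    rw [Nat.choose_one_right] at hpas
    rw [hb1, hpas]
    omega

/-- Hall closure with a factor `g` and real weights. -/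
theorem closure_linear [DecidableEq V] (D : V → V → Prop) (g : ℝ) (w : V → ℝ)
    (hw : ∀ x, 0 ≤ w x) :
    ∀ n : ℕ, ∀ B : Finset V, ((univ : Finset V) \ B).card ≤ n →
      ∃ A : Finset V, B ⊆ A ∧ Hall D g w univ A ∧
        (1 - g) * (∑ x ∈ A, w x - ∑ x ∈ B, w x) ≤ ∑ x ∈ bdry D univ B, w x := by
  intro n
  induction n with
  | zero =>
    intro B hc
    have hAB : (univ : Finset V) ⊆ B := by
      rw [← Finset.sdiff_eq_empty_iff_subset, ← Finset.card_eq_zero]
      omega
    have hBu : B = univ := Finset.Subset.antisymm (Finset.subset_univ _) hAB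
    subst hBu
    refine ⟨univ, Finset.Subset.refl _, hall_univ D g w hw, ?_⟩
    rw [sub_self, mul_zero]
    exact Finset.sum_nonneg (fun x _ => hw x)
  | succ n ih =>
    intro B hc
    by_cases hHall : Hall D g w univ B
    · refine ⟨B, Finset.Subset.refl _, hHall, ?_⟩
      rw [sub_self, mul_zero]
      exact Finset.sum_nonneg (fun x _ => hw x)
    unfold Hall at hHall
    push Not at hHall
    obtain ⟨W, hW, hlt⟩ := hHall
    have hWB : ∀ x ∈ W, x ∉ B := fun x hx => (mem_bdry.1 (hW hx)).2.1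
    have hWne : W.Nonempty := by
      rw [Finset.nonempty_iff_ne_empty]
      rintro rfl
      simp only [Finset.sum_empty, mul_zero] at hlt
      exact absurd hlt (not_lt.2 (Finset.sum_nonneg (fun x _ => hw x)))
    have hc' : ((univ : Finset V) \ (B ∪ W)).card ≤ n := by
      obtain ⟨x, hx⟩ := hWne
      have hss : (univ : Finset V) \ (B ∪ W) ⊂ univ \ B := by
        rw [Finset.ssubset_iff_of_subset]
        · refine ⟨x, ?_, ?_⟩
          · rw [mem_sdiff]; exact ⟨mem_univ _, hWB x hx⟩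
          · rw [mem_sdiff, mem_union]; push Not; intro _; exact Or.inr hx
        · intro y hy
          rw [mem_sdiff, mem_union, not_or] at hy
          rw [mem_sdiff]
          exact ⟨hy.1, hy.2.1⟩
      have := Finset.card_lt_card hss
      omega
    obtain ⟨A, hA1, hA2, hA3⟩ := ih (B ∪ W) hc'
    refine ⟨A, Finset.subset_union_left.trans hA1, hA2, ?_⟩
    have hb := step_bdry D w hw univ B W hW
    have hdis : Disjoint B W := by
      rw [Finset.disjoint_left]
      intro x hx hx'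
      exact hWB x hx' hx
    rw [Finset.sum_union hdis] at hA3
    nlinarith

end SNCore
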