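import Mathlib

/-!
# Directed cycles of consecutive lengths and second neighbourhoods
-/

open Finset

namespace SNCyc

variable {V : Type}

/-- `D` has a directed cycle of length `n`: distinct vertices `a, l₁, …, l_{n-1}` with arcs
`a → l₁ → ⋯ → l_{n-1} → a`. -/
def HasCycle (D : V → V → Prop) (n : ℕ) : Prop :=
  ∃ (a : V) (l : List V), (a :: l).Nodup ∧ List.IsChain D (a :: (l ++ [a])) ∧
    (a :: l).length = n

/-- Path extraction. -/
theorem exists_path (D : V → V → Prop) (X : Set V) (v : V) (w : V)
    (h : Relation.ReflTransGen (fun a b => D a b ∧ b ∉ X) w v) :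
    w = v ∨ ∃ t : List V, (w :: (t ++ [v])).Nodup ∧ List.IsChain D (w :: (t ++ [v])) ∧
      ∀ x ∈ t, x ∉ X := by
  classical
  induction h using Relation.ReflTransGen.head_induction_on with
  | refl => exact Or.inl rfl
  | @head w w' hstep _ ih =>
    by_cases hwv : w = v
    · exact Or.inl hwv
    right
    rcases ih with ih | ⟨t, hnd, hch, hX⟩
    · subst ih
      refine ⟨[], ?_, ?_, by simp⟩
      · simp [hwv]
      · simpa using hstep.1
    · by_cases hww : w = w'
      · subst hww
        exact ⟨t, hnd, hch, hX⟩
      by_cases hwt : w ∈ t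
      · obtain ⟨s, t', rfl⟩ := List.append_of_mem hwt
        refine ⟨t', ?_, ?_, ?_⟩
        · have h1 : (w' :: s ++ (w :: (t' ++ [v]))).Nodup := by simpa using hnd
          exact h1.of_append_right
        · have h1 : List.IsChain D (w' :: s ++ (w :: (t' ++ [v]))) := by simpa using hch
          exact h1.right_of_append
        · intro x hx
          exact hX x (by simp [hx])
      · refine ⟨w' :: t, ?_, ?_, ?_⟩
        · rw [List.cons_append, List.nodup_cons]
          refine ⟨?_, hnd⟩
          simp [hww, hwt, hwv]
        · rw [List.cons_append, List.isChain_cons_cons]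
          exact ⟨hstep.1, hch⟩
        · intro x hx
          rw [List.mem_cons] at hx
          rcases hx with rfl | hx
          · exact hstep.2
          · exact hX x hx

/-- Rotation of a closed list. -/
theorem exists_rotate (R : V → V → Prop) (a : V) (l : List V) (hnd : (a :: l).Nodup)
    (hch : List.IsChain R (a :: (l ++ [a]))) (w : V) (hw : w ∈ a :: l) :
    ∃ l' : List V, (w :: l').Nodup ∧ List.IsChain R (w :: (l' ++ [w])) ∧
      (w :: l').length = (a :: l).length ∧ ∀ x, x ∈ w :: l' ↔ x ∈ a :: l := by
  rw [List.mem_cons] at hw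
  rcases hw with rfl | hw
  · exact ⟨l, hnd, hch, rfl, fun _ => Iff.rfl⟩
  obtain ⟨s, t, rfl⟩ := List.append_of_mem hw
  have hperm : ((w :: t) ++ (a :: s)).Perm ((a :: s) ++ (w :: t)) := List.perm_append_comm
  refine ⟨t ++ a :: s, ?_, ?_, ?_, ?_⟩
  · exact (hperm.nodup_iff).2 hnd
  · have h1 : List.IsChain R ((a :: s) ++ w :: (t ++ [a])) := by simpa using hch
    rw [List.isChain_split] at h1
    have h2 : List.IsChain R ((w :: t) ++ a :: (s ++ [w])) := by
      rw [List.isChain_split]
      exact ⟨h1.2, h1.1⟩
    simpa using h2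
  · have := hperm.length_eq
    simpa using this
  · intro x
    exact hperm.mem_iff

/-- A cycle of length at least `m` inside an out-neighbourhood gives `m` cycles of consecutive
lengths. (Lists are read against the arcs.) -/
theorem many_of_long (D : V → V → Prop) (hD : ∀ u v, D u v → ¬ D v u) (v : V) (m : ℕ)
    (a : V) (l : List V) (hnd : (a :: l).Nodup)
    (hch : List.IsChain (fun p q => D q p) (a :: (l ++ [a]))) (hlen : m ≤ (a :: l).length)
    (hN : ∀ x ∈ a :: l, D v x) (hreach : Relation.ReflTransGen D a v) :
    ∃ n, ∀ i < m, HasCycle D (n + i) := by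
  classical
  have hirr : ∀ x, ¬ D x x := fun x h => hD x x h h
  set X : Set V := {x | x ∈ a :: l} with hX
  have hvX : v ∉ X := fun h => hirr v (hN v h)
  have hR : ∀ y, Relation.ReflTransGen D a y →
      ∃ w ∈ X, Relation.ReflTransGen (fun p q => D p q ∧ q ∉ X) w y := by
    intro y hy
    induction hy with
    | refl => exact ⟨a, by simp [hX], Relation.ReflTransGen.refl⟩
    | @tail y y' _ hst ih =>
      by_cases hy' : y' ∈ X
      · exact ⟨y', hy', Relation.ReflTransGen.refl⟩
      · obtain ⟨w, hw, hwy⟩ := ih
        exact ⟨w, hw, hwy.tail ⟨hst, hy'⟩⟩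
  obtain ⟨w, hwX, hwv⟩ := hR v hreach
  have hwv' : w ≠ v := fun h => hvX (h ▸ hwX)
  rcases exists_path D X v w hwv with h | ⟨t, htnd, htch, htX⟩
  · exact absurd h hwv'
  obtain ⟨l', hnd', hch', hlen', hmem'⟩ := exists_rotate (fun p q => D q p) a l hnd hch w hwX
  rw [← hlen'] at hlen
  refine ⟨t.length + 2, ?_⟩
  intro i hi
  have hil : i ≤ l'.length := by
    simp only [List.length_cons] at hlen; omega
  have hwl' : List.IsChain (fun p q => D q p) (w :: l') := by
    have h1 : List.IsChain (fun p q => D q p) ((w :: l') ++ [w]) := by simpa using hch'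
    exact h1.left_of_append
  have hpre : List.IsChain (fun p q => D q p) (w :: l'.take i) := by
    have h1 : List.IsChain (fun p q => D q p) ((w :: l'.take i) ++ l'.drop i) := by
      rw [List.cons_append, List.take_append_drop]; exact hwl'
    exact h1.left_of_append
  have hrev : List.IsChain D ((l'.take i).reverse ++ [w]) := by
    have h1 : List.IsChain D (w :: l'.take i).reverse := List.isChain_reverse.2 hpre
    simpa using h1
  have hlong : List.IsChain D ((l'.take i).reverse ++ w :: (t ++ [v])) := by
    rw [List.isChain_split]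
    exact ⟨hrev, htch⟩
  have htakeX : ∀ x ∈ l'.take i, x ∈ X := fun x hx =>
    (hmem' x).1 (List.mem_cons_of_mem _ (List.mem_of_mem_take hx))
  have hvt : v ∉ t ∧ v ≠ w ∧ w ∉ t ∧ t.Nodup := by
    rw [List.nodup_cons, List.mem_append, not_or, List.nodup_append] at htnd
    obtain ⟨⟨h1, h2⟩, h3, _, h4⟩ := htnd
    exact ⟨fun h => h4 v h v (by simp) rfl, Ne.symm hwv', h1, h3⟩
  obtain ⟨hvt, hvw, hwt, htn⟩ := hvt
  rw [List.nodup_cons] at hnd'
  refine ⟨v, (l'.take i).reverse ++ w :: t, ?_, ?_, ?_⟩
  · rw [List.nodup_cons]
    refine ⟨?_, ?_⟩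
    · rw [List.mem_append, List.mem_reverse, List.mem_cons, not_or, not_or]
      exact ⟨fun h => hvX (htakeX v h), hvw, hvt⟩
    · rw [List.nodup_append]
      refine ⟨?_, ?_, ?_⟩
      · rw [List.nodup_reverse]
        exact hnd'.2.sublist (List.take_sublist i l')
      · rw [List.nodup_cons]; exact ⟨hwt, htn⟩
      · intro x hx y hy hxy
        subst hxy
        rw [List.mem_reverse] at hx
        rw [List.mem_cons] at hy
        rcases hy with rfl | hy
        · exact hnd'.1 (List.mem_of_mem_take hx)
        · exact htX x hy (htakeX x hx)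
  · have h1 : (l'.take i).reverse ++ w :: t ++ [v] = (l'.take i).reverse ++ w :: (t ++ [v]) := by
      simp
    rw [h1, List.isChain_cons]
    refine ⟨?_, hlong⟩
    intro y hy
    have hyX : y ∈ X := by
      have h2 : y ∈ (l'.take i).reverse ++ [w] := by
        cases hrev' : (l'.take i).reverse with
        | nil => rw [hrev'] at hy; simp at hy; simp [hy]
        | cons b bs => rw [hrev'] at hy; simp at hy; simp [hy]
      rw [List.mem_append, List.mem_reverse, List.mem_singleton] at h2
      rcases h2 with h2 | h2
      · exact htakeX y h2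
      · exact h2 ▸ hwX
    exact hN y hyX
  · simp only [List.length_cons, List.length_append, List.length_reverse, List.length_take]
    omega

/-- The last vertex of a longest path. -/
theorem exists_end [DecidableEq V] (D : V → V → Prop) [DecidableRel D]
    (hD : ∀ u v, D u v → ¬ D v u) (N : Finset V)
    (hne : N.Nonempty) (t : ℕ) (ht : 1 ≤ t)
    (hout : ∀ x ∈ N, t ≤ (N.filter (fun q => D x q)).card)
    (hno : ∀ (a : V) (l : List V), (a :: l).Nodup →
      List.IsChain (fun p q => D q p) (a :: (l ++ [a])) →
      t + 3 ≤ (a :: l).length → ¬ ∀ x ∈ a :: l, x ∈ N) :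
    ∃ (z y : V) (xs : List V), (z :: y :: xs).Nodup ∧
      List.IsChain (fun p q => D q p) (z :: y :: xs) ∧ (∀ x ∈ z :: y :: xs, x ∈ N) ∧
      xs.length = t ∧ N.filter (fun q => D z q) = xs.toFinset := by
  have hirr : ∀ x, ¬ D x x := fun x h => hD x x h h
  classical
  set P : ℕ → Prop := fun n => ∃ l : List V, l.length = n ∧ l.Nodup ∧
    List.IsChain (fun p q => D q p) l ∧ ∀ x ∈ l, x ∈ N with hP
  have hbound : ∀ n, P n → n ≤ N.card := by
    rintro n ⟨l, hl, hnd, _, hN⟩
    rw [← hl, ← List.toFinset_card_of_nodup hnd]
    exact Finset.card_le_card (fun x hx => hN x (List.mem_toFinset.1 hx))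
  obtain ⟨x0, hx0⟩ := hne
  have hP1 : P 1 := ⟨[x0], rfl, by simp, by simp, by simpa using hx0⟩
  set L := Nat.findGreatest P N.card with hL
  have hPL : P L := Nat.findGreatest_spec (hbound 1 hP1) hP1
  have hLmax : ∀ n, P n → n ≤ L := fun n hn => Nat.le_findGreatest (hbound n hn) hn
  obtain ⟨l, hl, hnd, hch, hN⟩ := hPL
  have h1L : 1 ≤ L := hLmax 1 hP1
  match l, hl with
  | [], hl => simp at hl; omega
  | z :: l1, hl =>
    have hzN : z ∈ N := hN z (by simp)
    have hin : ∀ q ∈ N, D z q → q ∈ l1 := by
      intro q hq hzq
      by_contra hql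
      have hqz : q ≠ z := fun h => hirr z (h ▸ hzq)
      have : P (L + 1) := by
        refine ⟨q :: z :: l1, by simp [← hl], ?_, ?_, ?_⟩
        · rw [List.nodup_cons]
          refine ⟨?_, hnd⟩
          simp [hqz, hql]
        · rw [List.isChain_cons_cons]
          exact ⟨hzq, hch⟩
        · intro x hx
          rw [List.mem_cons] at hx
          rcases hx with rfl | hx
          · exact hq
          · exact hN x hx
      have := hLmax _ this
      omega
    have hcard := hout z hzN
    obtain ⟨q0, hq0⟩ : (N.filter (fun q => D z q)).Nonempty := by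
      rw [← Finset.card_pos]; omega
    rw [mem_filter] at hq0
    have hq0' := hin q0 hq0.1 hq0.2
    match l1, hq0' with
    | [], h => simp at h
    | y :: l2, _ =>
      rw [List.isChain_cons_cons] at hch
      have hyz : D y z := hch.1
      have hin2 : ∀ q ∈ N, D z q → q ∈ l2 := by
        intro q hq hzq
        have h1 := hin q hq hzq
        rw [List.mem_cons] at h1
        rcases h1 with h1 | h1
        · subst h1
          exact absurd hzq (hD _ _ hyz)
        · exact h1
      have hin3 : ∀ q ∈ N, D z q → q ∈ l2.take t := by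
        intro q hq hzq
        by_contra hqt
        have h1 : q ∈ l2.take t ++ l2.drop t := by
          rw [List.take_append_drop]; exact hin2 q hq hzq
        rw [List.mem_append] at h1
        rcases h1 with h1 | h1
        · exact hqt h1
        have hlt : t < l2.length := by
          by_contra hge
          rw [List.drop_eq_nil_of_le (by omega)] at h1
          simp at h1
        obtain ⟨s, t', hst⟩ := List.append_of_mem h1
        have hl2 : l2 = (l2.take t ++ s) ++ q :: t' := by
          rw [List.append_assoc, ← hst, List.take_append_drop]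
        set u := l2.take t ++ s with hu
        have hulen : t ≤ u.length := by
          rw [hu, List.length_append, List.length_take]; omega
        have hsub : (z :: (y :: (u ++ [q]))).Nodup := by
          have h2 : ((z :: y :: (u ++ [q])) ++ t').Nodup := by
            have h3 := hnd
            rw [hl2] at h3
            simpa using h3
          exact h2.of_append_left
        have hch2 : List.IsChain (fun p q => D q p) ((z :: y :: (u ++ [q]))) := by
          have h2 : List.IsChain (fun p q => D q p) ((z :: y :: (u ++ [q])) ++ t') := by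
            have h3 : List.IsChain (fun p q => D q p) (z :: y :: (u ++ q :: t')) := by
              rw [List.isChain_cons_cons]
              refine ⟨hyz, ?_⟩
              have h4 := hch.2
              rw [hl2] at h4
              exact h4
            simpa using h3
          exact h2.left_of_append
        have hch3 : List.IsChain (fun p q => D q p) (z :: ((y :: (u ++ [q])) ++ [z])) := by
          have h4 : List.IsChain (fun p q => D q p) ((z :: y :: u) ++ q :: [z]) := by
            rw [List.isChain_split]
            refine ⟨by simpa using hch2, ?_⟩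
            rw [List.isChain_cons_cons]
            exact ⟨hzq, by simp⟩
          simpa using h4
        refine hno z (y :: (u ++ [q])) hsub hch3 ?_ ?_
        · simp only [List.length_cons, List.length_append, List.length_nil]
          omega
        · intro p hp
          refine hN p ?_
          rw [hl2]
          simp only [List.mem_cons, List.mem_append, List.not_mem_nil, or_false] at hp ⊢
          tauto
      have hsubF : N.filter (fun q => D z q) ⊆ (l2.take t).toFinset := by
        intro q hq
        rw [mem_filter] at hq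
        exact List.mem_toFinset.2 (hin3 q hq.1 hq.2)
      have hlen1 : (l2.take t).toFinset.card ≤ (l2.take t).length := List.toFinset_card_le _
      have hlen2 : (l2.take t).length ≤ t := List.length_take_le _ _
      have hF := Finset.card_le_card hsubF
      refine ⟨z, y, l2.take t, ?_, ?_, ?_, by omega,
        Finset.eq_of_subset_of_card_le hsubF (by omega)⟩
      · have h2 : ((z :: y :: l2.take t) ++ l2.drop t).Nodup := by
          rw [List.cons_append, List.cons_append, List.take_append_drop]; exact hnd
        exact h2.of_append_left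
      · have h2 : List.IsChain (fun p q => D q p) ((z :: y :: l2.take t) ++ l2.drop t) := by
          rw [List.cons_append, List.cons_append, List.take_append_drop, List.isChain_cons_cons]
          exact hch
        exact h2.left_of_append
      · intro x hx
        refine hN x ?_
        rw [List.mem_cons, List.mem_cons] at hx ⊢
        rcases hx with hx | hx | hx
        · exact Or.inl hx
        · exact Or.inr (Or.inl hx)
        · exact Or.inr (Or.inr (List.mem_of_mem_take hx))

variable [Fintype V]

open Classical in
/-- The out-neighbours of `v`. -/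
noncomputable def out (D : V → V → Prop) (v : V) : Finset V :=
  univ.filter (fun x => D v x)

open Classical in
/-- The vertices at distance exactly two from `v`. -/
noncomputable def sec (D : V → V → Prop) (v : V) : Finset V :=
  univ.filter (fun x => x ≠ v ∧ ¬ D v x ∧ ∃ u, D v u ∧ D u x)

theorem mem_out {D : V → V → Prop} {v x : V} : x ∈ out D v ↔ D v x := by
  simp [out]

theorem mem_sec {D : V → V → Prop} {v x : V} :
    x ∈ sec D v ↔ x ≠ v ∧ ¬ D v x ∧ ∃ u, D v u ∧ D u x := by
  simp [sec]

/-- One step of the descent. -/
theorem step [DecidableEq V] (D : V → V → Prop) (hD : ∀ u v, D u v → ¬ D v u)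
    (T : Set V) (hT : ∀ x ∈ T, ∀ y, D x y → y ∈ T)
    (hreach : ∀ x ∈ T, ∀ y ∈ T, Relation.ReflTransGen D x y) (t : ℕ) (ht : 1 ≤ t)
    (hfail : ∀ x ∈ T, (sec D x).card + t ≤ (out D x).card)
    (d : ℕ) (hmin : ∀ x ∈ T, d ≤ (out D x).card)
    (hno : ∀ n, ¬ ∀ i < t + 3, HasCycle D (n + i))
    (v : V) (hv : v ∈ T) (hvd : (out D v).card = d) :
    ∃ (z y : V) (xs : List V), (z :: y :: xs).Nodup ∧
      List.IsChain (fun p q => D q p) (z :: y :: xs) ∧ (∀ x ∈ z :: y :: xs, D v x) ∧
      xs.length = t ∧ (out D z).card = d ∧ out D z = xs.toFinset ∪ sec D v ∧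
      (sec D v).card + t = d := by
  classical
  have hirr : ∀ x, ¬ D x x := fun x h => hD x x h h
  have hfv := hfail v hv
  have hsub : ∀ u, D v u → out D u ⊆ (out D v).filter (fun q => D u q) ∪ sec D v := by
    intro u hvu q hq
    rw [mem_out] at hq
    rw [mem_union, mem_filter, mem_out, mem_sec]
    by_cases h : D v q
    · exact Or.inl ⟨h, hq⟩
    · refine Or.inr ⟨?_, h, u, hvu, hq⟩
      intro hqv
      exact hD _ _ hvu (hqv ▸ hq)
  have hne : (out D v).Nonempty := by
    rw [← Finset.card_pos]; omega
  have hout : ∀ u ∈ out D v, t ≤ ((out D v).filter (fun q => D u q)).card := by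
    intro u hu
    rw [mem_out] at hu
    have h1 := Finset.card_le_card (hsub u hu)
    have h2 := Finset.card_union_le ((out D v).filter (fun q => D u q)) (sec D v)
    have h4 := hmin u (hT v hv u hu)
    omega
  have hnolong : ∀ (a : V) (l : List V), (a :: l).Nodup →
      List.IsChain (fun p q => D q p) (a :: (l ++ [a])) → t + 3 ≤ (a :: l).length →
      ¬ ∀ x ∈ a :: l, x ∈ out D v := by
    intro a l hnd hch hlen hN
    have haT : a ∈ T := hT v hv a (mem_out.1 (hN a (by simp)))
    obtain ⟨n, hn⟩ := many_of_long D hD v (t + 3) a l hnd hch hlen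
      (fun x hx => mem_out.1 (hN x hx)) (hreach a haT v hv)
    exact hno n hn
  obtain ⟨z, y, xs, hnd, hch, hN, hlen, hfil⟩ := exists_end D hD (out D v) hne t ht hout hnolong
  have hz : D v z := mem_out.1 (hN z (by simp))
  have h1 : out D z ⊆ xs.toFinset ∪ sec D v := by
    rw [← hfil]; exact hsub z hz
  have h2 := Finset.card_le_card h1
  have h3 := hmin z (hT v hv z hz)
  have h4 := Finset.card_union_le xs.toFinset (sec D v)
  have h6 : xs.toFinset.card ≤ xs.length := List.toFinset_card_le _
  have h5 : out D z = xs.toFinset ∪ sec D v := Finset.eq_of_subset_of_card_le h1 (by omega)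
  exact ⟨z, y, xs, hnd, hch, fun x hx => mem_out.1 (hN x hx), hlen, by omega, h5, by omega⟩

/-- The next vertex of the descent is a second out-neighbour. -/
theorem next_notMem [DecidableEq V] (D : V → V → Prop) (hD : ∀ u v, D u v → ¬ D v u)
    (v z s : V) (xs xs2 : List V) (d t : ℕ) (hvz : D v z) (hvx : ∀ x ∈ xs, D v x)
    (hnd : xs.Nodup) (hzx : z ∉ xs) (hlen : xs.length = t)
    (hvd : (out D v).card = d)
    (hz : out D z = xs.toFinset ∪ sec D v)
    (hs : out D s = xs2.toFinset ∪ sec D z) (hsz : (sec D z).card + t = d) : s ∉ xs := by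
  intro hsx
  have hvs : D v s := hvx s hsx
  have h1 : sec D z ⊆ (out D v) \ insert z xs.toFinset := by
    intro q hq
    have hq1 : D s q := by
      refine mem_out.1 ?_
      rw [hs]; exact mem_union_right _ hq
    rw [mem_sec] at hq
    obtain ⟨hqz, hzq, _⟩ := hq
    have hqn : q ∉ out D z := fun h => hzq (mem_out.1 h)
    rw [hz, mem_union, not_or] at hqn
    have hqout : D v q := by
      by_contra hvq
      refine hqn.2 ?_
      rw [mem_sec]
      refine ⟨?_, hvq, s, hvs, hq1⟩
      intro hqv
      exact hD _ _ hvs (hqv ▸ hq1)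
    rw [mem_sdiff, mem_insert, mem_out, not_or]
    exact ⟨hqout, hqz, hqn.1⟩
  have h2 := Finset.card_le_card h1
  have h3 : insert z xs.toFinset ⊆ out D v := by
    intro q hq
    rw [mem_insert, List.mem_toFinset] at hq
    rw [mem_out]
    rcases hq with rfl | hq
    · exact hvz
    · exact hvx q hq
  have h4 : (insert z xs.toFinset).card = t + 1 := by
    rw [Finset.card_insert_of_notMem (by rwa [List.mem_toFinset]),
      List.toFinset_card_of_nodup hnd, hlen]
  have h5 := Finset.card_le_card h3
  rw [Finset.card_sdiff_of_subset h3, h4, hvd] at h2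
  omega

theorem cycle_lengths : ∀ (m : ℕ), 4 ≤ m →
    ∀ (V : Type) [Fintype V] [Nonempty V] (D : V → V → Prop),
    (∀ u v, D u v → ¬ D v u) →
    (∀ n, ¬ ∀ i < m, HasCycle D (n + i)) →
    ∃ v, (out D v).card ≤ (sec D v).card + (m - 4) := by
  classical
  intro m hm V _ _ D hD hno
  obtain ⟨t, rfl⟩ : ∃ t, m = t + 3 := ⟨m - 3, by omega⟩
  have ht : 1 ≤ t := by omega
  by_contra hcon
  push Not at hcon
  have hirr : ∀ x, ¬ D x x := fun x h => hD x x h h
  -- a minimal nonempty set closed under out-neighbours
  have hex : ∃ n : ℕ, ∃ T : Finset V, T.Nonempty ∧ (∀ x ∈ T, ∀ y, D x y → y ∈ T) ∧ T.card = n :=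
    ⟨_, univ, univ_nonempty, fun _ _ _ _ => mem_univ _, rfl⟩
  obtain ⟨T, hTne, hT, hTc⟩ := Nat.find_spec hex
  have hreach : ∀ x ∈ T, ∀ y ∈ T, Relation.ReflTransGen D x y := by
    intro x hx y hy
    set R : Finset V := univ.filter (fun q => Relation.ReflTransGen D x q) with hR
    have hRT : R ⊆ T := by
      intro q hq
      rw [hR, mem_filter] at hq
      have h1 := hq.2
      clear hq
      induction h1 with
      | refl => exact hx
      | tail _ hst ih => exact hT _ ih _ hst
    have hRc : Nat.find hex ≤ R.card := Nat.find_min' hex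
      ⟨R, ⟨x, by rw [hR, mem_filter]; exact ⟨mem_univ _, Relation.ReflTransGen.refl⟩⟩, by
        intro q hq q' hqq'
        rw [hR, mem_filter] at hq ⊢
        exact ⟨mem_univ _, hq.2.tail hqq'⟩, rfl⟩
    have hRT' : R = T := Finset.eq_of_subset_of_card_le hRT (by omega)
    rw [← hRT', hR, mem_filter] at hy
    exact hy.2
  obtain ⟨v, hv, hmin⟩ := Finset.exists_min_image T (fun v => (out D v).card) hTne
  set d := (out D v).card with hd
  have hst := step D hD (T : Set V) (fun x hx y hxy => hT x hx y hxy)
    (fun x hx y hy => hreach x hx y hy) t ht (fun x _ => by have := hcon x; omega) d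
    (fun x hx => hmin x hx) hno
  obtain ⟨z, y, xs, hnd, hch, hN, hlen, hzd, hzout, hvs⟩ := hst v hv hd.symm
  have hvz : D v z := hN z (by simp)
  have hzT : z ∈ T := hT v hv z hvz
  obtain ⟨s, y2, xs2, hnd2, hch2, hN2, hlen2, hsd, hsout, hzs'⟩ := hst z hzT hzd
  have hzs : D z s := hN2 s (by simp)
  have hsT : s ∈ T := hT z hzT s hzs
  obtain ⟨s3, y3, xs3, hnd3, hch3, hN3, hlen3, hs3d, hs3out, hss'⟩ := hst s hsT hsd
  have hss3 : D s s3 := hN3 s3 (by simp)
  -- nodup data
  have hnd' := hnd
  rw [List.nodup_cons, List.nodup_cons, List.mem_cons, not_or] at hnd'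
  obtain ⟨⟨hzy', hzxs⟩, hyxs, hxsnd⟩ := hnd'
  have hnd2' := hnd2
  rw [List.nodup_cons, List.nodup_cons, List.mem_cons, not_or] at hnd2'
  obtain ⟨⟨hsy2', hsxs2⟩, hy2xs2, hxs2nd⟩ := hnd2'
  have hs_notMem : s ∉ xs := next_notMem D hD v z s xs xs2 d t hvz
    (fun x hx => hN x (by simp [hx])) hxsnd hzxs hlen hd.symm hzout hsout hzs'
  have hs3_notMem : s3 ∉ xs2 := next_notMem D hD z s s3 xs2 xs3 d t hzs
    (fun x hx => hN2 x (by simp [hx])) hxs2nd hsxs2 hlen2 hzd hsout hs3out hss'
  have hyz : D y z := by
    rw [List.isChain_cons_cons] at hch; exact hch.1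
  -- `s` sends an arc to `y`
  have hsy : D s y := by
    refine mem_out.1 ?_
    rw [hsout]
    refine mem_union_right _ (mem_sec.2 ⟨?_, hD _ _ hyz, ?_⟩)
    · rintro rfl
      exact hirr _ hyz
    · match xs, hlen, hch, hzout with
      | [], hlen, _, _ => simp at hlen; omega
      | x1 :: xs', _, hch, hzout =>
        rw [List.isChain_cons_cons, List.isChain_cons_cons] at hch
        refine ⟨x1, ?_, hch.2.1⟩
        refine mem_out.1 ?_
        rw [hzout]
        exact mem_union_left _ (by simp)
  -- `s3` sends an arc to `z`
  have hs3z : D s3 z := by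
    refine mem_out.1 ?_
    rw [hs3out]
    refine mem_union_right _ (mem_sec.2 ⟨?_, hD _ _ hzs, y, hsy, hyz⟩)
    rintro rfl
    exact hirr _ hzs
  -- `s3` is not an out-neighbour of `z`
  have hs3sec : s3 ∈ sec D z := by
    have h1 : s3 ∈ out D s := mem_out.2 hss3
    rw [hsout, mem_union, List.mem_toFinset] at h1
    rcases h1 with h1 | h1
    · exact absurd h1 hs3_notMem
    · exact h1
  have hzs3 : ¬ D z s3 := (mem_sec.1 hs3sec).2.1
  have hs3z' : z ≠ s3 := fun h => hirr s3 (by rw [h] at hs3z; exact hs3z)
  have hzne : ∀ q, D z q → z ≠ q := fun q hq h => hirr z (by rw [← h] at hq; exact hq)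
  have hne3 : ∀ q, D z q → q ≠ s3 := fun q hq h => hzs3 (h ▸ hq)
  -- the cycles of lengths 3, …, t + 4
  have cyc1 : ∀ i, i ≤ t + 1 → HasCycle D (i + 3) := by
    intro i hi
    have hpre : List.IsChain (fun p q => D q p) (s :: (y2 :: xs2).take i) := by
      have h1 : List.IsChain (fun p q => D q p)
          ((s :: (y2 :: xs2).take i) ++ (y2 :: xs2).drop i) := by
        rw [List.cons_append, List.take_append_drop]; exact hch2
      exact h1.left_of_append
    have hrev : List.IsChain D (((y2 :: xs2).take i).reverse ++ [s]) := by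
      have h1 : List.IsChain D (s :: (y2 :: xs2).take i).reverse := List.isChain_reverse.2 hpre
      simpa using h1
    have hlong : List.IsChain D (((y2 :: xs2).take i).reverse ++ s :: [s3, z]) := by
      rw [List.isChain_split]
      refine ⟨hrev, ?_⟩
      simp only [List.isChain_cons_cons]
      exact ⟨hss3, hs3z, by simp⟩
    have hmemN : ∀ x ∈ (y2 :: xs2).take i, D z x := fun x hx =>
      hN2 x (List.mem_cons_of_mem _ (List.mem_of_mem_take hx))
    refine ⟨z, ((y2 :: xs2).take i).reverse ++ [s, s3], ?_, ?_, ?_⟩
    · rw [List.nodup_cons]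
      refine ⟨?_, ?_⟩
      · rw [List.mem_append, List.mem_reverse, not_or]
        refine ⟨fun h => hzne z (hmemN z h) rfl, ?_⟩
        simp only [List.mem_cons, List.not_mem_nil, or_false, not_or]
        exact ⟨hzne s hzs, hs3z'⟩
      · rw [List.nodup_append]
        refine ⟨?_, ?_, ?_⟩
        · rw [List.nodup_reverse]
          rw [List.nodup_cons] at hnd2
          exact hnd2.2.sublist (List.take_sublist i _)
        · simp only [List.nodup_cons, List.mem_cons, List.not_mem_nil, or_false,
            not_false_eq_true, List.nodup_nil, and_true]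
          exact hne3 s hzs
        · intro x hx x' hx' hxx
          subst hxx
          rw [List.mem_reverse] at hx
          simp only [List.mem_cons, List.not_mem_nil, or_false] at hx'
          rcases hx' with rfl | rfl
          · rw [List.nodup_cons] at hnd2
            exact hnd2.1 (List.mem_of_mem_take hx)
          · exact hzs3 (hmemN _ hx)
    · have h1 : ((y2 :: xs2).take i).reverse ++ [s, s3] ++ [z]
          = ((y2 :: xs2).take i).reverse ++ s :: [s3, z] := by simp
      rw [h1, List.isChain_cons]
      refine ⟨?_, hlong⟩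
      intro q hq
      have h2 : q ∈ ((y2 :: xs2).take i).reverse ++ [s] := by
        cases hrev' : ((y2 :: xs2).take i).reverse with
        | nil => rw [hrev'] at hq; simp at hq; simp [hq]
        | cons b bs => rw [hrev'] at hq; simp at hq; simp [hq]
      rw [List.mem_append, List.mem_reverse, List.mem_singleton] at h2
      rcases h2 with h2 | h2
      · exact hmemN q h2
      · exact h2 ▸ hzs
    · simp only [List.length_cons, List.length_append, List.length_reverse, List.length_take,
        List.length_nil, hlen2]
      omega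
  -- the cycle of length t + 5
  have cyc2 : HasCycle D (t + 5) := by
    have hy2s : D y2 s := by
      rw [List.isChain_cons_cons] at hch2; exact hch2.1
    have hzy2 : D z y2 := hN2 y2 (by simp)
    have hrev : List.IsChain D ((y3 :: xs3).reverse ++ [s3]) := by
      have h1 : List.IsChain D (s3 :: (y3 :: xs3)).reverse := List.isChain_reverse.2 hch3
      simpa using h1
    have hlong : List.IsChain D ((y3 :: xs3).reverse ++ s3 :: [z]) := by
      rw [List.isChain_split]
      refine ⟨hrev, ?_⟩
      simp only [List.isChain_cons_cons]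
      exact ⟨hs3z, by simp⟩
    have hmemN : ∀ x ∈ y3 :: xs3, D s x := fun x hx => hN3 x (List.mem_cons_of_mem _ hx)
    refine ⟨z, y2 :: s :: ((y3 :: xs3).reverse ++ [s3]), ?_, ?_, ?_⟩
    · rw [List.nodup_cons, List.nodup_cons, List.nodup_cons, List.mem_cons, List.mem_cons,
        List.mem_cons, List.mem_append, List.mem_append, List.mem_append, List.mem_reverse,
        List.mem_reverse, List.mem_reverse, List.mem_singleton, List.mem_singleton,
        List.mem_singleton]
      refine ⟨?_, ?_, ?_, ?_⟩
      · rintro (h | h | h | h)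
        · exact hzne y2 hzy2 h
        · exact hzne s hzs h
        · exact hD _ _ hzs (hmemN z h)
        · exact hs3z' h
      · rintro (h | h | h)
        · exact hirr s (h ▸ hy2s)
        · exact hD _ _ hy2s (hmemN y2 h)
        · exact hne3 y2 hzy2 h
      · rintro (h | h)
        · exact hirr s (hmemN s h)
        · exact hne3 s hzs h
      · have h1 : (s3 :: (y3 :: xs3)).reverse.Nodup := List.nodup_reverse.2 hnd3
        simpa using h1
    · have h1 : y2 :: s :: ((y3 :: xs3).reverse ++ [s3]) ++ [z]
          = y2 :: s :: ((y3 :: xs3).reverse ++ s3 :: [z]) := by simp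
      rw [h1, List.isChain_cons_cons, List.isChain_cons_cons, List.isChain_cons]
      refine ⟨hzy2, hy2s, ?_, hlong⟩
      intro q hq
      have h2 : q ∈ (y3 :: xs3).reverse ++ [s3] := by
        cases hrev' : (y3 :: xs3).reverse with
        | nil => rw [hrev'] at hq; simp at hq; simp [hq]
        | cons b bs => rw [hrev'] at hq; simp at hq; simp [hq]
      rw [List.mem_append, List.mem_reverse, List.mem_singleton] at h2
      rcases h2 with h2 | h2
      · exact hmemN q h2
      · exact h2 ▸ hss3
    · simp only [List.length_cons, List.length_append, List.length_reverse,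
        List.length_nil, hlen3]
  refine hno 3 (fun i hi => ?_)
  by_cases h : i ≤ t + 1
  · have := cyc1 i h
    rwa [Nat.add_comm] at this
  · have hi' : i = t + 2 := by omega
    subst hi'
    have h1 : 3 + (t + 2) = t + 5 := by omega
    rw [h1]
    exact cyc2

end SNCyc
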