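import Pool.Agent.Helper35.SNCycA

/-!
# Long directed cycles inside out-neighbourhoods of minimum size
-/

open Finset

namespace SNCyc

variable {V : Type}

/-- Every directed cycle inside `H` has length at most `k`. -/
def Short (D : V → V → Prop) (k : ℕ) (H : Finset V) : Prop :=
  ∀ (a : V) (l : List V), (a :: l).Nodup → List.IsChain D (a :: (l ++ [a])) →
    (∀ q ∈ a :: l, q ∈ H) → (a :: l).length ≤ k

theorem Short.rev {D : V → V → Prop} {k : ℕ} {H : Finset V} (h : Short D k H) (a : V)
    (l : List V)
    (hnd : (a :: l).Nodup) (hch : List.IsChain (fun p q => D q p) (a :: (l ++ [a])))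
    (hH : ∀ q ∈ a :: l, q ∈ H) : (a :: l).length ≤ k := by
  have h1 : List.IsChain D (a :: (l.reverse ++ [a])) := by
    have h2 : List.IsChain D (a :: (l ++ [a])).reverse := List.isChain_reverse.2 hch
    simpa using h2
  have h3 := h a l.reverse (by simpa using hnd) h1 (by simpa using hH)
  simpa using h3

/-- An arc back to a list. -/
theorem back {D : V → V → Prop} {k : ℕ} {H : Finset V} (h : Short D k H) (b : V)
    (s t : List V) (q : V)
    (hnd : (b :: (s ++ q :: t)).Nodup)
    (hch : List.IsChain (fun p q => D q p) (b :: (s ++ q :: t)))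
    (hH : ∀ r ∈ b :: (s ++ q :: t), r ∈ H) (hbq : D b q) : s.length + 2 ≤ k := by
  have h1 : ((b :: (s ++ [q])) ++ t).Nodup := by simpa using hnd
  have h2 : List.IsChain (fun p q => D q p) ((b :: s) ++ q :: [b]) := by
    rw [List.isChain_split]
    refine ⟨?_, ?_⟩
    · have h3 : List.IsChain (fun p q => D q p) ((b :: s ++ [q]) ++ t) := by simpa using hch
      exact h3.left_of_append
    · rw [List.isChain_cons_cons]
      exact ⟨hbq, by simp⟩
  have h3 := h.rev b (s ++ [q]) h1.of_append_left (by simpa using h2) (by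
    intro r hr
    refine hH r ?_
    simp only [List.mem_cons, List.mem_append, List.not_mem_nil, or_false] at hr ⊢
    tauto)
  simp only [List.length_cons, List.length_append, List.length_nil] at h3
  omega

/-- A closed list made of two pieces. -/
theorem loop {D : V → V → Prop} {k : ℕ} {H : Finset V} (h : Short D k H) (a b m : V)
    (l1 M : List V) (hnd : (a :: (l1 ++ b :: m :: M)).Nodup)
    (h1 : List.IsChain (fun p q => D q p) (a :: (l1 ++ [b]))) (hmb : D m b)
    (h2 : List.IsChain (fun p q => D q p) (m :: (M ++ [a])))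
    (hH : ∀ r ∈ a :: (l1 ++ b :: m :: M), r ∈ H) : l1.length + M.length + 3 ≤ k := by
  have h3 : List.IsChain (fun p q => D q p) ((a :: l1) ++ b :: (m :: (M ++ [a]))) := by
    rw [List.isChain_split]
    exact ⟨by simpa using h1, List.isChain_cons_cons.2 ⟨hmb, h2⟩⟩
  have h4 := h.rev a (l1 ++ b :: m :: M) hnd (by simpa using h3) hH
  simp only [List.length_cons, List.length_append] at h4
  omega

theorem mem_take_of {s t : List V} {q : V} {n : ℕ} (h : s.length < n) :
    q ∈ (s ++ q :: t).take n := by
  obtain ⟨k, rfl⟩ : ∃ k, n = s.length + (k + 1) := ⟨n - s.length - 1, by omega⟩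
  simp [List.take_append]

/-- The end of a longest path. -/
theorem end_of_longest {D : V → V → Prop} (hD : ∀ u v, D u v → ¬ D v u) {t : ℕ}
    {H : Finset V}
    (h : Short D (t + 2) H) (w y : V) (B : List V) (hnd : (w :: y :: B).Nodup)
    (hch : List.IsChain (fun p q => D q p) (w :: y :: B))
    (hH : ∀ r ∈ w :: y :: B, r ∈ H)
    (hmax : ∀ l : List V, l.Nodup → List.IsChain (fun p q => D q p) l → (∀ r ∈ l, r ∈ H) →
      l.length ≤ (w :: y :: B).length)
    (q : V) (hq : q ∈ H) (hwq : D w q) : q ∈ B.take t := by
  have hirr : ∀ x, ¬ D x x := fun x h => hD x x h h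
  by_cases hql : q ∈ w :: y :: B
  · rw [List.mem_cons, List.mem_cons] at hql
    rcases hql with rfl | rfl | hql
    · exact absurd hwq (hirr _)
    · rw [List.isChain_cons_cons] at hch
      exact absurd hwq (hD _ _ hch.1)
    · obtain ⟨s, t', rfl⟩ := List.append_of_mem hql
      have := back h w (y :: s) t' q (by simpa using hnd) (by simpa using hch)
        (by simpa using hH) hwq
      simp only [List.length_cons] at this
      exact mem_take_of (by omega)
  · have := hmax (q :: w :: y :: B) (List.nodup_cons.2 ⟨hql, hnd⟩)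
      (List.isChain_cons_cons.2 ⟨hwq, hch⟩) (by
        intro r hr
        rw [List.mem_cons] at hr
        rcases hr with rfl | hr
        · exact hq
        · exact hH r hr)
    simp at this

variable [Fintype V]

open Classical in
/-- The local structure at a vertex `v` of minimum out-degree `d`. -/
structure Data (D : V → V → Prop) (d t : ℕ) (v z y x : V) (B : List V) (H : Finset V) :
    Prop where
  hvd : (out D v).card = d
  hzd : (out D z).card = d
  hsv : (sec D v).card + t = d
  hHN : H ⊆ out D v
  hsh : Short D (t + 2) H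
  hcl : ∀ a ∈ H, ∀ b, D v b → D a b → b ∈ H
  hnd : (z :: y :: x :: B).Nodup
  hch : List.IsChain (fun p q => D q p) (z :: y :: x :: B)
  hH : ∀ r ∈ z :: y :: x :: B, r ∈ H
  hlen : t ≤ B.length + 1
  hout : out D z = ((x :: B).take t).toFinset ∪ sec D v
  hend : ∀ w y', (w :: y' :: x :: B).Nodup →
    List.IsChain (fun p q => D q p) (w :: y' :: x :: B) →
    w ∈ H → y' ∈ H → out D w = out D z

open Classical in
theorem out_sub {D : V → V → Prop} (hD : ∀ u v, D u v → ¬ D v u) (v u : V) (hvu : D v u) :
    out D u ⊆ (out D v).filter (fun q => D u q) ∪ sec D v := by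
  intro q hq
  rw [mem_out] at hq
  rw [mem_union, mem_filter, mem_out, mem_sec]
  by_cases h : D v q
  · exact Or.inl ⟨h, hq⟩
  · refine Or.inr ⟨?_, h, u, hvu, hq⟩
    intro hqv
    exact hD _ _ hvu (hqv ▸ hq)

open Classical in
theorem data_exists {D : V → V → Prop} (hD : ∀ u v, D u v → ¬ D v u) (d t : ℕ) (ht : 1 ≤ t)
    (hmin : ∀ x, d ≤ (out D x).card) (v : V) (hvd : (out D v).card = d)
    (hsec : (sec D v).card + t ≤ d)
    (H : Finset V) (hHne : H.Nonempty) (hHN : H ⊆ out D v)
    (hcl : ∀ a ∈ H, ∀ b, D v b → D a b → b ∈ H) (hHs : Short D (t + 2) H) :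
    ∃ z y x B, Data D d t v z y x B H := by
  have hirr : ∀ x, ¬ D x x := fun x h => hD x x h h
  -- the longest path
  set P : ℕ → Prop := fun n => ∃ l : List V, l.length = n ∧ l.Nodup ∧
    List.IsChain (fun p q => D q p) l ∧ ∀ x ∈ l, x ∈ H with hP
  have hbound : ∀ n, P n → n ≤ H.card := by
    rintro n ⟨l, hl, hnd, _, hN⟩
    rw [← hl, ← List.toFinset_card_of_nodup hnd]
    exact Finset.card_le_card (fun x hx => hN x (List.mem_toFinset.1 hx))
  obtain ⟨x0, hx0⟩ := hHne
  have hP1 : P 1 := ⟨[x0], rfl, by simp, by simp, by simpa using hx0⟩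
  set L := Nat.findGreatest P H.card with hL
  have hPL : P L := Nat.findGreatest_spec (hbound 1 hP1) hP1
  have hLmax : ∀ n, P n → n ≤ L := fun n hn => Nat.le_findGreatest (hbound n hn) hn
  obtain ⟨l, hl, hnd, hch, hN⟩ := hPL
  have h1L : 1 ≤ L := hLmax 1 hP1
  have hmax : ∀ l' : List V, l'.Nodup → List.IsChain (fun p q => D q p) l' →
      (∀ r ∈ l', r ∈ H) → l'.length ≤ l.length := by
    intro l' h1 h2 h3
    rw [hl]
    exact hLmax _ ⟨l', rfl, h1, h2, h3⟩
  -- ends of longest paths
  have hendd : ∀ (w : V) (A : List V), w ∈ H → A.length ≤ t → (∀ q ∈ H, D w q → q ∈ A) →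
      out D w = A.toFinset ∪ sec D v ∧ (sec D v).card + t = d ∧ A.length = t := by
    intro w A hw hA hwx
    have h1 : out D w ⊆ A.toFinset ∪ sec D v := by
      intro q hq
      have h2 := out_sub hD v w (mem_out.1 (hHN hw)) hq
      rw [mem_union, mem_filter, mem_out] at h2
      rw [mem_union, List.mem_toFinset]
      rcases h2 with h2 | h2
      · exact Or.inl (hwx q (hcl w hw q h2.1 h2.2) h2.2)
      · exact Or.inr h2
    have h2 := Finset.card_le_card h1
    have h3 := hmin w
    have h4 := Finset.card_union_le A.toFinset (sec D v)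
    have h5 := List.toFinset_card_le A
    exact ⟨Finset.eq_of_subset_of_card_le h1 (by omega), by omega, by omega⟩
  have hexq : ∀ w ∈ H, ∃ q ∈ H, D w q := by
    intro w hw
    by_contra hcon
    push Not at hcon
    obtain ⟨_, _, h1⟩ := hendd w [] hw (by simp) (fun q hq hwq => absurd hwq (hcon q hq))
    simp at h1
    omega
  match l, hl with
  | [], hl => simp at hl; omega
  | [z], hl =>
    exfalso
    obtain ⟨q, hq, hzq⟩ := hexq z (hN z (by simp))
    have := hmax [q, z] (by simp; rintro rfl; exact hirr _ hzq) (by simpa using hzq) (by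
      intro r hr
      simp only [List.mem_cons, List.not_mem_nil, or_false] at hr
      rcases hr with rfl | rfl
      · exact hq
      · exact hN _ (by simp))
    simp at this
  | z :: y :: B0, hl =>
    have hz : z ∈ H := hN z (by simp)
    obtain ⟨hzout, hsv, hBt⟩ := hendd z (B0.take t) hz (List.length_take_le _ _)
      (fun q hq hzq => end_of_longest hD hHs z y B0 hnd hch hN hmax q hq hzq)
    rw [List.length_take] at hBt
    match B0, hBt with
    | [], hBt => simp at hBt; omega
    | x :: B, hBt =>
      simp only [List.length_cons] at hBt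
      have hzd : (out D z).card = d := by
        have h1 : (out D z).card ≤ (sec D v).card + t := by
          rw [hzout]
          have h4 := Finset.card_union_le ((x :: B).take t).toFinset (sec D v)
          have h5 := List.toFinset_card_le ((x :: B).take t)
          have h6 := List.length_take_le t (x :: B)
          omega
        have := hmin z
        omega
      refine ⟨z, y, x, B, hvd, hzd, hsv, hHN, hHs, hcl, hnd, hch, hN, by omega, hzout, ?_⟩
      intro w y' hnd3 hch3 hw hy'
      have hH3 : ∀ r ∈ w :: y' :: x :: B, r ∈ H := by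
        intro r hr
        rw [List.mem_cons, List.mem_cons] at hr
        rcases hr with rfl | rfl | hr
        · exact hw
        · exact hy'
        · exact hN r (by rw [List.mem_cons, List.mem_cons]; exact Or.inr (Or.inr hr))
      have hmax3 : ∀ l : List V, l.Nodup → List.IsChain (fun p q => D q p) l →
          (∀ r ∈ l, r ∈ H) → l.length ≤ (w :: y' :: x :: B).length := by
        intro l' h1 h2 h3
        have := hmax l' h1 h2 h3
        simpa using this
      obtain ⟨h1, _⟩ := hendd w ((x :: B).take t) hw (List.length_take_le _ _)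
        (fun q hq hwq => end_of_longest hD hHs w y' (x :: B) hnd3 hch3 hH3 hmax3 q hq hwq)
      rw [h1, hzout]

open Classical in
/-- The twins of `z` among the out-neighbours of `v`. -/
noncomputable def twins (D : V → V → Prop) (v z : V) : Finset V :=
  (out D v).filter (fun w => out D w = out D z)

theorem mem_twins {D : V → V → Prop} {v z w : V} :
    w ∈ twins D v z ↔ D v w ∧ out D w = out D z := by
  classical
  rw [twins, mem_filter, mem_out]

theorem twin_notMem {D : V → V → Prop} (hD : ∀ u v, D u v → ¬ D v u) {v z w : V}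
    (hw : w ∈ twins D v z) : w ∉ sec D z := by
  intro h
  rw [mem_twins] at hw
  rw [mem_sec] at h
  obtain ⟨_, _, u, hzu, huw⟩ := h
  have : D w u := by
    rw [← mem_out (D := D), hw.2, mem_out]; exact hzu
  exact hD _ _ this huw

open Classical in
/-- The out-neighbours of `z` in `out v` do not dominate `sec z`. -/
theorem sec_not_sub {D : V → V → Prop} (hD : ∀ u v, D u v → ¬ D v u) {d t : ℕ} {v z x : V}
    {X : Finset V} (hX : ∀ x ∈ X, D v x) (hXc : t ≤ X.card) (hx : x ∈ X) (hvz : D v z)
    (hout : out D z = X ∪ sec D v)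
    (hvd : (out D v).card = d) (hsz : (sec D z).card + t = d) : ¬ sec D z ⊆ out D x := by
  intro hsub
  have hirr : ∀ x, ¬ D x x := fun x h => hD x x h h
  have hzX : z ∉ X := by
    intro h
    exact hirr z (by rw [← mem_out (D := D), hout]; exact mem_union_left _ h)
  have hins : insert z X ⊆ out D v := by
    intro q hq
    rw [mem_insert] at hq
    rw [mem_out]
    rcases hq with rfl | hq
    · exact hvz
    · exact hX q hq
  have h1 : sec D z ⊆ out D v \ insert z X := by
    intro q hq
    have hxq : D x q := mem_out.1 (hsub hq)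
    have hq' := mem_sec.1 hq
    have hqn : q ∉ out D z := fun h => hq'.2.1 (mem_out.1 h)
    rw [hout, mem_union, not_or] at hqn
    rw [mem_sdiff, mem_insert, mem_out, not_or]
    refine ⟨?_, hq'.1, hqn.1⟩
    by_contra hvq
    refine hqn.2 (mem_sec.2 ⟨?_, hvq, x, hX x hx, hxq⟩)
    rintro rfl
    exact hD _ _ (hX x hx) hxq
  have h2 := Finset.card_le_card h1
  have h3 := Finset.card_le_card hins
  rw [Finset.card_sdiff_of_subset hins, Finset.card_insert_of_notMem hzX, hvd] at h2
  rw [Finset.card_insert_of_notMem hzX, hvd] at h3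
  omega

section
variable {D : V → V → Prop} {d t : ℕ} {v z y x : V} {B : List V} {H : Finset V}

theorem Data.dvz (h : Data D d t v z y x B H) : D v z := mem_out.1 (h.hHN (h.hH z (by simp)))

theorem Data.dvx (h : Data D d t v z y x B H) : D v x := mem_out.1 (h.hHN (h.hH x (by simp)))

theorem Data.dvy (h : Data D d t v z y x B H) : D v y := mem_out.1 (h.hHN (h.hH y (by simp)))

theorem Data.dyz (h : Data D d t v z y x B H) : D y z := by
  have := h.hch
  rw [List.isChain_cons_cons] at this
  exact this.1

theorem Data.dxy (h : Data D d t v z y x B H) : D x y := by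
  have := h.hch
  rw [List.isChain_cons_cons, List.isChain_cons_cons] at this
  exact this.2.1

theorem Data.chB (h : Data D d t v z y x B H) :
    List.IsChain (fun p q => D q p) (x :: B) := by
  have := h.hch
  rw [List.isChain_cons_cons, List.isChain_cons_cons] at this
  exact this.2.2

theorem Data.ndB (h : Data D d t v z y x B H) : (x :: B).Nodup := by
  have := h.hnd
  rw [List.nodup_cons, List.nodup_cons] at this
  exact this.2.2

theorem Data.mB (h : Data D d t v z y x B H) : ∀ r ∈ x :: B, r ∈ H := fun r hr =>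
  h.hH r (by rw [List.mem_cons, List.mem_cons]; exact Or.inr (Or.inr hr))

theorem Data.x_mem (h : Data D d t v z y x B H) (ht : 1 ≤ t) : x ∈ (x :: B).take t := by
  obtain ⟨k, rfl⟩ : ∃ k, t = k + 1 := ⟨t - 1, by omega⟩
  have := h.hvd
  simp

theorem Data.dzX (h : Data D d t v z y x B H) : ∀ q ∈ (x :: B).take t, D z q := by
  intro q hq
  rw [← mem_out (D := D), h.hout]
  classical
  exact mem_union_left _ (List.mem_toFinset.2 hq)

theorem Data.cX (h : Data D d t v z y x B H) : ((x :: B).take t).length = t := by
  have := h.hlen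
  rw [List.length_take, List.length_cons]
  omega

open Classical in
theorem Data.cXf (h : Data D d t v z y x B H) : ((x :: B).take t).toFinset.card = t := by
  rw [List.toFinset_card_of_nodup (h.ndB.sublist (List.take_sublist _ _)), h.cX]

/-- The out-neighbours of `z` in `out v`. -/
theorem Data.nz (h : Data D d t v z y x B H) (q : V) (hvq : D v q) (hzq : D z q) :
    q ∈ (x :: B).take t := by
  classical
  rw [← mem_out (D := D), h.hout, mem_union, List.mem_toFinset] at hzq
  rcases hzq with h1 | h1
  · exact h1
  · exact absurd hvq (mem_sec.1 h1).2.1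

open Classical in
/-- The out-neighbours of a vertex after `x`. -/
theorem Data.nbr (hD : ∀ u v, D u v → ¬ D v u) (h : Data D d t v z y x B H) (y' : V)
    (hvy' : D v y') (hxy' : D x y') (hy'B : y' ∉ B) :
    (out D v).filter (fun q => D y' q) ⊆ (B.take t).toFinset ∪ twins D v z := by
  have hirr : ∀ x, ¬ D x x := fun x h => hD x x h h
  intro w hw
  rw [mem_filter, mem_out] at hw
  obtain ⟨hvw, hy'w⟩ := hw
  rw [mem_union, List.mem_toFinset, mem_twins]
  have hy' : y' ∈ H := h.hcl x (h.mB x (by simp)) y' hvy' hxy'
  have hw' : w ∈ H := h.hcl y' hy' w hvw hy'w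
  have hy'x : y' ≠ x := by rintro rfl; exact hirr _ hxy'
  have hwx : w ≠ x := by rintro rfl; exact hD _ _ hxy' hy'w
  have hwy' : w ≠ y' := by rintro rfl; exact hirr _ hy'w
  have hnd2 : (y' :: x :: B).Nodup := by
    rw [List.nodup_cons, List.mem_cons, not_or]
    exact ⟨⟨hy'x, hy'B⟩, h.ndB⟩
  have hch2 : List.IsChain (fun p q => D q p) (y' :: x :: B) := by
    rw [List.isChain_cons_cons]; exact ⟨hxy', h.chB⟩
  have hH2 : ∀ r ∈ y' :: x :: B, r ∈ H := by
    intro r hr
    rw [List.mem_cons] at hr
    rcases hr with rfl | hr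
    · exact hy'
    · exact h.mB r hr
  by_cases hwB : w ∈ B
  · left
    obtain ⟨s, t', hB⟩ := List.append_of_mem hwB
    have h1 := back h.hsh y' (x :: s) t' w (by simpa [hB] using hnd2)
      (by simpa [hB] using hch2) (by simpa [hB] using hH2) hy'w
    rw [hB]
    simp only [List.length_cons] at h1
    exact mem_take_of (by omega)
  · right
    refine ⟨hvw, h.hend w y' ?_ ?_ hw' hy'⟩
    · rw [List.nodup_cons, List.mem_cons, List.mem_cons, not_or, not_or]
      exact ⟨⟨hwy', hwx, hwB⟩, hnd2⟩
    · rw [List.isChain_cons_cons]; exact ⟨hy'w, hch2⟩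

/-- The vertices after `x` are second out-neighbours of `z`. -/
theorem Data.sec_of (hD : ∀ u v, D u v → ¬ D v u) (ht : 1 ≤ t) (h : Data D d t v z y x B H)
    (q : V) (hvq : D v q) (hxq : D x q) (hqB : q ∉ B) : q ∈ sec D z := by
  have hirr : ∀ x, ¬ D x x := fun x h => hD x x h h
  have hzx : D z x := h.dzX x (h.x_mem ht)
  rw [mem_sec]
  refine ⟨?_, ?_, x, hzx, hxq⟩
  · rintro rfl; exact hD _ _ hzx hxq
  · intro hzq
    have h1 := List.mem_of_mem_take (h.nz q hvq hzq)
    rw [List.mem_cons] at h1
    rcases h1 with rfl | h1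
    · exact hirr _ hxq
    · exact hqB h1

theorem Data.y_notMem (h : Data D d t v z y x B H) : y ∉ B := by
  have := h.hnd
  rw [List.nodup_cons, List.nodup_cons] at this
  exact fun h1 => this.2.1 (List.mem_cons_of_mem _ h1)

end

open Classical in
/-- Two consecutive steps. -/
theorem pair {D : V → V → Prop} (hD : ∀ u v, D u v → ¬ D v u) {d t : ℕ} (ht : 1 ≤ t)
    (hmin : ∀ x, d ≤ (out D x).card)
    {v v1 y1 x1 : V} {B1 : List V} {H1 : Finset V} {v2 y2 x2 : V} {B2 : List V}
    {H2 : Finset V}
    (h1 : Data D d t v v1 y1 x1 B1 H1) (h2 : Data D d t v1 v2 y2 x2 B2 H2) :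
    (twins D v1 v2).card ≤ (twins D v v1).card ∧
    ((twins D v1 v2).card = (twins D v v1).card → ∀ q, D v1 q → q ∉ sec D v2 →
      q ∈ (x1 :: B1).take t ∨ q ∈ (x2 :: B2).take t ∨ q ∈ twins D v1 v2) ∧
    (∀ u, D v u → u ∈ sec D v1 →
      (twins D v1 v2).card + t ≤ ((out D v).filter (fun q => D u q)).card) := by
  have hirr : ∀ x, ¬ D x x := fun x h => hD x x h h
  have hE : ∀ q ∈ (x1 :: B1).take t, ¬ sec D v1 ⊆ out D q := by
    intro q hq
    refine sec_not_sub hD (X := ((x1 :: B1).take t).toFinset) (v := v) (t := t) (d := d)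
      ?_ (by rw [h1.cXf]) (List.mem_toFinset.2 hq) h1.dvz h1.hout h1.hvd h2.hsv
    intro r hr
    exact mem_out.1 (h1.hHN (h1.mB r (List.mem_of_mem_take (List.mem_toFinset.1 hr))))
  -- the lower bound
  set F : Finset V := (sec D v).filter (fun q => q ∈ (x2 :: B2).take t) with hF
  have hFx : ∀ q ∈ (x2 :: B2).take t, q ∉ twins D v1 v2 := by
    intro q hq h
    rw [mem_twins] at h
    exact hirr q (by rw [← mem_out (D := D), h.2, mem_out]; exact h2.dzX q hq)
  have hCF : Disjoint (twins D v1 v2) F := by
    rw [Finset.disjoint_left]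
    intro q hq hq'
    rw [hF, mem_filter] at hq'
    exact hFx q hq'.2 hq
  have hCS : twins D v1 v2 ∪ F ⊆ sec D v \ sec D v2 := by
    intro q hq
    rw [mem_union] at hq
    rw [mem_sdiff]
    rcases hq with hq | hq
    · refine ⟨?_, twin_notMem hD hq⟩
      rw [mem_twins, ← mem_out (D := D), h1.hout, mem_union, List.mem_toFinset] at hq
      rcases hq.1 with h | h
      · exfalso
        refine hE q h ?_
        rw [hq.2, h2.hout]
        exact Finset.subset_union_right
      · exact h
    · rw [hF, mem_filter] at hq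
      refine ⟨hq.1, ?_⟩
      rw [mem_sec]
      exact fun h => h.2.1 (h2.dzX q hq.2)
  have hLw := Finset.card_le_card hCS
  rw [Finset.card_union_of_disjoint hCF] at hLw
  have hsd : (sec D v \ sec D v2).card + (sec D v ∩ sec D v2).card = (sec D v).card := by
    exact Finset.card_sdiff_add_card_inter _ _
  -- out-neighbours in the second neighbourhood
  have hup : ∀ u, D v u → u ∈ sec D v1 →
      d ≤ ((out D v).filter (fun q => D u q)).card + F.card + (sec D v ∩ sec D v2).card := by
    intro u hvu hu
    have hv2u : D v2 u := by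
      rw [← mem_out (D := D), h2.hout]; exact mem_union_right _ hu
    have h3 : out D u ⊆ (out D v).filter (fun q => D u q) ∪ F ∪ (sec D v ∩ sec D v2) := by
      intro q hq
      have h4 := out_sub hD v u hvu hq
      have huq : D u q := mem_out.1 hq
      rw [mem_union] at h4
      rw [mem_union, mem_union]
      rcases h4 with h4 | h4
      · exact Or.inl (Or.inl h4)
      · by_cases hqs : q ∈ sec D v2
        · exact Or.inr (mem_inter.2 ⟨h4, hqs⟩)
        · left; right
          have h5 : D v2 q := by
            by_contra h6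
            refine hqs (mem_sec.2 ⟨?_, h6, u, hv2u, huq⟩)
            rintro rfl
            exact hD _ _ hv2u huq
          rw [← mem_out (D := D), h2.hout, mem_union, List.mem_toFinset] at h5
          rw [hF, mem_filter]
          refine ⟨h4, ?_⟩
          rcases h5 with h5 | h5
          · exact h5
          · exfalso
            rw [mem_sec] at h5
            refine h5.2.1 ?_
            rw [← mem_out (D := D), h1.hout]
            exact mem_union_right _ h4
    have h4 := Finset.card_le_card h3
    have h5 := Finset.card_union_le ((out D v).filter (fun q => D u q) ∪ F)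
      (sec D v ∩ sec D v2)
    have h6 := Finset.card_union_le ((out D v).filter (fun q => D u q)) F
    have h7 := hmin u
    omega
  have hsv := h1.hsv
  have hy1 : y1 ∈ sec D v1 := h1.sec_of hD ht y1 h1.dvy h1.dxy h1.y_notMem
  have hy1N : ((out D v).filter (fun q => D y1 q)).card ≤ t + (twins D v v1).card := by
    have h4 := Finset.card_le_card (h1.nbr hD y1 h1.dvy h1.dxy h1.y_notMem)
    have h5 := Finset.card_union_le (B1.take t).toFinset (twins D v v1)
    have h6 := List.toFinset_card_le (B1.take t)
    have h7 := List.length_take_le t B1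
    omega
  have hU := hup y1 h1.dvy hy1
  refine ⟨by omega, ?_, ?_⟩
  · intro heq q hq hqs
    have h3 : twins D v1 v2 ∪ F = sec D v \ sec D v2 := by
      refine Finset.eq_of_subset_of_card_le hCS ?_
      rw [Finset.card_union_of_disjoint hCF]
      omega
    rw [← mem_out (D := D), h1.hout, mem_union, List.mem_toFinset] at hq
    rcases hq with hq | hq
    · exact Or.inl hq
    · have h4 : q ∈ twins D v1 v2 ∪ F := by
        rw [h3, mem_sdiff]; exact ⟨hq, hqs⟩
      rw [mem_union, hF, mem_filter] at h4
      rcases h4 with h4 | h4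
      · exact Or.inr (Or.inr h4)
      · exact Or.inr (Or.inl h4.2)
  · intro u hvu hu
    have h3 := hup u hvu hu
    omega

open Classical in
/-- The vertex `x` has more than `t` out-neighbours in `out v`. -/
theorem other_out {D : V → V → Prop} (hD : ∀ u v, D u v → ¬ D v u) {d t : ℕ} (ht : 1 ≤ t)
    (hmin : ∀ x, d ≤ (out D x).card)
    (hall : ∀ v, (out D v).card = d → ∃ z y x B H, Data D d t v z y x B H)
    {v z y x : V} {B : List V} {H : Finset V} (h : Data D d t v z y x B H) :
    t + 1 ≤ ((out D v).filter (fun q => D x q)).card := by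
  have hirr : ∀ x, ¬ D x x := fun x h => hD x x h h
  by_contra hcon
  push Not at hcon
  set F := (out D v).filter (fun q => D x q) with hF
  have h1 : out D x ⊆ F ∪ sec D v := out_sub hD v x h.dvx
  have h2 := Finset.card_le_card h1
  have h3 := hmin x
  have h4 := Finset.card_union_le F (sec D v)
  have h5 := h.hsv
  have hout : out D x = F ∪ sec D v := Finset.eq_of_subset_of_card_le h1 (by omega)
  obtain ⟨z', y', x', B', H', h'⟩ := hall x (by omega)
  have hxz' : D x z' := h'.dvz
  have hE : ∀ q ∈ F, ¬ sec D x ⊆ out D q := by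
    intro q hq
    refine sec_not_sub hD (X := F) (v := v) (t := t) (d := d) ?_ (by omega) hq h.dvx hout
      h.hvd h'.hsv
    intro r hr
    rw [hF, mem_filter] at hr
    exact mem_out.1 hr.1
  have hsz' : sec D x ⊆ out D z' := by
    rw [h'.hout]; exact Finset.subset_union_right
  have hz's : z' ∈ sec D v := by
    rw [← mem_out (D := D), hout, mem_union] at hxz'
    rcases hxz' with h6 | h6
    · exact absurd hsz' (hE z' h6)
    · exact h6
  have hzx : D z x := h.dzX x (h.x_mem ht)
  have hzz' : D z z' := by
    rw [← mem_out (D := D), h.hout]; exact mem_union_right _ hz's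
  have hzs : z ∈ sec D x := by
    rw [mem_sec]
    refine ⟨?_, hD _ _ hzx, y, h.dxy, h.dyz⟩
    rintro rfl
    exact hirr _ hzx
  exact hD _ _ hzz' (mem_out.1 (hsz' hzs))

omit [Fintype V] in
theorem last_split (P : V → Prop) (l : List V) (h : ∃ r ∈ l, P r) :
    ∃ l1 r l2, l = l1 ++ r :: l2 ∧ P r ∧ ∀ r' ∈ l2, ¬ P r' := by
  induction l with
  | nil => obtain ⟨r, hr, _⟩ := h; simp at hr
  | cons a l ih =>
    by_cases h' : ∃ r ∈ l, P r
    · obtain ⟨l1, r, l2, h1, h2, h3⟩ := ih h'
      exact ⟨a :: l1, r, l2, by rw [h1, List.cons_append], h2, h3⟩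
    · obtain ⟨r, hr, hPr⟩ := h
      rw [List.mem_cons] at hr
      rcases hr with rfl | hr
      · exact ⟨[], r, l, rfl, hPr, fun r' hr' hP => h' ⟨r', hr', hP⟩⟩
      · exact absurd ⟨r, hr, hPr⟩ h'

open Classical in
/-- The final contradiction. -/
theorem no_data {D : V → V → Prop} (hD : ∀ u v, D u v → ¬ D v u) {d t : ℕ} (ht : 1 ≤ t)
    {v z y x : V} {B : List V} {H : Finset V} (h : Data D d t v z y x B H)
    (hS1 : ∀ q, D v q → q ∉ sec D z → q ∉ (x :: B).take t → q ∉ twins D v z →
      t + 1 ≤ ((out D v).filter (fun r => D q r)).card)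
    (hS2 : ∀ u, D v u → u ∈ sec D z →
      (twins D v z).card + t ≤ ((out D v).filter (fun q => D u q)).card)
    (hx : t + 1 ≤ ((out D v).filter (fun q => D x q)).card) : False := by
  have hirr : ∀ x, ¬ D x x := fun x h => hD x x h h
  have hzC : z ∈ twins D v z := mem_twins.2 ⟨h.dvz, rfl⟩
  have hc : 1 ≤ (twins D v z).card := Finset.card_pos.2 ⟨z, hzC⟩
  have hY : ∀ y', D v y' → D x y' → y' ∉ B →
      (out D v).filter (fun q => D y' q) = (B.take t).toFinset ∪ twins D v z ∧
      (B.take t).toFinset.card = t ∧ Disjoint (B.take t).toFinset (twins D v z) := by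
    intro y' hvy' hxy' hy'B
    have h1 := h.nbr hD y' hvy' hxy' hy'B
    have h2 := hS2 y' hvy' (h.sec_of hD ht y' hvy' hxy' hy'B)
    have h3 := Finset.card_union_le (B.take t).toFinset (twins D v z)
    have h4 := List.toFinset_card_le (B.take t)
    have h5 := List.length_take_le t B
    have h6 := Finset.card_le_card h1
    have h7 := Finset.card_union_add_card_inter (B.take t).toFinset (twins D v z)
    refine ⟨Finset.eq_of_subset_of_card_le h1 (by omega), by omega, ?_⟩
    rw [Finset.disjoint_iff_inter_eq_empty, ← Finset.card_eq_zero]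
    omega
  obtain ⟨_, hBc, hdis⟩ := hY y h.dvy h.dxy h.y_notMem
  -- the vertex `p`
  obtain ⟨B1, p, B2, hB, hB1⟩ : ∃ B1 p B2, B = B1 ++ p :: B2 ∧ B1.length = t - 1 := by
    have h4 := List.toFinset_card_le (B.take t)
    rw [hBc, List.length_take] at h4
    match hB : B.drop (t - 1) with
    | [] =>
      have := congrArg List.length hB
      rw [List.length_drop] at this
      simp at this
      omega
    | p :: B2 =>
      refine ⟨B.take (t - 1), p, B2, ?_, ?_⟩
      · rw [← hB, List.take_append_drop]
      · rw [List.length_take]; omega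
  subst hB
  have hXt : (x :: (B1 ++ p :: B2)).take t = x :: B1 := by
    obtain ⟨k, rfl⟩ : ∃ k, t = k + 1 := ⟨t - 1, by omega⟩
    have hk : B1.length = k := by omega
    subst hk
    simp
  have hBt : (B1 ++ p :: B2).take t = B1 ++ [p] := by
    obtain ⟨k, rfl⟩ : ∃ k, t = k + 1 := ⟨t - 1, by omega⟩
    have hk : B1.length = k := by omega
    subst hk
    simp [List.take_append]
  have hndB := h.ndB
  have hchB := h.chB
  have hmB := h.mB
  -- the end `b` of `x :: B1`
  obtain ⟨l1, b, hlb⟩ : ∃ l1 b, x :: B1 = l1 ++ [b] :=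
    ⟨(x :: B1).dropLast, (x :: B1).getLast (by simp), (List.dropLast_append_getLast _).symm⟩
  have hl1 : l1.length + 1 = t := by
    have := congrArg List.length hlb
    simp only [List.length_cons, List.length_append, List.length_nil] at this
    omega
  have hbX : b ∈ x :: B1 := by rw [hlb]; simp
  have hzX : ∀ q ∈ x :: B1, D z q := by
    intro q hq
    exact h.dzX q (by rw [hXt]; exact hq)
  have hzx : D z x := hzX x (by simp)
  have hCX : ∀ w ∈ twins D v z, ∀ q ∈ x :: B1, D w q := by
    intro w hw q hq
    rw [mem_twins] at hw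
    rw [← mem_out (D := D), hw.2, mem_out]
    exact hzX q hq
  have hCnX : ∀ w ∈ twins D v z, w ∉ x :: B1 := fun w hw hwX => hirr w (hCX w hw w hwX)
  have hpC : p ∉ twins D v z := by
    intro hp
    rw [hBt] at hdis
    exact Finset.disjoint_left.1 hdis (List.mem_toFinset.2 (by simp)) hp
  have hpX : p ∉ x :: B1 := by
    intro hp
    have h1 : ((x :: B1) ++ p :: B2).Nodup := hndB
    rw [List.nodup_append] at h1
    exact h1.2.2 p hp p (by simp) rfl
  have hpH : p ∈ H := hmB p (by simp)
  have hYp : ∀ y', D v y' → D x y' → y' ∉ B1 ++ p :: B2 →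
      D y' p ∧ ∀ w ∈ twins D v z, D y' w := by
    intro y' hvy' hxy' hy'B
    obtain ⟨h1, _, _⟩ := hY y' hvy' hxy' hy'B
    rw [hBt] at h1
    refine ⟨?_, ?_⟩
    · have h2 : p ∈ (out D v).filter (fun q => D y' q) := by
        rw [h1]; exact mem_union_left _ (List.mem_toFinset.2 (by simp))
      exact (mem_filter.1 h2).2
    · intro w hw
      have h2 : w ∈ (out D v).filter (fun q => D y' q) := by
        rw [h1]; exact mem_union_right _ hw
      exact (mem_filter.1 h2).2
  obtain ⟨hyp, hyC⟩ := hYp y h.dvy h.dxy h.y_notMem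
  have hyX : y ∉ x :: B1 := by
    intro h1
    rw [List.mem_cons] at h1
    rcases h1 with h1 | h1
    · exact hirr x (by have := h.dxy; rwa [h1] at this)
    · exact h.y_notMem (by simp [h1])
  -- another vertex after `x` and before `p`
  have hy2 : ∃ y2, D v y2 ∧ D x y2 ∧ y2 ≠ y ∧ D y2 p ∧ y2 ∉ x :: B1 := by
    by_contra hcon
    push Not at hcon
    have h1 : (out D v).filter (fun q => D x q) ⊆ insert y ((B1 ++ [p]).tail).toFinset := by
      intro q hq
      rw [mem_filter, mem_out] at hq
      obtain ⟨hvq, hxq⟩ := hq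
      rw [mem_insert, List.mem_toFinset]
      by_cases hqy : q = y
      · exact Or.inl hqy
      right
      have hqx : q ≠ x := by rintro rfl; exact hirr _ hxq
      by_cases hqB : q ∈ B1 ++ p :: B2
      · by_cases hqp : q ∈ B1 ++ [p]
        · match hBB : B1 ++ [p] with
          | [] => simp at hBB
          | b1 :: rest =>
            rw [hBB, List.mem_cons] at hqp
            rcases hqp with rfl | hqp
            · exfalso
              have h2 : B1 ++ p :: B2 = q :: (rest ++ B2) := by
                rw [← List.cons_append, ← hBB]; simp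
              rw [h2, List.isChain_cons_cons] at hchB
              exact hD _ _ hxq hchB.1
            · exact hqp
        · exfalso
          have hqB2 : q ∈ B2 := by
            simp only [List.mem_append, List.mem_cons, List.not_mem_nil, or_false,
              not_or] at hqB hqp
            tauto
          obtain ⟨s, t', hs⟩ := List.append_of_mem hqB2
          have h2 : x :: (B1 ++ p :: B2) = x :: ((B1 ++ p :: s) ++ q :: t') := by
            rw [hs]; simp
          have h3 := back h.hsh x (B1 ++ p :: s) t' q (by rw [← h2]; exact hndB)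
            (by rw [← h2]; exact hchB) (by rw [← h2]; exact hmB) hxq
          simp only [List.length_append, List.length_cons] at h3
          have hs0 : s = [] := List.length_eq_zero_iff.1 (by omega)
          subst hs0
          have hqp' : D q p := by
            have h4 : List.IsChain (fun p q => D q p) ((x :: B1) ++ p :: (q :: t')) := by
              rw [hs] at hchB
              simpa using hchB
            rw [List.isChain_split, List.isChain_cons_cons] at h4
            exact h4.2.1
          have h6 := hcon q hvq hxq hqy hqp'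
          rw [List.mem_cons] at h6
          rcases h6 with h6 | h6
          · exact hqx h6
          · exact hqp (by simp [h6])
      · exfalso
        have h6 := hcon q hvq hxq hqy (hYp q hvq hxq hqB).1
        rw [List.mem_cons] at h6
        rcases h6 with h6 | h6
        · exact hqx h6
        · exact hqB (by simp [h6])
    have h2 := Finset.card_le_card h1
    have h3 := Finset.card_insert_le y ((B1 ++ [p]).tail).toFinset
    have h4 := List.toFinset_card_le (B1 ++ [p]).tail
    rw [List.length_tail, List.length_append] at h4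
    simp only [List.length_cons, List.length_nil] at h4
    omega
  obtain ⟨y2, hvy2, hxy2, hy2y, hy2p, hy2X⟩ := hy2
  -- the set `K`
  set K : Finset V := H.filter (fun q => q ∉ x :: B1 ∧ q ∉ twins D v z ∧
    ¬ (D x q ∧ q ∉ B1 ++ p :: B2)) with hK
  have hpK : p ∈ K := by
    rw [hK, mem_filter]
    exact ⟨hpH, hpX, hpC, fun h1 => h1.2 (by simp)⟩
  -- the longest path in `K` that starts at `p`
  set P : ℕ → Prop := fun n => ∃ s : List V, (s ++ [p]).length = n ∧ (s ++ [p]).Nodup ∧
    List.IsChain (fun p q => D q p) (s ++ [p]) ∧ ∀ r ∈ s ++ [p], r ∈ K with hP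
  have hbound : ∀ n, P n → n ≤ K.card := by
    rintro n ⟨s, hl, hnd, _, hN⟩
    rw [← hl, ← List.toFinset_card_of_nodup hnd]
    exact Finset.card_le_card (fun x hx => hN x (List.mem_toFinset.1 hx))
  have hP1 : P 1 := ⟨[], rfl, by simp, by simp, by simpa using hpK⟩
  have hPL : P (Nat.findGreatest P K.card) := Nat.findGreatest_spec (hbound 1 hP1) hP1
  have hLmax : ∀ n, P n → n ≤ Nat.findGreatest P K.card :=
    fun n hn => Nat.le_findGreatest (hbound n hn) hn
  obtain ⟨s, hsl, hsnd, hsch, hsK⟩ := hPL
  obtain ⟨e, L, hL⟩ : ∃ e L, s ++ [p] = e :: L := by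
    match s with
    | [] => exact ⟨p, [], rfl⟩
    | a :: s => exact ⟨a, s ++ [p], rfl⟩
  have hLa : ∀ a, D a p → List.IsChain (fun p q => D q p) (e :: (L ++ [a])) := by
    intro a hap
    have h1 : List.IsChain (fun p q => D q p) (s ++ p :: [a]) := by
      rw [List.isChain_split]
      exact ⟨hsch, by simpa using hap⟩
    have h2 : e :: (L ++ [a]) = s ++ p :: [a] := by
      rw [← List.cons_append, ← hL]; simp
    rw [h2]; exact h1
  have hLin : ∀ q ∈ K, D e q → q ∈ L := by
    intro q hq heq
    by_contra hqL
    have hqe : q ≠ e := by rintro rfl; exact hirr _ heq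
    have h1 : P ((q :: (s ++ [p])).length) := by
      refine ⟨q :: s, rfl, ?_, ?_, ?_⟩
      · rw [List.cons_append, List.nodup_cons, hL, List.mem_cons, not_or]
        exact ⟨⟨hqe, hqL⟩, by rw [← hL]; exact hsnd⟩
      · rw [List.cons_append, hL, List.isChain_cons_cons, ← hL]
        exact ⟨heq, hsch⟩
      · intro r hr
        rw [List.cons_append, List.mem_cons] at hr
        rcases hr with rfl | hr
        · exact hq
        · exact hsK r hr
    have h2 := hLmax _ h1
    rw [List.length_cons, ← hsl] at h2
    omega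
  rw [hL] at hsnd hsch hsK
  have heK : e ∈ K := hsK e (by simp)
  have hKH : ∀ q ∈ K, q ∈ H ∧ q ∉ x :: B1 ∧ q ∉ twins D v z ∧
      ¬ (D x q ∧ q ∉ B1 ++ p :: B2) := by
    intro q hq
    rw [hK, mem_filter] at hq
    exact hq
  obtain ⟨heH, heX, heC, heY⟩ := hKH e heK
  have hve : D v e := mem_out.1 (h.hHN heH)
  have hecard : t + 1 ≤ ((out D v).filter (fun r => D e r)).card := by
    by_cases hes : e ∈ sec D z
    · have := hS2 e hve hes
      omega
    · exact hS1 e hve hes (by rw [hXt]; exact heX) heC
  have hchX : ∀ a, D x a → List.IsChain (fun p q => D q p) (a :: x :: B1) := by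
    intro a hxa
    rw [List.isChain_cons_cons]
    refine ⟨hxa, ?_⟩
    have h1 : List.IsChain (fun p q => D q p) ((x :: B1) ++ p :: B2) := by simpa using hchB
    exact h1.left_of_append
  have hndX : (x :: B1).Nodup := by
    have h1 : ((x :: B1) ++ p :: B2).Nodup := hndB
    exact h1.of_append_left
  have hXH : ∀ r ∈ x :: B1, r ∈ H := fun r hr => hmB r (by
    rw [List.mem_cons] at hr
    rcases hr with rfl | hr
    · simp
    · simp [hr])
  -- no long closed lists
  have hloop : ∀ (a m : V) (M : List V), D x a → a ∈ H → a ∉ x :: B1 → D m b →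
      List.IsChain (fun p q => D q p) (m :: (M ++ [a])) → (m :: M).Nodup → a ∉ m :: M →
      (∀ r ∈ m :: M, r ∈ H ∧ r ∉ x :: B1) → M.length = 0 := by
    intro a m M hxa haH haX hmb hch hnd ham hr
    have h1 : a :: (l1 ++ b :: m :: M) = a :: ((x :: B1) ++ (m :: M)) := by
      rw [hlb]; simp
    have h2 := loop h.hsh a b m l1 M (by
        rw [h1, List.nodup_cons, List.mem_append, not_or, List.nodup_append]
        refine ⟨⟨haX, ham⟩, hndX, hnd, ?_⟩
        intro r1 hr1 r2 hr2 h12
        exact (hr r2 hr2).2 (h12 ▸ hr1)) (by rw [← hlb]; exact hchX a hxa) hmb hch (by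
        intro r hr'
        rw [h1, List.mem_cons, List.mem_append] at hr'
        rcases hr' with rfl | hr' | hr'
        · exact haH
        · exact hXH r hr'
        · exact (hr r hr').1)
    omega
  have hyH : y ∈ H := h.hH y (by simp)
  have hzH : z ∈ H := h.hH z (by simp)
  have hyK : y ∉ K := fun h1 => (hKH y h1).2.2.2 ⟨h.dxy, h.y_notMem⟩
  -- out-neighbours of `e`
  have hout : ∀ q, D v q → D e q → q ∈ x :: B1 ∨ q ∈ L := by
    intro q hvq heq
    have hqH : q ∈ H := h.hcl e heH q hvq heq
    by_cases hqX : q ∈ x :: B1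
    · exact Or.inl hqX
    right
    by_cases hqC : q ∈ twins D v z
    · exfalso
      have h1 := hloop y q (e :: L) h.dxy hyH hyX (hCX q hqC b hbX) (by
        rw [List.cons_append, List.isChain_cons_cons]
        exact ⟨heq, hLa y hyp⟩) (by
        rw [List.nodup_cons]
        exact ⟨fun h2 => (hKH q (hsK q h2)).2.2.1 hqC, hsnd⟩) (by
        rw [List.mem_cons, not_or]
        refine ⟨?_, fun h2 => hyK (hsK y h2)⟩
        rintro rfl
        exact hD _ _ h.dxy (hCX y hqC x (by simp))) (by
        intro r hr
        rw [List.mem_cons] at hr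
        rcases hr with rfl | hr
        · exact ⟨hqH, hqX⟩
        · exact ⟨(hKH r (hsK r hr)).1, (hKH r (hsK r hr)).2.1⟩)
      simp at h1
    by_cases hqY : D x q ∧ q ∉ B1 ++ p :: B2
    · exfalso
      obtain ⟨hxq, hqB⟩ := hqY
      obtain ⟨y3, hvy3, hxy3, hy3q, hy3p, hy3X⟩ :
          ∃ y3, D v y3 ∧ D x y3 ∧ y3 ≠ q ∧ D y3 p ∧ y3 ∉ x :: B1 := by
        by_cases hqy : q = y
        · exact ⟨y2, hvy2, hxy2, by rw [hqy]; exact hy2y, hy2p, hy2X⟩
        · exact ⟨y, h.dvy, h.dxy, fun h1 => hqy h1.symm, hyp, hyX⟩
      have hqz : D q z := (hYp q hvq hxq hqB).2 z hzC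
      have hzq : z ≠ q := by rintro rfl; exact hirr _ hqz
      have hy3z : y3 ≠ z := by rintro rfl; exact hD _ _ hxy3 hzx
      have hy3H : y3 ∈ H := h.hcl x (hXH x (by simp)) y3 hvy3 hxy3
      have hqK : q ∉ K := fun h1 => (hKH q h1).2.2.2 ⟨hxq, hqB⟩
      have hzK : z ∉ K := fun h1 => (hKH z h1).2.2.1 hzC
      have hL1 : ∃ L1 : List V, (∀ r ∈ L1, r ∈ e :: L) ∧ L1.Nodup ∧ y3 ∉ L1 ∧
          List.IsChain (fun p q => D q p) (q :: (L1 ++ [y3])) := by
        by_cases hy3L : y3 ∈ e :: L
        · obtain ⟨L1, L2, hLL⟩ := List.append_of_mem hy3L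
          have hnd1 := hsnd
          rw [hLL, List.nodup_append] at hnd1
          refine ⟨L1, ?_, hnd1.1, ?_, ?_⟩
          · intro r hr
            rw [hLL, List.mem_append]
            exact Or.inl hr
          · intro h1
            exact hnd1.2.2 y3 h1 y3 (by simp) rfl
          · have h1 : List.IsChain (fun p q => D q p) (q :: e :: L) := by
              rw [List.isChain_cons_cons]; exact ⟨heq, hsch⟩
            rw [hLL] at h1
            have h2 : List.IsChain (fun p q => D q p) ((q :: (L1 ++ [y3])) ++ L2) := by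
              simpa using h1
            exact h2.left_of_append
        · refine ⟨e :: L, fun r hr => hr, hsnd, hy3L, ?_⟩
          rw [List.cons_append, List.isChain_cons_cons]
          exact ⟨heq, hLa y3 hy3p⟩
      obtain ⟨L1, hL1m, hL1n, hL1y, hL1c⟩ := hL1
      have h1 := hloop y3 z (q :: L1) hxy3 hy3H hy3X (hzX b hbX) (by
        rw [List.cons_append, List.isChain_cons_cons]
        exact ⟨hqz, hL1c⟩) (by
        rw [List.nodup_cons, List.nodup_cons, List.mem_cons, not_or]
        exact ⟨⟨hzq, fun h2 => hzK (hsK z (hL1m z h2))⟩,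
          fun h2 => hqK (hsK q (hL1m q h2)), hL1n⟩) (by
        rw [List.mem_cons, List.mem_cons, not_or, not_or]
        exact ⟨hy3z, hy3q, hL1y⟩) (by
        intro r hr
        rw [List.mem_cons, List.mem_cons] at hr
        rcases hr with rfl | rfl | hr
        · exact ⟨hzH, hCnX _ hzC⟩
        · exact ⟨hqH, hqX⟩
        · exact ⟨(hKH r (hsK r (hL1m r hr))).1, (hKH r (hsK r (hL1m r hr))).2.1⟩)
      simp at h1
    · refine hLin q ?_ heq
      rw [hK, mem_filter]
      exact ⟨hqH, hqX, hqC, hqY⟩
  by_cases hex : ∃ r ∈ x :: B1, D e r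
  · obtain ⟨l2, r, l3, hlr, her, hl3⟩ := last_split (fun r => D e r) (x :: B1) hex
    have h1 : (out D v).filter (fun q => D e q) ⊆ (l2 ++ [r]).toFinset ∪ L.toFinset := by
      intro q hq
      rw [mem_filter, mem_out] at hq
      rw [mem_union, List.mem_toFinset, List.mem_toFinset]
      rcases hout q hq.1 hq.2 with h2 | h2
      · left
        rw [hlr, List.mem_append, List.mem_cons] at h2
        rw [List.mem_append, List.mem_singleton]
        rcases h2 with h2 | h2 | h2
        · exact Or.inl h2
        · exact Or.inr h2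
        · exact absurd hq.2 (hl3 q h2)
      · exact Or.inr h2
    have h2 := Finset.card_le_card h1
    have h3 := Finset.card_union_le (l2 ++ [r]).toFinset L.toFinset
    have h4 := List.toFinset_card_le (l2 ++ [r])
    have h5 := List.toFinset_card_le L
    rw [List.length_append] at h4
    simp only [List.length_cons, List.length_nil] at h4
    have hsub : ∀ r' ∈ l2 ++ [r], r' ∈ x :: B1 := by
      intro r' hr'
      rw [hlr]
      rw [List.mem_append, List.mem_singleton] at hr'
      rw [List.mem_append, List.mem_cons]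
      tauto
    have hnd2 : (l2 ++ [r]).Nodup := by
      have h6 : ((l2 ++ [r]) ++ l3).Nodup := by
        rw [hlr] at hndX
        simpa using hndX
      exact h6.of_append_left
    have hch2 : List.IsChain (fun p q => D q p) (y :: (l2 ++ [r])) := by
      have h6 := hchX y h.dxy
      rw [hlr] at h6
      have h7 : List.IsChain (fun p q => D q p) ((y :: (l2 ++ [r])) ++ l3) := by
        simpa using h6
      exact h7.left_of_append
    have h8 : y :: (l2 ++ r :: e :: L) = y :: ((l2 ++ [r]) ++ (e :: L)) := by simp
    have h9 := loop h.hsh y r e l2 L (by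
      rw [h8, List.nodup_cons, List.mem_append, not_or, List.nodup_append]
      refine ⟨⟨fun h10 => hyX (hsub y h10), fun h10 => hyK (hsK y h10)⟩, hnd2, hsnd, ?_⟩
      intro r1 hr1 r2 hr2 h12
      exact (hKH r2 (hsK r2 hr2)).2.1 (h12 ▸ hsub r1 hr1)) hch2 her (hLa y hyp) (by
      intro r' hr'
      rw [h8, List.mem_cons, List.mem_append] at hr'
      rcases hr' with rfl | hr' | hr'
      · exact hyH
      · exact hXH r' (hsub r' hr')
      · exact (hKH r' (hsK r' hr')).1)
    omega
  · match L with
    | [] =>
      have h1 : (out D v).filter (fun q => D e q) ⊆ ∅ := by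
        intro q hq
        rw [mem_filter, mem_out] at hq
        rcases hout q hq.1 hq.2 with h2 | h2
        · exact absurd ⟨q, h2, hq.2⟩ hex
        · simp at h2
      have h2 := Finset.card_le_card h1
      rw [Finset.card_empty] at h2
      omega
    | e1 :: L =>
      have h1 : (out D v).filter (fun q => D e q) ⊆ (L.take t).toFinset := by
        intro q hq
        rw [mem_filter, mem_out] at hq
        rw [List.mem_toFinset]
        rcases hout q hq.1 hq.2 with h2 | h2
        · exact absurd ⟨q, h2, hq.2⟩ hex
        rw [List.mem_cons] at h2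
        rcases h2 with rfl | h2
        · rw [List.isChain_cons_cons] at hsch
          exact absurd hq.2 (hD _ _ hsch.1)
        · obtain ⟨s', t', hs'⟩ := List.append_of_mem h2
          subst hs'
          have h3 := back h.hsh e (e1 :: s') t' q (by simpa using hsnd)
            (by simpa using hsch) (by
              intro r hr
              exact (hKH r (hsK r (by simpa using hr))).1) hq.2
          simp only [List.length_cons] at h3
          exact mem_take_of (by omega)
      have h2 := Finset.card_le_card h1
      have h3 := List.toFinset_card_le (L.take t)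
      have h4 := List.length_take_le t L
      omega

open Classical in
/-- **Main theorem.** -/
theorem local_cycles (t : ℕ) (ht : 1 ≤ t) (V : Type) [Fintype V] [Nonempty V]
    (D : V → V → Prop)
    (hD : ∀ u v, D u v → ¬ D v u)
    (hloc : ∀ v, (∀ w, (out D v).card ≤ (out D w).card) → (out D v).Nonempty →
      ∃ H : Finset V, H.Nonempty ∧ H ⊆ out D v ∧
        (∀ a ∈ H, ∀ b, D v b → D a b → b ∈ H) ∧ Short D (t + 2) H) :
    ∃ v, (∀ w, (out D v).card ≤ (out D w).card) ∧ (out D v).card < (sec D v).card + t := by
  by_contra hcon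
  push Not at hcon
  obtain ⟨v0, _, hv⟩ := Finset.exists_min_image (univ : Finset V) (fun v => (out D v).card)
    univ_nonempty
  set d := (out D v0).card with hd
  have hmin : ∀ x, d ≤ (out D x).card := fun x => hv x (mem_univ _)
  have hall : ∀ v, (out D v).card = d → ∃ z y x B H, Data D d t v z y x B H := by
    intro v hvd
    have h1 : ∀ w, (out D v).card ≤ (out D w).card := fun w => by rw [hvd]; exact hmin w
    have h2 := hcon v h1
    obtain ⟨H, h3, h4, h5, h6⟩ := hloc v h1 (by rw [← Finset.card_pos]; omega)
    obtain ⟨z, y, x, B, h7⟩ := data_exists hD d t ht hmin v hvd (by omega) H h3 h4 h5 h6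
    exact ⟨z, y, x, B, H, h7⟩
  have hex : ∃ n : ℕ, ∃ v z y x B H, Data D d t v z y x B H ∧ (twins D v z).card = n := by
    obtain ⟨z, y, x, B, H, h⟩ := hall v0 rfl
    exact ⟨_, v0, z, y, x, B, H, h, rfl⟩
  obtain ⟨v, v1, y0, x1, B0, H0, h0, hc0⟩ := Nat.find_spec hex
  have hcmin : ∀ {v z y x B H}, Data D d t v z y x B H → Nat.find hex ≤ (twins D v z).card :=
    fun {v z y x B H} h => Nat.find_min' hex ⟨v, z, y, x, B, H, h, rfl⟩
  obtain ⟨v2, y1, x2, B1, H1, h1⟩ := hall v1 h0.hzd
  obtain ⟨v3, y2, x3, B2, H2, h2⟩ := hall v2 h1.hzd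
  obtain ⟨p01, q01, _⟩ := pair hD ht hmin h0 h1
  obtain ⟨p12, _, r12⟩ := pair hD ht hmin h1 h2
  have m1 := hcmin h1
  have m2 := hcmin h2
  have e1 : (twins D v1 v2).card = (twins D v v1).card := by omega
  have e2 : (twins D v2 v3).card = (twins D v1 v2).card := by omega
  rw [e2] at r12
  refine no_data hD ht h1 ?_ r12 (other_out hD ht hmin hall h1)
  intro q hvq hqs hqX hqC
  have hq1 : q ∈ (x1 :: B0).take t := by
    rcases q01 e1 q hvq hqs with h | h | h
    · exact h
    · exact absurd h hqX
    · exact absurd h hqC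
  have hE : ¬ sec D v1 ⊆ out D q := by
    refine sec_not_sub hD (X := ((x1 :: B0).take t).toFinset) (v := v) (t := t) (d := d)
      ?_ (by rw [h0.cXf]) (List.mem_toFinset.2 hq1) h0.dvz h0.hout h0.hvd h1.hsv
    intro r hr
    exact mem_out.1 (h0.hHN (h0.mB r (List.mem_of_mem_take (List.mem_toFinset.1 hr))))
  by_contra hlt
  refine hE ?_
  have g1 := out_sub hD v1 q hvq
  set F := (out D v1).filter (fun r => D q r) with hF
  have g2 : out D q ⊆ F ∪ (sec D v1).filter (fun r => D q r) := by
    intro r hr
    have g3 := g1 hr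
    rw [mem_union] at g3 ⊢
    rcases g3 with g3 | g3
    · exact Or.inl g3
    · exact Or.inr (mem_filter.2 ⟨g3, mem_out.1 hr⟩)
  have g3 := Finset.card_le_card g2
  have g4 := Finset.card_union_le F ((sec D v1).filter (fun r => D q r))
  have g5 := hmin q
  have g6 := h1.hsv
  have g7 : (sec D v1).filter (fun r => D q r) = sec D v1 :=
    Finset.eq_of_subset_of_card_le (Finset.filter_subset _ _) (by omega)
  intro r hr
  rw [← g7, mem_filter] at hr
  exact mem_out.2 hr.2

end SNCyc
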