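import Pool.Agent.Helper35.SNCycB

/-!
# Out-neighbourhoods with a part of small circumference or of small out-degrees
-/

open Finset

namespace SNCyc

variable {V : Type} [Fintype V]

open Classical in
/-- The rigid structure at a vertex `v` of minimum out-degree `d`. -/
structure Rig (D : V → V → Prop) (d t : ℕ) (v z : V) (X : Finset V) : Prop where
  hvd : (out D v).card = d
  hzd : (out D z).card = d
  hsv : (sec D v).card + t = d
  hvz : D v z
  hX : ∀ x ∈ X, D v x
  hXc : X.card = t
  hout : out D z = X ∪ sec D v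

open Classical in
theorem Data.rig {D : V → V → Prop} {d t : ℕ} {v z y x : V} {B : List V} {H : Finset V}
    (h : Data D d t v z y x B H) : Rig D d t v z ((x :: B).take t).toFinset :=
  ⟨h.hvd, h.hzd, h.hsv, h.dvz, fun r hr =>
    mem_out.1 (h.hHN (h.mB r (List.mem_of_mem_take (List.mem_toFinset.1 hr)))), h.cXf, h.hout⟩

omit [Fintype V] in
open Classical in
theorem arcs_le {D : V → V → Prop} (hD : ∀ u v, D u v → ¬ D v u) (W : Finset V) :
    2 * ∑ u ∈ W, (W.filter (fun q => D u q)).card + W.card ≤ W.card * W.card := by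
  have h1 : ∀ u ∈ W, (W.filter (fun q => D q u)).card + (W.filter (fun q => D u q)).card + 1
      ≤ W.card := by
    intro u hu
    have hd : Disjoint (W.filter (fun q => D q u)) (W.filter (fun q => D u q)) := by
      rw [Finset.disjoint_left]
      intro q hq hq'
      rw [mem_filter] at hq hq'
      exact hD _ _ hq.2 hq'.2
    have hs : W.filter (fun q => D q u) ∪ W.filter (fun q => D u q) ⊆ W.erase u := by
      intro q hq
      rw [mem_union, mem_filter, mem_filter] at hq
      rw [mem_erase]
      have huu : ¬ D u u := fun h => hD u u h h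
      rcases hq with hq | hq
      · exact ⟨fun h => huu (h ▸ hq.2), hq.1⟩
      · exact ⟨fun h => huu (h ▸ hq.2), hq.1⟩
    have h3 := Finset.card_le_card hs
    rw [Finset.card_union_of_disjoint hd, Finset.card_erase_of_mem hu] at h3
    have : 0 < W.card := Finset.card_pos.2 ⟨u, hu⟩
    omega
  have h2 := Finset.sum_le_sum h1
  have h3 : ∑ u ∈ W, (W.filter (fun q => D q u)).card
      = ∑ u ∈ W, (W.filter (fun q => D u q)).card := by
    simp only [Finset.card_filter]
    exact Finset.sum_comm
  rw [Finset.sum_add_distrib, Finset.sum_add_distrib, h3] at h2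
  simp only [Finset.sum_const, smul_eq_mul, mul_one] at h2
  omega

open Classical in
/-- Two consecutive steps. -/
theorem pair_rig {D : V → V → Prop} (hD : ∀ u v, D u v → ¬ D v u) {d t : ℕ}
    (hmin : ∀ x, d ≤ (out D x).card) {v v1 v2 : V} {X1 X2 : Finset V}
    (h1 : Rig D d t v v1 X1) (h2 : Rig D d t v1 v2 X2) :
    (∀ u, D v u → u ∈ sec D v1 →
      (twins D v1 v2).card + t ≤ ((out D v).filter (fun q => D u q)).card) ∧
    (∀ u, D v u → u ∈ sec D v1 →
      ((out D v).filter (fun q => D u q)).card ≤ t + (twins D v v1).card →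
      (twins D v1 v2).card = (twins D v v1).card → ∀ q, D v1 q → q ∉ sec D v2 →
      q ∈ X1 ∨ q ∈ X2 ∨ q ∈ twins D v1 v2) ∧
    (∀ u, D v u → u ∈ sec D v1 →
      (out D v1 \ sec D v2).card ≤ ((out D v).filter (fun q => D u q)).card + t) := by
  have hirr : ∀ x, ¬ D x x := fun x h => hD x x h h
  have hE : ∀ q ∈ X1, ¬ sec D v1 ⊆ out D q := by
    intro q hq
    exact sec_not_sub hD (X := X1) (v := v) (t := t) (d := d) h1.hX (by rw [h1.hXc]) hq
      h1.hvz h1.hout h1.hvd h2.hsv
  have hzX2 : ∀ q ∈ X2, D v2 q := by
    intro q hq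
    rw [← mem_out (D := D), h2.hout]; exact mem_union_left _ hq
  -- the lower bound
  set F : Finset V := (sec D v).filter (fun q => q ∈ X2) with hF
  have hFx : ∀ q ∈ X2, q ∉ twins D v1 v2 := by
    intro q hq h
    rw [mem_twins] at h
    exact hirr q (by rw [← mem_out (D := D), h.2, mem_out]; exact hzX2 q hq)
  have hCF : Disjoint (twins D v1 v2) F := by
    rw [Finset.disjoint_left]
    intro q hq hq'
    rw [hF, mem_filter] at hq'
    exact hFx q hq'.2 hq
  have hCS : twins D v1 v2 ∪ F ⊆ sec D v \ sec D v2 := by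
    intro q hq
    rw [mem_union] at hq
    rw [mem_sdiff]
    rcases hq with hq | hq
    · refine ⟨?_, twin_notMem hD hq⟩
      rw [mem_twins, ← mem_out (D := D), h1.hout, mem_union] at hq
      rcases hq.1 with h | h
      · exfalso
        refine hE q h ?_
        rw [hq.2, h2.hout]
        exact Finset.subset_union_right
      · exact h
    · rw [hF, mem_filter] at hq
      refine ⟨hq.1, ?_⟩
      rw [mem_sec]
      exact fun h => h.2.1 (hzX2 q hq.2)
  have hLw := Finset.card_le_card hCS
  rw [Finset.card_union_of_disjoint hCF] at hLw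
  have hsd : (sec D v \ sec D v2).card + (sec D v ∩ sec D v2).card = (sec D v).card := by
    exact Finset.card_sdiff_add_card_inter _ _
  -- out-neighbours in the second neighbourhood
  have hup : ∀ u, D v u → u ∈ sec D v1 →
      d ≤ ((out D v).filter (fun q => D u q)).card + F.card + (sec D v ∩ sec D v2).card := by
    intro u hvu hu
    have hv2u : D v2 u := by
      rw [← mem_out (D := D), h2.hout]; exact mem_union_right _ hu
    have h3 : out D u ⊆ (out D v).filter (fun q => D u q) ∪ F ∪ (sec D v ∩ sec D v2) := by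
      intro q hq
      have h4 := out_sub hD v u hvu hq
      have huq : D u q := mem_out.1 hq
      rw [mem_union] at h4
      rw [mem_union, mem_union]
      rcases h4 with h4 | h4
      · exact Or.inl (Or.inl h4)
      · by_cases hqs : q ∈ sec D v2
        · exact Or.inr (mem_inter.2 ⟨h4, hqs⟩)
        · left; right
          have h5 : D v2 q := by
            by_contra h6
            refine hqs (mem_sec.2 ⟨?_, h6, u, hv2u, huq⟩)
            rintro rfl
            exact hD _ _ hv2u huq
          rw [← mem_out (D := D), h2.hout, mem_union] at h5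
          rw [hF, mem_filter]
          refine ⟨h4, ?_⟩
          rcases h5 with h5 | h5
          · exact h5
          · exfalso
            rw [mem_sec] at h5
            refine h5.2.1 ?_
            rw [← mem_out (D := D), h1.hout]
            exact mem_union_right _ h4
    have h4 := Finset.card_le_card h3
    have h5 := Finset.card_union_le ((out D v).filter (fun q => D u q) ∪ F)
      (sec D v ∩ sec D v2)
    have h6 := Finset.card_union_le ((out D v).filter (fun q => D u q)) F
    have h7 := hmin u
    omega
  have hsv := h1.hsv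
  refine ⟨?_, ?_, ?_⟩
  · intro u hvu hu
    have h3 := hup u hvu hu
    omega
  · intro u hvu hu hle heq q hq hqs
    have hU := hup u hvu hu
    have h3 : twins D v1 v2 ∪ F = sec D v \ sec D v2 := by
      refine Finset.eq_of_subset_of_card_le hCS ?_
      rw [Finset.card_union_of_disjoint hCF]
      omega
    rw [← mem_out (D := D), h1.hout, mem_union] at hq
    rcases hq with hq | hq
    · exact Or.inl hq
    · have h4 : q ∈ twins D v1 v2 ∪ F := by
        rw [h3, mem_sdiff]; exact ⟨hq, hqs⟩
      rw [mem_union, hF, mem_filter] at h4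
      rcases h4 with h4 | h4
      · exact Or.inr (Or.inr h4)
      · exact Or.inr (Or.inl h4.2)
  · intro u hvu hu
    have hU := hup u hvu hu
    have h3 : out D v1 \ sec D v2 ⊆ X1 ∪ (sec D v \ sec D v2) := by
      intro q hq
      rw [mem_sdiff, h1.hout, mem_union] at hq
      rw [mem_union, mem_sdiff]
      rcases hq.1 with h | h
      · exact Or.inl h
      · exact Or.inr ⟨h, hq.2⟩
    have h4 := Finset.card_le_card h3
    have h5 := Finset.card_union_le X1 (sec D v \ sec D v2)
    have h6 : F.card ≤ X2.card := by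
      refine Finset.card_le_card ?_
      intro q hq
      rw [hF, mem_filter] at hq
      exact hq.2
    have h7 := h1.hXc
    have h8 := h2.hXc
    omega

open Classical in
/-- Many out-neighbours of `v` are not second out-neighbours of `z`. -/
theorem many_missing {D : V → V → Prop} (hD : ∀ u v, D u v → ¬ D v u) {d t : ℕ} (ht : 1 ≤ t)
    (hmin : ∀ x, d ≤ (out D x).card) {v z : V} {X : Finset V}
    (h : Rig D d t v z X) (hsz : (sec D z).card + t = d) :
    2 * t + 2 ≤ (out D v \ sec D z).card := by
  have hsv := h.hsv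
  have hvd := h.hvd
  have hdis : Disjoint (out D v) (sec D v) := by
    rw [Finset.disjoint_left]
    intro q hq hq'
    rw [mem_out] at hq
    rw [mem_sec] at hq'
    exact hq'.2.1 hq
  set W : Finset V := out D v ∪ sec D v with hW
  have hWc : W.card = (out D v).card + (sec D v).card := Finset.card_union_of_disjoint hdis
  have hWs := arcs_le hD W
  have hsum : ∑ u ∈ W, (W.filter (fun q => D u q)).card
      = ∑ u ∈ out D v, (W.filter (fun q => D u q)).card
        + ∑ u ∈ sec D v, (W.filter (fun q => D u q)).card := Finset.sum_union hdis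
  have hA : ∑ _u ∈ out D v, d ≤ ∑ u ∈ out D v, (W.filter (fun q => D u q)).card := by
    refine Finset.sum_le_sum ?_
    intro u hu
    refine (hmin u).trans (Finset.card_le_card ?_)
    intro q hq
    have h1 := out_sub hD v u (mem_out.1 hu) hq
    rw [mem_union, mem_filter] at h1
    rw [mem_filter, hW, mem_union]
    rcases h1 with h1 | h1
    · exact ⟨Or.inl h1.1, h1.2⟩
    · exact ⟨Or.inr h1, mem_out.1 hq⟩
  have hB : ∑ _u ∈ sec D v, d ≤ ∑ u ∈ sec D v,
      ((W.filter (fun q => D u q)).card + (sec D z \ out D v).card) := by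
    refine Finset.sum_le_sum ?_
    intro u hu
    have hzu : D z u := by
      rw [← mem_out (D := D), h.hout]; exact mem_union_right _ hu
    have h1 : out D u ⊆ W.filter (fun q => D u q) ∪ (sec D z \ out D v) := by
      intro q hq
      have h2 := out_sub hD z u hzu hq
      have huq := mem_out.1 hq
      rw [mem_union, mem_filter, h.hout, mem_union] at h2
      rw [mem_union, mem_filter, hW, mem_union, mem_sdiff, mem_out]
      rcases h2 with h2 | h2
      · left
        refine ⟨?_, huq⟩
        rcases h2.1 with h3 | h3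
        · exact Or.inl (h.hX q h3)
        · exact Or.inr h3
      · by_cases h3 : D v q
        · exact Or.inl ⟨Or.inl h3, huq⟩
        · exact Or.inr ⟨h2, h3⟩
    have h2 := Finset.card_le_card h1
    have h3 := Finset.card_union_le (W.filter (fun q => D u q)) (sec D z \ out D v)
    have h4 := hmin u
    omega
  rw [Finset.sum_add_distrib] at hB
  simp only [Finset.sum_const, smul_eq_mul] at hA hB
  have h5 : (out D v \ sec D z).card + (out D v ∩ sec D z).card = (out D v).card :=
    Finset.card_sdiff_add_card_inter _ _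
  have h6 : (sec D z \ out D v).card + (sec D z ∩ out D v).card = (sec D z).card :=
    Finset.card_sdiff_add_card_inter _ _
  rw [Finset.inter_comm] at h6
  set k := (sec D z \ out D v).card with hk
  set e := (sec D v).card with he
  have hde : d = e + t := by omega
  rw [hsum, hWc, hvd] at hWs
  rw [hvd] at hA
  rw [hde] at hWs hA hB
  have hk3 : t + 2 ≤ k := by
    by_contra hlt
    have hk2 : k ≤ t + 1 := by omega
    have h7 : e * k ≤ e * (t + 1) := Nat.mul_le_mul_left e hk2
    nlinarith
  omega

open Classical in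
/-- The vertex `x` has more than `t` out-neighbours in `out v`. -/
theorem other_out_rig {D : V → V → Prop} (hD : ∀ u v, D u v → ¬ D v u) {d t : ℕ} (ht : 1 ≤ t)
    (hmin : ∀ x, d ≤ (out D x).card)
    (hall : ∀ v, (out D v).card = d → ∃ z X, Rig D d t v z X)
    {v z y x : V} {B : List V} {H : Finset V} (h : Data D d t v z y x B H) :
    t + 1 ≤ ((out D v).filter (fun q => D x q)).card := by
  have hirr : ∀ x, ¬ D x x := fun x h => hD x x h h
  by_contra hcon
  push Not at hcon
  set F := (out D v).filter (fun q => D x q) with hF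
  have h1 : out D x ⊆ F ∪ sec D v := out_sub hD v x h.dvx
  have h2 := Finset.card_le_card h1
  have h3 := hmin x
  have h4 := Finset.card_union_le F (sec D v)
  have h5 := h.hsv
  have hout : out D x = F ∪ sec D v := Finset.eq_of_subset_of_card_le h1 (by omega)
  obtain ⟨z', X', h'⟩ := hall x (by omega)
  have hxz' : D x z' := h'.hvz
  have hE : ∀ q ∈ F, ¬ sec D x ⊆ out D q := by
    intro q hq
    refine sec_not_sub hD (X := F) (v := v) (t := t) (d := d) ?_ (by omega) hq h.dvx hout
      h.hvd h'.hsv
    intro r hr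
    rw [hF, mem_filter] at hr
    exact mem_out.1 hr.1
  have hsz' : sec D x ⊆ out D z' := by
    rw [h'.hout]; exact Finset.subset_union_right
  have hz's : z' ∈ sec D v := by
    rw [← mem_out (D := D), hout, mem_union] at hxz'
    rcases hxz' with h6 | h6
    · exact absurd hsz' (hE z' h6)
    · exact h6
  have hzx : D z x := h.dzX x (h.x_mem ht)
  have hzz' : D z z' := by
    rw [← mem_out (D := D), h.hout]; exact mem_union_right _ hz's
  have hzs : z ∈ sec D x := by
    rw [mem_sec]
    refine ⟨?_, hD _ _ hzx, y, h.dxy, h.dyz⟩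
    rintro rfl
    exact hirr _ hzx
  exact hD _ _ hzz' (mem_out.1 (hsz' hzs))

open Classical in
/-- An out-neighbour `z` of `v` with few out-neighbours in `out v`. -/
theorem rig_of_small {D : V → V → Prop} (hD : ∀ u v, D u v → ¬ D v u) (d t : ℕ)
    (hmin : ∀ x, d ≤ (out D x).card) (v : V) (hvd : (out D v).card = d)
    (hsec : (sec D v).card + t ≤ d) (z : V) (hvz : D v z)
    (hsz : ((out D v).filter (fun b => D z b)).card ≤ t) :
    Rig D d t v z ((out D v).filter (fun b => D z b)) := by
  have h1 := out_sub hD v z hvz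
  have h2 := Finset.card_le_card h1
  have h3 := Finset.card_union_le ((out D v).filter (fun b => D z b)) (sec D v)
  have h4 := hmin z
  have hzout : out D z = (out D v).filter (fun b => D z b) ∪ sec D v :=
    Finset.eq_of_subset_of_card_le h1 (by omega)
  refine ⟨hvd, by omega, by omega, hvz, ?_, by omega, hzout⟩
  intro r hr
  rw [mem_filter] at hr
  exact mem_out.1 hr.1

open Classical in
/-- **Main theorem.** -/
theorem local_parts (t : ℕ) (ht : 1 ≤ t) (V : Type) [Fintype V] [Nonempty V]
    (D : V → V → Prop)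
    (hD : ∀ u v, D u v → ¬ D v u)
    (hloc : ∀ v, (∀ w, (out D v).card ≤ (out D w).card) → (out D v).Nonempty →
      (∃ H : Finset V, H.Nonempty ∧ H ⊆ out D v ∧
        (∀ a ∈ H, ∀ b, D v b → D a b → b ∈ H) ∧ Short D (t + 2) H) ∨
      (∃ z y, D v z ∧ D v y ∧ y ∈ sec D z ∧
        ((out D v).filter (fun b => D z b)).card ≤ t ∧
        ((out D v).filter (fun b => D y b)).card ≤ t + 1)) :
    ∃ v, (∀ w, (out D v).card ≤ (out D w).card) ∧ (out D v).card < (sec D v).card + t := by
  by_contra hcon
  push Not at hcon
  obtain ⟨v0, _, hv⟩ := Finset.exists_min_image (univ : Finset V) (fun v => (out D v).card)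
    univ_nonempty
  set d := (out D v0).card with hd
  have hmin : ∀ x, d ≤ (out D x).card := fun x => hv x (mem_univ _)
  have hall : ∀ v, (out D v).card = d → ∃ z X, Rig D d t v z X ∧
      ((∃ y x B H, Data D d t v z y x B H ∧ X = ((x :: B).take t).toFinset) ∨
        (∃ u, D v u ∧ u ∈ sec D z ∧
          ((out D v).filter (fun q => D u q)).card ≤ t + 1)) := by
    intro v hvd
    have h1 : ∀ w, (out D v).card ≤ (out D w).card := fun w => by rw [hvd]; exact hmin w
    have h2 := hcon v h1
    rcases hloc v h1 (by rw [← Finset.card_pos]; omega) with ⟨H, h3, h4, h5, h6⟩ |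
      ⟨z, y, h3, h4, h5, h6, h7⟩
    · obtain ⟨z, y, x, B, h7⟩ := data_exists hD d t ht hmin v hvd (by omega) H h3 h4 h5 h6
      exact ⟨z, _, h7.rig, Or.inl ⟨y, x, B, H, h7, rfl⟩⟩
    · exact ⟨z, _, rig_of_small hD d t hmin v hvd (by omega) z h3 h6, Or.inr ⟨y, h4, h5, h7⟩⟩
  have hex : ∃ n : ℕ, ∃ v z X, Rig D d t v z X ∧
      ((∃ y x B H, Data D d t v z y x B H ∧ X = ((x :: B).take t).toFinset) ∨
        (∃ u, D v u ∧ u ∈ sec D z ∧
          ((out D v).filter (fun q => D u q)).card ≤ t + 1)) ∧
      (twins D v z).card = n := by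
    obtain ⟨z, X, h, h'⟩ := hall v0 rfl
    exact ⟨_, v0, z, X, h, h', rfl⟩
  obtain ⟨v, v1, X1, h0, a0, hc0⟩ := Nat.find_spec hex
  obtain ⟨v2, X2, h1, a1⟩ := hall v1 h0.hzd
  obtain ⟨v3, X3, h2, a2⟩ := hall v2 h1.hzd
  have f01 := many_missing hD ht hmin h1 h2.hsv
  have m1 : Nat.find hex ≤ (twins D v1 v2).card := Nat.find_min' hex ⟨v1, v2, X2, h1, a1, rfl⟩
  have m2 : Nat.find hex ≤ (twins D v2 v3).card := Nat.find_min' hex ⟨v2, v3, X3, h2, a2, rfl⟩
  obtain ⟨v4, X4, h3, _⟩ := hall v3 h2.hzd
  have f12 := many_missing hD ht hmin h2 h3.hsv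
  obtain ⟨r01, q01, n01⟩ := pair_rig hD hmin h0 h1
  obtain ⟨r12, _, n12⟩ := pair_rig hD hmin h1 h2
  -- at `v` and at `v1` the second alternative is impossible
  rcases a0 with ⟨y0, x0, B0, H0, D0, hX1⟩ | ⟨u, hu1, hu2, hu3⟩
  swap
  · have := n01 u hu1 hu2
    omega
  have hy0 := D0.sec_of hD ht y0 D0.dvy D0.dxy D0.y_notMem
  have hy0N : ((out D v).filter (fun q => D y0 q)).card ≤ t + (twins D v v1).card := by
    have h4 := Finset.card_le_card (D0.nbr hD y0 D0.dvy D0.dxy D0.y_notMem)
    have h5 := Finset.card_union_le (B0.take t).toFinset (twins D v v1)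
    have h6 := List.toFinset_card_le (B0.take t)
    have h7 := List.length_take_le t B0
    omega
  have e1 : (twins D v1 v2).card = (twins D v v1).card := by
    have := r01 y0 D0.dvy hy0
    omega
  rcases a1 with ⟨y1, x1, B1, H1, D1, hX2⟩ | ⟨u, hu1, hu2, hu3⟩
  swap
  · have := n12 u hu1 hu2
    omega
  have hy1 := D1.sec_of hD ht y1 D1.dvy D1.dxy D1.y_notMem
  have hy1N : ((out D v1).filter (fun q => D y1 q)).card ≤ t + (twins D v1 v2).card := by
    have h4 := Finset.card_le_card (D1.nbr hD y1 D1.dvy D1.dxy D1.y_notMem)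
    have h5 := Finset.card_union_le (B1.take t).toFinset (twins D v1 v2)
    have h6 := List.toFinset_card_le (B1.take t)
    have h7 := List.length_take_le t B1
    omega
  have e2 : (twins D v2 v3).card = (twins D v1 v2).card := by
    have := r12 y1 D1.dvy hy1
    omega
  rw [e2] at r12
  have s11 := q01 y0 D0.dvy hy0 hy0N e1
  refine no_data hD ht D1 ?_ r12 (other_out_rig hD ht hmin
    (fun w hw => by obtain ⟨z, X, h, _⟩ := hall w hw; exact ⟨z, X, h⟩) D1)
  intro q hvq hqs hqX hqC
  have hq1 : q ∈ X1 := by
    rcases s11 q hvq hqs with h | h | h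
    · exact h
    · rw [hX2, List.mem_toFinset] at h
      exact absurd h hqX
    · exact absurd h hqC
  have hE : ¬ sec D v1 ⊆ out D q :=
    sec_not_sub hD (X := X1) (v := v) (t := t) (d := d) h0.hX (by rw [h0.hXc]) hq1
      h0.hvz h0.hout h0.hvd h1.hsv
  by_contra hlt
  refine hE ?_
  have g1 := out_sub hD v1 q hvq
  set F := (out D v1).filter (fun r => D q r) with hF
  have g2 : out D q ⊆ F ∪ (sec D v1).filter (fun r => D q r) := by
    intro r hr
    have g3 := g1 hr
    rw [mem_union] at g3 ⊢
    rcases g3 with g3 | g3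
    · exact Or.inl g3
    · exact Or.inr (mem_filter.2 ⟨g3, mem_out.1 hr⟩)
  have g3 := Finset.card_le_card g2
  have g4 := Finset.card_union_le F ((sec D v1).filter (fun r => D q r))
  have g5 := hmin q
  have g6 := h1.hsv
  have g7 : (sec D v1).filter (fun r => D q r) = sec D v1 :=
    Finset.eq_of_subset_of_card_le (Finset.filter_subset _ _) (by omega)
  intro r hr
  rw [← g7, mem_filter] at hr
  exact mem_out.2 hr.2

end SNCyc
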