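import Mathlib

set_option autoImplicit false
set_option linter.unusedSectionVars false

namespace Pool.Agent.Helper35.Tern

/-- balanced sign of a residue mod 3 -/
def sg (a : ZMod 3) : ℤ := if a = 0 then 0 else if a = 1 then 1 else -1

@[simp] lemma sg_zero : sg 0 = 0 := rfl
@[simp] lemma sg_one : sg 1 = 1 := rfl
@[simp] lemma sg_two : sg 2 = -1 := rfl

/-- indicator of `1` -/
def io (a : ZMod 3) : ℤ := if a = 1 then 1 else 0

@[simp] lemma io_zero : io 0 = 0 := rfl
@[simp] lemma io_one : io 1 = 1 := rfl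
@[simp] lemma io_two : io 2 = 0 := rfl

lemma sg_inj : ∀ {a b : ZMod 3}, sg a = sg b → a = b := by decide

lemma sg_cases (a : ZMod 3) : (a = 0 ∧ sg a = 0) ∨ (a = 1 ∧ sg a = 1) ∨ (a = 2 ∧ sg a = -1) := by
  revert a; decide

/-- vertices -/
abbrev Vtx (L : ℕ) := (Fin L → ZMod 3) × ℤ

variable {L : ℕ}

/-- weights -/
def wt (m : Fin L) : ℤ := 4 ^ (L - (m : ℕ))

/-- the shift attached to a direction -/
def kap (l : Fin L) (e : Fin L → ZMod 3) : ℤ :=
  16 ^ (l : ℕ) * ((∑ m ∈ Finset.univ.erase l, if e m = 0 then 0 else wt m) - wt l)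

lemma kap_update (l : Fin L) (e : Fin L → ZMod 3) (a : ZMod 3) :
    kap l (Function.update e l a) = kap l e := by
  unfold kap
  congr 2
  apply Finset.sum_congr rfl
  intro m hm
  rw [Function.update_of_ne (Finset.ne_of_mem_erase hm)]

lemma kap_update_ne {l i : Fin L} (e : Fin L → ZMod 3) {a b : ZMod 3} (ha : a ≠ 0) (hb : b ≠ 0) :
    kap i (Function.update e l a) = kap i (Function.update e l b) := by
  unfold kap
  congr 2
  apply Finset.sum_congr rfl
  intro m _
  by_cases h : m = l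
  · subst h
    simp [ha, hb]
  · rw [Function.update_of_ne h, Function.update_of_ne h]

/-- upper neighbour -/
def up (l : Fin L) (w : Vtx L) : Vtx L := (Function.update w.1 l 1, w.2 + kap l w.1)

/-- lower neighbour -/
def dn (l : Fin L) (w : Vtx L) : Vtx L := (Function.update w.1 l 2, w.2 - kap l w.1)

/-- middle vertices of designated triples -/
def Mid (l : Fin L) (w : Vtx L) : Prop := (∑ i, w.1 i = 0) ∧ w.1 l = 0

/-- the perturbation space -/
def Sp (L : ℕ) : Submodule ℝ (Vtx L → ℝ) where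
  carrier := {f | ∀ w l, Mid l w → f (up l w) + f (dn l w) = 2 * f w}
  add_mem' := by
    intro f g hf hg w l h
    have h1 := hf w l h
    have h2 := hg w l h
    simp only [Pi.add_apply]
    linarith
  zero_mem' := by
    intro w l _
    simp
  smul_mem' := by
    intro c f hf w l h
    have h1 := hf w l h
    simp only [Pi.smul_apply, smul_eq_mul]
    rw [← mul_add, h1]; ring

lemma mem_Sp {f : Vtx L → ℝ} : f ∈ Sp L ↔ ∀ w l, Mid l w → f (up l w) + f (dn l w) = 2 * f w :=
  Iff.rfl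

lemma sum_update (e : Fin L → ZMod 3) (l : Fin L) (a : ZMod 3) (hl : e l = 0) :
    ∑ i, Function.update e l a i = (∑ i, e i) + a := by
  rw [← Finset.add_sum_erase _ _ (Finset.mem_univ l), ← Finset.add_sum_erase _ e (Finset.mem_univ l),
    Function.update_self, hl, zero_add, add_comm]
  congr 1
  apply Finset.sum_congr rfl
  intro m hm
  rw [Function.update_of_ne (Finset.ne_of_mem_erase hm)]

/-- sign coordinates -/
def fs (i : Fin L) : Vtx L → ℝ := fun w => (sg (w.1 i) : ℝ)

lemma fs_mem (i : Fin L) : fs i ∈ Sp L := by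
  intro w l h
  unfold fs up dn
  simp only
  by_cases hi : i = l
  · subst hi
    rw [Function.update_self, Function.update_self, h.2]
    simp
  · rw [Function.update_of_ne hi, Function.update_of_ne hi]; ring

/-- products of two sign coordinates -/
def fp (i j : Fin L) : Vtx L → ℝ := fun w => (sg (w.1 i) : ℝ) * (sg (w.1 j) : ℝ)

lemma fp_mem {i j : Fin L} (hij : i ≠ j) : fp i j ∈ Sp L := by
  intro w l h
  unfold fp up dn
  simp only
  by_cases hi : i = l
  · subst hi
    rw [Function.update_self, Function.update_self, Function.update_of_ne hij.symm,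
      Function.update_of_ne hij.symm, h.2]
    simp
  · rw [Function.update_of_ne hi, Function.update_of_ne hi]
    by_cases hj : j = l
    · subst hj
      rw [Function.update_self, Function.update_self, h.2]
      simp
    · rw [Function.update_of_ne hj, Function.update_of_ne hj]; ring

/-- the integer coordinate -/
def fk : Vtx L → ℝ := fun w => (w.2 : ℝ)

lemma fk_mem : (fk : Vtx L → ℝ) ∈ Sp L := by
  intro w l _
  unfold fk up dn
  push_cast
  ring

/-- the sign of the total -/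
def fc : Vtx L → ℝ := fun w => (sg (∑ i, w.1 i) : ℝ)

lemma fc_mem : (fc : Vtx L → ℝ) ∈ Sp L := by
  intro w l h
  unfold fc up dn
  simp only
  rw [sum_update _ _ _ h.2, sum_update _ _ _ h.2, h.1]
  simp

/-- the functions pinning down the shift -/
def fr (i : Fin L) : Vtx L → ℝ := fun w =>
  (w.2 : ℝ) * (sg (w.1 i) : ℝ) - 2 * (kap i w.1 : ℝ) * (sg (∑ m, w.1 m) : ℝ) * (io (w.1 i) : ℝ)

lemma fr_mem (i : Fin L) : fr i ∈ Sp L := by
  intro w l h
  unfold fr up dn
  simp only
  rw [sum_update _ _ _ h.2, sum_update _ _ _ h.2, h.1]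
  by_cases hi : i = l
  · subst hi
    rw [Function.update_self, Function.update_self, h.2, kap_update, kap_update]
    simp only [zero_add, sg_one, sg_two, sg_zero, io_zero, io_one, io_two]
    push_cast
    ring
  · rw [Function.update_of_ne hi, Function.update_of_ne hi]
    rw [kap_update_ne w.1 (a := 1) (b := 2) (by decide) (by decide)]
    simp only [zero_add, sg_one, sg_two, sg_zero]
    push_cast
    ring

/-- the quadratic function -/
def fq : Vtx L → ℝ := fun w =>
  (w.2 : ℝ) ^ 2 - 2 * (sg (∑ m, w.1 m) : ℝ) * ∑ i, (io (w.1 i) : ℝ) * (kap i w.1 : ℝ) ^ 2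

lemma fq_mem : (fq : Vtx L → ℝ) ∈ Sp L := by
  intro w l h
  unfold fq up dn
  simp only
  rw [sum_update _ _ _ h.2, sum_update _ _ _ h.2, h.1]
  rw [← Finset.add_sum_erase _ _ (Finset.mem_univ l), ← Finset.add_sum_erase _ _ (Finset.mem_univ l)]
  rw [Function.update_self, Function.update_self, kap_update]
  have : (∑ x ∈ Finset.univ.erase l, (io (Function.update w.1 l 1 x) : ℝ) *
      (kap x (Function.update w.1 l 1) : ℝ) ^ 2) =
      (∑ x ∈ Finset.univ.erase l, (io (Function.update w.1 l 2 x) : ℝ) *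
      (kap x (Function.update w.1 l 2) : ℝ) ^ 2) := by
    apply Finset.sum_congr rfl
    intro m hm
    rw [Function.update_of_ne (Finset.ne_of_mem_erase hm), Function.update_of_ne (Finset.ne_of_mem_erase hm),
      kap_update_ne w.1 (a := 1) (b := 2) (by decide) (by decide)]
  rw [this]
  simp only [zero_add, sg_one, sg_two, sg_zero, io_one, io_two]
  push_cast
  ring

/-- the condition that three vertices are forced to be aligned -/
def Forced (w₁ w₂ w₃ : Vtx L) : Prop :=
  ∀ f ∈ Sp L, ∀ g ∈ Sp L, (f w₂ - f w₁) * (g w₃ - g w₁) = (f w₃ - f w₁) * (g w₂ - g w₁)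

lemma Forced.swap {w₁ w₂ w₃ : Vtx L} (h : Forced w₁ w₂ w₃) : Forced w₁ w₃ w₂ := by
  intro f hf g hg
  exact (h f hf g hg).symm

lemma Forced.rot {w₁ w₂ w₃ : Vtx L} (h : Forced w₁ w₂ w₃) : Forced w₂ w₃ w₁ := by
  intro f hf g hg
  have := h f hf g hg
  linarith

lemma eps_ne {w₁ w₂ w₃ : Vtx L} (h : Forced w₁ w₂ w₃) (h12 : w₁ ≠ w₂) (h13 : w₁ ≠ w₃)
    (h23 : w₂ ≠ w₃) : w₁.1 ≠ w₂.1 := by
  intro he
  have hk : w₂.2 ≠ w₁.2 := fun hk => h12 (Prod.ext he hk.symm)
  have hkr : (w₂.2 : ℝ) - w₁.2 ≠ 0 := by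
    rw [sub_ne_zero]
    exact_mod_cast hk
  have he3 : w₁.1 = w₃.1 := by
    funext i
    have h1 := h fk fk_mem (fs i) (fs_mem i)
    unfold fk fs at h1
    rw [← he, sub_self, mul_zero] at h1
    have h2 := (mul_eq_zero.mp h1).resolve_left hkr
    rw [sub_eq_zero] at h2
    exact (sg_inj (by exact_mod_cast h2)).symm
  have hk3 : w₃.2 ≠ w₁.2 := fun hk => h13 (Prod.ext he3 hk.symm)
  have hk23 : w₃.2 ≠ w₂.2 := fun hk => h23 (Prod.ext (he.symm.trans he3) hk.symm)
  have h1 := h fk fk_mem fq fq_mem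
  unfold fk fq at h1
  rw [← he, ← he3] at h1
  have hk3r : (w₃.2 : ℝ) - w₁.2 ≠ 0 := by
    rw [sub_ne_zero]
    exact_mod_cast hk3
  have hk23r : (w₃.2 : ℝ) - w₂.2 ≠ 0 := by
    rw [sub_ne_zero]
    exact_mod_cast hk23
  have : ((w₂.2 : ℝ) - w₁.2) * (((w₃.2 : ℝ) - w₁.2) * ((w₃.2 : ℝ) - w₂.2)) = 0 := by
    linear_combination h1
  rcases mul_eq_zero.mp this with h2 | h2
  · exact hkr h2
  · rcases mul_eq_zero.mp h2 with h3 | h3
    · exact hk3r h3
    · exact hk23r h3

/-- designated triples, the first entry being the middle one -/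
def Des (z b a : Vtx L) : Prop := ∃ l, Mid l z ∧ b = up l z ∧ a = dn l z

/-- the core: three vertices with one sign coordinate `0, 1, -1` -/
lemma des_of_forced {w₁ w₂ w₃ : Vtx L} (h : Forced w₁ w₂ w₃) {l : Fin L}
    (h1 : w₁.1 l = 0) (h2 : w₂.1 l = 1) (h3 : w₃.1 l = 2) : Des w₁ w₂ w₃ := by
  have key : ∀ g ∈ Sp L, g w₂ + g w₃ = 2 * g w₁ := by
    intro g hg
    have := h (fs l) (fs_mem l) g hg
    unfold fs at this
    rw [h1, h2, h3] at this
    simp only [sg_one, sg_zero, sg_two] at this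
    push_cast at this
    linarith
  have hcoord : ∀ j, j ≠ l → w₂.1 j = w₁.1 j ∧ w₃.1 j = w₁.1 j := by
    intro j hj
    have k1 := key (fs j) (fs_mem j)
    have k2 := key (fp l j) (fp_mem hj.symm)
    unfold fs at k1
    unfold fp at k2
    rw [h1, h2, h3] at k2
    simp only [sg_one, sg_zero, sg_two] at k2
    have k1' : sg (w₂.1 j) + sg (w₃.1 j) = 2 * sg (w₁.1 j) := by exact_mod_cast k1
    have k2' : sg (w₂.1 j) = sg (w₃.1 j) := by
      push_cast at k2
      have : (sg (w₂.1 j) : ℝ) = (sg (w₃.1 j) : ℝ) := by linarith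
      exact_mod_cast this
    constructor
    · apply sg_inj; omega
    · apply sg_inj; omega
  have he2 : w₂.1 = Function.update w₁.1 l 1 := by
    funext j
    by_cases hj : j = l
    · subst hj; rw [Function.update_self, h2]
    · rw [Function.update_of_ne hj, (hcoord j hj).1]
  have he3 : w₃.1 = Function.update w₁.1 l 2 := by
    funext j
    by_cases hj : j = l
    · subst hj; rw [Function.update_self, h3]
    · rw [Function.update_of_ne hj, (hcoord j hj).2]
  have hsum : ∑ i, w₁.1 i = 0 := by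
    have k1 := key fc fc_mem
    unfold fc at k1
    rw [he2, he3, sum_update _ _ _ h1, sum_update _ _ _ h1] at k1
    generalize ∑ i, w₁.1 i = s at k1 ⊢
    have k2 : sg (s + 1) + sg (s + 2) = 2 * sg s := by exact_mod_cast k1
    clear k1
    revert s
    decide
  have hk := key fk fk_mem
  have hr := key (fr l) (fr_mem l)
  unfold fk at hk
  unfold fr at hr
  rw [h1, h2, h3, he2, he3, kap_update, kap_update, sum_update _ _ _ h1, sum_update _ _ _ h1, hsum] at hr
  simp only [zero_add, sg_one, sg_two, sg_zero, io_zero, io_one, io_two] at hr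
  push_cast at hr
  have hk' : w₂.2 + w₃.2 = 2 * w₁.2 := by exact_mod_cast hk
  have hr' : w₂.2 - w₃.2 = 2 * kap l w₁.1 := by
    have : (w₂.2 : ℝ) - w₃.2 = 2 * kap l w₁.1 := by linarith
    exact_mod_cast this
  refine ⟨l, ⟨hsum, h1⟩, ?_, ?_⟩
  · unfold up
    refine Prod.ext he2 ?_
    simp only
    omega
  · unfold dn
    refine Prod.ext he3 ?_
    simp only
    omega

/-- forced alignment of distinct vertices comes from designated triples only -/
theorem des_of_forced_of_ne {w₁ w₂ w₃ : Vtx L} (h : Forced w₁ w₂ w₃) (h12 : w₁ ≠ w₂) (h13 : w₁ ≠ w₃)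
    (h23 : w₂ ≠ w₃) : Des w₁ w₂ w₃ ∨ Des w₁ w₃ w₂ ∨ Des w₂ w₁ w₃ ∨ Des w₂ w₃ w₁ ∨ Des w₃ w₁ w₂ ∨
      Des w₃ w₂ w₁ := by
  have e12 : w₁.1 ≠ w₂.1 := eps_ne h h12 h13 h23
  have e13 : w₁.1 ≠ w₃.1 := eps_ne h.swap h13 h12 h23.symm
  have e23 : w₂.1 ≠ w₃.1 := eps_ne h.rot h23 h12.symm h13.symm
  obtain ⟨i, hi⟩ := Function.ne_iff.mp e12
  have hi13 : w₁.1 i ≠ w₃.1 i := by
    intro heq
    obtain ⟨j, hj⟩ := Function.ne_iff.mp e13
    have k := h (fs i) (fs_mem i) (fs j) (fs_mem j)
    unfold fs at k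
    rw [← heq, sub_self, zero_mul, mul_eq_zero, sub_eq_zero, sub_eq_zero] at k
    rcases k with k | k
    · exact hi (sg_inj (by exact_mod_cast k)).symm
    · exact hj (sg_inj (by exact_mod_cast k)).symm
  have hi23 : w₂.1 i ≠ w₃.1 i := by
    intro heq
    obtain ⟨j, hj⟩ := Function.ne_iff.mp e23
    have k := h (fs i) (fs_mem i) (fs j) (fs_mem j)
    unfold fs at k
    rw [← heq] at k
    have k' : ((sg (w₂.1 i) : ℝ) - sg (w₁.1 i)) * ((sg (w₃.1 j) : ℝ) - sg (w₂.1 j)) = 0 := by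
      linear_combination k
    rw [mul_eq_zero, sub_eq_zero, sub_eq_zero] at k'
    rcases k' with k | k
    · exact hi (sg_inj (by exact_mod_cast k)).symm
    · exact hj (sg_inj (by exact_mod_cast k)).symm
  rcases sg_cases (w₁.1 i) with ⟨a1, -⟩ | ⟨a1, -⟩ | ⟨a1, -⟩ <;>
  rcases sg_cases (w₂.1 i) with ⟨a2, -⟩ | ⟨a2, -⟩ | ⟨a2, -⟩ <;>
  rcases sg_cases (w₃.1 i) with ⟨a3, -⟩ | ⟨a3, -⟩ | ⟨a3, -⟩ <;>
  first
  | exact absurd (a1.trans a2.symm) hi
  | exact absurd (a1.trans a3.symm) hi13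
  | exact absurd (a2.trans a3.symm) hi23
  | exact Or.inl (des_of_forced h a1 a2 a3)
  | exact Or.inr (Or.inl (des_of_forced h.swap a1 a3 a2))
  | exact Or.inr (Or.inr (Or.inl (des_of_forced h.rot.swap a2 a1 a3)))
  | exact Or.inr (Or.inr (Or.inr (Or.inl (des_of_forced h.rot a2 a3 a1))))
  | exact Or.inr (Or.inr (Or.inr (Or.inr (Or.inl (des_of_forced h.rot.rot a3 a1 a2)))))
  | exact Or.inr (Or.inr (Or.inr (Or.inr (Or.inr (des_of_forced h.rot.rot.swap a3 a2 a1)))))

/-- vertices are separated by the space -/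
lemma exists_sep {w₁ w₂ : Vtx L} (h : w₁ ≠ w₂) : ∃ f ∈ Sp L, f w₁ ≠ f w₂ := by
  by_cases he : w₁.1 = w₂.1
  · refine ⟨fk, fk_mem, ?_⟩
    unfold fk
    intro hk
    exact h (Prod.ext he (by exact_mod_cast hk))
  · obtain ⟨i, hi⟩ := Function.ne_iff.mp he
    refine ⟨fs i, fs_mem i, ?_⟩
    unfold fs
    intro hk
    exact hi (sg_inj (by exact_mod_cast hk))

end Pool.Agent.Helper35.Tern
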