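import Mathlib
import Pool.Agent.Helper35.U1

set_option autoImplicit false
set_option linter.unusedSectionVars false

open Filter Topology

namespace Pool.Agent.Helper35.Tern

lemma exists_avoid {E : Type*} [AddCommGroup E] [Module ℝ E] {ι : Type*} (S : Finset ι)
    (N : ι → Submodule ℝ E) (h : ∀ i ∈ S, N i ≠ ⊤) : ∃ x, ∀ i ∈ S, x ∉ N i := by
  classical
  have key := Subspace.biUnion_ne_univ_of_top_notMem (k := ℝ) (E := E) (s := S.image N) (by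
    intro hmem
    rw [Finset.mem_image] at hmem
    obtain ⟨i, hi, hN⟩ := hmem
    exact h i hi hN)
  rw [Ne, Set.eq_univ_iff_forall] at key
  push Not at key
  obtain ⟨x, hx⟩ := key
  refine ⟨x, fun i hi hxi => hx ?_⟩
  simp only [Set.mem_iUnion, Finset.mem_image]
  exact ⟨N i, ⟨i, hi, rfl⟩, hxi⟩

/-- orientation determinant -/
def orient (p q r : ℝ × ℝ) : ℝ := (q.1 - p.1) * (r.2 - p.2) - (q.2 - p.2) * (r.1 - p.1)

/-- a certificate of disjointness of the segments `pq` and `rs` -/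
def Sep (p q r s : ℝ × ℝ) : Prop :=
  0 < orient p q r * orient p q s ∨ 0 < orient r s p * orient r s q

variable {L : ℕ}

/-- the bilinear form of a triple of vertices -/
def BB (w₁ w₂ w₃ : Vtx L) (f g : Vtx L → ℝ) : ℝ :=
  (f w₂ - f w₁) * (g w₃ - g w₁) - (f w₃ - f w₁) * (g w₂ - g w₁)

lemma not_forced_iff {w₁ w₂ w₃ : Vtx L} :
    ¬ Forced w₁ w₂ w₃ ↔ ∃ f ∈ Sp L, ∃ g ∈ Sp L, BB w₁ w₂ w₃ f g ≠ 0 := by
  unfold Forced BB
  push Not
  constructor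
  · rintro ⟨f, hf, g, hg, h⟩
    exact ⟨f, hf, g, hg, sub_ne_zero.mpr h⟩
  · rintro ⟨f, hf, g, hg, h⟩
    exact ⟨f, hf, g, hg, sub_ne_zero.mp h⟩

/-- left radical of the form -/
def radL (w₁ w₂ w₃ : Vtx L) : Submodule ℝ (Sp L) where
  carrier := {v | ∀ g ∈ Sp L, BB w₁ w₂ w₃ (v : Vtx L → ℝ) g = 0}
  add_mem' := by
    intro a b ha hb g hg
    have h1 := ha g hg
    have h2 := hb g hg
    unfold BB at h1 h2 ⊢
    simp only [Submodule.coe_add, Pi.add_apply]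
    linarith
  zero_mem' := by
    intro g _
    simp [BB]
  smul_mem' := by
    intro c a ha g hg
    have h1 := ha g hg
    unfold BB at h1 ⊢
    simp only [SetLike.val_smul, Pi.smul_apply, smul_eq_mul]
    linear_combination c * h1

/-- kernel of the form with the first entry fixed -/
def kerR (w₁ w₂ w₃ : Vtx L) (v : Vtx L → ℝ) : Submodule ℝ (Sp L) where
  carrier := {g | BB w₁ w₂ w₃ v (g : Vtx L → ℝ) = 0}
  add_mem' := by
    intro a b ha hb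
    simp only [Set.mem_ofPred_eq] at ha hb ⊢
    unfold BB at ha hb ⊢
    simp only [Submodule.coe_add, Pi.add_apply]
    linarith
  zero_mem' := by
    simp [BB]
  smul_mem' := by
    intro c a ha
    simp only [Set.mem_ofPred_eq] at ha ⊢
    unfold BB at ha ⊢
    simp only [SetLike.val_smul, Pi.smul_apply, smul_eq_mul]
    linear_combination c * ha

/-- functions not separating two vertices -/
def nosep (w₁ w₂ : Vtx L) : Submodule ℝ (Sp L) where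
  carrier := {g | (g : Vtx L → ℝ) w₁ = (g : Vtx L → ℝ) w₂}
  add_mem' := by
    intro a b ha hb
    simp only [Set.mem_ofPred_eq] at ha hb ⊢
    simp only [Submodule.coe_add, Pi.add_apply]
    linarith
  zero_mem' := by
    simp
  smul_mem' := by
    intro c a ha
    simp only [Set.mem_ofPred_eq] at ha ⊢
    simp only [SetLike.val_smul, Pi.smul_apply, smul_eq_mul, ha]

theorem exists_generic (I : Finset (Vtx L)) : ∃ v ∈ Sp L, ∃ v' ∈ Sp L,
    (∀ w₁ ∈ I, ∀ w₂ ∈ I, w₁ ≠ w₂ → v w₁ ≠ v w₂) ∧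
    (∀ w₁ ∈ I, ∀ w₂ ∈ I, ∀ w₃ ∈ I, ¬ Forced w₁ w₂ w₃ → BB w₁ w₂ w₃ v v' ≠ 0) := by
  classical
  -- first vector
  let S1 : Finset ((Vtx L × Vtx L × Vtx L) ⊕ (Vtx L × Vtx L)) :=
    ((I ×ˢ I ×ˢ I).filter (fun t => ¬ Forced t.1 t.2.1 t.2.2)).disjSum
      ((I ×ˢ I).filter (fun t => t.1 ≠ t.2))
  let N1 : ((Vtx L × Vtx L × Vtx L) ⊕ (Vtx L × Vtx L)) → Submodule ℝ (Sp L) :=
    Sum.elim (fun t => radL t.1 t.2.1 t.2.2) (fun t => nosep t.1 t.2)
  have h1 : ∀ i ∈ S1, N1 i ≠ ⊤ := by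
    rintro (t | t) ht htop
    · simp only [S1, Finset.inl_mem_disjSum, Finset.mem_filter] at ht
      obtain ⟨f, hf, g, hg, hne⟩ := not_forced_iff.mp ht.2
      have : (⟨f, hf⟩ : Sp L) ∈ radL t.1 t.2.1 t.2.2 := by
        have h2 : N1 (Sum.inl t) = radL t.1 t.2.1 t.2.2 := rfl
        rw [← h2, htop]
        trivial
      exact hne (this g hg)
    · simp only [S1, Finset.inr_mem_disjSum, Finset.mem_filter] at ht
      obtain ⟨f, hf, hne⟩ := exists_sep ht.2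
      have : (⟨f, hf⟩ : Sp L) ∈ nosep t.1 t.2 := by
        have h2 : N1 (Sum.inr t) = nosep t.1 t.2 := rfl
        rw [← h2, htop]
        trivial
      exact hne this
  obtain ⟨v, hv⟩ := exists_avoid S1 N1 h1
  have hv1 : ∀ w₁ ∈ I, ∀ w₂ ∈ I, ∀ w₃ ∈ I, ¬ Forced w₁ w₂ w₃ →
      ∃ g ∈ Sp L, BB w₁ w₂ w₃ (v : Vtx L → ℝ) g ≠ 0 := by
    intro w₁ m1 w₂ m2 w₃ m3 hF
    have h2 := hv (Sum.inl (w₁, w₂, w₃)) (by
      simp only [S1, Finset.inl_mem_disjSum, Finset.mem_filter, Finset.mem_product]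
      exact ⟨⟨m1, m2, m3⟩, hF⟩)
    by_contra hcon
    push Not at hcon
    exact h2 hcon
  have hv2 : ∀ w₁ ∈ I, ∀ w₂ ∈ I, w₁ ≠ w₂ → (v : Vtx L → ℝ) w₁ ≠ (v : Vtx L → ℝ) w₂ := by
    intro w₁ m1 w₂ m2 hne heq
    have h2 := hv (Sum.inr (w₁, w₂)) (by
      simp only [S1, Finset.inr_mem_disjSum, Finset.mem_filter, Finset.mem_product]
      exact ⟨⟨m1, m2⟩, hne⟩)
    exact h2 heq
  -- second vector
  have h3 : ∀ t ∈ (I ×ˢ I ×ˢ I).filter (fun t => ¬ Forced t.1 t.2.1 t.2.2),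
      kerR t.1 t.2.1 t.2.2 (v : Vtx L → ℝ) ≠ ⊤ := by
    intro t ht htop
    simp only [Finset.mem_filter, Finset.mem_product] at ht
    obtain ⟨g, hg, hne⟩ := hv1 t.1 ht.1.1 t.2.1 ht.1.2.1 t.2.2 ht.1.2.2 ht.2
    have : (⟨g, hg⟩ : Sp L) ∈ kerR t.1 t.2.1 t.2.2 (v : Vtx L → ℝ) := by
      rw [htop]; trivial
    exact hne this
  obtain ⟨v', hv'⟩ := exists_avoid _ _ h3
  refine ⟨v, v.2, v', v'.2, hv2, ?_⟩
  intro w₁ m1 w₂ m2 w₃ m3 hF h0
  exact hv' (w₁, w₂, w₃) (by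
    simp only [Finset.mem_filter, Finset.mem_product]
    exact ⟨⟨m1, m2, m3⟩, hF⟩) h0

lemma eventually_ne_of_finite {S : Set ℝ} (hS : S.Finite) : ∀ᶠ δ : ℝ in 𝓝[≠] 0, δ ∉ S := by
  have h1 : (S \ {0})ᶜ ∈ 𝓝 (0 : ℝ) := by
    apply (hS.subset Set.sdiff_subset).isClosed.isOpen_compl.mem_nhds
    simp
  rw [eventually_nhdsWithin_iff]
  filter_upwards [h1] with δ hδ hne hmem
  exact hδ ⟨hmem, hne⟩

lemma quad_ne (a b c : ℝ) (hc : c ≠ 0) : ∀ᶠ δ : ℝ in 𝓝[≠] 0, a + b * δ + c * δ ^ 2 ≠ 0 := by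
  have hp : (Polynomial.C a + Polynomial.C b * Polynomial.X + Polynomial.C c * Polynomial.X ^ 2 :
      Polynomial ℝ) ≠ 0 := by
    intro h0
    have := congrArg (fun p => Polynomial.coeff p 2) h0
    simp [Polynomial.coeff_X, Polynomial.coeff_C] at this
    exact hc this
  have hfin := Polynomial.finite_setOfPred_isRoot hp
  filter_upwards [eventually_ne_of_finite hfin] with δ hδ h0
  apply hδ
  simp only [Polynomial.IsRoot, Polynomial.eval_add, Polynomial.eval_mul,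
    Polynomial.eval_C, Polynomial.eval_pow, Polynomial.eval_X]
  exact h0

/-- the base abscissa -/
noncomputable def bx : Vtx L → ℝ := fun w => ∑ m : Fin L, (16 : ℝ) ^ (m : ℕ) * (sg (w.1 m) : ℝ)

lemma bx_mem : (bx : Vtx L → ℝ) ∈ Sp L := by
  have : (bx : Vtx L → ℝ) = ∑ m : Fin L, (16 : ℝ) ^ (m : ℕ) • fs m := by
    funext w
    simp [bx, fs, Finset.sum_apply]
  rw [this]
  exact Submodule.sum_mem _ (fun m _ => Submodule.smul_mem _ _ (fs_mem m))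

/-- base position -/
noncomputable def bp (w : Vtx L) : ℝ × ℝ := (bx w, fk w)

/-- perturbed position -/
noncomputable def pp (v v' : Vtx L → ℝ) (δ : ℝ) (w : Vtx L) : ℝ × ℝ :=
  (bx w + δ * v w, fk w + δ * v' w)

lemma orient_pp (v v' : Vtx L → ℝ) (δ : ℝ) (w₁ w₂ w₃ : Vtx L) :
    orient (pp v v' δ w₁) (pp v v' δ w₂) (pp v v' δ w₃) =
      BB w₁ w₂ w₃ bx fk + (BB w₁ w₂ w₃ v fk + BB w₁ w₂ w₃ bx v') * δ + BB w₁ w₂ w₃ v v' * δ ^ 2 := by
  unfold orient pp BB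
  ring

lemma continuous_orient_pp (v v' : Vtx L → ℝ) (w₁ w₂ w₃ : Vtx L) :
    Continuous (fun δ : ℝ => orient (pp v v' δ w₁) (pp v v' δ w₂) (pp v v' δ w₃)) := by
  simp only [orient_pp]
  fun_prop

lemma pp_zero (v v' : Vtx L → ℝ) (w : Vtx L) : pp v v' 0 w = bp w := by
  simp [pp, bp]

theorem exists_pos (I : Finset (Vtx L)) : ∃ p : Vtx L → ℝ × ℝ,
    (∀ w l, Mid l w → p (up l w) + p (dn l w) = (2 : ℝ) • p w) ∧
    (∀ w₁ ∈ I, ∀ w₂ ∈ I, w₁ ≠ w₂ → p w₁ ≠ p w₂) ∧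
    (∀ w₁ ∈ I, ∀ w₂ ∈ I, ∀ w₃ ∈ I, ¬ Forced w₁ w₂ w₃ → orient (p w₁) (p w₂) (p w₃) ≠ 0) ∧
    (∀ w₁ ∈ I, ∀ w₂ ∈ I, ∀ w₃ ∈ I, ∀ w₄ ∈ I, Sep (bp w₁) (bp w₂) (bp w₃) (bp w₄) →
      Sep (p w₁) (p w₂) (p w₃) (p w₄)) := by
  obtain ⟨v, hv, v', hv', h1, h2⟩ := exists_generic I
  have e1 : ∀ᶠ δ : ℝ in 𝓝[≠] 0, ∀ w₁ ∈ I, ∀ w₂ ∈ I, w₁ ≠ w₂ → pp v v' δ w₁ ≠ pp v v' δ w₂ := by
    rw [Finset.eventually_all]
    intro w₁ m1
    rw [Finset.eventually_all]
    intro w₂ m2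
    by_cases hw : w₁ = w₂
    · exact Eventually.of_forall (fun _ h => absurd hw h)
    have hne := h1 w₁ m1 w₂ m2 hw
    have hfin : Set.Finite {δ : ℝ | bx w₁ + δ * v w₁ = bx w₂ + δ * v w₂} := by
      apply Set.Finite.subset (Set.finite_singleton ((bx w₂ - bx w₁) / (v w₁ - v w₂)))
      intro δ hδ
      simp only [Set.mem_ofPred_eq] at hδ
      rw [Set.mem_singleton_iff, eq_div_iff (sub_ne_zero.mpr hne)]
      linarith
    filter_upwards [eventually_ne_of_finite hfin] with δ hδ _ heq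
    exact hδ (congrArg Prod.fst heq)
  have e2 : ∀ᶠ δ : ℝ in 𝓝[≠] 0, ∀ w₁ ∈ I, ∀ w₂ ∈ I, ∀ w₃ ∈ I, ¬ Forced w₁ w₂ w₃ →
      orient (pp v v' δ w₁) (pp v v' δ w₂) (pp v v' δ w₃) ≠ 0 := by
    rw [Finset.eventually_all]
    intro w₁ m1
    rw [Finset.eventually_all]
    intro w₂ m2
    rw [Finset.eventually_all]
    intro w₃ m3
    by_cases hF : Forced w₁ w₂ w₃
    · exact Eventually.of_forall (fun _ h => absurd hF h)
    filter_upwards [quad_ne (BB w₁ w₂ w₃ bx fk) (BB w₁ w₂ w₃ v fk + BB w₁ w₂ w₃ bx v')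
      (BB w₁ w₂ w₃ v v') (h2 w₁ m1 w₂ m2 w₃ m3 hF)] with δ hδ _
    rw [orient_pp]
    exact hδ
  have e3 : ∀ᶠ δ : ℝ in 𝓝 0, ∀ w₁ ∈ I, ∀ w₂ ∈ I, ∀ w₃ ∈ I, ∀ w₄ ∈ I,
      Sep (bp w₁) (bp w₂) (bp w₃) (bp w₄) →
      Sep (pp v v' δ w₁) (pp v v' δ w₂) (pp v v' δ w₃) (pp v v' δ w₄) := by
    rw [Finset.eventually_all]
    intro w₁ m1
    rw [Finset.eventually_all]
    intro w₂ m2
    rw [Finset.eventually_all]
    intro w₃ m3
    rw [Finset.eventually_all]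
    intro w₄ m4
    by_cases hS : Sep (bp w₁) (bp w₂) (bp w₃) (bp w₄)
    · rcases hS with hS | hS
      · have hc : Continuous (fun δ : ℝ => orient (pp v v' δ w₁) (pp v v' δ w₂) (pp v v' δ w₃) *
            orient (pp v v' δ w₁) (pp v v' δ w₂) (pp v v' δ w₄)) :=
          (continuous_orient_pp v v' w₁ w₂ w₃).mul (continuous_orient_pp v v' w₁ w₂ w₄)
        have : ∀ᶠ δ : ℝ in 𝓝 0, 0 < orient (pp v v' δ w₁) (pp v v' δ w₂) (pp v v' δ w₃) *
            orient (pp v v' δ w₁) (pp v v' δ w₂) (pp v v' δ w₄) := by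
          apply hc.continuousAt.eventually_const_lt
          simpa only [pp_zero] using hS
        filter_upwards [this] with δ hδ _
        exact Or.inl hδ
      · have hc : Continuous (fun δ : ℝ => orient (pp v v' δ w₃) (pp v v' δ w₄) (pp v v' δ w₁) *
            orient (pp v v' δ w₃) (pp v v' δ w₄) (pp v v' δ w₂)) :=
          (continuous_orient_pp v v' w₃ w₄ w₁).mul (continuous_orient_pp v v' w₃ w₄ w₂)
        have : ∀ᶠ δ : ℝ in 𝓝 0, 0 < orient (pp v v' δ w₃) (pp v v' δ w₄) (pp v v' δ w₁) *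
            orient (pp v v' δ w₃) (pp v v' δ w₄) (pp v v' δ w₂) := by
          apply hc.continuousAt.eventually_const_lt
          simpa only [pp_zero] using hS
        filter_upwards [this] with δ hδ _
        exact Or.inr hδ
    · exact Eventually.of_forall (fun _ h => absurd h hS)
  obtain ⟨δ, g1, g2, g3⟩ := (e1.and (e2.and (e3.filter_mono nhdsWithin_le_nhds))).exists
  refine ⟨pp v v' δ, ?_, g1, g2, g3⟩
  intro w l hM
  have k1 := bx_mem w l hM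
  have k2 := fk_mem w l hM
  have k3 := hv w l hM
  have k4 := hv' w l hM
  ext
  · simp only [pp, Prod.fst_add, Prod.smul_fst, smul_eq_mul]
    linear_combination k1 + δ * k3
  · simp only [pp, Prod.snd_add, Prod.smul_snd, smul_eq_mul]
    linear_combination k2 + δ * k4

end Pool.Agent.Helper35.Tern
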