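import Mathlib
import Pool.Agent.Helper35.U2

set_option autoImplicit false
set_option linter.unusedSectionVars false

namespace Pool.Agent.Helper35.Tern

/-- relations between the scales of two indices -/
structure Rel (T T' w w' : ℝ) : Prop where
  posT : 0 < T
  posw' : 0 < w'
  h1 : 16 * T ≤ T'
  h2 : 4 * w' ≤ w
  h3 : 4 * (T * w) ≤ T' * w'

lemma sep_of_one {σ τ zx zy W Ti Tj Tl wi wj wl : ℝ} (hσ : σ * σ = 1) (hτ : τ * τ = 1) (hTi : 0 < Ti)
    (h : 0 < (Tj * (wi - wj)) * (Tj * (wi - wj) - Tl * (wi + wj - 2 * wl))) :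
    Sep (zx + σ * Ti, zy + σ * (Ti * (W - wi))) (zx, zy)
      (zx + τ * Tj, zy + τ * (Tj * (W - wj)))
      (zx + τ * Tj - τ * Tl, zy + τ * (Tj * (W - wj)) - τ * (Tl * (W + wj - 2 * wl))) := by
  left
  have : orient (zx + σ * Ti, zy + σ * (Ti * (W - wi))) (zx, zy)
      (zx + τ * Tj, zy + τ * (Tj * (W - wj))) *
      orient (zx + σ * Ti, zy + σ * (Ti * (W - wi))) (zx, zy)
      (zx + τ * Tj - τ * Tl, zy + τ * (Tj * (W - wj)) - τ * (Tl * (W + wj - 2 * wl))) =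
      Ti ^ 2 * ((Tj * (wi - wj)) * (Tj * (wi - wj) - Tl * (wi + wj - 2 * wl))) := by
    unfold orient
    simp only
    linear_combination (Ti ^ 2 * ((Tj * (wi - wj)) * (Tj * (wi - wj) - Tl * (wi + wj - 2 * wl)))) *
      (τ * τ * hσ + hτ)
  rw [this]
  positivity

lemma sep_of_two {σ τ zx zy W Ti Tj Tl wi wj wl : ℝ} (hτ : τ * τ = 1) (hTl : 0 < Tl)
    (h : 0 < (2 * (Tj * (wl - wj)) - σ * τ * (Ti * (2 * wl - wi - wj))) * (Tj * (wl - wj))) :
    Sep (zx + σ * Ti, zy + σ * (Ti * (W - wi))) (zx, zy)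
      (zx + τ * Tj, zy + τ * (Tj * (W - wj)))
      (zx + τ * Tj - τ * Tl, zy + τ * (Tj * (W - wj)) - τ * (Tl * (W + wj - 2 * wl))) := by
  right
  have : orient (zx + τ * Tj, zy + τ * (Tj * (W - wj)))
      (zx + τ * Tj - τ * Tl, zy + τ * (Tj * (W - wj)) - τ * (Tl * (W + wj - 2 * wl)))
      (zx + σ * Ti, zy + σ * (Ti * (W - wi))) *
      orient (zx + τ * Tj, zy + τ * (Tj * (W - wj)))
      (zx + τ * Tj - τ * Tl, zy + τ * (Tj * (W - wj)) - τ * (Tl * (W + wj - 2 * wl))) (zx, zy) =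
      2 * Tl ^ 2 * ((2 * (Tj * (wl - wj)) - σ * τ * (Ti * (2 * wl - wi - wj))) * (Tj * (wl - wj))) := by
    unfold orient
    simp only
    linear_combination (4 * Tl ^ 2 * (Tj * (wl - wj)) ^ 2 * (τ * τ + 1) -
      2 * Tl ^ 2 * (Tj * (wl - wj)) * σ * τ * (Ti * (2 * wl - wi - wj))) * hτ
  rw [this]
  positivity

/-- case `j < i`, `j < l` -/
lemma sep_A {σ τ zx zy W Ti Tj Tl wi wj wl : ℝ} (hσ : σ * σ = 1) (hτ : τ * τ = 1)
    (hji : Rel Tj Ti wj wi) (hjl : Rel Tj Tl wj wl) :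
    Sep (zx + σ * Ti, zy + σ * (Ti * (W - wi))) (zx, zy)
      (zx + τ * Tj, zy + τ * (Tj * (W - wj)))
      (zx + τ * Tj - τ * Tl, zy + τ * (Tj * (W - wj)) - τ * (Tl * (W + wj - 2 * wl))) := by
  have p1 := hji.posT
  have p2 := hji.posw'
  have p3 := hjl.posw'
  have a1 := hji.h1
  have a2 := hji.h2
  have b1 := hjl.h1
  have b2 := hjl.h2
  apply sep_of_one hσ hτ (by linarith)
  have q1 : Tj * (wi - wj) < 0 := mul_neg_of_pos_of_neg p1 (by linarith)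
  have q2 : 0 < Tl * (wi + wj - 2 * wl) := mul_pos (by linarith) (by linarith)
  exact mul_pos_of_neg_of_neg q1 (by linarith)

/-- case `l < j` and `i < j` -/
lemma sep_B1 {σ τ zx zy W Ti Tj Tl wi wj wl : ℝ} (hσ : σ * σ = 1) (hτ : τ * τ = 1)
    (hlj : Rel Tl Tj wl wj) (hij : Rel Ti Tj wi wj) :
    Sep (zx + σ * Ti, zy + σ * (Ti * (W - wi))) (zx, zy)
      (zx + τ * Tj, zy + τ * (Tj * (W - wj)))
      (zx + τ * Tj - τ * Tl, zy + τ * (Tj * (W - wj)) - τ * (Tl * (W + wj - 2 * wl))) := by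
  have p1 := hlj.posT
  have p2 := hlj.posw'
  have p3 := hij.posT
  have a1 := hlj.h1
  have a2 := hlj.h2
  have b1 := hij.h1
  have b2 := hij.h2
  apply sep_of_one hσ hτ p3
  have q0 : 0 < wi := by linarith
  have q1 : 16 * Tl * ((3 / 4) * wi) ≤ Tj * (wi - wj) :=
    mul_le_mul a1 (by linarith) (by positivity) (by linarith)
  have q2 : Tl * (wi + wj - 2 * wl) ≤ Tl * (2 * wi) :=
    mul_le_mul_of_nonneg_left (by linarith) p1.le
  have q3 : 0 < Tl * wi := mul_pos p1 q0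
  apply mul_pos
  · linarith
  · linarith

/-- case `l < j < i` -/
lemma sep_B2 {σ τ zx zy W Ti Tj Tl wi wj wl : ℝ} (hσ : σ * σ = 1) (hτ : τ * τ = 1)
    (hlj : Rel Tl Tj wl wj) (hji : Rel Tj Ti wj wi) :
    Sep (zx + σ * Ti, zy + σ * (Ti * (W - wi))) (zx, zy)
      (zx + τ * Tj, zy + τ * (Tj * (W - wj)))
      (zx + τ * Tj - τ * Tl, zy + τ * (Tj * (W - wj)) - τ * (Tl * (W + wj - 2 * wl))) := by
  have p1 := hlj.posT
  have p2 := hlj.posw'
  have p3 := hji.posT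
  have p4 := hji.posw'
  have a1 := hlj.h1
  have a2 := hlj.h2
  have a3 := hlj.h3
  have b1 := hji.h1
  have b2 := hji.h2
  apply sep_of_one hσ hτ (by linarith)
  have q1 : Tj * (wi - wj) ≤ - (Tj * ((3 / 4) * wj)) := by
    have : Tj * ((3 / 4) * wj) ≤ Tj * (wj - wi) := mul_le_mul_of_nonneg_left (by linarith) p3.le
    linarith
  have q2 : -(Tl * (2 * wl)) ≤ Tl * (wi + wj - 2 * wl) := by
    have : 0 ≤ Tl * (wi + wj) := mul_nonneg p1.le (by linarith)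
    linarith
  have q3 : 0 < Tl * wl := mul_pos p1 (by linarith)
  apply mul_pos_of_neg_of_neg
  · linarith
  · linarith

/-- case `i < j < l` -/
lemma sep_C {σ τ zx zy W Ti Tj Tl wi wj wl : ℝ} (hσ : σ * σ = 1) (hτ : τ * τ = 1)
    (hij : Rel Ti Tj wi wj) (hjl : Rel Tj Tl wj wl) :
    Sep (zx + σ * Ti, zy + σ * (Ti * (W - wi))) (zx, zy)
      (zx + τ * Tj, zy + τ * (Tj * (W - wj)))
      (zx + τ * Tj - τ * Tl, zy + τ * (Tj * (W - wj)) - τ * (Tl * (W + wj - 2 * wl))) := by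
  have p1 := hij.posT
  have p2 := hij.posw'
  have p3 := hjl.posT
  have p4 := hjl.posw'
  have a1 := hij.h1
  have a2 := hij.h2
  have a3 := hij.h3
  have b1 := hjl.h1
  have b2 := hjl.h2
  apply sep_of_two hτ (by linarith)
  have q1 : Tj * (wl - wj) ≤ - (Tj * ((3 / 4) * wj)) := by
    have : Tj * ((3 / 4) * wj) ≤ Tj * (wj - wl) := mul_le_mul_of_nonneg_left (by linarith) p3.le
    linarith
  have q2 : -(Ti * ((5 / 4) * wi)) ≤ Ti * (2 * wl - wi - wj) := by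
    have : 0 ≤ Ti * (2 * wl + ((1 / 4) * wi - wj)) := mul_nonneg p1.le (by linarith)
    linarith
  have q2' : Ti * (2 * wl - wi - wj) ≤ 0 := by
    have : 0 ≤ Ti * (wi + wj - 2 * wl) := mul_nonneg p1.le (by linarith)
    linarith
  have q3 : 0 < Ti * wi := mul_pos p1 (by linarith)
  have hst : (σ * τ) * (σ * τ) = 1 := by
    calc (σ * τ) * (σ * τ) = (σ * σ) * (τ * τ) := by ring
      _ = 1 := by rw [hσ, hτ, one_mul]
  have q4 : σ * τ = 1 ∨ σ * τ = -1 := mul_self_eq_one_iff.mp hst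
  apply mul_pos_of_neg_of_neg
  · rcases q4 with q4 | q4
    · rw [q4]; linarith
    · rw [q4]; linarith
  · linarith

/-- case `i = j` -/
lemma sep_D {σ τ zx zy W Ti Tl wi wl : ℝ} (hτ : τ * τ = 1) (hst : σ = -τ)
    (hTi : 0 < Ti) (hTl : 0 < Tl) (hw : wi ≠ wl) :
    Sep (zx + σ * Ti, zy + σ * (Ti * (W - wi))) (zx, zy)
      (zx + τ * Ti, zy + τ * (Ti * (W - wi)))
      (zx + τ * Ti - τ * Tl, zy + τ * (Ti * (W - wi)) - τ * (Tl * (W + wi - 2 * wl))) := by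
  apply sep_of_two hτ hTl
  have h1 : σ * τ = -1 := by rw [hst, neg_mul, hτ]
  rw [h1]
  have h2 : (2 * (Ti * (wl - wi)) - -1 * (Ti * (2 * wl - wi - wi))) * (Ti * (wl - wi)) =
      4 * (Ti * (wl - wi)) ^ 2 := by ring
  rw [h2]
  have h3 : Ti * (wl - wi) ≠ 0 := mul_ne_zero hTi.ne' (sub_ne_zero.mpr hw.symm)
  positivity

end Pool.Agent.Helper35.Tern
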