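import Mathlib
import Pool.Agent.Helper35.U3

set_option autoImplicit false
set_option linter.unusedSectionVars false

namespace Pool.Agent.Helper35.Tern

variable {L : ℕ}

/-- the horizontal scales -/
noncomputable def tt (m : Fin L) : ℝ := 16 ^ (m : ℕ)

/-- the slopes -/
noncomputable def ww (m : Fin L) : ℝ := 4 ^ (L - (m : ℕ))

lemma cast_wt (m : Fin L) : ((wt m : ℤ) : ℝ) = ww m := by
  unfold wt ww; push_cast; rfl

lemma tt_pos (m : Fin L) : 0 < tt m := by unfold tt; positivity
lemma ww_pos (m : Fin L) : 0 < ww m := by unfold ww; positivity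

lemma tt_mul_ww (m : Fin L) : tt m * ww m = 4 ^ (L + (m : ℕ)) := by
  unfold tt ww
  have h : (16 : ℝ) = 4 ^ 2 := by norm_num
  rw [h, ← pow_mul, ← pow_add]
  congr 1
  have := m.2
  omega

lemma rel_of_lt {i j : Fin L} (h : i < j) : Rel (tt i) (tt j) (ww i) (ww j) := by
  have h' : (i : ℕ) < (j : ℕ) := h
  have hj := j.2
  refine ⟨tt_pos i, ww_pos j, ?_, ?_, ?_⟩
  · unfold tt
    calc (16 : ℝ) * 16 ^ (i : ℕ) = 16 ^ ((i : ℕ) + 1) := by ring
      _ ≤ 16 ^ (j : ℕ) := pow_le_pow_right₀ (by norm_num) h'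
  · unfold ww
    calc (4 : ℝ) * 4 ^ (L - (j : ℕ)) = 4 ^ (L - (j : ℕ) + 1) := by ring
      _ ≤ 4 ^ (L - (i : ℕ)) := pow_le_pow_right₀ (by norm_num) (by omega)
  · rw [tt_mul_ww, tt_mul_ww]
    calc (4 : ℝ) * 4 ^ (L + (i : ℕ)) = 4 ^ (L + (i : ℕ) + 1) := by ring
      _ ≤ 4 ^ (L + (j : ℕ)) := pow_le_pow_right₀ (by norm_num) (by omega)

lemma ww_ne {i j : Fin L} (h : i ≠ j) : ww i ≠ ww j := by
  rcases lt_or_gt_of_ne h with h | h
  · have := rel_of_lt h
    have h1 := this.h2
    have h2 := this.posw'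
    intro h3
    linarith
  · have := rel_of_lt h
    have h1 := this.h2
    have h2 := this.posw'
    intro h3
    linarith

/-- total weight of the support -/
noncomputable def WW (e : Fin L → ZMod 3) : ℝ := ∑ m, if e m = 0 then 0 else ww m

lemma cast_kap (l : Fin L) (e : Fin L → ZMod 3) :
    ((kap l e : ℤ) : ℝ) = tt l * (WW e - (if e l = 0 then 0 else ww l) - ww l) := by
  unfold kap WW tt
  rw [← Finset.add_sum_erase _ _ (Finset.mem_univ l)]
  push_cast
  rw [cast_wt]
  have : ∑ x ∈ Finset.univ.erase l, (if e x = 0 then (0 : ℝ) else ((wt x : ℤ) : ℝ)) =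
      ∑ x ∈ Finset.univ.erase l, (if e x = 0 then (0 : ℝ) else ww x) := by
    apply Finset.sum_congr rfl
    intro m _
    rw [cast_wt]
  rw [this]
  ring

lemma cast_kap_zero {l : Fin L} {e : Fin L → ZMod 3} (h : e l = 0) :
    ((kap l e : ℤ) : ℝ) = tt l * (WW e - ww l) := by
  rw [cast_kap, if_pos h]; ring

lemma cast_kap_ne {l : Fin L} {e : Fin L → ZMod 3} (h : e l ≠ 0) :
    ((kap l e : ℤ) : ℝ) = tt l * (WW e - 2 * ww l) := by
  rw [cast_kap, if_neg h]; ring

lemma WW_update {j : Fin L} {e : Fin L → ZMod 3} (h : e j = 0) {a : ZMod 3} (ha : a ≠ 0) :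
    WW (Function.update e j a) = WW e + ww j := by
  unfold WW
  rw [← Finset.add_sum_erase _ _ (Finset.mem_univ j),
    ← Finset.add_sum_erase _ (fun m => if e m = 0 then 0 else ww m) (Finset.mem_univ j)]
  simp only [Function.update_self, ha, if_false, h, if_true]
  rw [zero_add, add_comm]
  congr 1
  apply Finset.sum_congr rfl
  intro m hm
  rw [Function.update_of_ne (Finset.ne_of_mem_erase hm)]

lemma bx_update {j : Fin L} {e : Fin L → ZMod 3} (h : e j = 0) (a : ZMod 3) (k k' : ℤ) :
    bx ((Function.update e j a, k) : Vtx L) = bx ((e, k') : Vtx L) + (sg a : ℝ) * tt j := by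
  unfold bx tt
  rw [← Finset.add_sum_erase _ _ (Finset.mem_univ j),
    ← Finset.add_sum_erase _ (fun m : Fin L => (16 : ℝ) ^ (m : ℕ) * (sg (e m) : ℝ)) (Finset.mem_univ j)]
  simp only [Function.update_self, h, sg_zero]
  have : ∑ x ∈ Finset.univ.erase j, (16 : ℝ) ^ (x : ℕ) * (sg (Function.update e j a x) : ℝ) =
      ∑ x ∈ Finset.univ.erase j, (16 : ℝ) ^ (x : ℕ) * (sg (e x) : ℝ) := by
    apply Finset.sum_congr rfl
    intro m hm
    rw [Function.update_of_ne (Finset.ne_of_mem_erase hm)]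
  rw [this]
  push_cast
  ring

lemma bp_up {l : Fin L} {z : Vtx L} (h : z.1 l = 0) :
    bp (up l z) = ((bp z).1 + 1 * tt l, (bp z).2 + 1 * (tt l * (WW z.1 - ww l))) := by
  unfold bp up
  ext
  · simp only
    rw [bx_update h 1 _ z.2]
    simp
  · simp only [fk]
    push_cast
    rw [cast_kap_zero h, one_mul]

lemma bp_dn {l : Fin L} {z : Vtx L} (h : z.1 l = 0) :
    bp (dn l z) = ((bp z).1 + (-1) * tt l, (bp z).2 + (-1) * (tt l * (WW z.1 - ww l))) := by
  unfold bp dn
  ext
  · simp only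
    rw [bx_update h 2 _ z.2]
    simp
  · simp only [fk]
    push_cast
    rw [cast_kap_zero h]
    ring

/-- the vertex opposite to an outer vertex, upper case -/
lemma bp_opp_up {l : Fin L} {z' x : Vtx L} (h : z'.1 l = 0) (hx : x = up l z') :
    bp z' = ((bp x).1 - 1 * tt l, (bp x).2 - 1 * (tt l * (WW x.1 - 2 * ww l))) := by
  subst hx
  rw [bp_up h]
  have : WW (up l z').1 = WW z'.1 + ww l := by
    unfold up
    exact WW_update h (by decide)
  rw [this]
  ext
  · simp only; ring
  · simp only; ring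

lemma bp_opp_dn {l : Fin L} {z' x : Vtx L} (h : z'.1 l = 0) (hx : x = dn l z') :
    bp z' = ((bp x).1 - (-1) * tt l, (bp x).2 - (-1) * (tt l * (WW x.1 - 2 * ww l))) := by
  subst hx
  rw [bp_dn h]
  have : WW (dn l z').1 = WW z'.1 + ww l := by
    unfold dn
    exact WW_update h (by decide)
  rw [this]
  ext
  · simp only; ring
  · simp only; ring

lemma WW_up {l : Fin L} {z : Vtx L} (h : z.1 l = 0) : WW (up l z).1 = WW z.1 + ww l := by
  unfold up
  exact WW_update h (by decide)

lemma WW_dn {l : Fin L} {z : Vtx L} (h : z.1 l = 0) : WW (dn l z).1 = WW z.1 + ww l := by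
  unfold dn
  exact WW_update h (by decide)

lemma sum_up {l : Fin L} {z : Vtx L} (h : Mid l z) : ∑ i, (up l z).1 i = 1 := by
  unfold up
  simp only
  rw [sum_update _ _ _ h.2, h.1, zero_add]

lemma sum_dn {l : Fin L} {z : Vtx L} (h : Mid l z) : ∑ i, (dn l z).1 i = 2 := by
  unfold dn
  simp only
  rw [sum_update _ _ _ h.2, h.1, zero_add]

lemma up_inj {l : Fin L} {z z' : Vtx L} (h : z.1 l = 0) (h' : z'.1 l = 0) (he : up l z = up l z') :
    z = z' := by
  have h1 : Function.update z.1 l 1 = Function.update z'.1 l 1 := congrArg Prod.fst he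
  have h2 : z.1 = z'.1 := by
    funext m
    by_cases hm : m = l
    · subst hm; rw [h, h']
    · have := congrFun h1 m
      rwa [Function.update_of_ne hm, Function.update_of_ne hm] at this
  have h3 : z.2 + kap l z.1 = z'.2 + kap l z'.1 := congrArg Prod.snd he
  rw [h2] at h3
  exact Prod.ext h2 (by omega)

lemma dn_inj {l : Fin L} {z z' : Vtx L} (h : z.1 l = 0) (h' : z'.1 l = 0) (he : dn l z = dn l z') :
    z = z' := by
  have h1 : Function.update z.1 l 2 = Function.update z'.1 l 2 := congrArg Prod.fst he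
  have h2 : z.1 = z'.1 := by
    funext m
    by_cases hm : m = l
    · subst hm; rw [h, h']
    · have := congrFun h1 m
      rwa [Function.update_of_ne hm, Function.update_of_ne hm] at this
  have h3 : z.2 - kap l z.1 = z'.2 - kap l z'.1 := congrArg Prod.snd he
  rw [h2] at h3
  exact Prod.ext h2 (by omega)

/-- the numerical core for a path -/
lemma sep_num {i j l : Fin L} {σ τ zx zy W : ℝ} (hσ : σ = 1 ∨ σ = -1) (hτ : τ = 1 ∨ τ = -1)
    (hij : i = j → σ = -τ) (hil : i ≠ l) (hjl : j ≠ l) :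
    Sep (zx + σ * tt i, zy + σ * (tt i * (W - ww i))) (zx, zy)
      (zx + τ * tt j, zy + τ * (tt j * (W - ww j)))
      (zx + τ * tt j - τ * tt l, zy + τ * (tt j * (W - ww j)) - τ * (tt l * (W + ww j - 2 * ww l))) := by
  have hσ' : σ * σ = 1 := by rcases hσ with rfl | rfl <;> norm_num
  have hτ' : τ * τ = 1 := by rcases hτ with rfl | rfl <;> norm_num
  by_cases hij' : i = j
  · subst hij'
    exact sep_D hτ' (hij rfl) (tt_pos i) (tt_pos l) (ww_ne hil)
  · rcases lt_or_gt_of_ne hjl with h1 | h1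
    · rcases lt_or_gt_of_ne hij' with h2 | h2
      · exact sep_C hσ' hτ' (rel_of_lt h2) (rel_of_lt h1)
      · exact sep_A hσ' hτ' (rel_of_lt h2) (rel_of_lt h1)
    · rcases lt_or_gt_of_ne hij' with h2 | h2
      · exact sep_B1 hσ' hτ' (rel_of_lt h1) (rel_of_lt h2)
      · exact sep_B2 hσ' hτ' (rel_of_lt h1) (rel_of_lt h2)

lemma two_ne_one : (2 : ZMod 3) ≠ 1 := by decide

/-- paths of length three are separated at the base positions -/
theorem sep_path {i j l : Fin L} {x₁ z x₃ z' : Vtx L} (hz : Mid i z) (hx₁ : x₁ = up i z ∨ x₁ = dn i z)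
    (hz2 : Mid j z) (hx₃ : x₃ = up j z ∨ x₃ = dn j z) (hz' : Mid l z')
    (hx₃' : x₃ = up l z' ∨ x₃ = dn l z') (h13 : x₁ ≠ x₃) (h24 : z ≠ z') :
    Sep (bp x₁) (bp z) (bp x₃) (bp z') := by
  rcases hx₃ with hx₃ | hx₃
  · -- `x₃` is an upper vertex
    have hx₃' : x₃ = up l z' := by
      rcases hx₃' with h | h
      · exact h
      · exfalso
        have h1 := sum_up hz2
        have h2 := sum_dn hz'
        rw [← hx₃] at h1
        rw [← h, h1] at h2
        exact two_ne_one h2.symm
    have hjl : j ≠ l := by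
      rintro rfl
      exact h24 (up_inj hz2.2 hz'.2 (hx₃.symm.trans hx₃'))
    have hel : z.1 l = 1 := by
      have h1 : x₃.1 l = z.1 l := by
        rw [hx₃]; unfold up; simp only
        rw [Function.update_of_ne hjl.symm]
      have h2 : x₃.1 l = 1 := by
        rw [hx₃']; unfold up; simp only
        rw [Function.update_self]
      rw [← h1, h2]
    have hil : i ≠ l := by
      rintro rfl
      rw [hz.2] at hel
      exact absurd hel (by decide)
    have e3 := bp_up hz2.2
    rw [← hx₃] at e3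
    have e4 := bp_opp_up hz'.2 hx₃'
    have e5 : WW x₃.1 = WW z.1 + ww j := by rw [hx₃]; exact WW_up hz2.2
    rw [e4, e3, e5]
    simp only
    rcases hx₁ with hx₁ | hx₁
    · rw [hx₁, bp_up hz.2]
      apply sep_num (Or.inl rfl) (Or.inl rfl) _ hil hjl
      rintro rfl
      exact absurd (hx₁.trans hx₃.symm) h13
    · rw [hx₁, bp_dn hz.2]
      exact sep_num (Or.inr rfl) (Or.inl rfl) (fun _ => rfl) hil hjl
  · -- `x₃` is a lower vertex
    have hx₃' : x₃ = dn l z' := by
      rcases hx₃' with h | h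
      · exfalso
        have h1 := sum_dn hz2
        have h2 := sum_up hz'
        rw [← hx₃] at h1
        rw [← h, h1] at h2
        exact two_ne_one h2
      · exact h
    have hjl : j ≠ l := by
      rintro rfl
      exact h24 (dn_inj hz2.2 hz'.2 (hx₃.symm.trans hx₃'))
    have hel : z.1 l = 2 := by
      have h1 : x₃.1 l = z.1 l := by
        rw [hx₃]; unfold dn; simp only
        rw [Function.update_of_ne hjl.symm]
      have h2 : x₃.1 l = 2 := by
        rw [hx₃']; unfold dn; simp only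
        rw [Function.update_self]
      rw [← h1, h2]
    have hil : i ≠ l := by
      rintro rfl
      rw [hz.2] at hel
      exact absurd hel (by decide)
    have e3 := bp_dn hz2.2
    rw [← hx₃] at e3
    have e4 := bp_opp_dn hz'.2 hx₃'
    have e5 : WW x₃.1 = WW z.1 + ww j := by rw [hx₃]; exact WW_dn hz2.2
    rw [e4, e3, e5]
    simp only
    rcases hx₁ with hx₁ | hx₁
    · rw [hx₁, bp_up hz.2]
      exact sep_num (Or.inl rfl) (Or.inr rfl) (fun _ => by norm_num) hil hjl
    · rw [hx₁, bp_dn hz.2]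
      apply sep_num (Or.inr rfl) (Or.inr rfl) _ hil hjl
      rintro rfl
      exact absurd (hx₁.trans hx₃.symm) h13

end Pool.Agent.Helper35.Tern
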