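import Mathlib
import Pool.Agent.Helper35.U4
import Pool.Agent.Helper35.T5

set_option autoImplicit false
set_option linter.unusedSectionVars false

open Filter

namespace Pool.Agent.Helper35.Tern

open Pool.Agent.CollTriples Pool.Agent.Helper35.Coll

variable {L : ℕ}

/-- the index set -/
noncomputable def idx (L : ℕ) (K : ℤ) : Finset (Vtx L) := Finset.univ ×ˢ Finset.Ico (-K) (2 * K)

lemma mem_idx {K : ℤ} {w : Vtx L} : w ∈ idx L K ↔ -K ≤ w.2 ∧ w.2 < 2 * K := by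
  unfold idx
  simp

lemma Sep.disjoint {p q r s : ℝ × ℝ} (h : Sep p q r s) {x : ℝ × ℝ} (h1 : x ∈ segment ℝ p q)
    (h2 : x ∈ segment ℝ r s) : False := by
  rw [segment_eq_image'] at h1 h2
  obtain ⟨a, ⟨ha0, ha1⟩, ha⟩ := h1
  obtain ⟨b, ⟨hb0, hb1⟩, hb⟩ := h2
  simp only at ha hb
  have hx1 := congrArg Prod.fst ha
  have hx2 := congrArg Prod.snd ha
  have hy1 := congrArg Prod.fst hb
  have hy2 := congrArg Prod.snd hb
  simp only [Prod.fst_add, Prod.snd_add, Prod.fst_sub, Prod.snd_sub, Prod.smul_fst, Prod.smul_snd,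
    smul_eq_mul] at hx1 hx2 hy1 hy2
  rcases h with h | h
  · have e : (1 - b) * orient p q r + b * orient p q s = 0 := by
      unfold orient
      have e1 : p.1 + a * (q.1 - p.1) = r.1 + b * (s.1 - r.1) := hx1.trans hy1.symm
      have e2 : p.2 + a * (q.2 - p.2) = r.2 + b * (s.2 - r.2) := hx2.trans hy2.symm
      linear_combination (q.2 - p.2) * e1 - (q.1 - p.1) * e2
    rcases pos_and_pos_or_neg_and_neg_of_mul_pos h with ⟨k1, k2⟩ | ⟨k1, k2⟩
    · nlinarith [mul_nonneg (sub_nonneg.mpr hb1) k1.le, mul_nonneg hb0 k2.le]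
    · nlinarith [mul_nonneg (sub_nonneg.mpr hb1) (neg_pos.mpr k1).le, mul_nonneg hb0 (neg_pos.mpr k2).le]
  · have e : (1 - a) * orient r s p + a * orient r s q = 0 := by
      unfold orient
      have e1 : p.1 + a * (q.1 - p.1) = r.1 + b * (s.1 - r.1) := hx1.trans hy1.symm
      have e2 : p.2 + a * (q.2 - p.2) = r.2 + b * (s.2 - r.2) := hx2.trans hy2.symm
      linear_combination (s.1 - r.1) * e2 - (s.2 - r.2) * e1
    rcases pos_and_pos_or_neg_and_neg_of_mul_pos h with ⟨k1, k2⟩ | ⟨k1, k2⟩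
    · nlinarith [mul_nonneg (sub_nonneg.mpr ha1) k1.le, mul_nonneg ha0 k2.le]
    · nlinarith [mul_nonneg (sub_nonneg.mpr ha1) (neg_pos.mpr k1).le, mul_nonneg ha0 (neg_pos.mpr k2).le]

/-- the total of a vertex -/
def tot (w : Vtx L) : ZMod 3 := ∑ i, w.1 i

lemma Des.tots {z b a : Vtx L} (h : Des z b a) : tot z = 0 ∧ tot b = 1 ∧ tot a = 2 := by
  obtain ⟨l, hM, rfl, rfl⟩ := h
  exact ⟨hM.1, sum_up hM, sum_dn hM⟩

lemma tot_ne_of_forced {w₁ w₂ w₃ : Vtx L} (h : Forced w₁ w₂ w₃) (h12 : w₁ ≠ w₂) (h13 : w₁ ≠ w₃)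
    (h23 : w₂ ≠ w₃) : tot w₁ ≠ tot w₂ := by
  rcases des_of_forced_of_ne h h12 h13 h23 with h | h | h | h | h | h <;>
  · obtain ⟨e1, e2, e3⟩ := h.tots
    simp only [e1, e2, e3]
    decide

lemma four_zmod : ∀ A B C D : ZMod 3, ¬ (A ≠ B ∧ A ≠ C ∧ A ≠ D ∧ B ≠ C ∧ B ≠ D ∧ C ≠ D) := by
  decide

/-- the positions have all the required properties -/
structure GoodPos (I : Finset (Vtx L)) (p : Vtx L → ℝ × ℝ) : Prop where
  mid : ∀ w l, Mid l w → p (up l w) + p (dn l w) = (2 : ℝ) • p w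
  inj : ∀ w₁ ∈ I, ∀ w₂ ∈ I, w₁ ≠ w₂ → p w₁ ≠ p w₂
  gen : ∀ w₁ ∈ I, ∀ w₂ ∈ I, ∀ w₃ ∈ I, ¬ Forced w₁ w₂ w₃ → orient (p w₁) (p w₂) (p w₃) ≠ 0
  sep : ∀ w₁ ∈ I, ∀ w₂ ∈ I, ∀ w₃ ∈ I, ∀ w₄ ∈ I, Sep (bp w₁) (bp w₂) (bp w₃) (bp w₄) →
      Sep (p w₁) (p w₂) (p w₃) (p w₄)

variable {I : Finset (Vtx L)} {p : Vtx L → ℝ × ℝ}

lemma GoodPos.inj' (hp : GoodPos I p) {w₁ w₂ : Vtx L} (h1 : w₁ ∈ I) (h2 : w₂ ∈ I)
    (h : p w₁ = p w₂) : w₁ = w₂ := by
  by_contra hne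
  exact hp.inj w₁ h1 w₂ h2 hne h

lemma GoodPos.forced (hp : GoodPos I p) {w₁ w₂ w₃ : Vtx L} (h1 : w₁ ∈ I) (h2 : w₂ ∈ I) (h3 : w₃ ∈ I)
    (h : Collinear ℝ ({p w₁, p w₂, p w₃} : Set (ℝ × ℝ))) : Forced w₁ w₂ w₃ := by
  by_contra hF
  exact hp.gen w₁ h1 w₂ h2 w₃ h3 hF (det_of_collinear h)

lemma GoodPos.noFour (hp : GoodPos I p) : NoFourCollinear (by classical exact I.image p) := by
  classical
  intro S hS hcard hcol
  have hS' : ∀ x ∈ S, ∃ w ∈ I, p w = x := by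
    intro x hx
    have := hS hx
    rwa [Finset.mem_image] at this
  obtain ⟨x, S1, hx, hS1, hc1⟩ := Finset.card_eq_succ.mp hcard
  obtain ⟨y, z, t, hyz, hyt, hzt, hS3⟩ := Finset.card_eq_three.mp hc1
  have mx : x ∈ S := by rw [← hS1]; simp
  have my : y ∈ S := by rw [← hS1, hS3]; simp
  have mz : z ∈ S := by rw [← hS1, hS3]; simp
  have mt : t ∈ S := by rw [← hS1, hS3]; simp
  have hxy : x ≠ y := by rintro rfl; apply hx; rw [hS3]; simp
  have hxz : x ≠ z := by rintro rfl; apply hx; rw [hS3]; simp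
  have hxt : x ≠ t := by rintro rfl; apply hx; rw [hS3]; simp
  obtain ⟨a, ha, rfl⟩ := hS' x mx
  obtain ⟨b, hb, rfl⟩ := hS' y my
  obtain ⟨c, hc, rfl⟩ := hS' z mz
  obtain ⟨d, hd, rfl⟩ := hS' t mt
  have ne_of : ∀ {u v : Vtx L}, p u ≠ p v → u ≠ v := fun h h' => h (by rw [h'])
  have key : ∀ u v w, u ∈ I → v ∈ I → w ∈ I → p u ∈ S → p v ∈ S → p w ∈ S → p u ≠ p v → p u ≠ p w →
      p v ≠ p w → tot u ≠ tot v := by
    intro u v w hu hv hw mu mv mw huv huw hvw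
    apply tot_ne_of_forced (hp.forced hu hv hw _) (ne_of huv) (ne_of huw) (ne_of hvw)
    apply hcol.subset
    intro q hq
    simp only [Set.mem_insert_iff, Set.mem_singleton_iff] at hq
    rcases hq with rfl | rfl | rfl <;> assumption
  have k1 := key a b c ha hb hc mx my mz hxy hxz hyz
  have k2 := key a c b ha hc hb mx mz my hxz hxy hyz.symm
  have k3 := key a d b ha hd hb mx mt my hxt hxy hyt.symm
  have k4 := key b c a hb hc ha my mz mx hyz hxy.symm hxz.symm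
  have k5 := key b d a hb hd ha my mt mx hyt hxy.symm hxt.symm
  have k6 := key c d a hc hd ha mz mt mx hzt hxz.symm hxt.symm
  exact four_zmod _ _ _ _ ⟨k1, k2, k3, k4, k5, k6⟩

lemma GoodPos.sbtw (hp : GoodPos I p) {z b a : Vtx L} (h : Des z b a) (hz : z ∈ I) (hb : b ∈ I)
    (ha : a ∈ I) : Sbtw ℝ (p b) (p z) (p a) := by
  have hd : ∃ l, Mid l z ∧ b = up l z ∧ a = dn l z := h
  obtain ⟨l, hM, rfl, rfl⟩ := hd
  obtain ⟨e1, e2, e3⟩ := h.tots
  have h1 : z ≠ up l z := by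
    intro he
    have := congrArg tot he
    rw [e1, e2] at this
    exact absurd this (by decide)
  have h2 : z ≠ dn l z := by
    intro he
    have := congrArg tot he
    rw [e1, e3] at this
    exact absurd this (by decide)
  refine ⟨?_, hp.inj z hz _ hb h1, hp.inj z hz _ ha h2⟩
  have hm := hp.mid z l hM
  refine ⟨1 / 2, ⟨by norm_num, by norm_num⟩, ?_⟩
  rw [AffineMap.lineMap_apply_module]
  have h3 : (1 - (1 / 2 : ℝ)) • p (up l z) + (1 / 2 : ℝ) • p (dn l z) =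
      (1 / 2 : ℝ) • (p (up l z) + p (dn l z)) := by
    rw [smul_add]; norm_num
  rw [h3, hm, smul_smul]
  norm_num

lemma GoodPos.mid_of_sbtw (hp : GoodPos I p) {g₁ g₂ g₃ : Vtx L} (h1 : g₁ ∈ I) (h2 : g₂ ∈ I)
    (h3 : g₃ ∈ I) (h : Sbtw ℝ (p g₁) (p g₂) (p g₃)) : Des g₂ g₁ g₃ ∨ Des g₂ g₃ g₁ := by
  have ne_of : ∀ {u v : Vtx L}, p u ≠ p v → u ≠ v := fun h h' => h (by rw [h'])
  have hF := hp.forced h1 h2 h3 h.wbtw.collinear
  rcases des_of_forced_of_ne hF (ne_of h.2.1.symm) (ne_of h.left_ne_right) (ne_of h.2.2)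
    with k | k | k | k | k | k
  · exact absurd (hp.sbtw k h1 h2 h3).wbtw h.not_swap_left
  · exact absurd (hp.sbtw k h1 h3 h2).symm.wbtw h.not_swap_left
  · exact Or.inl k
  · exact Or.inr k
  · exact absurd (hp.sbtw k h3 h1 h2).wbtw h.not_swap_right
  · exact absurd (hp.sbtw k h3 h2 h1).symm.wbtw h.not_swap_right

/-- outer vertex over a middle vertex -/
def Outer (x z : Vtx L) : Prop := ∃ l, Mid l z ∧ (x = up l z ∨ x = dn l z)

lemma Outer.tot_ne {x z : Vtx L} (h : Outer x z) : tot x ≠ 0 := by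
  obtain ⟨l, hM, rfl | rfl⟩ := h
  · rw [show tot (up l z) = 1 from sum_up hM]; decide
  · rw [show tot (dn l z) = 2 from sum_dn hM]; decide

lemma Outer.tot_mid {x z : Vtx L} (h : Outer x z) : tot z = 0 := by
  obtain ⟨l, hM, _⟩ := h
  exact hM.1

lemma GoodPos.adj (hp : GoodPos I p) {x y : ℝ × ℝ}
    (h : (graphG (by classical exact I.image p)).Adj x y) :
    ∃ g ∈ I, ∃ g' ∈ I, p g = x ∧ p g' = y ∧ (Outer g g' ∨ Outer g' g) := by
  classical
  obtain ⟨hx, hy, c, hc, h⟩ := h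
  rw [Finset.mem_image] at hx hy hc
  obtain ⟨gx, hgx, rfl⟩ := hx
  obtain ⟨gy, hgy, rfl⟩ := hy
  obtain ⟨gc, hgc, rfl⟩ := hc
  refine ⟨gx, hgx, gy, hgy, rfl, rfl, ?_⟩
  rcases h with h | h
  · left
    rcases hp.mid_of_sbtw hgx hgy hgc h with ⟨l, hM, k1, k2⟩ | ⟨l, hM, k1, k2⟩
    · exact ⟨l, hM, Or.inl k1⟩
    · exact ⟨l, hM, Or.inr k2⟩
  · right
    rcases hp.mid_of_sbtw hgy hgx hgc h with ⟨l, hM, k1, k2⟩ | ⟨l, hM, k1, k2⟩
    · exact ⟨l, hM, Or.inl k1⟩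
    · exact ⟨l, hM, Or.inr k2⟩

lemma GoodPos.noPath (hp : GoodPos I p) :
    ¬ HasSelfIntersectingPath (by classical exact I.image p) := by
  classical
  rintro ⟨x₁, x₂, x₃, x₄, h12, h13, h14, h23, h24, h34, a12, a23, a34, q, hq1, hq2⟩
  obtain ⟨g₁, m1, g₂, m2, rfl, rfl, o12⟩ := hp.adj a12
  obtain ⟨g₂', m2', g₃, m3, e2, rfl, o23⟩ := hp.adj a23
  obtain rfl := hp.inj' m2' m2 e2
  obtain ⟨g₃', m3', g₄, m4, e3, rfl, o34⟩ := hp.adj a34
  obtain rfl := hp.inj' m3' m3 e3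
  have ne_of : ∀ {u v : Vtx L}, p u ≠ p v → u ≠ v := fun h h' => h (by rw [h'])
  rcases o23 with o23 | o23
  · -- middle vertex is the third
    have k12 : Outer g₂' g₁ := by
      rcases o12 with o | o
      · exact absurd o.tot_mid o23.tot_ne
      · exact o
    have k34 : Outer g₄ g₃' := by
      rcases o34 with o | o
      · exact absurd o23.tot_mid o.tot_ne
      · exact o
    obtain ⟨i, hi, ei⟩ := k34
    obtain ⟨j, hj, ej⟩ := o23
    obtain ⟨l, hl, el⟩ := k12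
    have hs := hp.sep g₄ m4 g₃' m3' g₂' m2' g₁ m1
      (sep_path hi ei hj ej hl el (ne_of h24.symm) (ne_of h13.symm))
    exact hs.disjoint (x := q) (by rw [segment_symm]; exact hq2) (by rw [segment_symm]; exact hq1)
  · have k12 : Outer g₁ g₂' := by
      rcases o12 with o | o
      · exact o
      · exact absurd o23.tot_mid o.tot_ne
    have k34 : Outer g₃' g₄ := by
      rcases o34 with o | o
      · exact o
      · exact absurd o.tot_mid o23.tot_ne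
    obtain ⟨i, hi, ei⟩ := k12
    obtain ⟨j, hj, ej⟩ := o23
    obtain ⟨l, hl, el⟩ := k34
    have hs := hp.sep g₁ m1 g₂' m2' g₃' m3' g₄ m4
      (sep_path hi ei hj ej hl el (ne_of h13) (ne_of h24))
    exact hs.disjoint (x := q) hq1 hq2

end Pool.Agent.Helper35.Tern
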