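import Mathlib
import Pool.Agent.Helper35.U5

set_option autoImplicit false
set_option linter.unusedSectionVars false

open Filter

namespace Pool.Agent.Helper35.Tern

open Pool.Agent.CollTriples Pool.Agent.Helper35.Coll

/-- bound for the shifts -/
lemma abs_kap_le {L : ℕ} (l : Fin L) (e : Fin L → ZMod 3) : |kap l e| ≤ 128 ^ L := by
  unfold kap
  rw [abs_mul]
  have h1 : |(16 : ℤ) ^ (l : ℕ)| ≤ 16 ^ L := by
    rw [abs_of_nonneg (by positivity)]
    exact pow_le_pow_right₀ (by norm_num) l.2.le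
  have hwt : ∀ m : Fin L, 0 ≤ wt m ∧ wt m ≤ 4 ^ L := by
    intro m
    unfold wt
    exact ⟨by positivity, pow_le_pow_right₀ (by norm_num) (Nat.sub_le _ _)⟩
  have h2 : |(∑ m ∈ Finset.univ.erase l, if e m = 0 then 0 else wt m) - wt l| ≤ L * 4 ^ L := by
    have h3 : (∑ m ∈ Finset.univ.erase l, if e m = 0 then 0 else wt m) + wt l ≤ L * 4 ^ L := by
      have h4 : (∑ m ∈ Finset.univ.erase l, if e m = 0 then 0 else wt m) ≤
          ∑ m ∈ Finset.univ.erase l, wt m := by
        apply Finset.sum_le_sum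
        intro m _
        split_ifs
        · exact (hwt m).1
        · exact le_rfl
      have h5 : (∑ m ∈ Finset.univ.erase l, wt m) + wt l = ∑ m, wt m :=
        Finset.sum_erase_add _ _ (Finset.mem_univ l)
      have h6 : ∑ m, wt m ≤ ∑ _m : Fin L, (4 : ℤ) ^ L := Finset.sum_le_sum (fun m _ => (hwt m).2)
      have h7 : ∑ _m : Fin L, (4 : ℤ) ^ L = L * 4 ^ L := by simp
      linarith
    have h8 : 0 ≤ ∑ m ∈ Finset.univ.erase l, if e m = 0 then 0 else wt m := by
      apply Finset.sum_nonneg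
      intro m _
      split_ifs
      · exact le_rfl
      · exact (hwt m).1
    have h9 := (hwt l).1
    rw [abs_le]
    constructor
    · linarith
    · linarith
  have h10 : (L : ℤ) ≤ 2 ^ L := by
    have := Nat.lt_two_pow_self (n := L)
    exact_mod_cast this.le
  calc |(16 : ℤ) ^ (l : ℕ)| * |(∑ m ∈ Finset.univ.erase l, if e m = 0 then 0 else wt m) - wt l|
      ≤ 16 ^ L * (L * 4 ^ L) := mul_le_mul h1 h2 (abs_nonneg _) (by positivity)
    _ ≤ 16 ^ L * (2 ^ L * 4 ^ L) := by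
        apply mul_le_mul_of_nonneg_left _ (by positivity)
        exact mul_le_mul_of_nonneg_right h10 (by positivity)
    _ = 128 ^ L := by
        rw [← mul_pow, ← mul_pow]; norm_num

section count

variable {M : ℕ}

/-- sign vectors with a zero at `l` and total zero -/
def zvec (l : Fin (M + 2)) (g : Fin M → ZMod 3) : Fin (M + 2) → ZMod 3 :=
  l.insertNth (α := fun _ => ZMod 3) 0 (Fin.cons (α := fun _ => ZMod 3) (-∑ i, g i) g)

lemma zvec_self (l : Fin (M + 2)) (g : Fin M → ZMod 3) : zvec l g l = 0 := by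
  simp [zvec]

lemma sum_zvec (l : Fin (M + 2)) (g : Fin M → ZMod 3) : ∑ i, zvec l g i = 0 := by
  rw [Fin.sum_univ_succAbove _ l, zvec_self, zero_add]
  have : ∀ i, zvec l g (l.succAbove i) = (Fin.cons (α := fun _ => ZMod 3) (-∑ i, g i) g : Fin (M + 1) → ZMod 3) i := by
    intro i
    simp [zvec]
  simp only [this]
  rw [Fin.sum_univ_succ]
  simp

lemma zvec_inj {l : Fin (M + 2)} {g g' : Fin M → ZMod 3} (h : zvec l g = zvec l g') : g = g' := by
  funext i
  have := congrFun h (l.succAbove i.succ)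
  simpa [zvec] using this

/-- middle vertices -/
def zv (l : Fin (M + 2)) (g : Fin M → ZMod 3) (k : ℤ) : Vtx (M + 2) := (zvec l g, k)

lemma mid_zv (l : Fin (M + 2)) (g : Fin M → ZMod 3) (k : ℤ) : Mid l (zv l g k) :=
  ⟨sum_zvec l g, zvec_self l g⟩

variable {p : Vtx (M + 2) → ℝ × ℝ}

/-- the collinear triple attached to data -/
noncomputable def tri (p : Vtx (M + 2) → ℝ × ℝ) (d : (Fin (M + 2) × (Fin M → ZMod 3)) × ℤ) :
    Finset (ℝ × ℝ) :=
  {p (up d.1.1 (zv d.1.1 d.1.2 d.2)), p (zv d.1.1 d.1.2 d.2), p (dn d.1.1 (zv d.1.1 d.1.2 d.2))}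

lemma des_zv (l : Fin (M + 2)) (g : Fin M → ZMod 3) (k : ℤ) :
    Des (zv l g k) (up l (zv l g k)) (dn l (zv l g k)) := ⟨l, mid_zv l g k, rfl, rfl⟩

lemma zv_mem (l : Fin (M + 2)) (g : Fin M → ZMod 3) {k : ℤ} (h0 : 0 ≤ k) (h1 : k < 128 ^ (M + 2)) :
    zv l g k ∈ idx (M + 2) (128 ^ (M + 2)) ∧ up l (zv l g k) ∈ idx (M + 2) (128 ^ (M + 2)) ∧
    dn l (zv l g k) ∈ idx (M + 2) (128 ^ (M + 2)) := by
  have hk := abs_le.mp (abs_kap_le l (zvec l g))
  simp only [mem_idx, zv, up, dn]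
  refine ⟨⟨?_, ?_⟩, ⟨?_, ?_⟩, ⟨?_, ?_⟩⟩ <;> linarith [hk.1, hk.2]

lemma tri_mem (hp : GoodPos (idx (M + 2) (128 ^ (M + 2))) p) (d : (Fin (M + 2) × (Fin M → ZMod 3)) × ℤ)
    (h0 : 0 ≤ d.2) (h1 : d.2 < 128 ^ (M + 2)) :
    tri p d ∈ collinearTriples (by classical exact (idx (M + 2) (128 ^ (M + 2))).image p) := by
  classical
  obtain ⟨⟨l, g⟩, k⟩ := d
  simp only at h0 h1
  obtain ⟨mz, mu, md⟩ := zv_mem l g h0 h1
  have hs := hp.sbtw (des_zv l g k) mz mu md
  unfold collinearTriples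
  rw [Finset.mem_filter, Finset.mem_powersetCard]
  refine ⟨⟨?_, ?_⟩, ?_⟩
  · intro x hx
    unfold tri at hx
    simp only [Finset.mem_insert, Finset.mem_singleton] at hx
    rw [Finset.mem_image]
    rcases hx with rfl | rfl | rfl
    · exact ⟨_, mu, rfl⟩
    · exact ⟨_, mz, rfl⟩
    · exact ⟨_, md, rfl⟩
  · unfold tri
    rw [Finset.card_eq_three]
    exact ⟨_, _, _, hs.2.1.symm, hs.left_ne_right, hs.2.2, rfl⟩
  · unfold tri
    simp only [Finset.coe_insert, Finset.coe_singleton]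
    exact hs.wbtw.collinear

lemma tri_inj (hp : GoodPos (idx (M + 2) (128 ^ (M + 2))) p) {d d' : (Fin (M + 2) × (Fin M → ZMod 3)) × ℤ}
    (h0 : 0 ≤ d.2) (h1 : d.2 < 128 ^ (M + 2)) (h0' : 0 ≤ d'.2) (h1' : d'.2 < 128 ^ (M + 2))
    (heq : tri p d = tri p d') : d = d' := by
  classical
  obtain ⟨⟨l, g⟩, k⟩ := d
  obtain ⟨⟨l', g'⟩, k'⟩ := d'
  simp only at h0 h1 h0' h1'
  obtain ⟨mz, mu, md⟩ := zv_mem l g h0 h1
  obtain ⟨mz', mu', md'⟩ := zv_mem l' g' h0' h1'
  obtain ⟨t1, t2, t3⟩ := (des_zv l g k).tots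
  obtain ⟨t1', t2', t3'⟩ := (des_zv l' g' k').tots
  have hz : p (zv l g k) ∈ tri p ((l', g'), k') := by
    rw [← heq]; unfold tri; simp
  have hu : p (up l (zv l g k)) ∈ tri p ((l', g'), k') := by
    rw [← heq]; unfold tri; simp
  unfold tri at hz hu
  simp only [Finset.mem_insert, Finset.mem_singleton] at hz hu
  have hz' : zv l g k = zv l' g' k' := by
    rcases hz with hz | hz | hz
    · have := congrArg tot (hp.inj' mz mu' hz)
      rw [t1, t2'] at this
      exact absurd this (by decide)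
    · exact hp.inj' mz mz' hz
    · have := congrArg tot (hp.inj' mz md' hz)
      rw [t1, t3'] at this
      exact absurd this (by decide)
  have hu' : up l (zv l g k) = up l' (zv l' g' k') := by
    rcases hu with hu | hu | hu
    · exact hp.inj' mu mu' hu
    · have := congrArg tot (hp.inj' mu mz' hu)
      rw [t2, t1'] at this
      exact absurd this (by decide)
    · have := congrArg tot (hp.inj' mu md' hu)
      rw [t2, t3'] at this
      exact absurd this (by decide)
  have hl : l = l' := by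
    by_contra hne
    have h2 : (up l (zv l g k)).1 l = 1 := by unfold up; simp
    have h3 : (up l' (zv l' g' k')).1 l = 0 := by
      rw [← hz']
      unfold up
      simp only
      rw [Function.update_of_ne hne]
      exact zvec_self l g
    rw [hu', h3] at h2
    exact absurd h2 (by decide)
  subst hl
  have hg : g = g' := zvec_inj (congrArg Prod.fst hz')
  have hk : k = k' := congrArg Prod.snd hz'
  rw [hg, hk]

end count

/-- the basic configurations -/
theorem base2 (M : ℕ) : ∃ P : Finset (ℝ × ℝ), P.card ≤ 3 * 384 ^ (M + 2) ∧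
    NoFourCollinear P ∧ ¬ HasSelfIntersectingPath P ∧
    (M + 2) * 384 ^ (M + 2) ≤ 9 * (collinearTriples P).card := by
  classical
  obtain ⟨p, g1, g2, g3, g4⟩ := exists_pos (idx (M + 2) (128 ^ (M + 2)))
  have hp : GoodPos (idx (M + 2) (128 ^ (M + 2))) p := ⟨g1, g2, g3, g4⟩
  refine ⟨(idx (M + 2) (128 ^ (M + 2))).image p, ?_, hp.noFour, hp.noPath, ?_⟩
  · refine Finset.card_image_le.trans ?_
    unfold idx
    rw [Finset.card_product, Int.card_Ico, Finset.card_univ]
    simp only [Fintype.card_fun, ZMod.card, Fintype.card_fin]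
    have h1 : (2 * (128 : ℤ) ^ (M + 2) - -128 ^ (M + 2)).toNat = 3 * 128 ^ (M + 2) := by
      have : (2 * (128 : ℤ) ^ (M + 2) - -128 ^ (M + 2)) = ((3 * 128 ^ (M + 2) : ℕ) : ℤ) := by
        push_cast; ring
      rw [this, Int.toNat_natCast]
    rw [h1]
    have h2 : (384 : ℕ) ^ (M + 2) = 3 ^ (M + 2) * 128 ^ (M + 2) := by
      rw [← mul_pow]; norm_num
    rw [h2]
    apply le_of_eq
    ring
  · have hcount : ((Finset.univ : Finset (Fin (M + 2) × (Fin M → ZMod 3))) ×ˢ
        (Finset.Ico (0 : ℤ) (128 ^ (M + 2)))).card ≤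
        (collinearTriples ((idx (M + 2) (128 ^ (M + 2))).image p)).card := by
      apply Finset.card_le_card_of_injOn (fun d => tri p d)
      · intro d hd
        simp only [Finset.coe_product, Set.mem_prod, Finset.mem_coe, Finset.mem_univ, true_and,
          Finset.mem_Ico] at hd
        exact tri_mem hp d hd.1 hd.2
      · intro d hd d' hd' heq
        simp only [Finset.coe_product, Set.mem_prod, Finset.mem_coe, Finset.mem_univ, true_and,
          Finset.mem_Ico] at hd hd'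
        exact tri_inj hp hd.1 hd.2 hd'.1 hd'.2 heq
    rw [Finset.card_product, Int.card_Ico, Finset.card_univ] at hcount
    simp only [Fintype.card_prod, Fintype.card_fun, ZMod.card, Fintype.card_fin] at hcount
    have h1 : ((128 : ℤ) ^ (M + 2) - 0).toNat = 128 ^ (M + 2) := by
      have : ((128 : ℤ) ^ (M + 2) - 0) = ((128 ^ (M + 2) : ℕ) : ℤ) := by
        push_cast; ring
      rw [this, Int.toNat_natCast]
    rw [h1] at hcount
    have h2 : (384 : ℕ) ^ (M + 2) = 9 * (3 ^ M * 128 ^ (M + 2)) := by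
      have : (384 : ℕ) ^ (M + 2) = 3 ^ (M + 2) * 128 ^ (M + 2) := by
        rw [← mul_pow]; norm_num
      rw [this, pow_add 3 M 2]
      ring
    rw [h2]
    calc (M + 2) * (9 * (3 ^ M * 128 ^ (M + 2))) = 9 * ((M + 2) * 3 ^ M * 128 ^ (M + 2)) := by ring
      _ ≤ _ := Nat.mul_le_mul_left _ hcount

lemma nice_of_base2 (M n : ℕ) (hn : 3 * 384 ^ (M + 2) ≤ n) :
    ∃ T, Nice n T ∧ n * (M + 2) ≤ 54 * T := by
  obtain ⟨P, h1, h2, h3, h4⟩ := base2 M
  have hN : Nice P.card (collinearTriples P).card := ⟨P, rfl, h2, h3, le_rfl⟩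
  set B := 3 * 384 ^ (M + 2) with hB
  have hBpos : 0 < B := by positivity
  have hk := nice_mul hN (n / B)
  have hle : n / B * P.card ≤ n :=
    (Nat.mul_le_mul_left _ h1).trans (Nat.div_mul_le_self n B)
  have hpad := nice_add hk (nice_pad (n - n / B * P.card))
  rw [Nat.add_sub_cancel' hle, Nat.add_zero] at hpad
  refine ⟨_, hpad, ?_⟩
  have hk1 : 1 ≤ n / B := (Nat.one_le_div_iff hBpos).mpr hn
  have hk2 : n < (n / B + 1) * B := by
    have h7 := Nat.div_add_mod n B
    have h8 := Nat.mod_lt n hBpos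
    nlinarith
  have h5 : (M + 2) * B ≤ 27 * (collinearTriples P).card := by
    have : (M + 2) * B = 3 * ((M + 2) * 384 ^ (M + 2)) := by rw [hB]; ring
    omega
  have h6 : n ≤ 2 * (n / B) * B := by nlinarith
  calc n * (M + 2) ≤ (2 * (n / B) * B) * (M + 2) := Nat.mul_le_mul_right _ h6
    _ = 2 * (n / B) * ((M + 2) * B) := by ring
    _ ≤ 2 * (n / B) * (27 * (collinearTriples P).card) := Nat.mul_le_mul_left _ h5
    _ = 54 * (n / B * (collinearTriples P).card) := by ring

/-- the asymptotic form -/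
lemma nice_asymptotic2 : ∀ᶠ n : ℕ in atTop, ∃ T, Nice n T ∧
    (1 / 1000 : ℝ) * (n * Real.log n) ≤ (T : ℝ) := by
  have hL : Tendsto (fun n : ℕ => Real.log (n : ℝ)) atTop atTop :=
    Real.tendsto_log_atTop.comp tendsto_natCast_atTop_atTop
  filter_upwards [hL.eventually_ge_atTop 24, eventually_gt_atTop 0,
    eventually_ge_atTop (384 ^ 4)] with n h1 hn0 hbig
  set L := Real.log (n : ℝ) with hLdef
  set q := Nat.log 384 n with hq
  have hq4 : 4 ≤ q := by
    rw [hq]
    exact (Nat.le_log_iff_pow_le (by norm_num) (by omega)).mpr hbig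
  obtain ⟨M, hM⟩ : ∃ M, q = M + 3 := ⟨q - 3, by omega⟩
  have hpow : 384 ^ q ≤ n := Nat.pow_log_le_self 384 (by omega)
  have hpow2 : n < 384 ^ (q + 1) := Nat.lt_pow_succ_log_self (by norm_num) n
  have hsize : 3 * 384 ^ (M + 2) ≤ n := by
    rw [hM] at hpow
    calc 3 * 384 ^ (M + 2) ≤ 384 * 384 ^ (M + 2) := Nat.mul_le_mul_right _ (by norm_num)
      _ = 384 ^ (M + 3) := by ring
      _ ≤ n := hpow
  obtain ⟨T, hT, hnT⟩ := nice_of_base2 M n hsize
  refine ⟨T, hT, ?_⟩
  have hlog : L ≤ (q + 1) * Real.log 384 := by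
    have h2 : (n : ℝ) ≤ 384 ^ (q + 1) := by exact_mod_cast hpow2.le
    have h3 := Real.log_le_log (by exact_mod_cast hn0) h2
    rw [Real.log_pow] at h3
    push_cast at h3
    exact h3
  have h384 : Real.log 384 ≤ 6 := by
    have h4 : Real.log 384 ≤ Real.log (Real.exp 6) := by
      apply Real.log_le_log (by norm_num)
      have h5 : Real.exp 6 = Real.exp 1 ^ 6 := by
        rw [← Real.exp_nat_mul]; norm_num
      rw [h5]
      have h6 := Real.exp_one_gt_d9
      calc (384 : ℝ) ≤ 2.7182818283 ^ 6 := by norm_num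
        _ ≤ Real.exp 1 ^ 6 := pow_le_pow_left₀ (by norm_num) h6.le 6
    rwa [Real.log_exp] at h4
  have hqM : (q : ℝ) = M + 3 := by exact_mod_cast hM
  have h7 : L ≤ 6 * ((M : ℝ) + 4) := by
    calc L ≤ (q + 1) * Real.log 384 := hlog
      _ ≤ (q + 1) * 6 := mul_le_mul_of_nonneg_left h384 (by positivity)
      _ = 6 * ((M : ℝ) + 4) := by rw [hqM]; ring
  have h8 : L / 12 ≤ (M : ℝ) + 2 := by linarith
  have hnT' : (n : ℝ) * ((M : ℝ) + 2) ≤ 54 * T := by exact_mod_cast hnT
  have hn : (0 : ℝ) < n := by exact_mod_cast hn0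
  have h9 : (n : ℝ) * (L / 12) ≤ 54 * T := (mul_le_mul_of_nonneg_left h8 hn.le).trans hnT'
  have h10 : 0 ≤ (n : ℝ) * L := by
    apply mul_nonneg hn.le
    linarith
  linarith

end Pool.Agent.Helper35.Tern
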