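import Mathlib

set_option autoImplicit false
set_option linter.unusedSectionVars false

namespace Pool.Agent.Helper35.Upper

/-! ### Consecutive elements in classes -/

section next

variable {α β : Type*} [DecidableEq β] (E : Finset α) (κ : α → β) (f : α → ℝ)

/-- elements of the class of `e` with a larger value -/
noncomputable def above (e : α) : Finset α := by
  classical exact E.filter (fun e' => κ e' = κ e ∧ f e < f e')

lemma mem_above {e e' : α} : e' ∈ above E κ f e ↔ e' ∈ E ∧ κ e' = κ e ∧ f e < f e' := by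
  classical
  unfold above
  rw [Finset.mem_filter]

/-- the next element of the class of `e` -/
noncomputable def nxt (e : α) : α := by
  classical exact if h : (above E κ f e).Nonempty then
    Classical.choose (Finset.exists_min_image (above E κ f e) f h) else e

variable {E κ f}

lemma nxt_mem {e : α} (h : (above E κ f e).Nonempty) : nxt E κ f e ∈ above E κ f e := by
  classical
  unfold nxt
  rw [dif_pos h]
  exact (Classical.choose_spec (Finset.exists_min_image (above E κ f e) f h)).1

lemma nxt_le {e : α} (h : (above E κ f e).Nonempty) {e' : α} (he' : e' ∈ above E κ f e) :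
    f (nxt E κ f e) ≤ f e' := by
  classical
  unfold nxt
  rw [dif_pos h]
  exact (Classical.choose_spec (Finset.exists_min_image (above E κ f e) f h)).2 e' he'

lemma nxt_inj (hinj : ∀ e ∈ E, ∀ e' ∈ E, κ e = κ e' → f e = f e' → e = e') {e e' : α}
    (he : e ∈ E) (he' : e' ∈ E) (h : (above E κ f e).Nonempty) (h' : (above E κ f e').Nonempty)
    (heq : nxt E κ f e = nxt E κ f e') : e = e' := by
  have m1 := (mem_above E κ f).mp (nxt_mem h)
  have m2 := (mem_above E κ f).mp (nxt_mem h')
  have hκ : κ e = κ e' := by rw [← m1.2.1, heq, m2.2.1]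
  apply hinj e he e' he' hκ
  rcases lt_trichotomy (f e) (f e') with hlt | heq' | hgt
  · exfalso
    have := nxt_le h ((mem_above E κ f).mpr ⟨he', hκ.symm, hlt⟩)
    rw [heq] at this
    linarith [m2.2.2]
  · exact heq'
  · exfalso
    have := nxt_le h' ((mem_above E κ f).mpr ⟨he, hκ, hgt⟩)
    rw [← heq] at this
    linarith [m1.2.2]

lemma card_top (hinj : ∀ e ∈ E, ∀ e' ∈ E, κ e = κ e' → f e = f e' → e = e') (P : Finset β)
    (hP : ∀ e ∈ E, κ e ∈ P) (S : Finset α) (hS : ∀ e ∈ S, e ∈ E ∧ ¬ (above E κ f e).Nonempty) :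
    S.card ≤ P.card := by
  classical
  apply Finset.card_le_card_of_injOn κ
  · intro e he
    exact hP e (hS e he).1
  · intro e he e' he' heq
    obtain ⟨h1, h2⟩ := hS e he
    obtain ⟨h1', h2'⟩ := hS e' he'
    apply hinj e h1 e' h1' heq
    rcases lt_trichotomy (f e) (f e') with hlt | heq' | hgt
    · exact absurd ⟨e', (mem_above E κ f).mpr ⟨h1', heq.symm, hlt⟩⟩ h2
    · exact heq'
    · exact absurd ⟨e, (mem_above E κ f).mpr ⟨h1, heq, hgt⟩⟩ h2'

/-- going down and then up returns to the starting point -/
lemma nxt_prev (hinj : ∀ e ∈ E, ∀ e' ∈ E, κ e = κ e' → f e = f e' → e = e') {g : α} (hg : g ∈ E)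
    (h : (above E κ (fun x => - f x) g).Nonempty) :
    nxt E κ (fun x => - f x) g ∈ E ∧ κ (nxt E κ (fun x => - f x) g) = κ g ∧
    f (nxt E κ (fun x => - f x) g) < f g ∧
    (above E κ f (nxt E κ (fun x => - f x) g)).Nonempty ∧
    nxt E κ f (nxt E κ (fun x => - f x) g) = g := by
  have m1 := (mem_above E κ _).mp (nxt_mem h)
  have m1' : f (nxt E κ (fun x => - f x) g) < f g := by linarith [m1.2.2]
  have hne : (above E κ f (nxt E κ (fun x => - f x) g)).Nonempty :=
    ⟨g, (mem_above E κ f).mpr ⟨hg, m1.2.1.symm, m1'⟩⟩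
  refine ⟨m1.1, m1.2.1, m1', hne, ?_⟩
  have m2 := (mem_above E κ f).mp (nxt_mem hne)
  have l1 := nxt_le hne ((mem_above E κ f).mpr ⟨hg, m1.2.1.symm, m1'⟩)
  apply hinj _ m2.1 g hg (m2.2.1.trans m1.2.1)
  apply le_antisymm l1
  by_contra hcon
  push Not at hcon
  have := nxt_le h ((mem_above E κ (fun x => - f x)).mpr ⟨m2.1, m2.2.1.trans m1.2.1, by linarith⟩)
  linarith [m2.2.2]

end next

/-! ### The logarithmic inequality at one vertex -/

section logs

variable {ι : Type*} (S : Finset ι) (m : ι → ℝ) (o : ι → ℕ)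

/-- prefix sums in the order of `m` -/
noncomputable def pref (i : ι) : ℕ := by
  classical exact ∑ j ∈ S.filter (fun j => m j ≤ m i), o j

theorem log_vertex (hinj : Set.InjOn m S) (ho : ∀ i ∈ S, 1 ≤ o i) :
    ((S.card : ℝ) - 1) * Real.log 4 + ∑ i ∈ S, Real.log (o i) ≤
      ∑ i ∈ S, Real.log (pref S m o i) + Real.log ((∑ i ∈ S, o i : ℕ) : ℝ) := by
  classical
  have hlog4 : 0 ≤ Real.log 4 := Real.log_nonneg (by norm_num)
  revert hinj ho
  refine Finset.induction_on_max_value (motive := fun S => Set.InjOn m (S : Set ι) → (∀ i ∈ S, 1 ≤ o i) →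
    ((S.card : ℝ) - 1) * Real.log 4 + ∑ i ∈ S, Real.log (o i) ≤
      ∑ i ∈ S, Real.log (pref S m o i) + Real.log ((∑ i ∈ S, o i : ℕ) : ℝ)) m S ?_ ?_
  · intro _ _
    simp only [Finset.card_empty, Finset.sum_empty, Nat.cast_zero, Real.log_zero]
    linarith
  · intro a s ha hmax ih hinj ho
    have hinj' : Set.InjOn m (s : Set ι) := hinj.mono (by simp)
    have ho' : ∀ i ∈ s, 1 ≤ o i := fun i hi => ho i (Finset.mem_insert_of_mem hi)
    have hoa : 1 ≤ o a := ho a (Finset.mem_insert_self a s)
    have hlt : ∀ x ∈ s, m x < m a := by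
      intro x hx
      apply lt_of_le_of_ne (hmax x hx)
      intro heq
      have := hinj (by simp [hx]) (by simp) heq
      exact ha (this ▸ hx)
    have hpa : pref (insert a s) m o a = o a + ∑ i ∈ s, o i := by
      unfold pref
      rw [Finset.filter_true_of_mem, Finset.sum_insert ha]
      intro x hx
      rw [Finset.mem_insert] at hx
      rcases hx with rfl | hx
      · exact le_rfl
      · exact hmax x hx
    have hpi : ∀ i ∈ s, pref (insert a s) m o i = pref s m o i := by
      intro i hi
      unfold pref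
      rw [Finset.filter_insert, if_neg (not_le.mpr (hlt i hi))]
    have hsum : ∑ i ∈ s, Real.log (pref (insert a s) m o i) = ∑ i ∈ s, Real.log (pref s m o i) :=
      Finset.sum_congr rfl (fun i hi => by rw [hpi i hi])
    rw [Finset.sum_insert ha, Finset.sum_insert ha, Finset.sum_insert ha, Finset.card_insert_of_notMem ha,
      hpa, hsum]
    rcases Finset.eq_empty_or_nonempty s with rfl | hne
    · simp only [Finset.card_empty, Finset.sum_empty, Nat.cast_zero, add_zero]
      have : 0 ≤ Real.log (o a) := Real.log_nonneg (by exact_mod_cast hoa)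
      push_cast
      linarith
    · have ih' := ih hinj' ho'
      set A : ℕ := ∑ i ∈ s, o i with hA
      have hApos : 1 ≤ A := by
        obtain ⟨x, hx⟩ := hne
        exact (ho' x hx).trans (Finset.single_le_sum (f := o) (fun _ _ => Nat.zero_le _) hx)
      have hAr : (1 : ℝ) ≤ A := by exact_mod_cast hApos
      have hor : (1 : ℝ) ≤ o a := by exact_mod_cast hoa
      have key : Real.log 4 + Real.log (o a) + Real.log A ≤ 2 * Real.log ((o a : ℝ) + A) := by
        have h1 : Real.log 4 + Real.log (o a) + Real.log A = Real.log (4 * o a * A) := by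
          rw [Real.log_mul (by positivity) (by positivity), Real.log_mul (by norm_num) (by positivity)]
        have h2 : 2 * Real.log ((o a : ℝ) + A) = Real.log (((o a : ℝ) + A) ^ 2) := by
          rw [Real.log_pow]; norm_num
        rw [h1, h2]
        apply Real.log_le_log (by positivity)
        nlinarith [sq_nonneg ((o a : ℝ) - A)]
      push_cast
      have : ∑ i ∈ s, Real.log (pref s m o i) + Real.log (A : ℝ) ≥
        ((s.card : ℝ) - 1) * Real.log 4 + ∑ i ∈ s, Real.log (o i) := ih'
      linarith

end logs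

end Pool.Agent.Helper35.Upper
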