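import Mathlib

set_option autoImplicit false
set_option linter.unusedSectionVars false

namespace Pool.Agent.Helper35.Upper

lemma neg_left {a b : ℝ} (ha : 0 < a) (h : a * b < 0) : b < 0 := by
  by_contra hcon
  push Not at hcon
  exact absurd h (not_lt.mpr (mul_nonneg ha.le hcon))

lemma neg_right {a b : ℝ} (hb : 0 < b) (h : a * b < 0) : a < 0 := by
  rw [mul_comm] at h
  exact neg_left hb h

/-- orientation determinant -/
def ori (p q r : ℝ × ℝ) : ℝ := (q.1 - p.1) * (r.2 - p.2) - (q.2 - p.2) * (r.1 - p.1)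

/-- slope of the line through two points -/
noncomputable def slp (p q : ℝ × ℝ) : ℝ := (q.2 - p.2) / (q.1 - p.1)

lemma slp_lt_right {s c d : ℝ × ℝ} (hc : s.1 < c.1) (hd : s.1 < d.1) :
    slp s c < slp s d ↔ 0 < ori s c d := by
  unfold slp ori
  rw [div_lt_div_iff₀ (by linarith) (by linarith)]
  constructor <;> intro h <;> linarith

lemma slp_le_right {s c d : ℝ × ℝ} (hc : s.1 < c.1) (hd : s.1 < d.1) :
    slp s c ≤ slp s d ↔ 0 ≤ ori s c d := by
  unfold slp ori
  rw [div_le_div_iff₀ (by linarith) (by linarith)]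
  constructor <;> intro h <;> linarith

lemma slp_lt_left {z t b : ℝ × ℝ} (hz : z.1 < b.1) (ht : t.1 < b.1) :
    slp t b < slp z b ↔ 0 < ori z b t := by
  unfold slp ori
  rw [div_lt_div_iff₀ (by linarith) (by linarith)]
  constructor <;> intro h <;> linarith

lemma cross {p q r s : ℝ × ℝ} (hA : 0 ≤ ori p q r) (hB : ori p q s ≤ 0) (hC : ori r s p ≤ 0)
    (hD : 0 ≤ ori r s q) (hne : 0 < ori p q r - ori p q s) :
    ∃ X, X ∈ segment ℝ p q ∧ X ∈ segment ℝ r s := by
  set Δ := ori p q r - ori p q s with hΔ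
  have hΔ' : ori r s q - ori r s p = Δ := by
    rw [hΔ]; unfold ori; ring
  refine ⟨r + (ori p q r / Δ) • (s - r), ?_, ?_⟩
  · rw [segment_eq_image']
    refine ⟨-ori r s p / Δ, ⟨by apply div_nonneg <;> linarith, ?_⟩, ?_⟩
    · rw [div_le_one hne]; linarith
    · have key1 : Δ * (r.1 - p.1) + ori p q r * (s.1 - r.1) + ori r s p * (q.1 - p.1) = 0 := by
        rw [hΔ]; unfold ori; ring
      have key2 : Δ * (r.2 - p.2) + ori p q r * (s.2 - r.2) + ori r s p * (q.2 - p.2) = 0 := by
        rw [hΔ]; unfold ori; ring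
      ext
      · simp only [Prod.fst_add, Prod.smul_fst, Prod.fst_sub, smul_eq_mul]
        field_simp
        linarith
      · simp only [Prod.snd_add, Prod.smul_snd, Prod.snd_sub, smul_eq_mul]
        field_simp
        linarith
  · rw [segment_eq_image']
    refine ⟨ori p q r / Δ, ⟨div_nonneg hA hne.le, ?_⟩, rfl⟩
    rw [div_le_one hne]; linarith

lemma geom1 {z b t b' : ℝ × ℝ} (hzb : z.1 < b.1) (htb : t.1 < b.1) (hbb' : b.1 < b'.1)
    (h1 : 0 < ori z b b') (h2 : 0 < ori z b t)
    (hdisj : ∀ X, X ∈ segment ℝ t b → X ∈ segment ℝ z b' → False) :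
    ori z b' t < 0 ∧ z.1 < t.1 := by
  have hB : ori z b' b < 0 := by
    have : ori z b' b = - ori z b b' := by unfold ori; ring
    linarith
  have hC : ori t b z < 0 := by
    have : ori t b z = - ori z b t := by unfold ori; ring
    linarith
  have hD : 0 < ori t b b' := by
    have key : (b.1 - z.1) * ori t b b' = (b.1 - t.1) * ori z b b' + (b'.1 - b.1) * ori z b t := by
      unfold ori; ring
    have h3 : 0 < (b.1 - z.1) * ori t b b' := by
      rw [key]
      have := mul_pos (sub_pos.mpr htb) h1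
      have := mul_pos (sub_pos.mpr hbb') h2
      linarith
    exact (mul_pos_iff_of_pos_left (sub_pos.mpr hzb)).mp h3
  have hA : ori z b' t < 0 := by
    by_contra hcon
    push Not at hcon
    obtain ⟨X, hX1, hX2⟩ := cross hcon hB.le hC.le hD.le (by linarith)
    exact hdisj X hX2 hX1
  refine ⟨hA, ?_⟩
  have key : (t.1 - z.1) * ori z b b' = - (b.1 - z.1) * ori z b' t + (b'.1 - z.1) * ori z b t := by
    unfold ori; ring
  have h3 : 0 < (t.1 - z.1) * ori z b b' := by
    rw [key]
    have k1 : 0 < (b.1 - z.1) * (- ori z b' t) := mul_pos (sub_pos.mpr hzb) (by linarith)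
    have k2 : 0 < (b'.1 - z.1) * ori z b t := mul_pos (by linarith) h2
    linarith
  have := (mul_pos_iff_of_pos_right h1).mp h3
  linarith

lemma geom2 {l b s c : ℝ × ℝ} (hls : l.1 < s.1) (hsb : s.1 < b.1) (hsc : s.1 < c.1)
    (h1 : 0 < ori l b s) (h2 : ori s b c < 0)
    (hdisj : ∀ X, X ∈ segment ℝ l b → X ∈ segment ℝ s c → False) :
    0 < ori l b c ∧ c.1 < b.1 := by
  have hC : ori s c l < 0 := by
    have key : (b.1 - s.1) * ori s c l = (s.1 - l.1) * ori s b c - (c.1 - s.1) * ori l b s := by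
      unfold ori; ring
    have h3 : (b.1 - s.1) * ori s c l < 0 := by
      rw [key]
      have k1 : (s.1 - l.1) * ori s b c < 0 := mul_neg_of_pos_of_neg (sub_pos.mpr hls) h2
      have k2 : 0 < (c.1 - s.1) * ori l b s := mul_pos (sub_pos.mpr hsc) h1
      linarith
    exact neg_left (sub_pos.mpr hsb) h3
  have hD : 0 < ori s c b := by
    have : ori s c b = - ori s b c := by unfold ori; ring
    linarith
  have hB : 0 < ori l b c := by
    by_contra hcon
    push Not at hcon
    obtain ⟨X, hX1, hX2⟩ := cross h1.le hcon hC.le hD.le (by linarith)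
    exact hdisj X hX1 hX2
  refine ⟨hB, ?_⟩
  have key : (c.1 - b.1) * ori l b s = (b.1 - l.1) * ori s b c - (b.1 - s.1) * ori l b c := by
    unfold ori; ring
  have h3 : (c.1 - b.1) * ori l b s < 0 := by
    rw [key]
    have k1 : (b.1 - l.1) * ori s b c < 0 := mul_neg_of_pos_of_neg (by linarith) h2
    have k2 : 0 < (b.1 - s.1) * ori l b c := mul_pos (sub_pos.mpr hsb) hB
    linarith
  have := neg_right h1 h3
  linarith

lemma geom3 {s c t c' p : ℝ × ℝ} (hst : s.1 < t.1) (htc : t.1 < c.1)
    (hD : 0 < ori s c t) (hct : ori s c' t < 0) (hcc' : 0 < ori s c c')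
    (p1 : 0 < ori s c p) (p3 : ori s t p ≤ 0) : s.1 < p.1 ∧ ori s c' p < 0 := by
  constructor
  · have key : ori s c t * (p.1 - s.1) = ori s c p * (t.1 - s.1) - ori s t p * (c.1 - s.1) := by
      unfold ori; ring
    have h3 : 0 < ori s c t * (p.1 - s.1) := by
      rw [key]
      have k1 : 0 < ori s c p * (t.1 - s.1) := mul_pos p1 (by linarith)
      have k2 : 0 ≤ (- ori s t p) * (c.1 - s.1) := mul_nonneg (by linarith) (by linarith)
      linarith
    have := (mul_pos_iff_of_pos_left hD).mp h3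
    linarith
  · have key : ori s c t * ori s c' p = ori s c p * ori s c' t + ori s t p * ori s c c' := by
      unfold ori; ring
    have h3 : ori s c t * ori s c' p < 0 := by
      rw [key]
      have k1 : ori s c p * ori s c' t < 0 := mul_neg_of_pos_of_neg p1 hct
      have k2 : 0 ≤ (- ori s t p) * ori s c c' := mul_nonneg (by linarith) hcc'.le
      linarith
    exact neg_left hD h3

lemma geom4 {l b s c t p : ℝ × ℝ} (hlb : l.1 < b.1) (hFs : 0 < ori l b s) (hFc : 0 < ori l b c)
    (hst : s.1 < t.1) (htc : t.1 < c.1) (hD : 0 < ori s c t)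
    (p1 : 0 < ori s c p) (p2 : ori t c p ≤ 0) (p3 : ori s t p ≤ 0) : 0 < ori l b p := by
  have hFt : 0 < ori l b t := by
    have key : (c.1 - s.1) * ori l b t = (c.1 - t.1) * ori l b s + (t.1 - s.1) * ori l b c
        + (b.1 - l.1) * ori s c t := by
      unfold ori; ring
    have h3 : 0 < (c.1 - s.1) * ori l b t := by
      rw [key]
      have k1 : 0 < (c.1 - t.1) * ori l b s := mul_pos (by linarith) hFs
      have k2 : 0 < (t.1 - s.1) * ori l b c := mul_pos (by linarith) hFc
      have k3 : 0 < (b.1 - l.1) * ori s c t := mul_pos (by linarith) hD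
      linarith
    exact (mul_pos_iff_of_pos_left (by linarith)).mp h3
  have key : ori s c t * ori l b p = ori s c p * ori l b t - ori t c p * ori l b s
      - ori s t p * ori l b c := by
    unfold ori; ring
  have h3 : 0 < ori s c t * ori l b p := by
    rw [key]
    have k1 : 0 < ori s c p * ori l b t := mul_pos p1 hFt
    have k2 : 0 ≤ (- ori t c p) * ori l b s := mul_nonneg (by linarith) hFs.le
    have k3 : 0 ≤ (- ori s t p) * ori l b c := mul_nonneg (by linarith) hFc.le
    linarith
  exact (mul_pos_iff_of_pos_left hD).mp h3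

lemma below_of_below {s g b p : ℝ × ℝ} (hg : s.1 < g.1) (hb : s.1 < b.1) (hp : s.1 < p.1)
    (h1 : ori s g p < 0) (h2 : 0 ≤ ori s g b) : ori s b p < 0 := by
  have key : (g.1 - s.1) * ori s b p = (b.1 - s.1) * ori s g p - (p.1 - s.1) * ori s g b := by
    unfold ori; ring
  have h3 : (g.1 - s.1) * ori s b p < 0 := by
    rw [key]
    have k1 : (b.1 - s.1) * ori s g p < 0 := mul_neg_of_pos_of_neg (by linarith) h1
    have k2 : 0 ≤ (p.1 - s.1) * ori s g b := mul_nonneg (by linarith) h2
    linarith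
  exact neg_left (by linarith) h3

lemma geom5 {l b s p : ℝ × ℝ} (hls : l.1 < s.1) (hsb : s.1 < b.1) (hsp : s.1 < p.1)
    (h1 : 0 < ori l b s) (h2 : ori s b p < 0) : ori l s p < 0 := by
  have key : (b.1 - s.1) * ori l s p = (s.1 - l.1) * ori s b p - (p.1 - s.1) * ori l b s := by
    unfold ori; ring
  have h3 : (b.1 - s.1) * ori l s p < 0 := by
    rw [key]
    have k1 : (s.1 - l.1) * ori s b p < 0 := mul_neg_of_pos_of_neg (by linarith) h2
    have k2 : 0 < (p.1 - s.1) * ori l b s := mul_pos (by linarith) h1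
    linarith
  exact neg_left (by linarith) h3

end Pool.Agent.Helper35.Upper
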