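import Mathlib
import Pool.Agent.Helper35.V1
import Pool.Agent.Helper35.V2

set_option autoImplicit false
set_option linter.unusedSectionVars false

namespace Pool.Agent.Helper35.Upper

/-- the slope of an edge -/
noncomputable def sl (e : (ℝ × ℝ) × (ℝ × ℝ)) : ℝ := slp e.1 e.2

/-- systems of edges directed to the right -/
structure EdgeSys (P : Finset (ℝ × ℝ)) (E : Finset ((ℝ × ℝ) × (ℝ × ℝ))) : Prop where
  left_mem : ∀ e ∈ E, e.1 ∈ P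
  right_mem : ∀ e ∈ E, e.2 ∈ P
  lt : ∀ e ∈ E, e.1.1 < e.2.1
  inj_left : ∀ e ∈ E, ∀ e' ∈ E, e.1 = e'.1 → sl e = sl e' → e = e'
  inj_right : ∀ e ∈ E, ∀ e' ∈ E, e.2 = e'.2 → sl e = sl e' → e = e'
  noncross : ∀ t z b b' : ℝ × ℝ, (t, b) ∈ E → (z, b) ∈ E → (z, b') ∈ E → t ≠ z → b ≠ b' → t ≠ b' →
     ∀ X, X ∈ segment ℝ t b → X ∈ segment ℝ z b' → False

section

variable (P : Finset (ℝ × ℝ)) (E : Finset ((ℝ × ℝ) × (ℝ × ℝ)))

/-- there is a steeper edge at the left end -/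
def hasnz (e : (ℝ × ℝ) × (ℝ × ℝ)) : Prop := (above E Prod.fst sl e).Nonempty
/-- the next steeper edge at the left end -/
noncomputable def nz (e : (ℝ × ℝ) × (ℝ × ℝ)) : (ℝ × ℝ) × (ℝ × ℝ) := nxt E Prod.fst sl e
/-- there is a less steep edge at the left end -/
def haspz (e : (ℝ × ℝ) × (ℝ × ℝ)) : Prop := (above E Prod.fst (fun x => - sl x) e).Nonempty
/-- the next less steep edge at the left end -/
noncomputable def pz (e : (ℝ × ℝ) × (ℝ × ℝ)) : (ℝ × ℝ) × (ℝ × ℝ) := nxt E Prod.fst (fun x => - sl x) e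
/-- there is a less steep edge at the right end -/
def hasnb (e : (ℝ × ℝ) × (ℝ × ℝ)) : Prop := (above E Prod.snd (fun x => - sl x) e).Nonempty
/-- the next less steep edge at the right end -/
noncomputable def nb (e : (ℝ × ℝ) × (ℝ × ℝ)) : (ℝ × ℝ) × (ℝ × ℝ) := nxt E Prod.snd (fun x => - sl x) e

/-- lower edges of wedges whose upper edge is longer -/
noncomputable def WW : Finset ((ℝ × ℝ) × (ℝ × ℝ)) := by
  classical exact E.filter (fun e => hasnz E e ∧ e.2.1 < (nz E e).2.1)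

/-- lower edges of wedges (at the right end) whose upper edge is shorter -/
noncomputable def FF : Finset ((ℝ × ℝ) × (ℝ × ℝ)) := by
  classical exact E.filter (fun e => hasnb E e ∧ e.1.1 < (nb E e).1.1)

lemma mem_WW {e : (ℝ × ℝ) × (ℝ × ℝ)} : e ∈ WW E ↔ e ∈ E ∧ hasnz E e ∧ e.2.1 < (nz E e).2.1 := by
  classical
  unfold WW
  rw [Finset.mem_filter]

lemma mem_FF {e : (ℝ × ℝ) × (ℝ × ℝ)} : e ∈ FF E ↔ e ∈ E ∧ hasnb E e ∧ e.1.1 < (nb E e).1.1 := by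
  classical
  unfold FF
  rw [Finset.mem_filter]

/-- the triangle of an edge -/
noncomputable def XX (e : (ℝ × ℝ) × (ℝ × ℝ)) : Finset (ℝ × ℝ) := by
  classical exact P.filter (fun p => 0 < ori e.1 e.2 p ∧ ori (nb E e).1 e.2 p ≤ 0 ∧
    ori e.1 (nb E e).1 p ≤ 0)

/-- the set attached to an edge -/
noncomputable def XT (e : (ℝ × ℝ) × (ℝ × ℝ)) : Finset (ℝ × ℝ) := by
  classical exact if e ∈ FF E then XX P E e else {e.2}

end

section

variable {P : Finset (ℝ × ℝ)} {E : Finset ((ℝ × ℝ) × (ℝ × ℝ))}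

lemma mem_XX {e : (ℝ × ℝ) × (ℝ × ℝ)} {p : ℝ × ℝ} : p ∈ XX P E e ↔ p ∈ P ∧ 0 < ori e.1 e.2 p ∧
    ori (nb E e).1 e.2 p ≤ 0 ∧ ori e.1 (nb E e).1 p ≤ 0 := by
  classical
  unfold XX
  rw [Finset.mem_filter]

lemma nz_spec {e : (ℝ × ℝ) × (ℝ × ℝ)} (h : hasnz E e) :
    nz E e ∈ E ∧ (nz E e).1 = e.1 ∧ sl e < sl (nz E e) := (mem_above E _ _).mp (nxt_mem h)

lemma nb_spec {e : (ℝ × ℝ) × (ℝ × ℝ)} (h : hasnb E e) :
    nb E e ∈ E ∧ (nb E e).2 = e.2 ∧ sl (nb E e) < sl e := by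
  have := (mem_above E _ _).mp (nxt_mem h)
  exact ⟨this.1, this.2.1, by unfold nb; linarith [this.2.2]⟩

lemma pz_spec {e : (ℝ × ℝ) × (ℝ × ℝ)} (h : haspz E e) :
    pz E e ∈ E ∧ (pz E e).1 = e.1 ∧ sl (pz E e) < sl e := by
  have := (mem_above E _ _).mp (nxt_mem h)
  exact ⟨this.1, this.2.1, by unfold pz; linarith [this.2.2]⟩

variable (hS : EdgeSys P E)

include hS

lemma EdgeSys.ori_nz {e : (ℝ × ℝ) × (ℝ × ℝ)} (he : e ∈ E) (h : hasnz E e) :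
    0 < ori e.1 e.2 (nz E e).2 ∧ e.1.1 < (nz E e).2.1 := by
  obtain ⟨h1, h2, h3⟩ := nz_spec h
  have h4 := hS.lt _ h1
  rw [h2] at h4
  refine ⟨?_, h4⟩
  unfold sl at h3
  rw [h2] at h3
  exact (slp_lt_right (hS.lt e he) h4).mp h3

lemma EdgeSys.ori_nb {e : (ℝ × ℝ) × (ℝ × ℝ)} (he : e ∈ E) (h : hasnb E e) :
    0 < ori e.1 e.2 (nb E e).1 ∧ (nb E e).1.1 < e.2.1 := by
  obtain ⟨h1, h2, h3⟩ := nb_spec h
  have h4 := hS.lt _ h1
  rw [h2] at h4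
  refine ⟨?_, h4⟩
  unfold sl at h3
  rw [h2] at h3
  exact (slp_lt_left (hS.lt e he) h4).mp h3

/-- the first geometric fact -/
lemma EdgeSys.step1 {e : (ℝ × ℝ) × (ℝ × ℝ)} (he : e ∈ WW E) (h : hasnb E e) :
    ori e.1 (nz E e).2 (nb E e).1 < 0 ∧ e.1.1 < (nb E e).1.1 := by
  obtain ⟨heE, hz, hlt⟩ := (mem_WW E).mp he
  obtain ⟨o1, o2⟩ := hS.ori_nz heE hz
  obtain ⟨o3, o4⟩ := hS.ori_nb heE h
  obtain ⟨z1, z2, z3⟩ := nz_spec hz
  obtain ⟨b1, b2, b3⟩ := nb_spec h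
  apply geom1 (hS.lt e heE) o4 hlt o1 o3
  have m1 : ((nb E e).1, e.2) ∈ E := by rw [← b2]; exact b1
  have m2 : (e.1, e.2) ∈ E := heE
  have m3 : (e.1, (nz E e).2) ∈ E := by rw [← z2]; exact z1
  apply hS.noncross _ _ _ _ m1 m2 m3
  · intro heq
    have : nb E e = e := Prod.ext heq b2
    rw [this] at b3
    exact lt_irrefl _ b3
  · intro heq
    rw [← heq] at hlt
    exact lt_irrefl _ hlt
  · intro heq
    rw [heq] at o4
    linarith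

lemma EdgeSys.WW_FF {e : (ℝ × ℝ) × (ℝ × ℝ)} (he : e ∈ WW E) (h : hasnb E e) : e ∈ FF E :=
  (mem_FF E).mpr ⟨((mem_WW E).mp he).1, h, (hS.step1 he h).2⟩

/-- the second geometric fact -/
lemma EdgeSys.step2 {e : (ℝ × ℝ) × (ℝ × ℝ)} (he : e ∈ FF E) {g : (ℝ × ℝ) × (ℝ × ℝ)} (hg : g ∈ E)
    (hg1 : g.1 = (nb E e).1) (hlt : sl g < sl (nb E e)) :
    0 < ori e.1 e.2 g.2 ∧ g.2.1 < e.2.1 := by
  obtain ⟨heE, hb, hx⟩ := (mem_FF E).mp he
  obtain ⟨o3, o4⟩ := hS.ori_nb heE hb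
  obtain ⟨b1, b2, b3⟩ := nb_spec hb
  have hgl := hS.lt g hg
  rw [hg1] at hgl
  have h2 : ori (nb E e).1 e.2 g.2 < 0 := by
    have h3 : slp (nb E e).1 g.2 < slp (nb E e).1 e.2 := by
      unfold sl at hlt
      rwa [hg1, b2] at hlt
    have h4 := (slp_lt_right hgl o4).mp h3
    have h5 : ori (nb E e).1 e.2 g.2 = - ori (nb E e).1 g.2 e.2 := by unfold ori; ring
    linarith
  apply geom2 hx o4 hgl o3 h2
  have m1 : (e.1, e.2) ∈ E := heE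
  have m2 : ((nb E e).1, e.2) ∈ E := by rw [← b2]; exact b1
  have m3 : ((nb E e).1, g.2) ∈ E := by rw [← hg1]; exact hg
  apply hS.noncross _ _ _ _ m1 m2 m3
  · intro heq
    rw [heq] at hx
    exact lt_irrefl _ hx
  · intro heq
    have : g = nb E e := Prod.ext hg1 (by rw [b2, heq])
    rw [this] at hlt
    exact lt_irrefl _ hlt
  · intro heq
    rw [heq] at hx
    linarith

/-- the map to the neighbouring wedge -/
lemma EdgeSys.tau {e : (ℝ × ℝ) × (ℝ × ℝ)} (he : e ∈ FF E) (h : haspz E (nb E e)) :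
    pz E (nb E e) ∈ WW E ∧ nz E (pz E (nb E e)) = nb E e := by
  obtain ⟨heE, hb, hx⟩ := (mem_FF E).mp he
  obtain ⟨b1, b2, b3⟩ := nb_spec hb
  obtain ⟨p1, p2, p3, p4, p5⟩ := nxt_prev hS.inj_left b1 h
  refine ⟨(mem_WW E).mpr ⟨p1, p4, ?_⟩, p5⟩
  have h1 := (hS.step2 he p1 p2 p3).2
  have h2 : nz E (pz E (nb E e)) = nb E e := p5
  rw [h2, b2]
  exact h1

lemma EdgeSys.XT_spec {e : (ℝ × ℝ) × (ℝ × ℝ)} (he : e ∈ WW E) {p : ℝ × ℝ} (hp : p ∈ XT P E e) :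
    p ∈ P ∧ e.1.1 < p.1 ∧ 0 ≤ ori e.1 e.2 p ∧ ori e.1 (nz E e).2 p < 0 := by
  classical
  obtain ⟨heE, hz, hlt⟩ := (mem_WW E).mp he
  obtain ⟨o1, o2⟩ := hS.ori_nz heE hz
  unfold XT at hp
  by_cases hF : e ∈ FF E
  · rw [if_pos hF, mem_XX] at hp
    obtain ⟨pP, p1, p2, p3⟩ := hp
    obtain ⟨-, hb, hx⟩ := (mem_FF E).mp hF
    obtain ⟨o3, o4⟩ := hS.ori_nb heE hb
    have h1 := geom3 hx o4 o3 (hS.step1 he hb).1 o1 p1 p3
    exact ⟨pP, h1.1, p1.le, h1.2⟩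
  · rw [if_neg hF, Finset.mem_singleton] at hp
    subst hp
    refine ⟨hS.right_mem e heE, hS.lt e heE, ?_, ?_⟩
    · unfold ori; apply le_of_eq; ring
    · have : ori e.1 (nz E e).2 e.2 = - ori e.1 e.2 (nz E e).2 := by unfold ori; ring
      linarith

lemma EdgeSys.XT_disjoint {e e' : (ℝ × ℝ) × (ℝ × ℝ)} (he : e ∈ WW E) (he' : e' ∈ WW E)
    (h : e.1 = e'.1) (hlt : sl e < sl e') : Disjoint (XT P E e) (XT P E e') := by
  rw [Finset.disjoint_left]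
  intro p hp hp'
  obtain ⟨-, a1, a2, a3⟩ := hS.XT_spec he hp
  obtain ⟨-, b1, b2, b3⟩ := hS.XT_spec he' hp'
  obtain ⟨heE, hz, -⟩ := (mem_WW E).mp he
  obtain ⟨heE', -, -⟩ := (mem_WW E).mp he'
  obtain ⟨o1, o2⟩ := hS.ori_nz heE hz
  obtain ⟨z1, z2, z3⟩ := nz_spec hz
  have hle : sl (nz E e) ≤ sl e' := nxt_le hz ((mem_above E _ _).mpr ⟨heE', h.symm, hlt⟩)
  have hl' := hS.lt e' heE'
  rw [← h] at hl' b2
  have h2 : 0 ≤ ori e.1 (nz E e).2 e'.2 := by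
    apply (slp_le_right o2 hl').mp
    unfold sl at hle
    rwa [z2, ← h] at hle
  have := below_of_below o2 hl' a1 a3 h2
  linarith

lemma EdgeSys.XT_subset {e e' : (ℝ × ℝ) × (ℝ × ℝ)} (he : e ∈ FF E) (he' : e' ∈ WW E)
    (h : e'.1 = (nb E e).1) (hlt : sl e' < sl (nb E e)) : XT P E e' ⊆ XT P E e := by
  classical
  intro p hp
  obtain ⟨a0, a1, a2, a3⟩ := hS.XT_spec he' hp
  obtain ⟨heE', hz, -⟩ := (mem_WW E).mp he'
  obtain ⟨heE, hb, hx⟩ := (mem_FF E).mp he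
  obtain ⟨o1, o2⟩ := hS.ori_nz heE' hz
  obtain ⟨o3, o4⟩ := hS.ori_nb heE hb
  obtain ⟨z1, z2, z3⟩ := nz_spec hz
  obtain ⟨b1, b2, b3⟩ := nb_spec hb
  obtain ⟨c1, c2⟩ := hS.step2 he heE' h hlt
  have hle : sl (nz E e') ≤ sl (nb E e) := nxt_le hz ((mem_above E _ _).mpr ⟨b1, h.symm, hlt⟩)
  have h2 : 0 ≤ ori e'.1 (nz E e').2 e.2 := by
    apply (slp_le_right o2 (by rw [h]; exact o4)).mp
    unfold sl at hle
    rwa [z2, b2, ← h] at hle
  have hb1 : ori (nb E e).1 e.2 p < 0 := by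
    rw [← h]
    exact below_of_below o2 (by rw [h]; exact o4) a1 a3 h2
  have hb2 : ori e.1 (nb E e).1 p < 0 := geom5 hx o4 (by rw [← h]; exact a1) o3 hb1
  have hb3 : 0 < ori e.1 e.2 p := by
    unfold XT at hp
    by_cases hF : e' ∈ FF E
    · rw [if_pos hF, mem_XX] at hp
      obtain ⟨pP, p1, p2, p3⟩ := hp
      obtain ⟨-, hb', hx'⟩ := (mem_FF E).mp hF
      obtain ⟨o3', o4'⟩ := hS.ori_nb heE' hb'
      exact geom4 (hS.lt e heE) (by rw [h]; exact o3) c1 hx' o4' o3' p1 p2 p3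
    · rw [if_neg hF, Finset.mem_singleton] at hp
      subst hp
      exact c1
  unfold XT
  rw [if_pos he, mem_XX]
  exact ⟨a0, hb3, hb1.le, hb2.le⟩

lemma EdgeSys.XT_sub_P {e : (ℝ × ℝ) × (ℝ × ℝ)} (he : e ∈ E) : XT P E e ⊆ P := by
  classical
  intro p hp
  unfold XT at hp
  by_cases hF : e ∈ FF E
  · rw [if_pos hF, mem_XX] at hp
    exact hp.1
  · rw [if_neg hF, Finset.mem_singleton] at hp
    subst hp
    exact hS.right_mem e he

lemma EdgeSys.card_XT_pos {e : (ℝ × ℝ) × (ℝ × ℝ)} (he : e ∈ E) : 1 ≤ (XT P E e).card := by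
  classical
  rw [Nat.one_le_iff_ne_zero, ← Nat.pos_iff_ne_zero, Finset.card_pos]
  unfold XT
  by_cases hF : e ∈ FF E
  · rw [if_pos hF]
    obtain ⟨heE, hb, hx⟩ := (mem_FF E).mp hF
    obtain ⟨o3, o4⟩ := hS.ori_nb heE hb
    obtain ⟨b1, b2, b3⟩ := nb_spec hb
    refine ⟨(nb E e).1, mem_XX.mpr ⟨hS.left_mem _ b1, o3, ?_, ?_⟩⟩
    · unfold ori; apply le_of_eq; ring
    · unfold ori; apply le_of_eq; ring
  · rw [if_neg hF]
    exact ⟨e.2, Finset.mem_singleton_self _⟩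

/-- the edges of `WW` at a given left end -/
noncomputable def WS (E : Finset ((ℝ × ℝ) × (ℝ × ℝ))) (s : ℝ × ℝ) : Finset ((ℝ × ℝ) × (ℝ × ℝ)) := by
  classical exact (WW E).filter (fun e => e.1 = s)

omit hS in
lemma mem_WS {s : ℝ × ℝ} {e : (ℝ × ℝ) × (ℝ × ℝ)} : e ∈ WS E s ↔ e ∈ WW E ∧ e.1 = s := by
  classical
  unfold WS
  rw [Finset.mem_filter]

lemma EdgeSys.sl_injOn (s : ℝ × ℝ) : Set.InjOn sl (WS E s : Set ((ℝ × ℝ) × (ℝ × ℝ))) := by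
  intro e he e' he' heq
  rw [Finset.mem_coe, mem_WS] at he he'
  exact hS.inj_left e ((mem_WW E).mp he.1).1 e' ((mem_WW E).mp he'.1).1 (he.2.trans he'.2.symm) heq

lemma EdgeSys.sum_card_le {s : ℝ × ℝ} {S : Finset ((ℝ × ℝ) × (ℝ × ℝ))} (hsub : S ⊆ WS E s)
    {R : Finset (ℝ × ℝ)} (hR : ∀ e ∈ S, XT P E e ⊆ R) : ∑ e ∈ S, (XT P E e).card ≤ R.card := by
  classical
  rw [← Finset.card_biUnion]
  · apply Finset.card_le_card
    intro p hp
    rw [Finset.mem_biUnion] at hp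
    obtain ⟨e, he, hp⟩ := hp
    exact hR e he hp
  · intro e he e' he' hne
    have m1 := mem_WS.mp (hsub he)
    have m2 := mem_WS.mp (hsub he')
    have h := m1.2.trans m2.2.symm
    rcases lt_trichotomy (sl e) (sl e') with hlt | heq | hgt
    · exact hS.XT_disjoint m1.1 m2.1 h hlt
    · exact absurd (hS.sl_injOn s (hsub he) (hsub he') heq) hne
    · exact (hS.XT_disjoint m2.1 m1.1 h.symm hgt).symm

/-- number of points attached to an edge -/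
noncomputable def NN (P : Finset (ℝ × ℝ)) (E : Finset ((ℝ × ℝ) × (ℝ × ℝ))) (e : (ℝ × ℝ) × (ℝ × ℝ)) : ℕ :=
  (XT P E e).card

lemma EdgeSys.pref_le_card (s : ℝ × ℝ) (i : (ℝ × ℝ) × (ℝ × ℝ)) :
    pref (WS E s) sl (NN P E) i ≤ P.card := by
  classical
  unfold pref NN
  exact hS.sum_card_le (Finset.filter_subset _ _)
    (fun e he => hS.XT_sub_P ((mem_WW E).mp (mem_WS.mp (Finset.mem_filter.mp he).1).1).1)

lemma EdgeSys.pref_le_NN {e : (ℝ × ℝ) × (ℝ × ℝ)} (he : e ∈ FF E) (h : haspz E (nb E e)) :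
    pref (WS E (nb E e).1) sl (NN P E) (pz E (nb E e)) ≤ NN P E e := by
  classical
  unfold pref NN
  apply hS.sum_card_le (s := (nb E e).1) (Finset.filter_subset _ _)
  intro e' he'
  rw [Finset.mem_filter, mem_WS] at he'
  apply hS.XT_subset he he'.1.1 he'.1.2
  exact lt_of_le_of_lt he'.2 (pz_spec h).2.2

end

end Pool.Agent.Helper35.Upper
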