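import Mathlib
import Pool.Agent.Helper35.V3

set_option autoImplicit false
set_option linter.unusedSectionVars false

namespace Pool.Agent.Helper35.Upper

lemma log_natCast_nonneg (a : ℕ) : 0 ≤ Real.log (a : ℝ) := by
  rcases Nat.eq_zero_or_pos a with rfl | h
  · simp
  · exact Real.log_nonneg (by exact_mod_cast h)

lemma log_natCast_mono {a b : ℕ} (h : a ≤ b) : Real.log (a : ℝ) ≤ Real.log (b : ℝ) := by
  rcases Nat.eq_zero_or_pos a with rfl | h'
  · simpa using log_natCast_nonneg b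
  · exact Real.log_le_log (by exact_mod_cast h') (by exact_mod_cast h)

variable {P : Finset (ℝ × ℝ)} {E : Finset ((ℝ × ℝ) × (ℝ × ℝ))} (hS : EdgeSys P E)

include hS

lemma EdgeSys.inj_left' : ∀ e ∈ E, ∀ e' ∈ E, e.1 = e'.1 → -sl e = -sl e' → e = e' :=
  fun e he e' he' h h' => hS.inj_left e he e' he' h (neg_injective h')

lemma EdgeSys.inj_right' : ∀ e ∈ E, ∀ e' ∈ E, e.2 = e'.2 → -sl e = -sl e' → e = e' :=
  fun e he e' he' h h' => hS.inj_right e he e' he' h (neg_injective h')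

/-- the edges at which the neighbouring wedge exists -/
noncomputable def F0 (E : Finset ((ℝ × ℝ) × (ℝ × ℝ))) : Finset ((ℝ × ℝ) × (ℝ × ℝ)) := by
  classical exact (FF E).filter (fun e => haspz E (nb E e))

omit hS in
lemma mem_F0 {e : (ℝ × ℝ) × (ℝ × ℝ)} : e ∈ F0 E ↔ e ∈ FF E ∧ haspz E (nb E e) := by
  classical
  unfold F0
  rw [Finset.mem_filter]

lemma EdgeSys.nb_inj {e e' : (ℝ × ℝ) × (ℝ × ℝ)} (he : e ∈ FF E) (he' : e' ∈ FF E)
    (h : nb E e = nb E e') : e = e' := by
  obtain ⟨h1, h2, -⟩ := (mem_FF E).mp he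
  obtain ⟨h1', h2', -⟩ := (mem_FF E).mp he'
  exact nxt_inj hS.inj_right' h1 h1' h2 h2' h

lemma EdgeSys.tau_inj {e e' : (ℝ × ℝ) × (ℝ × ℝ)} (he : e ∈ F0 E) (he' : e' ∈ F0 E)
    (h : pz E (nb E e) = pz E (nb E e')) : e = e' := by
  obtain ⟨h1, h2⟩ := mem_F0.mp he
  obtain ⟨h1', h2'⟩ := mem_F0.mp he'
  apply hS.nb_inj h1 h1'
  have b1 := (nb_spec ((mem_FF E).mp h1).2.1).1
  have b2 := (nb_spec ((mem_FF E).mp h1').2.1).1
  exact nxt_inj hS.inj_left' b1 b2 h2 h2' h

open Classical in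
lemma EdgeSys.card1 : (WW E \ FF E).card ≤ P.card := by
  apply card_top hS.inj_right' P hS.right_mem
  intro e he
  rw [Finset.mem_sdiff] at he
  refine ⟨((mem_WW E).mp he.1).1, fun h => he.2 (hS.WW_FF he.1 h)⟩

open Classical in
lemma EdgeSys.card2 : (FF E \ F0 E).card ≤ P.card := by
  have hinj : Set.InjOn (nb E) ((FF E \ F0 E : Finset _) : Set ((ℝ × ℝ) × (ℝ × ℝ))) := by
    intro e he e' he' h
    rw [Finset.mem_coe, Finset.mem_sdiff] at he he'
    exact hS.nb_inj he.1 he'.1 h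
  rw [← Finset.card_image_of_injOn hinj]
  apply card_top hS.inj_left' P hS.left_mem
  intro g hg
  rw [Finset.mem_image] at hg
  obtain ⟨e, he, rfl⟩ := hg
  rw [Finset.mem_sdiff, mem_F0] at he
  refine ⟨(nb_spec ((mem_FF E).mp he.1).2.1).1, fun h => he.2 ⟨he.1, h⟩⟩

/-- logarithm of the prefix sum at an edge -/
noncomputable def LA (P : Finset (ℝ × ℝ)) (E : Finset ((ℝ × ℝ) × (ℝ × ℝ))) (e : (ℝ × ℝ) × (ℝ × ℝ)) : ℝ :=
  Real.log (pref (WS E e.1) sl (NN P E) e)

/-- logarithm of the number of points at an edge -/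
noncomputable def LN (P : Finset (ℝ × ℝ)) (E : Finset ((ℝ × ℝ) × (ℝ × ℝ))) (e : (ℝ × ℝ) × (ℝ × ℝ)) : ℝ :=
  Real.log (NN P E e)

lemma EdgeSys.LA_le (e : (ℝ × ℝ) × (ℝ × ℝ)) : LA P E e ≤ Real.log P.card :=
  log_natCast_mono (hS.pref_le_card _ _)

lemma EdgeSys.LN_le {e : (ℝ × ℝ) × (ℝ × ℝ)} (he : e ∈ E) : LN P E e ≤ Real.log P.card :=
  log_natCast_mono (Finset.card_le_card (hS.XT_sub_P he))

omit hS in
lemma LN_nonneg (e : (ℝ × ℝ) × (ℝ × ℝ)) : 0 ≤ LN P E e := log_natCast_nonneg _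

open Classical in
lemma EdgeSys.cards : ((WW E \ (F0 E).image (fun e => pz E (nb E e))).card ≤ 2 * P.card) ∧
    (FF E \ WW E).card ≤ 2 * P.card := by
  have hinj : Set.InjOn (fun e => pz E (nb E e)) (F0 E : Set ((ℝ × ℝ) × (ℝ × ℝ))) := by
    intro e he e' he' h
    exact hS.tau_inj he he' h
  have c0 : ((F0 E).image (fun e => pz E (nb E e))).card = (F0 E).card :=
    Finset.card_image_of_injOn hinj
  have csub : (F0 E).image (fun e => pz E (nb E e)) ⊆ WW E := by
    intro g hg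
    rw [Finset.mem_image] at hg
    obtain ⟨e, he, rfl⟩ := hg
    exact (hS.tau (mem_F0.mp he).1 (mem_F0.mp he).2).1
  have c1 := hS.card1
  have c2 := hS.card2
  have fsub : F0 E ⊆ FF E := fun e he => (mem_F0.mp he).1
  have c3 : (FF E \ F0 E).card + (F0 E).card = (FF E).card := Finset.card_sdiff_add_card_eq_card fsub
  have c4 : (WW E \ (F0 E).image (fun e => pz E (nb E e))).card +
      ((F0 E).image (fun e => pz E (nb E e))).card = (WW E).card := Finset.card_sdiff_add_card_eq_card csub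
  have c5 : (WW E \ FF E).card + (WW E ∩ FF E).card = (WW E).card := Finset.card_sdiff_add_card_inter _ _
  have c6 : (FF E \ WW E).card + (FF E ∩ WW E).card = (FF E).card := Finset.card_sdiff_add_card_inter _ _
  have c7 : (FF E ∩ WW E).card = (WW E ∩ FF E).card := by rw [Finset.inter_comm]
  have c8 : (WW E ∩ FF E).card ≤ (FF E).card := Finset.card_le_card Finset.inter_subset_right
  constructor <;> omega

open Classical in
lemma EdgeSys.sum_upper : ∑ e ∈ WW E, LA P E e ≤ ∑ e ∈ WW E, LN P E e + 4 * P.card * Real.log P.card := by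
  obtain ⟨d1, d2⟩ := hS.cards
  have hlog := log_natCast_nonneg P.card
  have hinj : Set.InjOn (fun e => pz E (nb E e)) (F0 E : Set ((ℝ × ℝ) × (ℝ × ℝ))) := by
    intro e he e' he' h
    exact hS.tau_inj he he' h
  have csub : (F0 E).image (fun e => pz E (nb E e)) ⊆ WW E := by
    intro g hg
    rw [Finset.mem_image] at hg
    obtain ⟨e, he, rfl⟩ := hg
    exact (hS.tau (mem_F0.mp he).1 (mem_F0.mp he).2).1
  have s1 : ∑ e ∈ F0 E, LA P E (pz E (nb E e)) ≤ ∑ e ∈ F0 E, LN P E e := by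
    apply Finset.sum_le_sum
    intro e he
    obtain ⟨h1, h2⟩ := mem_F0.mp he
    unfold LA LN
    apply log_natCast_mono
    rw [(pz_spec h2).2.1]
    exact hS.pref_le_NN h1 h2
  have s2 : ∑ e ∈ (F0 E).image (fun e => pz E (nb E e)), LA P E e =
      ∑ e ∈ F0 E, LA P E (pz E (nb E e)) := Finset.sum_image hinj
  have s3 : ∑ e ∈ WW E, LA P E e = ∑ e ∈ WW E \ (F0 E).image (fun e => pz E (nb E e)), LA P E e +
      ∑ e ∈ (F0 E).image (fun e => pz E (nb E e)), LA P E e :=
    (Finset.sum_sdiff csub).symm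
  have s4 : ∑ e ∈ WW E \ (F0 E).image (fun e => pz E (nb E e)), LA P E e ≤
      2 * P.card * Real.log P.card := by
    calc _ ≤ ∑ _e ∈ WW E \ (F0 E).image (fun e => pz E (nb E e)), Real.log P.card :=
          Finset.sum_le_sum (fun e _ => hS.LA_le e)
      _ = ((WW E \ (F0 E).image (fun e => pz E (nb E e))).card : ℝ) * Real.log P.card := by
          rw [Finset.sum_const, nsmul_eq_mul]
      _ ≤ 2 * P.card * Real.log P.card := by
          apply mul_le_mul_of_nonneg_right _ hlog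
          exact_mod_cast d1
  have s5 : ∑ e ∈ F0 E, LN P E e ≤ ∑ e ∈ FF E, LN P E e :=
    Finset.sum_le_sum_of_subset_of_nonneg (fun e he => (mem_F0.mp he).1) (fun e _ _ => LN_nonneg e)
  have s6 : ∑ e ∈ FF E, LN P E e = ∑ e ∈ FF E ∩ WW E, LN P E e + ∑ e ∈ FF E \ WW E, LN P E e :=
    (Finset.sum_inter_add_sum_sdiff _ _ _).symm
  have s7 : ∑ e ∈ FF E ∩ WW E, LN P E e ≤ ∑ e ∈ WW E, LN P E e :=
    Finset.sum_le_sum_of_subset_of_nonneg Finset.inter_subset_right (fun e _ _ => LN_nonneg e)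
  have s8 : ∑ e ∈ FF E \ WW E, LN P E e ≤ 2 * P.card * Real.log P.card := by
    calc _ ≤ ∑ _e ∈ FF E \ WW E, Real.log P.card := by
          apply Finset.sum_le_sum
          intro e he
          exact hS.LN_le ((mem_FF E).mp (Finset.mem_sdiff.mp he).1).1
      _ = ((FF E \ WW E).card : ℝ) * Real.log P.card := by
          rw [Finset.sum_const, nsmul_eq_mul]
      _ ≤ 2 * P.card * Real.log P.card := by
          apply mul_le_mul_of_nonneg_right _ hlog
          exact_mod_cast d2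
  linarith

open Classical in
lemma EdgeSys.sum_lower : (((WW E).card : ℝ) - P.card) * Real.log 4 + ∑ e ∈ WW E, LN P E e ≤
    ∑ e ∈ WW E, LA P E e + P.card * Real.log P.card := by
  have hmaps : ∀ e ∈ WW E, e.1 ∈ P := fun e he => hS.left_mem e ((mem_WW E).mp he).1
  have f1 : ∑ e ∈ WW E, LN P E e = ∑ s ∈ P, ∑ e ∈ WS E s, LN P E e := by
    rw [← Finset.sum_fiberwise_of_maps_to hmaps]
    apply Finset.sum_congr rfl
    intro s _
    apply Finset.sum_congr _ (fun _ _ => rfl)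
    ext e; rw [mem_WS, Finset.mem_filter]
  have f2 : ∑ e ∈ WW E, LA P E e = ∑ s ∈ P, ∑ e ∈ WS E s, LA P E e := by
    rw [← Finset.sum_fiberwise_of_maps_to hmaps]
    apply Finset.sum_congr rfl
    intro s _
    apply Finset.sum_congr _ (fun _ _ => rfl)
    ext e; rw [mem_WS, Finset.mem_filter]
  have f3 : ((WW E).card : ℝ) = ∑ s ∈ P, ((WS E s).card : ℝ) := by
    rw [Finset.card_eq_sum_card_fiberwise (f := Prod.fst) (t := P) hmaps]
    push_cast
    apply Finset.sum_congr rfl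
    intro s _
    congr 2
  have f4 : ∀ s ∈ P, (((WS E s).card : ℝ) - 1) * Real.log 4 + ∑ e ∈ WS E s, LN P E e ≤
      ∑ e ∈ WS E s, LA P E e + Real.log P.card := by
    intro s _
    have h := log_vertex (WS E s) sl (NN P E) (hS.sl_injOn s)
      (fun e he => hS.card_XT_pos ((mem_WW E).mp (mem_WS.mp he).1).1)
    have h1 : Real.log ((∑ i ∈ WS E s, NN P E i : ℕ) : ℝ) ≤ Real.log P.card := by
      apply log_natCast_mono
      exact hS.sum_card_le (s := s) (Finset.Subset.refl _)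
        (fun e he => hS.XT_sub_P ((mem_WW E).mp (mem_WS.mp he).1).1)
    have h2 : ∑ e ∈ WS E s, LA P E e = ∑ i ∈ WS E s, Real.log (pref (WS E s) sl (NN P E) i) := by
      apply Finset.sum_congr rfl
      intro e he
      unfold LA
      rw [(mem_WS.mp he).2]
    rw [h2]
    unfold LN
    linarith
  have f5 := Finset.sum_le_sum f4
  rw [Finset.sum_add_distrib, Finset.sum_add_distrib, ← Finset.sum_mul, Finset.sum_sub_distrib] at f5
  simp only [Finset.sum_const, nsmul_eq_mul, mul_one] at f5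
  rw [f1, f2, f3]
  linarith

/-- the number of wedges -/
theorem EdgeSys.WW_bound :
    (((WW E).card : ℝ) - P.card) * Real.log 4 ≤ 5 * (P.card * Real.log P.card) := by
  have h1 := hS.sum_upper
  have h2 := hS.sum_lower
  linarith

end Pool.Agent.Helper35.Upper
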