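import Mathlib
import Pool.Agent.Helper35.V4
import Pool.Agent.Helper35.T5

set_option autoImplicit false
set_option linter.unusedSectionVars false

namespace Pool.Agent.Helper35.Upper

open Pool.Agent.CollTriples Pool.Agent.Helper35.Coll

lemma collinear_of_ori {z w : ℝ × ℝ} (hzw : z.1 < w.1) {s : Set (ℝ × ℝ)} (h : ∀ p ∈ s, ori z w p = 0) :
    Collinear ℝ s := by
  rw [collinear_iff_exists_forall_eq_smul_vadd]
  refine ⟨z, w - z, fun p hp => ⟨(p.1 - z.1) / (w.1 - z.1), ?_⟩⟩
  have h1 := h p hp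
  unfold ori at h1
  have h2 : w.1 - z.1 ≠ 0 := by linarith
  ext
  · simp only [vadd_eq_add, Prod.fst_add, Prod.smul_fst, Prod.fst_sub, smul_eq_mul]
    field_simp
    ring
  · simp only [vadd_eq_add, Prod.snd_add, Prod.smul_snd, Prod.snd_sub, smul_eq_mul]
    field_simp
    linarith

variable {P : Finset (ℝ × ℝ)}

lemma four_false (hP : NoFourCollinear P) {a b c d z w : ℝ × ℝ} (ma : a ∈ P) (mb : b ∈ P) (mc : c ∈ P)
    (md : d ∈ P) (hab : a ≠ b) (hac : a ≠ c) (had : a ≠ d) (hbc : b ≠ c) (hbd : b ≠ d) (hcd : c ≠ d)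
    (hzw : z.1 < w.1) (ha : ori z w a = 0) (hb : ori z w b = 0) (hc : ori z w c = 0)
    (hd : ori z w d = 0) : False := by
  classical
  apply hP {a, b, c, d}
  · intro p hp
    simp only [Finset.mem_insert, Finset.mem_singleton] at hp
    rcases hp with rfl | rfl | rfl | rfl <;> assumption
  · rw [Finset.card_insert_of_notMem (by simp [hab, hac, had]),
      Finset.card_insert_of_notMem (by simp [hbc, hbd]), Finset.card_pair hcd]
  · apply collinear_of_ori hzw
    intro p hp
    simp only [Finset.coe_insert, Finset.coe_singleton, Set.mem_insert_iff, Set.mem_singleton_iff] at hp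
    rcases hp with rfl | rfl | rfl | rfl <;> assumption

lemma ori_of_slp {z b p : ℝ × ℝ} (hb : z.1 < b.1) (hp : z.1 < p.1) (h : slp z b = slp z p) :
    ori z b p = 0 := by
  unfold slp at h
  unfold ori
  rw [div_eq_div_iff (by linarith) (by linarith)] at h
  linarith

lemma ori_of_slp_left {z b p : ℝ × ℝ} (hb : z.1 < b.1) (hp : p.1 < b.1) (h : slp z b = slp p b) :
    ori z b p = 0 := by
  unfold slp at h
  unfold ori
  rw [div_eq_div_iff (by linarith) (by linarith)] at h
  linarith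

lemma sbtw_facts {a z b : ℝ × ℝ} (h : Sbtw ℝ a z b) (hzb : z.1 < b.1) : a.1 < z.1 ∧ ori z b a = 0 := by
  obtain ⟨⟨t, ⟨ht0, ht1⟩, ht⟩, h1, h2⟩ := h
  rw [AffineMap.lineMap_apply_module'] at ht
  have e1 := congrArg Prod.fst ht
  have e2 := congrArg Prod.snd ht
  simp only [Prod.fst_add, Prod.smul_fst, Prod.fst_sub, Prod.snd_add, Prod.smul_snd, Prod.snd_sub,
    smul_eq_mul] at e1 e2
  have ht1' : t ≠ 1 := by
    rintro rfl
    apply h2
    ext
    · linarith
    · linarith
  have ht0' : t ≠ 0 := by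
    rintro rfl
    apply h1
    ext
    · linarith
    · linarith
  have k1 : 0 < 1 - t := by
    have := lt_of_le_of_ne ht1 ht1'
    linarith
  have k0 : 0 < t := lt_of_le_of_ne ht0 (Ne.symm ht0')
  have k2 : 0 < (1 - t) * (b.1 - a.1) := by linarith
  have k3 : 0 < b.1 - a.1 := (mul_pos_iff_of_pos_left k1).mp k2
  have k4 : 0 < t * (b.1 - a.1) := mul_pos k0 k3
  constructor
  · linarith
  · unfold ori
    rw [← e1, ← e2]; ring

/-- the edges to the right of the middle points -/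
noncomputable def ER (P : Finset (ℝ × ℝ)) : Finset ((ℝ × ℝ) × (ℝ × ℝ)) := by
  classical exact (P ×ˢ P).filter (fun e => e.1.1 < e.2.1 ∧ ∃ a ∈ P, Sbtw ℝ a e.1 e.2)

lemma mem_ER {e : (ℝ × ℝ) × (ℝ × ℝ)} : e ∈ ER P ↔ e.1 ∈ P ∧ e.2 ∈ P ∧ e.1.1 < e.2.1 ∧
    ∃ a ∈ P, Sbtw ℝ a e.1 e.2 := by
  classical
  unfold ER
  rw [Finset.mem_filter, Finset.mem_product]
  tauto

lemma adj_of_mem {z b : ℝ × ℝ} (h : (z, b) ∈ ER P) : (graphG P).Adj z b := by
  obtain ⟨h1, h2, -, a, ha, h3⟩ := mem_ER.mp h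
  exact ⟨h1, h2, a, ha, Or.inr h3.symm⟩

theorem edgeSys (hP : NoFourCollinear P) (hN : ¬ HasSelfIntersectingPath P) : EdgeSys P (ER P) := by
  refine ⟨fun e he => (mem_ER.mp he).1, fun e he => (mem_ER.mp he).2.1,
    fun e he => (mem_ER.mp he).2.2.1, ?_, ?_, ?_⟩
  · intro e he e' he' h hsl
    obtain ⟨m1, m2, m3, a, ma, ha⟩ := mem_ER.mp he
    obtain ⟨m1', m2', m3', -⟩ := mem_ER.mp he'
    obtain ⟨f1, f2⟩ := sbtw_facts ha m3
    by_contra hne
    have hne2 : e.2 ≠ e'.2 := fun h2 => hne (Prod.ext h h2)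
    rw [← h] at m3'
    have ho : ori e.1 e.2 e'.2 = 0 := by
      unfold sl at hsl
      rw [← h] at hsl
      exact ori_of_slp m3 m3' hsl
    apply four_false hP ma m1 m2 m2' ?_ ?_ ?_ ?_ ?_ hne2 m3 f2 ?_ ?_ ho
    · rintro rfl; linarith
    · rintro rfl; linarith
    · rintro rfl; linarith
    · intro heq; rw [heq] at m3; linarith
    · intro heq; rw [heq] at m3'; linarith
    · unfold ori; ring
    · unfold ori; ring
  · -- injectivity at the right end
    have key : ∀ z z' b : ℝ × ℝ, (z, b) ∈ ER P → (z', b) ∈ ER P → slp z b = slp z' b → z.1 < z'.1 → False := by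
      intro z z' b h h' hs hlt
      obtain ⟨m1, m2, m3, a, ma, ha⟩ := mem_ER.mp h
      obtain ⟨m1', m2', m3', -⟩ := mem_ER.mp h'
      simp only at m1 m2 m3 ha m1' m2' m3'
      obtain ⟨f1, f2⟩ := sbtw_facts ha m3
      have ho := ori_of_slp_left m3 m3' hs
      apply four_false hP ma m1 m1' m2 ?_ ?_ ?_ ?_ ?_ ?_ m3 f2 ?_ ho ?_
      · rintro rfl; linarith
      · rintro rfl; linarith
      · rintro rfl; linarith
      · rintro rfl; linarith
      · rintro rfl; linarith
      · rintro rfl; linarith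
      · unfold ori; ring
      · unfold ori; ring
    intro e he e' he' h hsl
    have hl := (mem_ER.mp he).2.2.1
    have hl' := (mem_ER.mp he').2.2.1
    unfold sl at hsl
    rw [← h] at hsl hl'
    have me' : (e'.1, e.2) ∈ ER P := by rw [h]; exact he'
    rcases lt_trichotomy e.1.1 e'.1.1 with hlt | heq | hgt
    · exact absurd (key _ _ _ he me' hsl hlt) id
    · have ho := ori_of_slp_left hl hl' hsl
      apply Prod.ext _ h
      apply Prod.ext heq
      unfold ori at ho
      rw [← heq, sub_self, mul_zero, sub_zero] at ho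
      rcases mul_eq_zero.mp ho with h1 | h1
      · linarith
      · linarith
    · exact absurd (key _ _ _ me' he hsl.symm hgt) id
  · intro t z b b' h1 h2 h3 htz hbb' htb' X hX1 hX2
    have l1 := (mem_ER.mp h1).2.2.1
    have l2 := (mem_ER.mp h2).2.2.1
    have l3 := (mem_ER.mp h3).2.2.1
    simp only at l1 l2 l3
    apply hN
    refine ⟨t, b, z, b', ?_, htz, htb', ?_, hbb', ?_, adj_of_mem h1, (adj_of_mem h2).symm, adj_of_mem h3,
      X, hX1, hX2⟩
    · rintro rfl; linarith
    · rintro rfl; linarith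
    · rintro rfl; linarith

/-- points of `P` have different abscissas -/
def DistX (P : Finset (ℝ × ℝ)) : Prop := ∀ p ∈ P, ∀ q ∈ P, p.1 = q.1 → p = q

lemma sbtw_of_collinear {a z b : ℝ × ℝ} (h : Collinear ℝ ({a, z, b} : Set (ℝ × ℝ))) (h1 : a.1 < z.1)
    (h2 : z.1 < b.1) : Sbtw ℝ a z b := by
  have hd := det_of_collinear h
  refine ⟨⟨(z.1 - a.1) / (b.1 - a.1), ⟨by apply div_nonneg <;> linarith, ?_⟩, ?_⟩, ?_, ?_⟩
  · rw [div_le_one (by linarith)]; linarith
  · rw [AffineMap.lineMap_apply_module']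
    have h3 : b.1 - a.1 ≠ 0 := by linarith
    ext
    · simp only [Prod.fst_add, Prod.smul_fst, Prod.fst_sub, smul_eq_mul]
      field_simp
      ring
    · simp only [Prod.snd_add, Prod.smul_snd, Prod.snd_sub, smul_eq_mul]
      field_simp
      linarith
  · rintro rfl; linarith
  · rintro rfl; linarith

lemma triple_sorted (hD : DistX P) {S : Finset (ℝ × ℝ)} (hS : S ∈ collinearTriples P) :
    ∃ a ∈ P, ∃ z ∈ P, ∃ b ∈ P, a.1 < z.1 ∧ z.1 < b.1 ∧ Sbtw ℝ a z b ∧ ∀ x, x ∈ S ↔ x = a ∨ x = z ∨ x = b := by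
  classical
  unfold collinearTriples at hS
  rw [Finset.mem_filter, Finset.mem_powersetCard, Finset.card_eq_three] at hS
  obtain ⟨⟨hsub, x, y, z, hxy, hxz, hyz, rfl⟩, hcol⟩ := hS
  have mx : x ∈ P := hsub (by simp)
  have my : y ∈ P := hsub (by simp)
  have mz : z ∈ P := hsub (by simp)
  have hcol' : ∀ u v w : ℝ × ℝ, (u = x ∨ u = y ∨ u = z) → (v = x ∨ v = y ∨ v = z) →
      (w = x ∨ w = y ∨ w = z) → Collinear ℝ ({u, v, w} : Set (ℝ × ℝ)) := by
    intro u v w hu hv hw
    apply hcol.subset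
    intro p hp
    simp only [Set.mem_insert_iff, Set.mem_singleton_iff] at hp
    simp only [Finset.coe_insert, Finset.coe_singleton, Set.mem_insert_iff, Set.mem_singleton_iff]
    rcases hp with rfl | rfl | rfl <;> assumption
  have nxy : x.1 ≠ y.1 := fun h => hxy (hD x mx y my h)
  have nxz : x.1 ≠ z.1 := fun h => hxz (hD x mx z mz h)
  have nyz : y.1 ≠ z.1 := fun h => hyz (hD y my z mz h)
  have main : ∀ u v w : ℝ × ℝ, u ∈ P → v ∈ P → w ∈ P → (u = x ∨ u = y ∨ u = z) →
      (v = x ∨ v = y ∨ v = z) → (w = x ∨ w = y ∨ w = z) → u.1 < v.1 → v.1 < w.1 →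
      (∀ p, (p = x ∨ p = y ∨ p = z) → (p = u ∨ p = v ∨ p = w)) →
      ∃ a ∈ P, ∃ m ∈ P, ∃ b ∈ P, a.1 < m.1 ∧ m.1 < b.1 ∧ Sbtw ℝ a m b ∧
        ∀ p, p ∈ ({x, y, z} : Finset (ℝ × ℝ)) ↔ p = a ∨ p = m ∨ p = b := by
    intro u v w mu mv mw hu hv hw l1 l2 hall
    refine ⟨u, mu, v, mv, w, mw, l1, l2, sbtw_of_collinear (hcol' u v w hu hv hw) l1 l2, ?_⟩
    intro p
    simp only [Finset.mem_insert, Finset.mem_singleton]
    refine ⟨hall p, ?_⟩
    rintro (rfl | rfl | rfl) <;> assumption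
  rcases lt_or_gt_of_ne nxy with h1 | h1 <;> rcases lt_or_gt_of_ne nxz with h2 | h2 <;>
    rcases lt_or_gt_of_ne nyz with h3 | h3
  · exact main x y z mx my mz (by tauto) (by tauto) (by tauto) h1 h3 (by tauto)
  · exact main x z y mx mz my (by tauto) (by tauto) (by tauto) h2 h3 (by tauto)
  · linarith
  · exact main z x y mz mx my (by tauto) (by tauto) (by tauto) h2 h1 (by tauto)
  · exact main y x z my mx mz (by tauto) (by tauto) (by tauto) h1 h2 (by tauto)
  · linarith
  · exact main y z x my mz mx (by tauto) (by tauto) (by tauto) h3 h2 (by tauto)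
  · exact main z y x mz my mx (by tauto) (by tauto) (by tauto) h3 h1 (by tauto)

/-- the number of collinear triples is at most the number of right edges -/
theorem card_triples_le (hP : NoFourCollinear P) (hD : DistX P) :
    (collinearTriples P).card ≤ (ER P).card := by
  classical
  have hex : ∀ e ∈ ER P, ∃ a ∈ P, Sbtw ℝ a e.1 e.2 := fun e he => (mem_ER.mp he).2.2.2
  choose! g hg1 hg2 using hex
  have hsub : collinearTriples P ⊆ (ER P).image (fun e => ({g e, e.1, e.2} : Finset (ℝ × ℝ))) := by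
    intro S hS
    obtain ⟨a, ma, z, mz, b, mb, l1, l2, hs, hall⟩ := triple_sorted hD hS
    have he : (z, b) ∈ ER P := mem_ER.mpr ⟨mz, mb, l2, a, ma, hs⟩
    rw [Finset.mem_image]
    refine ⟨(z, b), he, ?_⟩
    have hga : g (z, b) = a := by
      by_contra hne
      obtain ⟨f1, f2⟩ := sbtw_facts (hg2 _ he) l2
      obtain ⟨f1', f2'⟩ := sbtw_facts hs l2
      simp only at f1 f2
      apply four_false hP (hg1 _ he) ma mz mb hne ?_ ?_ ?_ ?_ ?_ l2 f2 f2' ?_ ?_
      · intro heq; rw [heq] at f1; linarith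
      · intro heq; rw [heq] at f1; linarith
      · rintro rfl; linarith
      · rintro rfl; linarith
      · rintro rfl; linarith
      · unfold ori; ring
      · unfold ori; ring
    ext x
    rw [hall x, hga]
    simp
  exact (Finset.card_le_card hsub).trans Finset.card_image_le

end Pool.Agent.Helper35.Upper
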