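import Mathlib
import Pool.Agent.Helper35.V5

set_option autoImplicit false
set_option linter.unusedSectionVars false

open Filter

namespace Pool.Agent.Helper35.Upper

open Pool.Agent.CollTriples Pool.Agent.Helper35.Coll

/-- reflection in the first axis -/
noncomputable def rfx : (ℝ × ℝ) ≃ᵃ[ℝ] (ℝ × ℝ) :=
  ((LinearEquiv.refl ℝ ℝ).prodCongr (LinearEquiv.neg ℝ)).toAffineEquiv

lemma rfx_apply (p : ℝ × ℝ) : rfx p = (p.1, -p.2) := rfl

lemma rfx_rfx (p : ℝ × ℝ) : rfx (rfx p) = p := by
  rw [rfx_apply, rfx_apply, neg_neg]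

/-- reflected edge -/
noncomputable def rfe (e : (ℝ × ℝ) × (ℝ × ℝ)) : (ℝ × ℝ) × (ℝ × ℝ) := (rfx e.1, rfx e.2)

lemma rfe_rfe (e : (ℝ × ℝ) × (ℝ × ℝ)) : rfe (rfe e) = e := by
  unfold rfe
  simp only [rfx_rfx]

lemma sl_rfe (e : (ℝ × ℝ) × (ℝ × ℝ)) : sl (rfe e) = - sl e := by
  unfold sl rfe slp
  simp only [rfx_apply]
  rw [← neg_div]
  congr 1
  ring

variable {P : Finset (ℝ × ℝ)}

open Classical in
lemma mem_ER_rfe {e : (ℝ × ℝ) × (ℝ × ℝ)} (h : e ∈ ER P) : rfe e ∈ ER (P.image rfx) := by
  obtain ⟨h1, h2, h3, a, ha, h4⟩ := mem_ER.mp h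
  refine mem_ER.mpr ⟨Finset.mem_image_of_mem _ h1, Finset.mem_image_of_mem _ h2, h3, rfx a,
    Finset.mem_image_of_mem _ ha, ?_⟩
  exact (rfx.sbtw_map_iff).mpr h4

open Classical in
lemma image_rfx_image : (P.image rfx).image rfx = P := by
  rw [Finset.image_image]
  have : (rfx : ℝ × ℝ → ℝ × ℝ) ∘ rfx = id := by
    funext p
    exact rfx_rfx p
  rw [this, Finset.image_id]

open Classical in
theorem card_ER_le (hP : NoFourCollinear P) (hN : ¬ HasSelfIntersectingPath P) (hD : DistX P) :
    (ER P).card ≤ P.card + (WW (ER P)).card + (WW (ER (P.image rfx))).card := by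
  have hS := edgeSys hP hN
  set A := (ER P).filter (fun e => ¬ hasnz (ER P) e) with hA
  set B := (ER P).filter (fun e => hasnz (ER P) e ∧ (nz (ER P) e).2.1 < e.2.1) with hB
  have hcover : ER P ⊆ A ∪ WW (ER P) ∪ B := by
    intro e he
    rw [Finset.mem_union, Finset.mem_union]
    by_cases h : hasnz (ER P) e
    · obtain ⟨z1, z2, z3⟩ := nz_spec h
      rcases lt_trichotomy e.2.1 (nz (ER P) e).2.1 with hlt | heq | hgt
      · exact Or.inl (Or.inr ((mem_WW _).mpr ⟨he, h, hlt⟩))
      · exfalso
        have := hD _ (hS.right_mem e he) _ (hS.right_mem _ z1) heq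
        have h2 : nz (ER P) e = e := Prod.ext z2 this.symm
        rw [h2] at z3
        exact lt_irrefl _ z3
      · exact Or.inr (Finset.mem_filter.mpr ⟨he, h, hgt⟩)
    · exact Or.inl (Or.inl (Finset.mem_filter.mpr ⟨he, h⟩))
  have cA : A.card ≤ P.card := by
    apply card_top hS.inj_left P hS.left_mem
    intro e he
    rw [hA, Finset.mem_filter] at he
    exact he
  have cB : B.card ≤ (WW (ER (P.image rfx))).card := by
    apply Finset.card_le_card_of_injOn (fun e => rfe (nz (ER P) e))
    · intro e he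
      rw [Finset.mem_coe, hB, Finset.mem_filter] at he
      obtain ⟨heE, hz, hlt⟩ := he
      obtain ⟨z1, z2, z3⟩ := nz_spec hz
      have m1 := mem_ER_rfe z1
      have m2 := mem_ER_rfe heE
      have hab : rfe e ∈ above (ER (P.image rfx)) Prod.fst sl (rfe (nz (ER P) e)) := by
        rw [mem_above]
        refine ⟨m2, ?_, ?_⟩
        · change rfx e.1 = rfx (nz (ER P) e).1
          rw [z2]
        · rw [sl_rfe, sl_rfe]; linarith
      have hhas : hasnz (ER (P.image rfx)) (rfe (nz (ER P) e)) := ⟨_, hab⟩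
      obtain ⟨w1, w2, w3⟩ := nz_spec hhas
      have w4 := nxt_le hhas hab
      set h' := nz (ER (P.image rfx)) (rfe (nz (ER P) e)) with hh'
      have w4' : sl h' ≤ sl (rfe e) := w4
      have hmem : rfe h' ∈ ER P := by
        have := mem_ER_rfe w1
        rwa [image_rfx_image] at this
      have e1 : (rfe h').1 = e.1 := by
        change rfx h'.1 = e.1
        rw [w2]
        change rfx (rfx (nz (ER P) e).1) = e.1
        rw [rfx_rfx, z2]
      have k1 : sl (rfe h') < sl (nz (ER P) e) := by
        rw [sl_rfe] at w3 ⊢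
        linarith
      have k2 : sl e ≤ sl (rfe h') := by
        rw [sl_rfe] at w4' ⊢
        linarith
      have k3 : sl e = sl (rfe h') := by
        apply le_antisymm k2
        by_contra hcon
        push Not at hcon
        have := nxt_le hz ((mem_above _ _ _).mpr ⟨hmem, e1, hcon⟩)
        have k4 : sl (nz (ER P) e) ≤ sl (rfe h') := this
        linarith
      have k5 : e = rfe h' := hS.inj_left e heE _ hmem e1.symm k3
      have k6 : h' = rfe e := by rw [k5, rfe_rfe]
      rw [Finset.mem_coe]
      refine (mem_WW _).mpr ⟨m1, hhas, ?_⟩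
      rw [← hh', k6]
      exact hlt
    · intro e he e' he' heq
      rw [Finset.mem_coe, hB, Finset.mem_filter] at he he'
      have h1 : nz (ER P) e = nz (ER P) e' := by
        have := congrArg rfe heq
        simp only [rfe_rfe] at this
        exact this
      exact nxt_inj hS.inj_left he.1 he'.1 he.2.1 he'.2.1 h1
  calc (ER P).card ≤ (A ∪ WW (ER P) ∪ B).card := Finset.card_le_card hcover
    _ ≤ (A ∪ WW (ER P)).card + B.card := Finset.card_union_le _ _
    _ ≤ A.card + (WW (ER P)).card + B.card := by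
        have := Finset.card_union_le A (WW (ER P))
        omega
    _ ≤ _ := by omega

lemma WW_card_le (hP : NoFourCollinear P) (hN : ¬ HasSelfIntersectingPath P) :
    ((WW (ER P)).card : ℝ) ≤ P.card + 5 * (P.card * Real.log P.card) := by
  have h1 := (edgeSys hP hN).WW_bound
  have h2 : 0 ≤ (P.card : ℝ) * Real.log P.card :=
    mul_nonneg (by positivity) (log_natCast_nonneg _)
  have h4 : 1 ≤ Real.log 4 := by
    have : Real.log 4 = 2 * Real.log 2 := by
      rw [show (4 : ℝ) = 2 ^ 2 by norm_num, Real.log_pow]; norm_num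
    have h5 := Real.log_two_gt_d9
    linarith
  by_contra hcon
  push Not at hcon
  have h3 : ((WW (ER P)).card : ℝ) - P.card ≤ (((WW (ER P)).card : ℝ) - P.card) * Real.log 4 :=
    le_mul_of_one_le_right (by linarith) h4
  linarith

open Classical in
theorem triples_le_of_distX (hP : NoFourCollinear P) (hN : ¬ HasSelfIntersectingPath P) (hD : DistX P) :
    ((collinearTriples P).card : ℝ) ≤ 3 * P.card + 10 * (P.card * Real.log P.card) := by
  have h1 := card_triples_le hP hD
  have h2 := card_ER_le hP hN hD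
  have h3 := WW_card_le hP hN
  have h4 := WW_card_le (P := P.image rfx) (noFour_image rfx hP) (noPath_image rfx hN)
  rw [Finset.card_image_of_injective _ rfx.injective] at h4
  have h5 : ((collinearTriples P).card : ℝ) ≤
      P.card + (WW (ER P)).card + (WW (ER (P.image rfx))).card := by
    exact_mod_cast h1.trans h2
  linarith

/-- shear -/
noncomputable def shr (s : ℝ) : (ℝ × ℝ) ≃ᵃ[ℝ] (ℝ × ℝ) :=
  LinearEquiv.toAffineEquiv
    { toFun := fun p => (p.1 + s * p.2, p.2)
      invFun := fun p => (p.1 - s * p.2, p.2)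
      map_add' := fun p q => by
        ext
        · simp only [Prod.fst_add, Prod.snd_add]; ring
        · simp only [Prod.snd_add]
      map_smul' := fun c p => by
        ext
        · simp only [Prod.smul_fst, Prod.smul_snd, smul_eq_mul, RingHom.id_apply]; ring
        · simp only [Prod.smul_snd, RingHom.id_apply]
      left_inv := fun p => by
        ext
        · simp only; ring
        · simp only
      right_inv := fun p => by
        ext
        · simp only; ring
        · simp only }

lemma shr_apply (s : ℝ) (p : ℝ × ℝ) : shr s p = (p.1 + s * p.2, p.2) := rfl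

open Classical in
lemma exists_shear (P : Finset (ℝ × ℝ)) : ∃ s : ℝ, DistX (P.image (shr s)) := by
  obtain ⟨s, hs⟩ := Infinite.exists_notMem_finset
    ((P ×ˢ P).image (fun t : (ℝ × ℝ) × (ℝ × ℝ) => (t.2.1 - t.1.1) / (t.1.2 - t.2.2)))
  refine ⟨s, ?_⟩
  intro p hp q hq h
  rw [Finset.mem_image] at hp hq
  obtain ⟨a, ha, rfl⟩ := hp
  obtain ⟨b, hb, rfl⟩ := hq
  rw [shr_apply, shr_apply] at h
  simp only at h
  by_cases h2 : a.2 = b.2
  · rw [h2] at h
    have : a = b := Prod.ext (by linarith) h2
    rw [this]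
  · exfalso
    apply hs
    rw [Finset.mem_image]
    refine ⟨(a, b), Finset.mem_product.mpr ⟨ha, hb⟩, ?_⟩
    simp only
    rw [div_eq_iff (sub_ne_zero.mpr h2)]
    linarith

/-- the upper bound for the number of collinear triples -/
theorem triples_le (hP : NoFourCollinear P) (hN : ¬ HasSelfIntersectingPath P) :
    ((collinearTriples P).card : ℝ) ≤ 3 * P.card + 10 * (P.card * Real.log P.card) := by
  classical
  obtain ⟨s, hs⟩ := exists_shear P
  have h1 := triples_le_of_distX (noFour_image (shr s) hP) (noPath_image (shr s) hN) hs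
  rw [Finset.card_image_of_injective _ (shr s).injective] at h1
  have h2 : ((collinearTriples P).card : ℝ) ≤ (collinearTriples (P.image (shr s))).card := by
    exact_mod_cast card_triples_image (shr s) P
  linarith

/-- the upper bound for `f` -/
theorem f_le (n : ℕ) : (f n : ℝ) ≤ 3 * n + 10 * (n * Real.log n) + 1 := by
  have hnn : 0 ≤ 3 * (n : ℝ) + 10 * (n * Real.log n) := by
    have := mul_nonneg (Nat.cast_nonneg (α := ℝ) n) (log_natCast_nonneg n)
    positivity
  have h1 : f n ≤ ⌊3 * (n : ℝ) + 10 * (n * Real.log n)⌋₊ + 1 := by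
    apply Nat.sInf_le
    intro P hPn hP hm
    by_contra hN
    have h2 := triples_le hP hN
    rw [hPn] at h2
    have h3 : (collinearTriples P).card ≤ ⌊3 * (n : ℝ) + 10 * (n * Real.log n)⌋₊ := Nat.le_floor h2
    omega
  have h2 : (f n : ℝ) ≤ (⌊3 * (n : ℝ) + 10 * (n * Real.log n)⌋₊ : ℝ) + 1 := by exact_mod_cast h1
  have h3 := Nat.floor_le hnn
  linarith

end Pool.Agent.Helper35.Upper
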